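import Mathlib

/-!
# Isolated solutions of k-CNFs

The satisfiability coding lemma of Paturi, Pudlák and Zane: a set of `m`-bit strings defined by
constraints on at most `k` bits has at most `2 ^ (m - j / k)` elements which have at least `j`
isolated directions. Consequence: all but few elements lie in `a`-dimensional subcubes of the set.
-/

set_option autoImplicit false

namespace Pool.Agent.H96.Ppz

open Finset

/-- A set `S` of strings of `m` bits is given by constraints on at most `k` bits each (by a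
`k`-CNF): every string outside `S` has a set of at most `k` bits which shows that it is outside. -/
def KCnf (k : ℕ) {m : ℕ} (S : Set (Fin m → Bool)) : Prop :=
  ∀ y, y ∉ S → ∃ A : Finset (Fin m), A.card ≤ k ∧ ∀ z : Fin m → Bool, (∀ i ∈ A, z i = y i) → z ∉ S

variable {m : ℕ}

/-- flip one bit -/
def flip (z : Fin m → Bool) (i : Fin m) : Fin m → Bool := Function.update z i (!z i)

lemma flip_self (z : Fin m → Bool) (i : Fin m) : flip z i i = !z i := by simp [flip]

lemma flip_ne (z : Fin m → Bool) {i j : Fin m} (h : j ≠ i) : flip z i j = z j := by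
  simp [flip, Function.update_of_ne h]

/-- The bit `i` of `z` is determined by the earlier ones. -/
def Forced (S : Set (Fin m → Bool)) (π : Equiv.Perm (Fin m)) (z : Fin m → Bool) (i : Fin m) :
    Prop :=
  ∀ y ∈ S, (∀ j, π j < π i → y j = z j) → y i = z i

open Classical in
/-- number of forced bits -/
noncomputable def nf (S : Set (Fin m → Bool)) (π : Equiv.Perm (Fin m)) (z : Fin m → Bool) : ℕ :=
  (univ.filter (fun i => Forced S π z i)).card

open Classical in
/-- Kraft inequality. -/
lemma kraft (S : Set (Fin m → Bool)) (π : Equiv.Perm (Fin m)) :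
    ∑ z ∈ univ.filter (fun z => z ∈ S), 2 ^ nf S π z ≤ 2 ^ m := by
  set C : (Fin m → Bool) → Finset (Fin m → Bool) := fun z =>
    Fintype.piFinset (fun i => if Forced S π z i then (univ : Finset Bool) else {z i}) with hC
  have hcard : ∀ z, (C z).card = 2 ^ nf S π z := by
    intro z
    simp only [hC, Fintype.card_piFinset, nf]
    have : ∀ i, (if Forced S π z i then (univ : Finset Bool) else {z i}).card =
        if Forced S π z i then 2 else 1 := by
      intro i; split_ifs <;> simp
    simp only [this]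
    rw [Finset.prod_ite]
    simp
  have hdisj : ∀ z ∈ univ.filter (fun z => z ∈ S), ∀ z' ∈ univ.filter (fun z => z ∈ S), z ≠ z' →
      Disjoint (C z) (C z') := by
    intro z hz z' hz' hne
    have hzS := (Finset.mem_filter.1 hz).2
    have hzS' := (Finset.mem_filter.1 hz').2
    rw [Finset.disjoint_left]
    intro w hw hw'
    have hne' : (univ.filter (fun i => z i ≠ z' i)).Nonempty := by
      obtain ⟨i, hi⟩ := Function.ne_iff.1 hne
      exact ⟨i, by simp [hi]⟩
    obtain ⟨i, hi, hmin⟩ := Finset.exists_min_image _ (fun i => π i) hne'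
    have hi' : z i ≠ z' i := (Finset.mem_filter.1 hi).2
    have hpre : ∀ j, π j < π i → z j = z' j := by
      intro j hj
      by_contra hc
      exact absurd (hmin j (by simp [hc])) (not_le.2 hj)
    simp only [hC, Fintype.mem_piFinset] at hw hw'
    have h1 := hw i
    have h2 := hw' i
    by_cases f1 : Forced S π z i
    · exact hi' (f1 z' hzS' (fun j hj => (hpre j hj).symm)).symm
    · by_cases f2 : Forced S π z' i
      · exact hi' (f2 z hzS hpre)
      · rw [if_neg f1, Finset.mem_singleton] at h1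
        rw [if_neg f2, Finset.mem_singleton] at h2
        exact hi' (h1.symm.trans h2)
  calc ∑ z ∈ univ.filter (fun z => z ∈ S), 2 ^ nf S π z
      = ∑ z ∈ univ.filter (fun z => z ∈ S), (C z).card := by
        refine Finset.sum_congr rfl fun z _ => (hcard z).symm
    _ = ((univ.filter (fun z => z ∈ S)).biUnion C).card := (Finset.card_biUnion hdisj).symm
    _ ≤ (univ : Finset (Fin m → Bool)).card := Finset.card_le_univ _
    _ = 2 ^ m := by simp

open Classical in
/-- In many orders a given element of `A` is the last one. -/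
lemma perm_last (A : Finset (Fin m)) {i : Fin m} (hi : i ∈ A) :
    (Fintype.card (Equiv.Perm (Fin m))) ≤
      A.card * (univ.filter (fun π : Equiv.Perm (Fin m) => ∀ j ∈ A, π j ≤ π i)).card := by
  have h1 : ∀ j ∈ A, (univ.filter (fun π : Equiv.Perm (Fin m) => ∀ l ∈ A, π l ≤ π j)).card ≤
      (univ.filter (fun π : Equiv.Perm (Fin m) => ∀ l ∈ A, π l ≤ π i)).card := by
    intro j hj
    apply Finset.card_le_card_of_injOn (fun π => (Equiv.swap i j).trans π)
    · intro π hπ
      have hπ' : ∀ l ∈ A, π l ≤ π j := (Finset.mem_filter.1 hπ).2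
      refine Finset.mem_coe.2 (Finset.mem_filter.2 ⟨Finset.mem_univ _, ?_⟩)
      intro l hl
      simp only [Equiv.trans_apply, Equiv.swap_apply_left]
      apply hπ'
      by_cases hli : l = i
      · rw [hli, Equiv.swap_apply_left]; exact hj
      · by_cases hlj : l = j
        · rw [hlj, Equiv.swap_apply_right]; exact hi
        · rw [Equiv.swap_apply_of_ne_of_ne hli hlj]; exact hl
    · intro π _ π' _ h
      have h' : (Equiv.swap i j).trans π = (Equiv.swap i j).trans π' := h
      ext l
      have := Equiv.congr_fun h' (Equiv.swap i j l)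
      simp only [Equiv.trans_apply, Equiv.swap_apply_self] at this
      exact congrArg Fin.val this
  have h2 : (univ : Finset (Equiv.Perm (Fin m))) ⊆
      A.biUnion (fun j => univ.filter (fun π : Equiv.Perm (Fin m) => ∀ l ∈ A, π l ≤ π j)) := by
    intro π _
    obtain ⟨j, hj, hmax⟩ := Finset.exists_max_image A (fun l => π l) ⟨i, hi⟩
    exact Finset.mem_biUnion.2 ⟨j, hj, Finset.mem_filter.2 ⟨Finset.mem_univ _, hmax⟩⟩
  calc Fintype.card (Equiv.Perm (Fin m)) = (univ : Finset (Equiv.Perm (Fin m))).card := rfl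
    _ ≤ _ := Finset.card_le_card h2
    _ ≤ ∑ j ∈ A, (univ.filter (fun π : Equiv.Perm (Fin m) => ∀ l ∈ A, π l ≤ π j)).card :=
        Finset.card_biUnion_le
    _ ≤ ∑ _j ∈ A, (univ.filter (fun π : Equiv.Perm (Fin m) => ∀ l ∈ A, π l ≤ π i)).card :=
        Finset.sum_le_sum h1
    _ = _ := by rw [Finset.sum_const, smul_eq_mul]

open Classical in
/-- An isolated direction is forced in many orders. -/
lemma forced_many {k : ℕ} {S : Set (Fin m → Bool)} (hS : KCnf k S) {z : Fin m → Bool}
    (hz : z ∈ S) {i : Fin m} (hi : flip z i ∉ S) :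
    Fintype.card (Equiv.Perm (Fin m)) ≤
      k * (univ.filter (fun π : Equiv.Perm (Fin m) => Forced S π z i)).card := by
  obtain ⟨A, hA, hcert⟩ := hS _ hi
  have hiA : i ∈ A := by
    by_contra hiA
    apply hcert z _ hz
    intro j hj
    rw [flip_ne]
    rintro rfl
    exact hiA hj
  refine (perm_last A hiA).trans (Nat.mul_le_mul hA (Finset.card_le_card ?_))
  intro π hπ
  have hπ' : ∀ l ∈ A, π l ≤ π i := (Finset.mem_filter.1 hπ).2
  refine Finset.mem_filter.2 ⟨Finset.mem_univ _, ?_⟩
  intro y hy hpre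
  by_contra hne
  apply hcert y _ hy
  intro j hj
  by_cases hji : j = i
  · subst hji
    rw [flip_self]
    cases h1 : y j <;> cases h2 : z j <;> simp_all
  · rw [flip_ne _ hji]
    apply hpre
    exact lt_of_le_of_ne (hπ' j hj) (fun h => hji (π.injective h))

open Classical in
/-- number of isolated directions -/
noncomputable def iso (S : Set (Fin m → Bool)) (z : Fin m → Bool) : ℕ :=
  (univ.filter (fun i => flip z i ∉ S)).card

open Classical in
lemma avg_forced {k : ℕ} {S : Set (Fin m → Bool)} (hS : KCnf k S) {z : Fin m → Bool}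
    (hz : z ∈ S) :
    iso S z * Fintype.card (Equiv.Perm (Fin m)) ≤ k * ∑ π : Equiv.Perm (Fin m), nf S π z := by
  have h1 : ∑ π : Equiv.Perm (Fin m), nf S π z =
      ∑ i : Fin m, (univ.filter (fun π : Equiv.Perm (Fin m) => Forced S π z i)).card := by
    simp only [nf, Finset.card_filter]
    rw [Finset.sum_comm]
  rw [h1, Finset.mul_sum]
  calc iso S z * Fintype.card (Equiv.Perm (Fin m))
      = ∑ _i ∈ univ.filter (fun i => flip z i ∉ S), Fintype.card (Equiv.Perm (Fin m)) := by
        rw [Finset.sum_const, smul_eq_mul]; rfl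
    _ ≤ ∑ i ∈ univ.filter (fun i => flip z i ∉ S),
          k * (univ.filter (fun π : Equiv.Perm (Fin m) => Forced S π z i)).card :=
        Finset.sum_le_sum fun i hi => forced_many hS hz (Finset.mem_filter.1 hi).2
    _ ≤ _ := Finset.sum_le_sum_of_subset (Finset.subset_univ _)

/-- Jensen -/
lemma jensen_pow {P : Type*} [Fintype P] [Nonempty P] (F : P → ℕ) {s : ℝ}
    (hs : s * Fintype.card P ≤ ∑ p, (F p : ℝ)) :
    (Fintype.card P : ℝ) * (2 : ℝ) ^ s ≤ ∑ p, (2 : ℝ) ^ (F p) := by
  have hN : (0 : ℝ) < Fintype.card P := by exact_mod_cast Fintype.card_pos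
  have hc := convexOn_exp.map_sum_le (t := (univ : Finset P)) (w := fun _ => 1 / (Fintype.card P : ℝ))
    (p := fun p => (F p : ℝ) * Real.log 2) (fun _ _ => by positivity)
    (by rw [Finset.sum_const, Finset.card_univ, nsmul_eq_mul]; field_simp) (fun _ _ => Set.mem_univ _)
  simp only [smul_eq_mul] at hc
  rw [← Finset.mul_sum, ← Finset.mul_sum, ← Finset.sum_mul] at hc
  have h2 : ∀ p, Real.exp ((F p : ℝ) * Real.log 2) = (2 : ℝ) ^ (F p) := by
    intro p
    rw [mul_comm, Real.exp_mul, Real.exp_log (by norm_num), Real.rpow_natCast]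
  simp only [h2] at hc
  have h3 : (2 : ℝ) ^ s ≤ Real.exp (1 / (Fintype.card P : ℝ) * ((∑ p, (F p : ℝ)) * Real.log 2)) := by
    rw [Real.rpow_def_of_pos (by norm_num)]
    apply Real.exp_le_exp.2
    have hl : 0 ≤ Real.log 2 := Real.log_nonneg (by norm_num)
    have : s ≤ 1 / (Fintype.card P : ℝ) * ∑ p, (F p : ℝ) := by
      rw [one_div, inv_mul_eq_div, le_div_iff₀ hN]; exact hs
    calc Real.log 2 * s ≤ Real.log 2 * (1 / (Fintype.card P : ℝ) * ∑ p, (F p : ℝ)) :=
          mul_le_mul_of_nonneg_left this hl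
      _ = _ := by ring
  have h4 := h3.trans hc
  rw [one_div, inv_mul_eq_div, le_div_iff₀ hN] at h4
  linarith

open Classical in
/-- **The satisfiability coding lemma.** -/
theorem card_iso {k : ℕ} (hk : 1 ≤ k) {S : Set (Fin m → Bool)} (hS : KCnf k S) (j : ℕ) :
    ((univ.filter (fun z => z ∈ S ∧ j ≤ iso S z)).card : ℝ) ≤ (2 : ℝ) ^ ((m : ℝ) - j / k) := by
  have hk0 : (0 : ℝ) < k := by exact_mod_cast hk
  have hN : (0 : ℝ) < Fintype.card (Equiv.Perm (Fin m)) := by exact_mod_cast Fintype.card_pos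
  have h1 : ∀ z ∈ univ.filter (fun z => z ∈ S ∧ j ≤ iso S z),
      (Fintype.card (Equiv.Perm (Fin m)) : ℝ) * (2 : ℝ) ^ ((j : ℝ) / k) ≤
        ∑ π : Equiv.Perm (Fin m), (2 : ℝ) ^ nf S π z := by
    intro z hz
    obtain ⟨hzS, hj⟩ := (Finset.mem_filter.1 hz).2
    apply jensen_pow
    have h2 := avg_forced hS hzS
    have h3 : (j : ℝ) * Fintype.card (Equiv.Perm (Fin m)) ≤
        k * ∑ π : Equiv.Perm (Fin m), (nf S π z : ℝ) := by
      have : j * Fintype.card (Equiv.Perm (Fin m)) ≤ k * ∑ π : Equiv.Perm (Fin m), nf S π z :=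
        (Nat.mul_le_mul_right _ hj).trans h2
      exact_mod_cast this
    rw [div_mul_eq_mul_div, div_le_iff₀ hk0]
    linarith
  have h4 := Finset.sum_le_sum h1
  rw [Finset.sum_const, nsmul_eq_mul, Finset.sum_comm] at h4
  have h5 : ∀ π ∈ (univ : Finset (Equiv.Perm (Fin m))),
      ∑ z ∈ univ.filter (fun z => z ∈ S ∧ j ≤ iso S z), (2 : ℝ) ^ nf S π z ≤ 2 ^ m := by
    intro π _
    have h6 : ∑ z ∈ univ.filter (fun z => z ∈ S ∧ j ≤ iso S z), 2 ^ nf S π z ≤ 2 ^ m := by
      refine le_trans (Finset.sum_le_sum_of_subset ?_) (kraft S π)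
      intro z hz
      exact Finset.mem_filter.2 ⟨Finset.mem_univ _, (Finset.mem_filter.1 hz).2.1⟩
    exact_mod_cast h6
  have h7 := Finset.sum_le_sum h5
  rw [Finset.sum_const, nsmul_eq_mul, Finset.card_univ] at h7
  have h8 := h4.trans h7
  have h9 : ((univ.filter (fun z => z ∈ S ∧ j ≤ iso S z)).card : ℝ) * (2 : ℝ) ^ ((j : ℝ) / k) ≤
      2 ^ m := by
    have : (Fintype.card (Equiv.Perm (Fin m)) : ℝ) *
        (((univ.filter (fun z => z ∈ S ∧ j ≤ iso S z)).card : ℝ) * (2 : ℝ) ^ ((j : ℝ) / k)) ≤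
        (Fintype.card (Equiv.Perm (Fin m)) : ℝ) * 2 ^ m := by linarith
    exact le_of_mul_le_mul_left this hN
  rw [Real.rpow_sub (by norm_num), Real.rpow_natCast, le_div_iff₀ (by positivity)]
  exact h9

/-- The points all of whose modifications on `A` are in `S`. -/
def cyl (A : Finset (Fin m)) (S : Set (Fin m → Bool)) : Set (Fin m → Bool) :=
  {z | ∀ y : Fin m → Bool, (∀ i, i ∉ A → y i = z i) → y ∈ S}

lemma cyl_sub {A : Finset (Fin m)} {S : Set (Fin m → Bool)} {z : Fin m → Bool}
    (h : z ∈ cyl A S) : z ∈ S := h z (fun _ _ => rfl)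

lemma cyl_mono {A B : Finset (Fin m)} (hAB : A ⊆ B) {S : Set (Fin m → Bool)} {z : Fin m → Bool}
    (h : z ∈ cyl B S) : z ∈ cyl A S := fun y hy => h y fun i hi => hy i fun hA => hi (hAB hA)

lemma kcnf_cyl {k : ℕ} {S : Set (Fin m → Bool)} (hS : KCnf k S) (A : Finset (Fin m)) :
    KCnf k (cyl A S) := by
  classical
  intro y hy
  simp only [cyl, Set.mem_setOf_eq] at hy
  push Not at hy
  obtain ⟨y', hy', hyS⟩ := hy
  obtain ⟨B, hB, hcert⟩ := hS y' hyS
  refine ⟨B \ A, (Finset.card_le_card Finset.sdiff_subset).trans hB, ?_⟩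
  intro z hz hzc
  refine hcert (fun i => if i ∈ A then y' i else z i) ?_ (hzc _ fun i hi => by simp [hi])
  intro i hi
  by_cases hiA : i ∈ A
  · simp [hiA]
  · simp only [hiA, if_false]
    rw [hz i (Finset.mem_sdiff.2 ⟨hi, hiA⟩), hy' i hiA]

open Classical in
/-- Dichotomy: a point of `S` lies in an `a`-dimensional subcube of `S`, or it is isolated in all
directions outside a set of less than `a` directions. -/
lemma dichotomy {a : ℕ} {S : Set (Fin m → Bool)} {z : Fin m → Bool} (hz : z ∈ S) :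
    (∃ A : Finset (Fin m), A.card = a ∧ z ∈ cyl A S) ∨
    (∃ A : Finset (Fin m), A.card < a ∧ z ∈ cyl A S ∧ m - A.card ≤ iso (cyl A S) z) := by
  have hne : (univ.filter (fun A : Finset (Fin m) => z ∈ cyl A S)).Nonempty := by
    refine ⟨∅, Finset.mem_filter.2 ⟨Finset.mem_univ _, ?_⟩⟩
    intro y hy
    have : y = z := funext fun i => hy i (by simp)
    rw [this]; exact hz
  obtain ⟨A, hA, hmax⟩ := Finset.exists_max_image _ Finset.card hne
  have hzA := (Finset.mem_filter.1 hA).2
  by_cases hc : a ≤ A.card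
  · obtain ⟨B, hB, hBc⟩ := Finset.exists_subset_card_eq hc
    exact Or.inl ⟨B, hBc, cyl_mono hB hzA⟩
  · push Not at hc
    refine Or.inr ⟨A, hc, hzA, ?_⟩
    have hsub : univ \ A ⊆ univ.filter (fun i => flip z i ∉ cyl A S) := by
      intro i hi
      have hiA : i ∉ A := (Finset.mem_sdiff.1 hi).2
      refine Finset.mem_filter.2 ⟨Finset.mem_univ _, fun hflip => ?_⟩
      have hins : z ∈ cyl (insert i A) S := by
        intro y hy
        by_cases hyi : y i = z i
        · apply hzA
          intro j hj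
          by_cases hji : j = i
          · rw [hji]; exact hyi
          · exact hy j (by simp [hji, hj])
        · apply hflip
          intro j hj
          by_cases hji : j = i
          · subst hji
            rw [flip_self]
            cases h1 : y j <;> cases h2 : z j <;> simp_all
          · rw [flip_ne _ hji]
            exact hy j (by simp [hji, hj])
      have := hmax _ (Finset.mem_filter.2 ⟨Finset.mem_univ _, hins⟩)
      rw [Finset.card_insert_of_notMem hiA] at this
      omega
    have := Finset.card_le_card hsub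
    rw [Finset.card_sdiff_of_subset (Finset.subset_univ _), Finset.card_univ,
      Fintype.card_fin] at this
    exact this

/-- The number of small subsets. -/
lemma card_small (m b : ℕ) :
    (univ.filter (fun A : Finset (Fin m) => A.card ≤ b)).card ≤ (m + 1) ^ b := by
  classical
  have : (univ.filter (fun A : Finset (Fin m) => A.card ≤ b)) ⊆
      (univ : Finset (Fin b → Option (Fin m))).image
        (fun g => univ.filter (fun i => ∃ j, g j = some i)) := by
    intro A hA
    have hAc := (Finset.mem_filter.1 hA).2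
    refine Finset.mem_image.2 ⟨fun j => if h : j.1 < A.card then
      some ((A.equivFin.symm ⟨j.1, h⟩ : A) : Fin m) else none, Finset.mem_univ _, ?_⟩
    ext i
    simp only [Finset.mem_filter, Finset.mem_univ, true_and]
    constructor
    · rintro ⟨j, hj⟩
      split_ifs at hj with h
      · simp only [Option.some.injEq] at hj
        rw [← hj]
        exact (A.equivFin.symm ⟨j.1, h⟩).2
    · intro hi
      refine ⟨⟨(A.equivFin ⟨i, hi⟩).1, lt_of_lt_of_le (A.equivFin ⟨i, hi⟩).2 hAc⟩, ?_⟩
      simp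
  refine (Finset.card_le_card this).trans (Finset.card_image_le.trans ?_)
  simp

open Classical in
/-- Few elements of a set defined by constraints on `k` bits lie in no `a`-dimensional subcube. -/
theorem card_bad {k a : ℕ} (hk : 1 ≤ k) (ha : 1 ≤ a) {S : Set (Fin m → Bool)} (hS : KCnf k S) :
    ((univ.filter (fun z => z ∈ S ∧ ¬ ∃ A : Finset (Fin m), A.card = a ∧ z ∈ cyl A S)).card : ℝ) ≤
      (m + 1) ^ (a - 1) * 2 ^ (a - 1) * ((2 : ℝ) ^ m) ^ (1 - 1 / (k : ℝ)) := by
  have hk0 : (0 : ℝ) < k := by exact_mod_cast hk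
  have hk1 : (1 : ℝ) ≤ k := by exact_mod_cast hk
  have hsub : univ.filter (fun z => z ∈ S ∧ ¬ ∃ A : Finset (Fin m), A.card = a ∧ z ∈ cyl A S) ⊆
      (univ.filter (fun A : Finset (Fin m) => A.card ≤ a - 1)).biUnion (fun A =>
        univ.filter (fun z => z ∈ cyl A S ∧ m - A.card ≤ iso (cyl A S) z)) := by
    intro z hz
    obtain ⟨hzS, hzn⟩ := (Finset.mem_filter.1 hz).2
    rcases dichotomy (a := a) hzS with h | ⟨A, hA, h1, h2⟩
    · exact absurd h hzn
    · refine Finset.mem_biUnion.2 ⟨A, Finset.mem_filter.2 ⟨Finset.mem_univ _, by omega⟩,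
        Finset.mem_filter.2 ⟨Finset.mem_univ _, h1, h2⟩⟩
  have hb : ∀ A ∈ univ.filter (fun A : Finset (Fin m) => A.card ≤ a - 1),
      ((univ.filter (fun z => z ∈ cyl A S ∧ m - A.card ≤ iso (cyl A S) z)).card : ℝ) ≤
        2 ^ (a - 1) * ((2 : ℝ) ^ m) ^ (1 - 1 / (k : ℝ)) := by
    intro A hA
    have hAc := (Finset.mem_filter.1 hA).2
    refine (card_iso hk (kcnf_cyl hS A) (m - A.card)).trans ?_
    rw [← Real.rpow_natCast (2 : ℝ) (a - 1), ← Real.rpow_natCast (2 : ℝ) m,
      ← Real.rpow_mul (by norm_num), ← Real.rpow_add (by norm_num)]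
    apply Real.rpow_le_rpow_of_exponent_le (by norm_num)
    have h1 : (m : ℝ) - (a - 1 : ℕ) ≤ ((m - A.card : ℕ) : ℝ) := by
      have : m ≤ (m - A.card) + (a - 1) := by omega
      have h2 : (m : ℝ) ≤ ((m - A.card : ℕ) : ℝ) + ((a - 1 : ℕ) : ℝ) := by exact_mod_cast this
      linarith
    have h3 : ((m : ℝ) - (a - 1 : ℕ)) / k ≤ ((m - A.card : ℕ) : ℝ) / k :=
      div_le_div_of_nonneg_right h1 hk0.le
    have h4 : ((a - 1 : ℕ) : ℝ) / k ≤ ((a - 1 : ℕ) : ℝ) := div_le_self (by positivity) hk1
    rw [sub_div] at h3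
    rw [mul_sub, mul_one, mul_one_div]
    linarith
  calc ((univ.filter (fun z => z ∈ S ∧
        ¬ ∃ A : Finset (Fin m), A.card = a ∧ z ∈ cyl A S)).card : ℝ)
      ≤ (((univ.filter (fun A : Finset (Fin m) => A.card ≤ a - 1)).biUnion (fun A =>
        univ.filter (fun z => z ∈ cyl A S ∧ m - A.card ≤ iso (cyl A S) z))).card : ℝ) := by
        exact_mod_cast Finset.card_le_card hsub
    _ ≤ ∑ A ∈ univ.filter (fun A : Finset (Fin m) => A.card ≤ a - 1),
        ((univ.filter (fun z => z ∈ cyl A S ∧ m - A.card ≤ iso (cyl A S) z)).card : ℝ) := by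
        exact_mod_cast Finset.card_biUnion_le
    _ ≤ ∑ _A ∈ univ.filter (fun A : Finset (Fin m) => A.card ≤ a - 1),
        (2 ^ (a - 1) * ((2 : ℝ) ^ m) ^ (1 - 1 / (k : ℝ))) := Finset.sum_le_sum hb
    _ = ((univ.filter (fun A : Finset (Fin m) => A.card ≤ a - 1)).card : ℝ) *
        (2 ^ (a - 1) * ((2 : ℝ) ^ m) ^ (1 - 1 / (k : ℝ))) := by
        rw [Finset.sum_const, nsmul_eq_mul]
    _ ≤ (m + 1) ^ (a - 1) * (2 ^ (a - 1) * ((2 : ℝ) ^ m) ^ (1 - 1 / (k : ℝ))) := by
        apply mul_le_mul_of_nonneg_right _ (by positivity)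
        exact_mod_cast card_small m (a - 1)
    _ = _ := by ring

end Pool.Agent.H96.Ppz
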