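import Mathlib
import Pool.Agent.H96.Ppz

/-!
# Graphs without `K_{r,u}` whose neighbourhoods are unions of few sets given by `k`-CNFs
-/

set_option autoImplicit false

namespace Pool.Agent.H96.Ppz

open Finset

variable {m : ℕ}

lemma card_box (A : Finset (Fin m)) (z : Fin m → Bool) :
    (Fintype.piFinset (fun i => if i ∈ A then (univ : Finset Bool) else {z i})).card =
      2 ^ A.card := by
  rw [Fintype.card_piFinset]
  have : ∀ i, (if i ∈ A then (univ : Finset Bool) else {z i}).card = if i ∈ A then 2 else 1 := by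
    intro i; split_ifs <;> simp
  simp only [this]
  rw [Finset.prod_ite]
  simp

open Classical in
/-- Counting. -/
theorem count {V : Type*} [Fintype V] {k r u a : ℕ} (hk : 1 ≤ k) (ha : 1 ≤ a) (hra : r ≤ 2 ^ a)
    (T : V → Set (Fin m → Bool)) (hT : ∀ x, KCnf k (T x))
    (hfree : ∀ (X : Finset V) (Y : Finset (Fin m → Bool)), X.card = u → Y.card = r →
      (∀ x ∈ X, ∀ y ∈ Y, y ∈ T x) → False) :
    (∑ x, ((univ.filter (fun z => z ∈ T x)).card : ℝ)) ≤
      Fintype.card V * ((m + 1) ^ (a - 1) * 2 ^ (a - 1) * ((2 : ℝ) ^ m) ^ (1 - 1 / (k : ℝ))) +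
        u * (m.choose a) * 2 ^ m := by
  have hpt : ∀ (A : Finset (Fin m)) (z : Fin m → Bool), A.card = a →
      (univ.filter (fun x : V => z ∈ cyl A (T x))).card ≤ u := by
    intro A z hA
    by_contra hcon
    push Not at hcon
    obtain ⟨X, hX, hXc⟩ := Finset.exists_subset_card_eq hcon.le
    have hbox := card_box A z
    rw [hA] at hbox
    obtain ⟨Y, hY, hYc⟩ := Finset.exists_subset_card_eq (hra.trans hbox.symm.le)
    refine hfree X Y hXc hYc fun x hx y hy => ?_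
    have h1 := (Finset.mem_filter.1 (hX hx)).2
    apply h1
    intro i hi
    have := Fintype.mem_piFinset.1 (hY hy) i
    rw [if_neg hi, Finset.mem_singleton] at this
    exact this
  have hx : ∀ x : V, (univ.filter (fun z => z ∈ T x)).card ≤
      (univ.filter (fun z => z ∈ T x ∧
        ¬ ∃ A : Finset (Fin m), A.card = a ∧ z ∈ cyl A (T x))).card +
      ∑ A ∈ (univ : Finset (Fin m)).powersetCard a,
        (univ.filter (fun z => z ∈ cyl A (T x))).card := by
    intro x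
    refine le_trans (Finset.card_le_card (t := (univ.filter (fun z => z ∈ T x ∧
        ¬ ∃ A : Finset (Fin m), A.card = a ∧ z ∈ cyl A (T x))) ∪
        ((univ : Finset (Fin m)).powersetCard a).biUnion
          (fun A => univ.filter (fun z => z ∈ cyl A (T x)))) ?_) ?_
    · intro z hz
      have hzT := (Finset.mem_filter.1 hz).2
      by_cases h : ∃ A : Finset (Fin m), A.card = a ∧ z ∈ cyl A (T x)
      · obtain ⟨A, hA, hzA⟩ := h
        refine Finset.mem_union_right _ (Finset.mem_biUnion.2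
          ⟨A, Finset.mem_powersetCard.2 ⟨Finset.subset_univ _, hA⟩,
            Finset.mem_filter.2 ⟨Finset.mem_univ _, hzA⟩⟩)
      · exact Finset.mem_union_left _ (Finset.mem_filter.2 ⟨Finset.mem_univ _, hzT, h⟩)
    · exact (Finset.card_union_le _ _).trans (Nat.add_le_add_left Finset.card_biUnion_le _)
  have hsum : ∑ x : V, ∑ A ∈ (univ : Finset (Fin m)).powersetCard a,
      (univ.filter (fun z => z ∈ cyl A (T x))).card ≤ u * m.choose a * 2 ^ m := by
    rw [Finset.sum_comm]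
    have h1 : ∀ A ∈ (univ : Finset (Fin m)).powersetCard a,
        ∑ x : V, (univ.filter (fun z => z ∈ cyl A (T x))).card ≤ 2 ^ m * u := by
      intro A hA
      have hAc := (Finset.mem_powersetCard.1 hA).2
      have h2 : ∑ x : V, (univ.filter (fun z => z ∈ cyl A (T x))).card =
          ∑ z : Fin m → Bool, (univ.filter (fun x : V => z ∈ cyl A (T x))).card := by
        simp only [Finset.card_filter]
        rw [Finset.sum_comm]
      rw [h2]
      refine (Finset.sum_le_sum fun z _ => hpt A z hAc).trans ?_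
      rw [Finset.sum_const, smul_eq_mul, Finset.card_univ]
      simp
    refine (Finset.sum_le_sum h1).trans ?_
    rw [Finset.sum_const, smul_eq_mul, Finset.card_powersetCard, Finset.card_univ,
      Fintype.card_fin]
    exact le_of_eq (by ring)
  calc (∑ x, ((univ.filter (fun z => z ∈ T x)).card : ℝ))
      ≤ ∑ x : V, (((univ.filter (fun z => z ∈ T x ∧
        ¬ ∃ A : Finset (Fin m), A.card = a ∧ z ∈ cyl A (T x))).card : ℝ) +
        (∑ A ∈ (univ : Finset (Fin m)).powersetCard a,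
        (univ.filter (fun z => z ∈ cyl A (T x))).card : ℕ)) :=
        Finset.sum_le_sum fun x _ => by exact_mod_cast hx x
    _ = ∑ x : V, ((univ.filter (fun z => z ∈ T x ∧
        ¬ ∃ A : Finset (Fin m), A.card = a ∧ z ∈ cyl A (T x))).card : ℝ) +
        ((∑ x : V, ∑ A ∈ (univ : Finset (Fin m)).powersetCard a,
        (univ.filter (fun z => z ∈ cyl A (T x))).card : ℕ) : ℝ) := by
        rw [Finset.sum_add_distrib, Nat.cast_sum]
    _ ≤ ∑ _x : V, ((m + 1) ^ (a - 1) * 2 ^ (a - 1) * ((2 : ℝ) ^ m) ^ (1 - 1 / (k : ℝ))) +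
        ((u * m.choose a * 2 ^ m : ℕ) : ℝ) :=
        add_le_add (Finset.sum_le_sum fun x _ => card_bad hk ha (hT x))
          (by exact_mod_cast hsum)
    _ = _ := by
        rw [Finset.sum_const, nsmul_eq_mul, Finset.card_univ]
        push_cast
        ring

/-- `S` is a union of at most `L` sets given by `k`-CNFs, that is, `S` is decided by a circuit of
depth three with bottom fan-in `k` and top fan-in `L`. -/
def Depth3 (L k : ℕ) {m : ℕ} (S : Set (Fin m → Bool)) : Prop :=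
  ∃ T : Fin L → Set (Fin m → Bool), (∀ j, KCnf k (T j)) ∧ S = ⋃ j, T j

lemma not_free {V : Type*} (G : SimpleGraph V) {r u : ℕ} (X Y : Finset V) (hX : X.card = u)
    (hY : Y.card = r) (h : ∀ x ∈ X, ∀ y ∈ Y, G.Adj x y) :
    ¬ (completeBipartiteGraph (Fin r) (Fin u)).Free G := by
  rw [SimpleGraph.Free, not_not]
  let eX : Fin u ≃ X := (Fintype.equivFinOfCardEq (by simpa using hX)).symm
  let eY : Fin r ≃ Y := (Fintype.equivFinOfCardEq (by simpa using hY)).symm
  let f : Fin r ⊕ Fin u → V := Sum.elim (fun i => (eY i : V)) (fun j => (eX j : V))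
  refine ⟨⟨⟨f, ?_⟩, ?_⟩⟩
  · intro a b hab
    rcases a with i | i <;> rcases b with j | j
    · simp at hab
    · exact (h _ (eX j).2 _ (eY i).2).symm
    · exact h _ (eX i).2 _ (eY j).2
    · simp at hab
  · intro a b hab
    rcases a with i | i <;> rcases b with j | j
    · have : (eY i : V) = eY j := hab
      rw [eY.injective (Subtype.ext this)]
    · exact absurd (show (eX j : V) = eY i from hab.symm) (G.ne_of_adj (h _ (eX j).2 _ (eY i).2))
    · exact absurd (show (eX i : V) = eY j from hab) (G.ne_of_adj (h _ (eX i).2 _ (eY j).2))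
    · have : (eX i : V) = eX j := hab
      rw [eX.injective (Subtype.ext this)]

/-- The bound for graphs. -/
theorem graph_bound (m k L r u : ℕ) (V : Type) [Fintype V] (lab : V → Fin m → Bool)
    (G : SimpleGraph V) (hk : 1 ≤ k) (hr : 2 ≤ r) (hu : 1 ≤ u) (hlab : Function.Injective lab)
    (hN : ∀ x, Depth3 L k (lab '' G.neighborSet x))
    (hfree : (completeBipartiteGraph (Fin r) (Fin u)).Free G) :
    2 * (Nat.card G.edgeSet : ℝ) ≤
      L * (r * (m + 1) ^ (Nat.clog 2 r - 1) * (Fintype.card V) *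
        ((2 : ℝ) ^ m) ^ (1 - 1 / (k : ℝ)) + u * (m.choose (Nat.clog 2 r)) * 2 ^ m) := by
  classical
  set a := Nat.clog 2 r with ha
  have ha1 : 1 ≤ a := Nat.clog_pos (by norm_num) hr
  have hra : r ≤ 2 ^ a := Nat.le_pow_clog (by norm_num) r
  have har : 2 ^ (a - 1) ≤ r := (Nat.pow_pred_clog_lt_self (by norm_num) hr).le
  choose T hT hTU using hN
  have hcnt : ∀ j : Fin L, (∑ x, ((univ.filter (fun z => z ∈ T x j)).card : ℝ)) ≤
      Fintype.card V * ((m + 1) ^ (a - 1) * 2 ^ (a - 1) * ((2 : ℝ) ^ m) ^ (1 - 1 / (k : ℝ))) +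
        u * (m.choose a) * 2 ^ m := by
    intro j
    apply count hk ha1 hra (fun x => T x j) (fun x => hT x j)
    intro X Y hX hY hXY
    have hsub : ∀ x y, y ∈ T x j → ∃ v, G.Adj x v ∧ lab v = y := by
      intro x y hy
      have : y ∈ lab '' G.neighborSet x := by
        rw [hTU x]; exact Set.mem_iUnion.2 ⟨j, hy⟩
      obtain ⟨v, hv, hvy⟩ := this
      exact ⟨v, hv, hvy⟩
    obtain ⟨x₀, hx₀⟩ : X.Nonempty := Finset.card_pos.1 (by omega)
    have himg : (univ.filter (fun v => lab v ∈ Y)).image lab = Y := by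
      ext y
      simp only [Finset.mem_image, Finset.mem_filter, Finset.mem_univ, true_and]
      constructor
      · rintro ⟨v, hv, rfl⟩; exact hv
      · intro hy
        obtain ⟨v, _, hv⟩ := hsub x₀ y (hXY x₀ hx₀ y hy)
        exact ⟨v, by rw [hv]; exact hy, hv⟩
    have hc : (univ.filter (fun v => lab v ∈ Y)).card = r := by
      rw [← hY, ← himg, Finset.card_image_of_injective _ hlab, himg]
    refine not_free G X (univ.filter (fun v => lab v ∈ Y)) hX hc ?_ hfree
    intro x hx v hv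
    obtain ⟨w, hw, hwv⟩ := hsub x _ (hXY x hx _ (Finset.mem_filter.1 hv).2)
    rw [← hlab hwv]
    exact hw
  have hdeg : 2 * (Nat.card G.edgeSet : ℝ) ≤
      ∑ j : Fin L, ∑ x, ((univ.filter (fun z => z ∈ T x j)).card : ℝ) := by
    have h1 := G.sum_degrees_eq_twice_card_edges
    have h2 : (Nat.card G.edgeSet) = #G.edgeFinset := by
      rw [Nat.card_eq_fintype_card, SimpleGraph.edgeFinset_card]
    have h3 : ∀ x, G.degree x ≤ ∑ j : Fin L, (univ.filter (fun z => z ∈ T x j)).card := by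
      intro x
      rw [← G.card_neighborFinset_eq_degree, ← Finset.card_image_of_injective _ hlab]
      refine le_trans (Finset.card_le_card (t := (univ : Finset (Fin L)).biUnion
        (fun j => univ.filter (fun z => z ∈ T x j))) ?_) Finset.card_biUnion_le
      intro y hy
      obtain ⟨v, hv, rfl⟩ := Finset.mem_image.1 hy
      have : lab v ∈ lab '' G.neighborSet x := ⟨v, by simpa using hv, rfl⟩
      rw [hTU x] at this
      obtain ⟨j, hj⟩ := Set.mem_iUnion.1 this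
      exact Finset.mem_biUnion.2 ⟨j, Finset.mem_univ _,
        Finset.mem_filter.2 ⟨Finset.mem_univ _, hj⟩⟩
    have h4 : 2 * Nat.card G.edgeSet ≤ ∑ j : Fin L, ∑ x, (univ.filter (fun z => z ∈ T x j)).card := by
      rw [h2, ← h1, Finset.sum_comm]
      exact Finset.sum_le_sum fun x _ => h3 x
    exact_mod_cast h4
  refine hdeg.trans ((Finset.sum_le_sum fun j _ => hcnt j).trans ?_)
  rw [Finset.sum_const, nsmul_eq_mul, Finset.card_univ, Fintype.card_fin]
  apply mul_le_mul_of_nonneg_left _ (by positivity)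
  have har' : (2 : ℝ) ^ (a - 1) ≤ r := by exact_mod_cast har
  have hp : (0 : ℝ) ≤ (Fintype.card V) * ((m + 1) ^ (a - 1) * ((2 : ℝ) ^ m) ^ (1 - 1 / (k : ℝ))) := by
    positivity
  have := mul_le_mul_of_nonneg_right har' hp
  linarith

/-- The bound for `n` vertices and `m`-bit names, `2 ^ m ≤ D n`. -/
theorem graph_bound' (n m k L r D : ℕ) (lab : Fin n → Fin m → Bool)
    (G : SimpleGraph (Fin n)) (hk : 1 ≤ k) (hr : 2 ≤ r) (hlab : Function.Injective lab)
    (hD : 2 ^ m ≤ D * n)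
    (hN : ∀ x, Depth3 L k (lab '' G.neighborSet x))
    (hfree : (completeBipartiteGraph (Fin r) (Fin r)).Free G) :
    (Nat.card G.edgeSet : ℝ) ≤
      D * L * r * (m + 1) ^ (Nat.clog 2 r) * (n : ℝ) ^ (2 - 1 / (k : ℝ)) := by
  have hk0 : (0 : ℝ) < k := by exact_mod_cast hk
  have hk1 : (1 : ℝ) ≤ k := by exact_mod_cast hk
  have hpos : 0 < D * n := lt_of_lt_of_le (by positivity) hD
  have hn1 : 1 ≤ n := Nat.pos_of_mul_pos_left hpos
  have hD1 : 1 ≤ D := Nat.pos_of_mul_pos_right hpos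
  have hn1' : (1 : ℝ) ≤ n := by exact_mod_cast hn1
  have hD1' : (1 : ℝ) ≤ D := by exact_mod_cast hD1
  have h := graph_bound m k L r r (Fin n) lab G hk hr (by omega) hlab hN hfree
  rw [Fintype.card_fin] at h
  set a := Nat.clog 2 r with ha
  have hinv : 1 / (k : ℝ) ≤ 1 := by rw [div_le_one hk0]; exact hk1
  have hinv0 : 0 ≤ 1 / (k : ℝ) := by positivity
  have hDn : ((2 : ℝ) ^ m) ≤ D * n := by exact_mod_cast hD
  have e1 : ((2 : ℝ) ^ m) ^ (1 - 1 / (k : ℝ)) ≤ D * (n : ℝ) ^ (1 - 1 / (k : ℝ)) := by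
    refine (Real.rpow_le_rpow (by positivity) hDn (by linarith)).trans ?_
    rw [Real.mul_rpow (by positivity) (by positivity)]
    apply mul_le_mul_of_nonneg_right _ (by positivity)
    calc (D : ℝ) ^ (1 - 1 / (k : ℝ)) ≤ (D : ℝ) ^ (1 : ℝ) :=
          Real.rpow_le_rpow_of_exponent_le hD1' (by linarith)
      _ = D := Real.rpow_one _
  have e2 : (n : ℝ) * (n : ℝ) ^ (1 - 1 / (k : ℝ)) = (n : ℝ) ^ (2 - 1 / (k : ℝ)) := by
    rw [← Real.rpow_one_add' (by positivity) (by linarith)]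
    congr 1; ring
  have e3 : (n : ℝ) ≤ (n : ℝ) ^ (2 - 1 / (k : ℝ)) := by
    calc (n : ℝ) = (n : ℝ) ^ (1 : ℝ) := (Real.rpow_one _).symm
      _ ≤ _ := Real.rpow_le_rpow_of_exponent_le hn1' (by linarith)
  have e4 : ((m : ℝ) + 1) ^ (a - 1) ≤ ((m : ℝ) + 1) ^ a :=
    pow_le_pow_right₀ (by linarith [(Nat.cast_nonneg m : (0:ℝ) ≤ m)]) (by omega)
  have e5 : ((m.choose a : ℕ) : ℝ) ≤ ((m : ℝ) + 1) ^ a := by
    have : m.choose a ≤ (m + 1) ^ a := (Nat.choose_le_pow m a).trans
      (Nat.pow_le_pow_left (Nat.le_succ m) a)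
    exact_mod_cast this
  have f1 : (r : ℝ) * (m + 1) ^ (a - 1) * n * ((2 : ℝ) ^ m) ^ (1 - 1 / (k : ℝ)) ≤
      D * r * (m + 1) ^ a * (n : ℝ) ^ (2 - 1 / (k : ℝ)) := by
    calc (r : ℝ) * (m + 1) ^ (a - 1) * n * ((2 : ℝ) ^ m) ^ (1 - 1 / (k : ℝ))
        ≤ (r : ℝ) * (m + 1) ^ a * n * (D * (n : ℝ) ^ (1 - 1 / (k : ℝ))) := by gcongr
      _ = D * r * (m + 1) ^ a * ((n : ℝ) * (n : ℝ) ^ (1 - 1 / (k : ℝ))) := by ring
      _ = _ := by rw [e2]
  have f2 : (r : ℝ) * (m.choose a) * 2 ^ m ≤ D * r * (m + 1) ^ a * (n : ℝ) ^ (2 - 1 / (k : ℝ)) := by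
    calc (r : ℝ) * (m.choose a) * 2 ^ m ≤ (r : ℝ) * (m + 1) ^ a * (D * n) := by gcongr
      _ = D * r * (m + 1) ^ a * n := by ring
      _ ≤ _ := by gcongr
  have f3 := mul_le_mul_of_nonneg_left (add_le_add f1 f2) (Nat.cast_nonneg L : (0:ℝ) ≤ L)
  linarith

/-- A power of the length of the names is small. -/
lemma pow_small (a : ℕ) {η : ℝ} (hη : 0 < η) : ∃ K : ℝ, 0 < K ∧ ∀ m : ℕ,
    ((m : ℝ) + 1) ^ a ≤ K * ((2 : ℝ) ^ m) ^ η := by
  have hl : 0 < Real.log 2 := Real.log_pos (by norm_num)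
  set ε : ℝ := η * Real.log 2 / (a + 1) with hε
  have hε0 : 0 < ε := by positivity
  refine ⟨(1 / ε) ^ a * Real.exp (ε * a), by positivity, fun m => ?_⟩
  have h1 : (m : ℝ) + 1 ≤ (1 / ε) * Real.exp (ε * (m + 1)) := by
    rw [one_div, inv_mul_eq_div, le_div_iff₀ hε0]
    have := Real.add_one_le_exp (ε * ((m : ℝ) + 1))
    linarith
  have h2 : ((m : ℝ) + 1) ^ a ≤ ((1 / ε) * Real.exp (ε * (m + 1))) ^ a :=
    pow_le_pow_left₀ (by positivity) h1 a
  refine h2.trans ?_
  rw [mul_pow, mul_assoc]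
  apply mul_le_mul_of_nonneg_left _ (by positivity)
  have h3 : ((2 : ℝ) ^ m) ^ η = Real.exp (m * Real.log 2 * η) := by
    rw [← Real.rpow_natCast, ← Real.rpow_mul (by norm_num), Real.rpow_def_of_pos (by norm_num)]
    congr 1; ring
  rw [h3, ← Real.exp_nat_mul, ← Real.exp_add]
  apply Real.exp_le_exp.2
  have h4 : (a : ℝ) * ε ≤ η * Real.log 2 := by
    rw [hε, mul_div_assoc', div_le_iff₀ (by positivity)]
    nlinarith [mul_pos hη hl]
  have h5 : (0 : ℝ) ≤ m := Nat.cast_nonneg m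
  nlinarith [mul_le_mul_of_nonneg_right h4 h5]

/-- Graphs of the order in the question. -/
theorem graph_large (k r D : ℕ) (c δ : ℝ) (hk : 1 ≤ k) (hkr : k < r) (hc : 0 < c)
    (hδ : δ < 1 / k - 1 / r) :
    ∃ n₀ : ℕ, ∀ (n m L : ℕ) (lab : Fin n → Fin m → Bool) (G : SimpleGraph (Fin n)), n₀ ≤ n →
      Function.Injective lab → 2 ^ m ≤ D * n →
      (∀ x, Depth3 L k (lab '' G.neighborSet x)) →
      (completeBipartiteGraph (Fin r) (Fin r)).Free G →
      c * (n : ℝ) ^ (2 - 1 / (r : ℝ)) ≤ Nat.card G.edgeSet → (n : ℝ) ^ δ < L := by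
  set η : ℝ := 1 / k - 1 / r - δ with hη
  have hη0 : 0 < η := by linarith
  obtain ⟨K, hK, hKm⟩ := pow_small (Nat.clog 2 r) (half_pos hη0)
  set C : ℝ := D * r * (K * (D : ℝ) ^ (η / 2)) / c with hC
  have ht := tendsto_rpow_atTop (half_pos hη0)
  have ht2 := ht.comp (tendsto_natCast_atTop_atTop (R := ℝ))
  obtain ⟨n₀, hn₀⟩ := Filter.eventually_atTop.1 (ht2.eventually_gt_atTop C)
  refine ⟨n₀, ?_⟩
  intro n m L lab G hn hlab hD hN hfree hE
  by_contra hcon
  push Not at hcon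
  have hpos : 0 < D * n := lt_of_lt_of_le (by positivity) hD
  have hn1 : 1 ≤ n := Nat.pos_of_mul_pos_left hpos
  have hn0' : (0 : ℝ) < n := by exact_mod_cast hn1
  have hb := graph_bound' n m k L r D lab G hk (by omega) hlab hD hN hfree
  have hDn : ((2 : ℝ) ^ m) ≤ D * n := by exact_mod_cast hD
  have e1 : ((m : ℝ) + 1) ^ (Nat.clog 2 r) ≤ K * (D : ℝ) ^ (η / 2) * (n : ℝ) ^ (η / 2) := by
    refine (hKm m).trans ?_
    rw [mul_assoc]
    apply mul_le_mul_of_nonneg_left _ hK.le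
    rw [← Real.mul_rpow (by positivity) (by positivity)]
    exact Real.rpow_le_rpow (by positivity) hDn (by positivity)
  have e2 : c * (n : ℝ) ^ (2 - 1 / (r : ℝ)) ≤
      D * (n : ℝ) ^ δ * r * (K * (D : ℝ) ^ (η / 2) * (n : ℝ) ^ (η / 2)) *
        (n : ℝ) ^ (2 - 1 / (k : ℝ)) := by
    refine (hE.trans hb).trans ?_
    gcongr
  have e3 : (n : ℝ) ^ δ * (n : ℝ) ^ (η / 2) * (n : ℝ) ^ (2 - 1 / (k : ℝ)) * (n : ℝ) ^ (η / 2) =
      (n : ℝ) ^ (2 - 1 / (r : ℝ)) := by
    rw [← Real.rpow_add hn0', ← Real.rpow_add hn0', ← Real.rpow_add hn0']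
    congr 1
    rw [hη]; ring
  have hX : (0 : ℝ) < (n : ℝ) ^ δ * (n : ℝ) ^ (η / 2) * (n : ℝ) ^ (2 - 1 / (k : ℝ)) := by positivity
  have e4 : c * (n : ℝ) ^ (η / 2) ≤ D * r * (K * (D : ℝ) ^ (η / 2)) := by
    rw [← e3] at e2
    have : ((n : ℝ) ^ δ * (n : ℝ) ^ (η / 2) * (n : ℝ) ^ (2 - 1 / (k : ℝ))) *
        (c * (n : ℝ) ^ (η / 2)) ≤
        ((n : ℝ) ^ δ * (n : ℝ) ^ (η / 2) * (n : ℝ) ^ (2 - 1 / (k : ℝ))) *
        (D * r * (K * (D : ℝ) ^ (η / 2))) := by linarith
    exact le_of_mul_le_mul_left this hX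
  have e5 := hn₀ n hn
  simp only [Function.comp] at e5
  rw [hC, div_lt_iff₀ hc] at e5
  linarith

end Pool.Agent.H96.Ppz
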