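import Mathlib
import Pool.Agent.H96.Kr

/-!
# Cubes in sets of small doubling, and graphs whose neighbourhoods contain such sets
-/

set_option autoImplicit false

namespace Pool.Agent.H96.AddNb

open Finset

variable {Γ : Type*} [AddCommGroup Γ]

/-- the vertex of the cube `q = (a, h)` which belongs to `ε` -/
def pt {k : ℕ} (q : Γ × (Fin k → Γ)) (ε : Fin k → Bool) : Γ :=
  q.1 + ∑ i, if ε i then q.2 i else 0

variable [Fintype Γ] [DecidableEq Γ]

open Classical in
/-- the cubes with all vertices in `A` -/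
noncomputable def cubes (k : ℕ) (A : Finset Γ) : Finset (Γ × (Fin k → Γ)) :=
  univ.filter (fun q => ∀ ε, pt q ε ∈ A)

lemma mem_cubes {k : ℕ} {A : Finset Γ} {q : Γ × (Fin k → Γ)} :
    q ∈ cubes k A ↔ ∀ ε, pt q ε ∈ A := by
  simp [cubes]

omit [Fintype Γ] [DecidableEq Γ] in
lemma pt_cons {k : ℕ} (a h : Γ) (f : Fin k → Γ) (e : Bool) (ε : Fin k → Bool) :
    pt (a, (Fin.cons h f : Fin (k + 1) → Γ)) (Fin.cons e ε : Fin (k + 1) → Bool) =
      pt (a, f) ε + if e then h else 0 := by
  unfold pt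
  rw [Fin.sum_univ_succ]
  simp only [Fin.cons_zero, Fin.cons_succ]
  abel

/-- the elements `a` of `A` with `a + h ∈ A` -/
def shift (A : Finset Γ) (h : Γ) : Finset Γ := A.filter (fun a => a + h ∈ A)

lemma cons_mem {k : ℕ} {A : Finset Γ} {a h : Γ} {f : Fin k → Γ} :
    (a, (Fin.cons h f : Fin (k + 1) → Γ)) ∈ cubes (k + 1) A ↔ (a, f) ∈ cubes k (shift A h) := by
  rw [mem_cubes, mem_cubes]
  constructor
  · intro H ε
    refine Finset.mem_filter.2 ⟨?_, ?_⟩
    · have := H (Fin.cons false ε)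
      rw [pt_cons] at this
      simpa using this
    · have := H (Fin.cons true ε)
      rw [pt_cons] at this
      simpa using this
  · intro H ε
    rw [← Fin.cons_self_tail ε, pt_cons]
    have := Finset.mem_filter.1 (H (Fin.tail ε))
    split_ifs
    · exact this.2
    · simpa using this.1

lemma card_succ (k : ℕ) (A : Finset Γ) :
    (cubes (k + 1) A).card = ∑ h, (cubes k (shift A h)).card := by
  rw [Finset.card_eq_sum_card_fiberwise (f := fun q : Γ × (Fin (k + 1) → Γ) => q.2 0)
    (t := univ) (fun q _ => Finset.mem_coe.2 (Finset.mem_univ _))]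
  refine Finset.sum_congr rfl fun h _ => ?_
  refine Finset.card_bij (fun q _ => (q.1, Fin.tail q.2)) ?_ ?_ ?_
  · rintro ⟨a, f⟩ hq
    obtain ⟨h1, h2⟩ := Finset.mem_filter.1 hq
    have h2 : f 0 = h := h2
    rw [← cons_mem, ← h2, Fin.cons_self_tail]
    exact h1
  · rintro ⟨a, f⟩ hq ⟨a', f'⟩ hq' heq
    have h2 : f 0 = h := (Finset.mem_filter.1 hq).2
    have h2' : f' 0 = h := (Finset.mem_filter.1 hq').2
    simp only [Prod.mk.injEq] at heq
    obtain ⟨h3, h4⟩ := heq
    rw [h3, ← Fin.cons_self_tail f, ← Fin.cons_self_tail f', h4, h2, h2']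
  · rintro ⟨a, f⟩ hq
    refine ⟨(a, Fin.cons h f), Finset.mem_filter.2 ⟨cons_mem.2 hq, by simp⟩, by simp⟩

lemma sum_shift (A D : Finset Γ) (hD : ∀ a ∈ A, ∀ b ∈ A, b - a ∈ D) :
    ∑ h ∈ D, (shift A h).card = A.card ^ 2 := by
  have h1 : ∑ h ∈ D, (shift A h).card = ∑ h, (shift A h).card := by
    refine Finset.sum_subset (Finset.subset_univ _) fun h _ hh => ?_
    rw [Finset.card_eq_zero, Finset.eq_empty_iff_forall_notMem]
    intro a ha
    obtain ⟨h1, h2⟩ := Finset.mem_filter.1 ha
    apply hh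
    have := hD a h1 _ h2
    simpa using this
  rw [h1]
  simp only [shift, Finset.card_filter]
  rw [Finset.sum_comm]
  have h2 : ∀ a ∈ A, (∑ h, if a + h ∈ A then 1 else 0) = A.card := by
    intro a _
    rw [← Finset.card_filter]
    refine Finset.card_bij (fun h _ => a + h) (fun h hh => (Finset.mem_filter.1 hh).2)
      (fun h _ h' _ e => add_left_cancel e) ?_
    intro b hb
    exact ⟨b - a, Finset.mem_filter.2 ⟨Finset.mem_univ _, by simpa using hb⟩, by simp⟩
  rw [Finset.sum_congr rfl h2, Finset.sum_const, smul_eq_mul, sq]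

/-- sets of small doubling contain many cubes -/
lemma many_cubes (k : ℕ) : ∀ A D : Finset Γ, (∀ a ∈ A, ∀ b ∈ A, b - a ∈ D) →
    A.card ^ 2 ^ k ≤ D.card ^ (2 ^ k - 1 - k) * (cubes k A).card := by
  induction k with
  | zero =>
    intro A D _
    have : (cubes 0 A).card = A.card := by
      refine Finset.card_bij (fun q _ => q.1) ?_ ?_ ?_
      · intro q hq
        have := mem_cubes.1 hq (fun _ => false)
        simpa [pt] using this
      · rintro ⟨a, f⟩ _ ⟨a', f'⟩ _ h
        simp only at h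
        subst h
        have : f = f' := Subsingleton.elim _ _
        rw [this]
      · intro a ha
        exact ⟨(a, fun _ => 0), mem_cubes.2 fun ε => by simpa [pt] using ha, rfl⟩
    simp [this]
  | succ k ih =>
    intro A D hD
    have hk : k + 1 ≤ 2 ^ k := Nat.lt_two_pow_self
    obtain ⟨m, hm⟩ : ∃ m, 2 ^ k = m + 1 := ⟨2 ^ k - 1, by omega⟩
    have hsub : ∀ h, ∀ a ∈ shift A h, ∀ b ∈ shift A h, b - a ∈ D := fun h a ha b hb =>
      hD a (Finset.mem_filter.1 ha).1 b (Finset.mem_filter.1 hb).1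
    have hexp : 2 ^ (k + 1) - 1 - (k + 1) = m + (2 ^ k - 1 - k) := by
      rw [pow_succ]; omega
    have h1 : A.card ^ 2 ^ (k + 1) = (∑ h ∈ D, (shift A h).card) ^ (m + 1) := by
      rw [sum_shift A D hD, ← hm, ← pow_mul, pow_succ, mul_comm]
    have h2 := pow_sum_le_card_mul_sum_pow (s := D) (f := fun h => (shift A h).card)
      (fun _ _ => Nat.zero_le _) m
    have h3 : ∑ h ∈ D, (cubes k (shift A h)).card ≤ (cubes (k + 1) A).card := by
      rw [card_succ]
      exact Finset.sum_le_sum_of_subset (Finset.subset_univ _)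
    rw [h1, hexp]
    calc (∑ h ∈ D, (shift A h).card) ^ (m + 1)
        ≤ D.card ^ m * ∑ h ∈ D, (shift A h).card ^ (m + 1) := h2
      _ ≤ D.card ^ m * ∑ h ∈ D, D.card ^ (2 ^ k - 1 - k) * (cubes k (shift A h)).card := by
          refine Nat.mul_le_mul_left _ (Finset.sum_le_sum fun h _ => ?_)
          rw [← hm]
          exact ih _ D (hsub h)
      _ = D.card ^ (m + (2 ^ k - 1 - k)) * ∑ h ∈ D, (cubes k (shift A h)).card := by
          rw [← Finset.mul_sum, pow_add]; ring
      _ ≤ _ := Nat.mul_le_mul_left _ h3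

open Classical in
/-- the cubes in `A` with distinct vertices -/
noncomputable def ncubes (k : ℕ) (A : Finset Γ) : Finset (Γ × (Fin k → Γ)) :=
  (cubes k A).filter (fun q => Function.Injective (pt q))

lemma diff_mem {k : ℕ} {A D : Finset Γ} (hD : ∀ a ∈ A, ∀ b ∈ A, b - a ∈ D)
    {q : Γ × (Fin k → Γ)} (hq : q ∈ cubes k A) : q.1 ∈ A ∧ ∀ i, q.2 i ∈ D := by
  have h0 : q.1 ∈ A := by
    have := mem_cubes.1 hq (fun _ => false)
    simpa [pt] using this
  refine ⟨h0, fun i => ?_⟩
  have h1 := mem_cubes.1 hq (fun j => decide (j = i))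
  have h2 : pt q (fun j => decide (j = i)) = q.1 + q.2 i := by
    simp [pt]
  rw [h2] at h1
  have := hD _ h0 _ h1
  simpa using this

open Classical in
lemma fibre_card {k : ℕ} {A D : Finset Γ} (hD : ∀ a ∈ A, ∀ b ∈ A, b - a ∈ D)
    (ε ε' : Fin k → Bool) (hne : ε ≠ ε') :
    ((cubes k A).filter (fun q => pt q ε = pt q ε')).card ≤ A.card * D.card ^ (k - 1) := by
  obtain ⟨i, hi⟩ := Function.ne_iff.1 hne
  set P : Finset (Fin k → Γ) := Fintype.piFinset (fun j => if j = i then {0} else D) with hP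
  have hPc : P.card = D.card ^ (k - 1) := by
    rw [hP, Fintype.card_piFinset]
    have h1 : ∀ j, (if j = i then ({0} : Finset Γ) else D).card = if j = i then 1 else D.card := by
      intro j; split_ifs <;> simp
    simp only [h1]
    rw [Finset.prod_ite]
    simp only [Finset.prod_const_one, one_mul, Finset.prod_const]
    congr 1
    have h2 : univ.filter (fun j : Fin k => ¬ j = i) = univ.erase i := by
      ext j; simp
    rw [h2, Finset.card_erase_of_mem (Finset.mem_univ _), Finset.card_univ, Fintype.card_fin]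
  rw [← hPc, ← Finset.card_product]
  refine Finset.card_le_card_of_injOn (fun q => (q.1, Function.update q.2 i 0)) ?_ ?_
  · intro q hq
    obtain ⟨h1, h2⟩ := Finset.mem_filter.1 (Finset.mem_coe.1 hq)
    obtain ⟨h3, h4⟩ := diff_mem hD h1
    refine Finset.mem_coe.2 (Finset.mem_product.2 ⟨h3, ?_⟩)
    rw [hP, Fintype.mem_piFinset]
    intro j
    by_cases hj : j = i
    · subst hj; simp
    · simp [hj, h4 j]
  · rintro ⟨a, f⟩ hq ⟨a', f'⟩ hq' heq
    have h2 := (Finset.mem_filter.1 (Finset.mem_coe.1 hq)).2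
    have h2' := (Finset.mem_filter.1 (Finset.mem_coe.1 hq')).2
    simp only [Prod.mk.injEq] at heq
    obtain ⟨rfl, h3⟩ := heq
    have h4 : ∀ j, j ≠ i → f j = f' j := by
      intro j hj
      have := congrFun h3 j
      simpa [Function.update_of_ne hj] using this
    have key : ∀ (g : Fin k → Γ) (η : Fin k → Bool), (∑ j, if η j then g j else 0) =
        (if η i then g i else 0) + ∑ j ∈ univ.erase i, if η j then g j else 0 := by
      intro g η
      exact (Finset.add_sum_erase univ (fun j => if η j then g j else 0)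
        (Finset.mem_univ i)).symm
    have hrest : ∀ η : Fin k → Bool, (∑ j ∈ univ.erase i, if η j then f j else 0) =
        ∑ j ∈ univ.erase i, if η j then f' j else 0 := by
      intro η
      refine Finset.sum_congr rfl fun j hj => ?_
      rw [h4 j (Finset.ne_of_mem_erase hj)]
    have h5 : f i = f' i := by
      unfold pt at h2 h2'
      simp only at h2 h2'
      rw [key f ε, key f ε'] at h2
      rw [key f' ε, key f' ε', ← hrest ε, ← hrest ε'] at h2'
      have h2 := add_left_cancel h2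
      have h2' := add_left_cancel h2'
      cases hεi : ε i with
      | true =>
        have hεi' : ε' i = false := by
          rw [hεi] at hi; cases h : ε' i with
          | true => exact absurd h.symm hi
          | false => rfl
        rw [hεi, hεi'] at h2 h2'
        simp only [if_true, Bool.false_eq_true, if_false, zero_add] at h2 h2'
        exact add_right_cancel (h2.trans h2'.symm)
      | false =>
        have hεi' : ε' i = true := by
          rw [hεi] at hi; cases h : ε' i with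
          | true => rfl
          | false => exact absurd h.symm hi
        rw [hεi, hεi'] at h2 h2'
        simp only [if_true, Bool.false_eq_true, if_false, zero_add] at h2 h2'
        exact add_right_cancel (h2.symm.trans h2')
    have h6 : f = f' := by
      funext j
      by_cases hj : j = i
      · rw [hj]; exact h5
      · exact h4 j hj
    rw [h6]

lemma degenerate {k : ℕ} {A D : Finset Γ} (hD : ∀ a ∈ A, ∀ b ∈ A, b - a ∈ D) :
    (cubes k A).card ≤ (ncubes k A).card + 4 ^ k * (A.card * D.card ^ (k - 1)) := by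
  classical
  have h1 : (cubes k A).card = (ncubes k A).card +
      ((cubes k A).filter (fun q => ¬ Function.Injective (pt q))).card := by
    rw [ncubes, Finset.card_filter_add_card_filter_not]
  rw [h1]
  refine Nat.add_le_add_left ?_ _
  have h2 : (cubes k A).filter (fun q => ¬ Function.Injective (pt q)) ⊆
      ((univ : Finset ((Fin k → Bool) × (Fin k → Bool))).filter (fun p => p.1 ≠ p.2)).biUnion
        (fun p => (cubes k A).filter (fun q => pt q p.1 = pt q p.2)) := by
    intro q hq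
    obtain ⟨h3, h4⟩ := Finset.mem_filter.1 hq
    unfold Function.Injective at h4
    push Not at h4
    obtain ⟨ε, ε', h5, h6⟩ := h4
    exact Finset.mem_biUnion.2 ⟨(ε, ε'), Finset.mem_filter.2 ⟨Finset.mem_univ _, h6⟩,
      Finset.mem_filter.2 ⟨h3, h5⟩⟩
  refine (Finset.card_le_card h2).trans (Finset.card_biUnion_le.trans ?_)
  refine (Finset.sum_le_sum fun p hp => fibre_card hD p.1 p.2 (Finset.mem_filter.1 hp).2).trans ?_
  rw [Finset.sum_const, smul_eq_mul]
  refine Nat.mul_le_mul_right _ ((Finset.card_filter_le _ _).trans ?_)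
  rw [Finset.card_univ, Fintype.card_prod, Fintype.card_fun, Fintype.card_bool, Fintype.card_fin,
    ← mul_pow]
  norm_num

/-- a set of small doubling which is not small contains many cubes with distinct vertices -/
lemma main_set {k K : ℕ} (hk : 1 ≤ k) (hK : 1 ≤ K) {A D : Finset Γ}
    (hD : ∀ a ∈ A, ∀ b ∈ A, b - a ∈ D) (hDc : D.card ≤ K * A.card)
    (hA : 2 * (4 ^ k * K ^ 2 ^ k) ≤ A.card) :
    A.card ^ (k + 1) ≤ 2 * K ^ 2 ^ k * (ncubes k A).card := by
  have hkk : k + 1 ≤ 2 ^ k := Nat.lt_two_pow_self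
  have hKpos : 0 < K := hK
  have hApos : 0 < A.card := by
    have : 0 < 2 * (4 ^ k * K ^ 2 ^ k) := by positivity
    omega
  have h1 := many_cubes k A D hD
  have h2 := degenerate (k := k) hD
  set a := A.card with ha
  set N := (ncubes k A).card with hN
  have h3 : a ^ 2 ^ k ≤ (K * a) ^ (2 ^ k - 1 - k) * (N + 4 ^ k * (a * (K * a) ^ (k - 1))) := by
    refine h1.trans (Nat.mul_le_mul (Nat.pow_le_pow_left hDc _) (h2.trans ?_))
    exact Nat.add_le_add_left (Nat.mul_le_mul_left _ (Nat.mul_le_mul_left _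
      (Nat.pow_le_pow_left hDc _))) _
  have h4 : a ^ 2 ^ k = a ^ (2 ^ k - 1 - k) * a ^ (k + 1) := by
    rw [← pow_add]; congr 1; omega
  have h5 : a * (K * a) ^ (k - 1) = K ^ (k - 1) * a ^ k := by
    rw [mul_pow]
    have : a ^ k = a * a ^ (k - 1) := by
      rw [← pow_succ']; congr 1; omega
    rw [this]; ring
  rw [h4, h5, mul_pow] at h3
  have h6 : a ^ (2 ^ k - 1 - k) * a ^ (k + 1) ≤ a ^ (2 ^ k - 1 - k) *
      (K ^ (2 ^ k - 1 - k) * (N + 4 ^ k * (K ^ (k - 1) * a ^ k))) := by
    calc _ ≤ _ := h3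
      _ = _ := by ring
  have h7 := Nat.le_of_mul_le_mul_left h6 (by positivity)
  have h8 : K ^ (2 ^ k - 1 - k) ≤ K ^ 2 ^ k := Nat.pow_le_pow_right hK (by omega)
  have h9 : K ^ (2 ^ k - 1 - k) * K ^ (k - 1) ≤ K ^ 2 ^ k := by
    rw [← pow_add]; exact Nat.pow_le_pow_right hK (by omega)
  have h10 : a ^ (k + 1) ≤ K ^ 2 ^ k * N + 4 ^ k * K ^ 2 ^ k * a ^ k := by
    calc a ^ (k + 1) ≤ K ^ (2 ^ k - 1 - k) * (N + 4 ^ k * (K ^ (k - 1) * a ^ k)) := h7
      _ = K ^ (2 ^ k - 1 - k) * N + 4 ^ k * (K ^ (2 ^ k - 1 - k) * K ^ (k - 1)) * a ^ k := by ring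
      _ ≤ K ^ 2 ^ k * N + 4 ^ k * K ^ 2 ^ k * a ^ k :=
        Nat.add_le_add (Nat.mul_le_mul_right _ h8)
          (Nat.mul_le_mul_right _ (Nat.mul_le_mul_left _ h9))
  have h11 : 2 * (4 ^ k * K ^ 2 ^ k) * a ^ k ≤ a ^ (k + 1) := by
    rw [pow_succ', ]
    exact Nat.mul_le_mul_right _ hA
  nlinarith

open Classical in
/-- cubes with distinct vertices in the neighbourhoods -/
theorem sum_ncubes {V : Type*} [Fintype V] (k s t : ℕ) (ht : 1 ≤ t) (hs : s ≤ 2 ^ k)
    (lab : V → Γ) (hlab : Function.Injective lab) (G : SimpleGraph V)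
    (hfree : (completeBipartiteGraph (Fin s) (Fin t)).Free G) (N : V → Finset Γ)
    (hN : ∀ x, ∀ y ∈ N x, ∃ v, G.Adj x v ∧ lab v = y) :
    ∑ x, (ncubes k (N x)).card ≤ (t - 1) * Fintype.card Γ ^ (k + 1) := by
  have hpt : ∀ q : Γ × (Fin k → Γ),
      (univ.filter (fun x : V => q ∈ ncubes k (N x))).card ≤ t - 1 := by
    intro q
    by_contra hcon
    push Not at hcon
    have hcon : t ≤ (univ.filter (fun x : V => q ∈ ncubes k (N x))).card := by omega
    obtain ⟨X, hX, hXc⟩ := Finset.exists_subset_card_eq hcon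
    obtain ⟨x₀, hx₀⟩ : X.Nonempty := Finset.card_pos.1 (by omega)
    have hinj : Function.Injective (pt q) :=
      (Finset.mem_filter.1 (Finset.mem_filter.1 (hX hx₀)).2).2
    have hmem : ∀ x ∈ X, ∀ ε, pt q ε ∈ N x := fun x hx ε =>
      mem_cubes.1 (Finset.mem_filter.1 (Finset.mem_filter.1 (hX hx)).2).1 ε
    choose w hw1 hw2 using fun ε => hN x₀ _ (hmem x₀ hx₀ ε)
    have hwinj : Function.Injective w := by
      intro ε ε' h
      apply hinj
      rw [← hw2 ε, ← hw2 ε', h]
    have hc : ((univ : Finset (Fin k → Bool)).image w).card = 2 ^ k := by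
      rw [Finset.card_image_of_injective _ hwinj, Finset.card_univ, Fintype.card_fun,
        Fintype.card_bool, Fintype.card_fin]
    obtain ⟨Y, hY, hYc⟩ := Finset.exists_subset_card_eq (hs.trans hc.symm.le)
    refine Pool.Agent.H96.Ppz.not_free G X Y hXc hYc ?_ hfree
    intro x hx y hy
    obtain ⟨ε, _, rfl⟩ := Finset.mem_image.1 (hY hy)
    obtain ⟨v, hv1, hv2⟩ := hN x _ (hmem x hx ε)
    rw [← hw2 ε] at hv2
    rw [← hlab hv2]
    exact hv1
  have h1 : ∑ x, (ncubes k (N x)).card =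
      ∑ q : Γ × (Fin k → Γ), (univ.filter (fun x : V => q ∈ ncubes k (N x))).card := by
    have h2 : ∀ x, (ncubes k (N x)).card =
        ∑ q : Γ × (Fin k → Γ), if q ∈ ncubes k (N x) then 1 else 0 := by
      intro x
      rw [Finset.card_eq_sum_ones, ← Finset.sum_filter]
      congr 1
      ext q
      simp
    simp only [h2, Finset.card_filter]
    rw [Finset.sum_comm]
  rw [h1]
  refine (Finset.sum_le_sum fun q _ => hpt q).trans ?_
  rw [Finset.sum_const, smul_eq_mul, Finset.card_univ, Fintype.card_prod, Fintype.card_fun,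
    Fintype.card_fin, pow_succ]
  exact le_of_eq (by ring)

open Classical in
/-- graphs whose neighbourhoods contain large sets of small doubling -/
theorem edges_bound {V : Type*} [Fintype V] (k s t K : ℕ) (hk : 1 ≤ k) (hK : 1 ≤ K) (ht : 1 ≤ t)
    (hs : s ≤ 2 ^ k) (lab : V → Γ) (hlab : Function.Injective lab) (G : SimpleGraph V)
    (hfree : (completeBipartiteGraph (Fin s) (Fin t)).Free G) (N : V → Finset Γ)
    (hN : ∀ x, ∀ y ∈ N x, ∃ v, G.Adj x v ∧ lab v = y)
    (hK' : ∀ x, ∃ D : Finset Γ, (∀ a ∈ N x, ∀ b ∈ N x, b - a ∈ D) ∧ D.card ≤ K * (N x).card) :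
    (∑ x, (N x).card - Fintype.card V * (2 * (4 ^ k * K ^ 2 ^ k))) ^ (k + 1) ≤
      2 * K ^ 2 ^ k * t * (Fintype.card V ^ k * Fintype.card Γ ^ (k + 1)) := by
  set M := 2 * (4 ^ k * K ^ 2 ^ k) with hM
  set B := univ.filter (fun x : V => M ≤ (N x).card) with hB
  have h1 : ∑ x, (N x).card ≤ Fintype.card V * M + ∑ x ∈ B, (N x).card := by
    rw [← Finset.sum_filter_add_sum_filter_not univ (fun x : V => M ≤ (N x).card), add_comm]
    refine Nat.add_le_add_right ?_ _
    refine (Finset.sum_le_card_nsmul _ _ M fun x hx => ?_).trans ?_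
    · exact (not_le.1 (Finset.mem_filter.1 hx).2).le
    · rw [smul_eq_mul]
      exact Nat.mul_le_mul_right _ (Finset.card_filter_le _ _)
  have h2 : ∑ x, (N x).card - Fintype.card V * M ≤ ∑ x ∈ B, (N x).card := by omega
  have h3 := pow_sum_le_card_mul_sum_pow (s := B) (f := fun x => (N x).card)
    (fun _ _ => Nat.zero_le _) k
  have h4 : ∑ x ∈ B, (N x).card ^ (k + 1) ≤
      2 * K ^ 2 ^ k * (t * Fintype.card Γ ^ (k + 1)) := by
    calc ∑ x ∈ B, (N x).card ^ (k + 1)
        ≤ ∑ x ∈ B, 2 * K ^ 2 ^ k * (ncubes k (N x)).card := by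
          refine Finset.sum_le_sum fun x hx => ?_
          obtain ⟨D, hD1, hD2⟩ := hK' x
          exact main_set hk hK hD1 hD2 (Finset.mem_filter.1 hx).2
      _ = 2 * K ^ 2 ^ k * ∑ x ∈ B, (ncubes k (N x)).card := by rw [Finset.mul_sum]
      _ ≤ 2 * K ^ 2 ^ k * ∑ x, (ncubes k (N x)).card :=
          Nat.mul_le_mul_left _ (Finset.sum_le_sum_of_subset (Finset.subset_univ _))
      _ ≤ 2 * K ^ 2 ^ k * ((t - 1) * Fintype.card Γ ^ (k + 1)) :=
          Nat.mul_le_mul_left _ (sum_ncubes k s t ht hs lab hlab G hfree N hN)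
      _ ≤ _ := Nat.mul_le_mul_left _ (Nat.mul_le_mul_right _ (Nat.sub_le _ _))
  calc _ ≤ (∑ x ∈ B, (N x).card) ^ (k + 1) := Nat.pow_le_pow_left h2 _
    _ ≤ B.card ^ k * ∑ x ∈ B, (N x).card ^ (k + 1) := h3
    _ ≤ Fintype.card V ^ k * (2 * K ^ 2 ^ k * (t * Fintype.card Γ ^ (k + 1))) :=
        Nat.mul_le_mul (Nat.pow_le_pow_left (Finset.card_le_univ _) _) h4
    _ = _ := by ring

end Pool.Agent.H96.AddNb
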