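import Mathlib
import Pool.Agent.H96.AddNb

/-!
# Graphs whose neighbourhoods contain large sets of small doubling: the asymptotic form
-/

set_option autoImplicit false

namespace Pool.Agent.H96.AddNb

open Finset

/-- `S` contains a set `A` with `|S| ≤ L |A|` and `|A - A| ≤ K |A|`. -/
def Structured {Γ : Type*} [AddCommGroup Γ] (L K : ℕ) (S : Set Γ) : Prop :=
  ∃ A : Finset Γ, (∀ a ∈ A, a ∈ S) ∧ S.ncard ≤ L * A.card ∧
    Set.ncard {d : Γ | ∃ a ∈ A, ∃ b ∈ A, d = b - a} ≤ K * A.card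

variable {Γ : Type*} [AddCommGroup Γ] [Fintype Γ]

theorem structured_bound {V : Type*} [Fintype V] (k s t K L : ℕ) (hk : 1 ≤ k) (hK : 1 ≤ K)
    (ht : 1 ≤ t) (hs : s ≤ 2 ^ k) (lab : V → Γ) (hlab : Function.Injective lab)
    (G : SimpleGraph V) (hfree : (completeBipartiteGraph (Fin s) (Fin t)).Free G)
    (hS : ∀ x, Structured L K (lab '' G.neighborSet x)) :
    (2 * Nat.card G.edgeSet - L * (Fintype.card V * (2 * (4 ^ k * K ^ 2 ^ k)))) ^ (k + 1) ≤
      L ^ (k + 1) * (2 * K ^ 2 ^ k * t * (Fintype.card V ^ k * Fintype.card Γ ^ (k + 1))) := by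
  classical
  choose N h1 h2 h3 using hS
  have hb := edges_bound k s t K hk hK ht hs lab hlab G hfree N
    (fun x y hy => by
      obtain ⟨v, hv, hvy⟩ := h1 x y hy
      exact ⟨v, hv, hvy⟩)
    (fun x => ⟨univ.filter (fun d => ∃ a ∈ N x, ∃ b ∈ N x, d = b - a),
      fun a ha b hb => Finset.mem_filter.2 ⟨Finset.mem_univ _, a, ha, b, hb, rfl⟩, by
        refine le_trans (le_of_eq ?_) (h3 x)
        rw [← Set.ncard_coe_finset]
        congr 1
        ext d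
        simp⟩)
  have hdeg : 2 * Nat.card G.edgeSet ≤ L * ∑ x, (N x).card := by
    have e1 := G.sum_degrees_eq_twice_card_edges
    have e2 : (Nat.card G.edgeSet) = #G.edgeFinset := by
      rw [Nat.card_eq_fintype_card, SimpleGraph.edgeFinset_card]
    rw [e2, ← e1, Finset.mul_sum]
    refine Finset.sum_le_sum fun x _ => ?_
    refine le_trans (le_of_eq ?_) (h2 x)
    rw [Set.ncard_image_of_injective _ hlab, ← G.card_neighborFinset_eq_degree,
      ← Set.ncard_coe_finset, SimpleGraph.coe_neighborFinset]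
  set E := ∑ x, (N x).card with hE
  set M := Fintype.card V * (2 * (4 ^ k * K ^ 2 ^ k)) with hM
  have h4 : 2 * Nat.card G.edgeSet - L * M ≤ L * (E - M) := by
    rw [Nat.mul_sub]
    omega
  calc _ ≤ (L * (E - M)) ^ (k + 1) := Nat.pow_le_pow_left h4 _
    _ = L ^ (k + 1) * (E - M) ^ (k + 1) := by rw [mul_pow]
    _ ≤ _ := Nat.mul_le_mul_left _ hb

theorem structured_large (k s t D : ℕ) (c₀ δ : ℝ) (hk : 1 ≤ k) (hs : s ≤ 2 ^ k) (ht : 1 ≤ t)
    (hc : 0 < c₀) (hδ : δ < 1 / ((k : ℝ) + 1) - 1 / s) :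
    ∃ n₀ : ℕ, ∀ (n L K : ℕ) (Γ : Type) [AddCommGroup Γ] [Fintype Γ] (lab : Fin n → Γ)
      (G : SimpleGraph (Fin n)), n₀ ≤ n → Function.Injective lab → Fintype.card Γ ≤ D * n →
      (∀ x, Structured L K (lab '' G.neighborSet x)) →
      (completeBipartiteGraph (Fin s) (Fin t)).Free G →
      c₀ * (n : ℝ) ^ (2 - 1 / (s : ℝ)) ≤ Nat.card G.edgeSet →
      (n : ℝ) ^ δ < L * K ^ 2 ^ k := by
  set α : ℝ := 1 / ((k : ℝ) + 1) - 1 / s - δ with hα
  have hα0 : 0 < α := by rw [hα]; linarith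
  set C : ℝ := 2 * 4 ^ k + 2 * t * D with hC
  have ht2 := (tendsto_rpow_atTop hα0).comp (tendsto_natCast_atTop_atTop (R := ℝ))
  obtain ⟨n₁, hn₁⟩ := Filter.eventually_atTop.1 (ht2.eventually_gt_atTop (C / (2 * c₀)))
  refine ⟨max n₁ 1, ?_⟩
  intro n L K Γ _ _ lab G hn hlab hD hS hfree hE
  have hn1 : n₁ ≤ n := le_trans (le_max_left _ _) hn
  have hn2 : 1 ≤ n := le_trans (le_max_right _ _) hn
  have hn' : (0 : ℝ) < n := by exact_mod_cast hn2
  have hn1' : (1 : ℝ) ≤ n := by exact_mod_cast hn2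
  have hepos : 0 < Nat.card G.edgeSet := by
    have : (0 : ℝ) < Nat.card G.edgeSet := lt_of_lt_of_le (by positivity) hE
    exact_mod_cast this
  -- `K` and `L` are positive
  have hdeg : ∃ x, (lab '' G.neighborSet x).Nonempty := by
    by_contra hcon
    push Not at hcon
    have hne : Nonempty G.edgeSet := (Nat.card_pos_iff.1 hepos).1
    obtain ⟨e, he⟩ := hne
    induction e with
    | _ a b =>
      have hab : G.Adj a b := he
      have := hcon a
      exact Set.eq_empty_iff_forall_notMem.1 this (lab b) ⟨b, hab, rfl⟩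
  obtain ⟨x, hx⟩ := hdeg
  obtain ⟨A, hA1, hA2, hA3⟩ := hS x
  have hfin : (lab '' G.neighborSet x).Finite := Set.toFinite _
  have hpos : 0 < (lab '' G.neighborSet x).ncard := (Set.ncard_pos hfin).2 hx
  have hL : 1 ≤ L := by
    rcases Nat.eq_zero_or_pos L with h | h
    · rw [h, zero_mul] at hA2; omega
    · exact h
  have hAne : 0 < A.card := by
    rcases Nat.eq_zero_or_pos A.card with h | h
    · rw [h, mul_zero] at hA2; omega
    · exact h
  have hK : 1 ≤ K := by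
    rcases Nat.eq_zero_or_pos K with h | h
    · exfalso
      rw [h, zero_mul] at hA3
      have hfin2 : {d : Γ | ∃ a ∈ A, ∃ b ∈ A, d = b - a}.Finite := Set.toFinite _
      obtain ⟨a, ha⟩ := Finset.card_pos.1 hAne
      have : 0 < Set.ncard {d : Γ | ∃ a ∈ A, ∃ b ∈ A, d = b - a} :=
        (Set.ncard_pos hfin2).2 ⟨a - a, a, ha, a, ha, rfl⟩
      omega
    · exact h
  by_contra hcon
  push Not at hcon
  have hb := structured_bound k s t K L hk hK ht hs lab hlab G hfree hS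
  rw [Fintype.card_fin] at hb
  set M : ℕ := L * (n * (2 * (4 ^ k * K ^ 2 ^ k))) with hM
  set Y : ℕ := 2 * Nat.card G.edgeSet - M with hY
  have hX : (1 : ℝ) ≤ L * (K : ℝ) ^ 2 ^ k := by
    have h1 : (1 : ℝ) ≤ L := by exact_mod_cast hL
    have h2 : (1 : ℝ) ≤ (K : ℝ) ^ 2 ^ k := one_le_pow₀ (by exact_mod_cast hK)
    nlinarith
  -- the first term
  have hMle : (M : ℝ) ≤ 2 * 4 ^ k * ((n : ℝ) ^ δ * n) := by
    have h1 : (M : ℝ) = 2 * 4 ^ k * ((L * (K : ℝ) ^ 2 ^ k) * n) := by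
      rw [hM]; push_cast; ring
    rw [h1]
    gcongr
  -- the second term
  have hYle : (Y : ℝ) ≤ 2 * t * D * ((n : ℝ) ^ δ * (n : ℝ) ^ ((2 * (k : ℝ) + 1) / (k + 1))) := by
    have ht' : (1 : ℝ) ≤ 2 * t := by
      have : (1 : ℝ) ≤ t := by exact_mod_cast ht
      linarith
    have h1 : (Y : ℝ) ^ (k + 1) ≤ (L * (K : ℝ) ^ 2 ^ k) ^ (k + 1) * (2 * t) *
        ((n : ℝ) ^ k * (D * n) ^ (k + 1)) := by
      calc (Y : ℝ) ^ (k + 1) ≤ ((L ^ (k + 1) * (2 * K ^ 2 ^ k * t *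
            (n ^ k * Fintype.card Γ ^ (k + 1))) : ℕ) : ℝ) := by exact_mod_cast hb
        _ = (L : ℝ) ^ (k + 1) * (K : ℝ) ^ 2 ^ k * (2 * t) *
            ((n : ℝ) ^ k * (Fintype.card Γ : ℝ) ^ (k + 1)) := by push_cast; ring
        _ ≤ (L * (K : ℝ) ^ 2 ^ k) ^ (k + 1) * (2 * t) *
            ((n : ℝ) ^ k * (D * n) ^ (k + 1)) := by
          have h2 : (K : ℝ) ^ 2 ^ k ≤ ((K : ℝ) ^ 2 ^ k) ^ (k + 1) := by
            refine le_self_pow₀ (one_le_pow₀ (by exact_mod_cast hK)) (by omega)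
          have h3 : (Fintype.card Γ : ℝ) ≤ D * n := by exact_mod_cast hD
          rw [mul_pow (L : ℝ)]
          gcongr
    have h4 : (2 * t * D * ((n : ℝ) ^ δ * (n : ℝ) ^ ((2 * (k : ℝ) + 1) / (k + 1)))) ^ (k + 1) =
        (2 * t) ^ (k + 1) * ((n : ℝ) ^ δ) ^ (k + 1) * ((n : ℝ) ^ k * (D * n) ^ (k + 1)) := by
      have h5 : ((n : ℝ) ^ ((2 * (k : ℝ) + 1) / (k + 1))) ^ (k + 1) = (n : ℝ) ^ k * n ^ (k + 1) := by
        rw [← Real.rpow_natCast, ← Real.rpow_mul hn'.le, ← pow_add, ← Real.rpow_natCast]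
        congr 1
        push_cast
        field_simp
        ring
      simp only [mul_pow]
      rw [h5]
      ring
    have h6 : (Y : ℝ) ^ (k + 1) ≤
        (2 * t * D * ((n : ℝ) ^ δ * (n : ℝ) ^ ((2 * (k : ℝ) + 1) / (k + 1)))) ^ (k + 1) := by
      rw [h4]
      refine h1.trans ?_
      have h7 : (L * (K : ℝ) ^ 2 ^ k) ^ (k + 1) ≤ ((n : ℝ) ^ δ) ^ (k + 1) :=
        pow_le_pow_left₀ (by positivity) hcon _
      have h8 : (2 * t : ℝ) ≤ (2 * t) ^ (k + 1) := le_self_pow₀ ht' (by omega)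
      calc (L * (K : ℝ) ^ 2 ^ k) ^ (k + 1) * (2 * t) * ((n : ℝ) ^ k * (D * n) ^ (k + 1))
          ≤ ((n : ℝ) ^ δ) ^ (k + 1) * (2 * t) ^ (k + 1) * ((n : ℝ) ^ k * (D * n) ^ (k + 1)) := by
            gcongr
        _ = _ := by ring
    exact le_of_pow_le_pow_left₀ (by omega) (by positivity) h6
  have hsum : 2 * (Nat.card G.edgeSet : ℝ) ≤ Y + M := by
    have : 2 * Nat.card G.edgeSet ≤ Y + M := by rw [hY]; omega
    exact_mod_cast this
  have hexp : (2 * (k : ℝ) + 1) / (k + 1) = 2 - 1 / ((k : ℝ) + 1) := by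
    field_simp
    ring
  have hk1 : (1 : ℝ) / (k + 1) ≤ 1 := by
    rw [div_le_one (by positivity)]
    have : (0 : ℝ) ≤ k := by positivity
    linarith
  have hn_le : (n : ℝ) ≤ (n : ℝ) ^ ((2 * (k : ℝ) + 1) / (k + 1)) := by
    conv_lhs => rw [← Real.rpow_one (n : ℝ)]
    refine Real.rpow_le_rpow_of_exponent_le hn1' ?_
    rw [hexp]; linarith
  have hfinal : 2 * c₀ * (n : ℝ) ^ (2 - 1 / (s : ℝ)) ≤
      C * ((n : ℝ) ^ δ * (n : ℝ) ^ ((2 * (k : ℝ) + 1) / (k + 1))) := by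
    calc 2 * c₀ * (n : ℝ) ^ (2 - 1 / (s : ℝ)) ≤ 2 * (Nat.card G.edgeSet : ℝ) := by linarith
      _ ≤ Y + M := hsum
      _ ≤ 2 * t * D * ((n : ℝ) ^ δ * (n : ℝ) ^ ((2 * (k : ℝ) + 1) / (k + 1))) +
          2 * 4 ^ k * ((n : ℝ) ^ δ * (n : ℝ) ^ ((2 * (k : ℝ) + 1) / (k + 1))) := by
        refine add_le_add hYle (hMle.trans ?_)
        gcongr
      _ = _ := by rw [hC]; ring
  have hprod : (n : ℝ) ^ (2 - 1 / (s : ℝ)) =
      (n : ℝ) ^ α * ((n : ℝ) ^ δ * (n : ℝ) ^ ((2 * (k : ℝ) + 1) / (k + 1))) := by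
    rw [← Real.rpow_add hn', ← Real.rpow_add hn', hexp]
    congr 1
    rw [hα]
    ring
  rw [hprod, ← mul_assoc] at hfinal
  have h9 : 2 * c₀ * (n : ℝ) ^ α ≤ C := le_of_mul_le_mul_right hfinal (by positivity)
  have h10 := hn₁ n hn1
  simp only [Function.comp] at h10
  rw [div_lt_iff₀ (by positivity)] at h10
  linarith

end Pool.Agent.H96.AddNb
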