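import Mathlib
import Pool.Agent.H96.Ppz
import Pool.Agent.H568R2.Prob

/-!
# Locally isolated solutions of k-CNFs

The bound of Paturi, Pudlák, Saks and Zane for the number of locally isolated solutions of a
`k`-CNF, in a semantic form.
-/

set_option autoImplicit false

namespace Pool.Agent.H96.Ppsz

open Finset Pool.Agent.H96.Ppz H568R2

variable {m : ℕ}

/-- flip the bits in `W` -/
def flipSet (z : Fin m → Bool) (W : Finset (Fin m)) : Fin m → Bool :=
  fun i => if i ∈ W then !z i else z i

/-- The bit `i` of `z` is determined by the bits with smaller labels. -/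
def Forc (S : Set (Fin m → Bool)) (l : Fin m → ℕ) (z : Fin m → Bool) (i : Fin m) : Prop :=
  ∀ y ∈ S, (∀ j, l j < l i → y j = z j) → y i = z i

open Classical in
/-- number of forced bits -/
noncomputable def nfo (S : Set (Fin m → Bool)) (l : Fin m → ℕ) (z : Fin m → Bool) : ℕ :=
  (univ.filter (fun i => Forc S l z i)).card

open Classical in
/-- Kraft inequality. -/
lemma kraft' (S : Set (Fin m → Bool)) (l : Fin m → ℕ) :
    ∑ z ∈ univ.filter (fun z => z ∈ S), 2 ^ nfo S l z ≤ 2 ^ m := by
  set C : (Fin m → Bool) → Finset (Fin m → Bool) := fun z =>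
    Fintype.piFinset (fun i => if Forc S l z i then (univ : Finset Bool) else {z i}) with hC
  have hcard : ∀ z, (C z).card = 2 ^ nfo S l z := by
    intro z
    simp only [hC, Fintype.card_piFinset, nfo]
    have : ∀ i, (if Forc S l z i then (univ : Finset Bool) else {z i}).card =
        if Forc S l z i then 2 else 1 := by
      intro i; split_ifs <;> simp
    simp only [this]
    rw [Finset.prod_ite]
    simp
  have hdisj : ∀ z ∈ univ.filter (fun z => z ∈ S), ∀ z' ∈ univ.filter (fun z => z ∈ S), z ≠ z' →
      Disjoint (C z) (C z') := by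
    intro z hz z' hz' hne
    have hzS := (Finset.mem_filter.1 hz).2
    have hzS' := (Finset.mem_filter.1 hz').2
    rw [Finset.disjoint_left]
    intro w hw hw'
    have hne' : (univ.filter (fun i => z i ≠ z' i)).Nonempty := by
      obtain ⟨i, hi⟩ := Function.ne_iff.1 hne
      exact ⟨i, by simp [hi]⟩
    obtain ⟨i, hi, hmin⟩ := Finset.exists_min_image _ (fun i => l i) hne'
    have hi' : z i ≠ z' i := (Finset.mem_filter.1 hi).2
    have hpre : ∀ j, l j < l i → z j = z' j := by
      intro j hj
      by_contra hc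
      exact absurd (hmin j (by simp [hc])) (not_le.2 hj)
    simp only [hC, Fintype.mem_piFinset] at hw hw'
    have h1 := hw i
    have h2 := hw' i
    by_cases f1 : Forc S l z i
    · exact hi' (f1 z' hzS' (fun j hj => (hpre j hj).symm)).symm
    · by_cases f2 : Forc S l z' i
      · exact hi' (f2 z hzS hpre)
      · rw [if_neg f1, Finset.mem_singleton] at h1
        rw [if_neg f2, Finset.mem_singleton] at h2
        exact hi' (h1.symm.trans h2)
  calc ∑ z ∈ univ.filter (fun z => z ∈ S), 2 ^ nfo S l z
      = ∑ z ∈ univ.filter (fun z => z ∈ S), (C z).card := by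
        refine Finset.sum_congr rfl fun z _ => (hcard z).symm
    _ = ((univ.filter (fun z => z ∈ S)).biUnion C).card := (Finset.card_biUnion hdisj).symm
    _ ≤ (univ : Finset (Fin m → Bool)).card := Finset.card_le_univ _
    _ = 2 ^ m := by simp

/-- `z` has no other point of `S` within distance `d` which agrees with `z` on `P`. -/
def LocIso (d : ℕ) (P : Finset (Fin m)) (S : Set (Fin m → Bool)) (z : Fin m → Bool) : Prop :=
  ∀ W : Finset (Fin m), W.Nonempty → W.card ≤ d → Disjoint W P → flipSet z W ∉ S

/-- All chains of length `j` from `W` meet `β`. -/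
def Hit (A : Finset (Fin m) → Finset (Fin m)) : ℕ → Finset (Fin m) → (Fin m → Bool) → Prop
  | 0, _, _ => False
  | j + 1, W, β => ∀ i ∈ A W \ W, β i = true ∨ Hit A j (insert i W) β

lemma Hit.mono {A : Finset (Fin m) → Finset (Fin m)} : ∀ {j : ℕ} {W : Finset (Fin m)}
    {β β' : Fin m → Bool}, β ≤ β' → Hit A j W β → Hit A j W β'
  | 0, _, _, _, _, h => h
  | j + 1, W, β, β', hb, h => by
      intro i hi
      rcases h i hi with h1 | h1
      · left
        have := hb i
        rw [h1] at this
        exact top_le_iff.1 this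
      · exact Or.inr (Hit.mono hb h1)

lemma Hit.congr {A : Finset (Fin m) → Finset (Fin m)} : ∀ {j : ℕ} {W : Finset (Fin m)}
    {β β' : Fin m → Bool}, (∀ i, i ∉ W → β i = β' i) → Hit A j W β → Hit A j W β'
  | 0, _, _, _, _, h => h
  | j + 1, W, β, β', hb, h => by
      intro i hi
      have hiW := (Finset.mem_sdiff.1 hi).2
      rcases h i hi with h1 | h1
      · left; rw [← hb i hiW]; exact h1
      · exact Or.inr (Hit.congr (fun l hl => hb l fun h => hl (Finset.mem_insert_of_mem h)) h1)

/-- Soundness. -/
lemma Hit.sound {A : Finset (Fin m) → Finset (Fin m)} {S : Set (Fin m → Bool)}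
    {z y : Fin m → Bool} {P : Finset (Fin m)} {d : ℕ}
    (hA : ∀ W : Finset (Fin m), W.Nonempty → W.card ≤ d → Disjoint W P →
      ∀ x : Fin m → Bool, (∀ i ∈ A W, x i = flipSet z W i) → x ∉ S)
    (hy : y ∈ S) {β : Fin m → Bool} (hβ : ∀ i, β i = true → y i = z i) (hP : ∀ i ∈ P, β i = true) :
    ∀ {j : ℕ} {W : Finset (Fin m)}, W.Nonempty → W.card + j ≤ d + 1 → Disjoint W P →
      (∀ i ∈ W, y i ≠ z i) → ¬ Hit A j W β
  | 0, _, _, _, _, _, h => h
  | j + 1, W, hW, hc, hd, hne, h => by
      have h1 : ¬ ∀ i ∈ A W, y i = flipSet z W i := fun h2 => hA W hW (by omega) hd y h2 hy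
      push Not at h1
      obtain ⟨i, hi, hyi⟩ := h1
      have hiW : i ∉ W := by
        intro hiW
        apply hyi
        have := hne i hiW
        simp only [flipSet, hiW, if_true]
        cases h3 : y i <;> cases h4 : z i <;> simp_all
      have hyz : y i ≠ z i := by simpa [flipSet, hiW] using hyi
      rcases h i (Finset.mem_sdiff.2 ⟨hi, hiW⟩) with h5 | h5
      · exact hyz (hβ i h5)
      · refine Hit.sound hA hy hβ hP (Finset.insert_nonempty i W) ?_ ?_ ?_ h5
        · rw [Finset.card_insert_of_notMem hiW]; omega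
        · rw [Finset.disjoint_insert_left]
          refine ⟨fun hiP => hyz (hβ i (hP i hiP)), hd⟩
        · intro l hl
          rcases Finset.mem_insert.1 hl with rfl | hl
          · exact hyz
          · exact hne l hl

/-- weights -/
noncomputable def wr (r : ℝ) : Bool → ℝ := fun b => if b then r else 1 - r

lemma wr_nonneg {r : ℝ} (h0 : 0 ≤ r) (h1 : r ≤ 1) (b : Bool) : 0 ≤ wr r b := by
  cases b <;> simp [wr, h0, h1]

lemma wr_sum (r : ℝ) : ∑ b, wr r b = 1 := by simp [wr]

/-- Harris' inequality. -/
lemma harris {r : ℝ} (h0 : 0 ≤ r) (h1 : r ≤ 1) {f g : (Fin m → Bool) → ℝ} (hf0 : 0 ≤ f)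
    (hg0 : 0 ≤ g) (hf : Monotone f) (hg : Monotone g) :
    Ex (wr r) f * Ex (wr r) g ≤ Ex (wr r) (fun ω => f ω * g ω) := by
  have h := fkg (μ := fun ω : Fin m → Bool => ∏ i, wr r (ω i)) (f := f) (g := g)
    (fun ω => Finset.prod_nonneg fun i _ => wr_nonneg h0 h1 _) hf0 hg0 hf hg
    (fun a b => by
      rw [← Finset.prod_mul_distrib, ← Finset.prod_mul_distrib]
      apply le_of_eq
      refine Finset.prod_congr rfl fun i _ => ?_
      show wr r (a i) * wr r (b i) = wr r (a i ⊓ b i) * wr r (a i ⊔ b i)
      cases a i <;> cases b i <;> (simp [wr]; try ring))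
  have hs : ∑ ω : Fin m → Bool, ∏ i, wr r (ω i) = 1 := by
    have := Ex_const (I := Fin m) (wr_sum r) 1
    unfold Ex at this
    simpa using this
  rw [hs, one_mul] at h
  exact h

lemma harris_prod {r : ℝ} (h0 : 0 ≤ r) (h1 : r ≤ 1) {κ : Type*} [DecidableEq κ] (I : Finset κ)
    (g : κ → (Fin m → Bool) → ℝ) (hg0 : ∀ i, 0 ≤ g i) (hg : ∀ i, Monotone (g i)) :
    ∏ i ∈ I, Ex (wr r) (g i) ≤ Ex (wr r) (fun ω => ∏ i ∈ I, g i ω) := by
  induction I using Finset.induction_on with
  | empty =>
    simp only [Finset.prod_empty]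
    rw [Ex_const (wr_sum r)]
  | insert i I hi ih =>
    rw [Finset.prod_insert hi]
    have hmono : Monotone (fun ω => ∏ i ∈ I, g i ω) := by
      intro a b hab
      exact Finset.prod_le_prod (fun i _ => hg0 i a) (fun i _ => hg i hab)
    have hnn : 0 ≤ (fun ω => ∏ i ∈ I, g i ω) := fun ω => Finset.prod_nonneg fun i _ => hg0 i ω
    refine (mul_le_mul_of_nonneg_left ih (Ex_nonneg (wr_nonneg h0 h1) (hg0 i))).trans ?_
    refine (harris h0 h1 (hg0 i) hnn (hg i) hmono).trans (le_of_eq ?_)
    congr 1
    funext ω
    rw [Finset.prod_insert hi]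

/-- The recursion of Paturi, Pudlák, Saks and Zane. -/
noncomputable def Q (k : ℕ) (r : ℝ) : ℕ → ℝ
  | 0 => 0
  | j + 1 => (r + (1 - r) * Q k r j) ^ (k - 1)

lemma Q_nonneg (k : ℕ) {r : ℝ} (h0 : 0 ≤ r) (h1 : r ≤ 1) : ∀ j, 0 ≤ Q k r j
  | 0 => le_refl _
  | j + 1 => pow_nonneg (add_nonneg h0 (mul_nonneg (by linarith) (Q_nonneg k h0 h1 j))) _

lemma Q_le_one (k : ℕ) {r : ℝ} (h0 : 0 ≤ r) (h1 : r ≤ 1) : ∀ j, Q k r j ≤ 1
  | 0 => zero_le_one
  | j + 1 => by
      apply pow_le_one₀ (add_nonneg h0 (mul_nonneg (by linarith) (Q_nonneg k h0 h1 j)))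
      nlinarith [Q_le_one k h0 h1 j]

open Classical in
/-- The probability that all chains are met. -/
lemma prob_hit {k d : ℕ} {r : ℝ} (h0 : 0 ≤ r) (h1 : r ≤ 1)
    {A : Finset (Fin m) → Finset (Fin m)} {P : Finset (Fin m)}
    (hA : ∀ W : Finset (Fin m), W.Nonempty → W.card ≤ d → Disjoint W P → (A W \ W).card ≤ k - 1) :
    ∀ (j : ℕ) (W : Finset (Fin m)), W.Nonempty → W.card + j ≤ d + 1 → Disjoint W P →
      Q k r j ≤ Ex (wr r) (fun ω : Fin m → Bool =>
        if Hit A j W (fun i => decide (i ∈ P) || ω i) then (1 : ℝ) else 0)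
  | 0, W, _, _, _ => by
      apply Ex_nonneg (wr_nonneg h0 h1)
      intro ω
      split_ifs <;> norm_num
  | j + 1, W, hW, hc, hd => by
      set c : ℝ := r + (1 - r) * Q k r j with hcdef
      have hc0 : 0 ≤ c := add_nonneg h0 (mul_nonneg (by linarith) (Q_nonneg k h0 h1 j))
      have hc1 : c ≤ 1 := by nlinarith [Q_le_one k h0 h1 j]
      set g : Fin m → (Fin m → Bool) → ℝ := fun i ω =>
        if ((decide (i ∈ P) || ω i) = true ∨
          Hit A j (insert i W) (fun i => decide (i ∈ P) || ω i)) then (1 : ℝ) else 0 with hg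
      have hg0 : ∀ i, 0 ≤ g i := by
        intro i ω
        simp only [hg]
        split_ifs <;> norm_num
      have hβ : ∀ {ω ω' : Fin m → Bool}, ω ≤ ω' →
          (fun i => decide (i ∈ P) || ω i) ≤ (fun i => decide (i ∈ P) || ω' i) := by
        intro ω ω' h i
        show (decide (i ∈ P) || ω i) ≤ (decide (i ∈ P) || ω' i)
        have h1 : ω i ≤ ω' i := h i
        revert h1
        generalize ω i = a
        generalize ω' i = b
        generalize decide (i ∈ P) = c
        revert a b c
        decide
      have hgm : ∀ i, Monotone (g i) := by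
        intro i ω ω' h
        simp only [hg]
        by_cases h5 : ((decide (i ∈ P) || ω i) = true ∨
          Hit A j (insert i W) (fun i => decide (i ∈ P) || ω i))
        · have h6 : ((decide (i ∈ P) || ω' i) = true ∨
              Hit A j (insert i W) (fun i => decide (i ∈ P) || ω' i)) := by
            rcases h5 with h5 | h5
            · left
              have h7 := hβ h i
              simp only at h7
              rw [h5] at h7
              exact top_le_iff.1 h7
            · exact Or.inr (Hit.mono (hβ h) h5)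
          rw [if_pos h5, if_pos h6]
        · rw [if_neg h5]
          split_ifs <;> norm_num
      have hprod : (fun ω : Fin m → Bool =>
          if Hit A (j + 1) W (fun i => decide (i ∈ P) || ω i) then (1 : ℝ) else 0) =
          fun ω => ∏ i ∈ A W \ W, g i ω := by
        funext ω
        by_cases h : Hit A (j + 1) W (fun i => decide (i ∈ P) || ω i)
        · rw [if_pos h]
          symm
          apply Finset.prod_eq_one
          intro i hi
          simp only [hg]
          rw [if_pos (h i hi)]
        · rw [if_neg h]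
          symm
          have h' : ¬ ∀ i ∈ A W \ W, ((decide (i ∈ P) || ω i) = true ∨
            Hit A j (insert i W) (fun i => decide (i ∈ P) || ω i)) := h
          push Not at h'
          obtain ⟨i, hi, h2, h3⟩ := h'
          apply Finset.prod_eq_zero hi
          simp only [hg]
          rw [if_neg]
          rintro (h4 | h4)
          · exact h2 h4
          · exact h3 h4
      rw [hprod]
      refine le_trans ?_ (harris_prod h0 h1 (A W \ W) g hg0 hgm)
      have hfac : ∀ i ∈ A W \ W, c ≤ Ex (wr r) (g i) := by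
        intro i hi
        have hiW := (Finset.mem_sdiff.1 hi).2
        by_cases hiP : i ∈ P
        · have : g i = fun _ => 1 := by
            funext ω
            simp [hg, hiP]
          rw [this, Ex_const (wr_sum r)]
          exact hc1
        · have ih := prob_hit h0 h1 hA j (insert i W) (Finset.insert_nonempty i W)
            (by rw [Finset.card_insert_of_notMem hiW]; omega)
            (by rw [Finset.disjoint_insert_left]; exact ⟨hiP, hd⟩)
          rw [Ex_resample (wr_sum r) (g i) i]
          have h2 : ∀ ω : Fin m → Bool, ∑ a, wr r a * g i (Function.update ω i a) =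
              r + (1 - r) * (if Hit A j (insert i W) (fun i => decide (i ∈ P) || ω i)
                then (1 : ℝ) else 0) := by
            intro ω
            rw [Fintype.sum_bool]
            have e1 : g i (Function.update ω i true) = 1 := by
              simp [hg]
            have e2 : g i (Function.update ω i false) =
                (if Hit A j (insert i W) (fun i => decide (i ∈ P) || ω i) then (1 : ℝ) else 0) := by
              have e3 : Hit A j (insert i W)
                  (fun l => decide (l ∈ P) || Function.update ω i false l) ↔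
                  Hit A j (insert i W) (fun l => decide (l ∈ P) || ω l) := by
                constructor
                · apply Hit.congr
                  intro l hl
                  rw [Function.update_of_ne]
                  rintro rfl
                  exact hl (Finset.mem_insert_self _ _)
                · apply Hit.congr
                  intro l hl
                  rw [Function.update_of_ne]
                  rintro rfl
                  exact hl (Finset.mem_insert_self _ _)
              simp only [hg]
              rw [e3]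
              simp [hiP]
            rw [e1, e2]
            simp [wr]
          rw [show (fun ω : Fin m → Bool => ∑ a, wr r a * g i (Function.update ω i a)) =
            fun ω => r + (1 - r) * (if Hit A j (insert i W) (fun i => decide (i ∈ P) || ω i)
                then (1 : ℝ) else 0) from funext h2]
          rw [Ex_add, Ex_const (wr_sum r), Ex_smul]
          have := mul_le_mul_of_nonneg_left ih (by linarith : 0 ≤ 1 - r)
          linarith
      calc Q k r (j + 1) = c ^ (k - 1) := rfl
        _ ≤ c ^ (A W \ W).card := pow_le_pow_of_le_one hc0 hc1 (hA W hW (by omega) hd)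
        _ = ∏ _i ∈ A W \ W, c := by rw [Finset.prod_const]
        _ ≤ ∏ i ∈ A W \ W, Ex (wr r) (g i) := Finset.prod_le_prod (fun i _ => hc0) hfac

/-- The average of the recursion over `r = 0, 1/M, …, (M-1)/M`. -/
noncomputable def qavg (k d M : ℕ) : ℝ := (∑ s ∈ Finset.range M, Q k ((s : ℝ) / M) d) / M

/-- labels -/
def lab {M : ℕ} (P : Finset (Fin m)) (t : Fin m → Fin M) (i : Fin m) : ℕ :=
  if i ∈ P then 0 else (t i : ℕ) + 1

lemma push_lt {M : ℕ} (hM : 0 < M) (s : Fin M) (b : Bool) : wr ((s : ℕ) / (M : ℝ)) b =
    ∑ a ∈ univ.filter (fun a : Fin M => decide (a < s) = b), (1 / (M : ℝ)) := by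
  have hM0 : (M : ℝ) ≠ 0 := by exact_mod_cast hM.ne'
  rw [Finset.sum_const, nsmul_eq_mul]
  cases b with
  | true =>
    have : (univ.filter (fun a : Fin M => decide (a < s) = true)) = Finset.Iio s := by
      ext a; simp
    rw [this, Fin.card_Iio]
    simp [wr]
    ring
  | false =>
    have : (univ.filter (fun a : Fin M => decide (a < s) = false)) = Finset.Ici s := by
      ext a; simp
    rw [this, Fin.card_Ici, Nat.cast_sub s.2.le]
    simp [wr]
    field_simp

open Classical in
/-- The number of labelings in which a bit of a locally isolated point is forced. -/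
lemma forc_many {k d M : ℕ} (hM : 0 < M) {S : Set (Fin m → Bool)} (hS : KCnf k S)
    {P : Finset (Fin m)} {z : Fin m → Bool} (hz : z ∈ S) (hiso : LocIso d P S z) (hd1 : 1 ≤ d)
    {v : Fin m} (hv : v ∉ P) :
    qavg k d M ≤ Ex (fun _ : Fin M => 1 / (M : ℝ))
      (fun t : Fin m → Fin M => if Forc S (lab P t) z v then (1 : ℝ) else 0) := by
  have hM0 : (M : ℝ) ≠ 0 := by exact_mod_cast hM.ne'
  have hMpos : (0 : ℝ) < M := by exact_mod_cast hM
  -- certificates
  have hcert : ∀ W : Finset (Fin m), ∃ A : Finset (Fin m), W.Nonempty → W.card ≤ d →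
      Disjoint W P → A.card ≤ k ∧
      ∀ x : Fin m → Bool, (∀ i ∈ A, x i = flipSet z W i) → x ∉ S := by
    intro W
    by_cases h : W.Nonempty ∧ W.card ≤ d ∧ Disjoint W P
    · obtain ⟨A, hA, hA'⟩ := hS _ (hiso W h.1 h.2.1 h.2.2)
      exact ⟨A, fun _ _ _ => ⟨hA, hA'⟩⟩
    · exact ⟨∅, fun h1 h2 h3 => absurd ⟨h1, h2, h3⟩ h⟩
  choose A hA using hcert
  have hAk : ∀ W : Finset (Fin m), W.Nonempty → W.card ≤ d → Disjoint W P →
      (A W \ W).card ≤ k - 1 := by
    intro W h1 h2 h3
    obtain ⟨hc, hx⟩ := hA W h1 h2 h3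
    have hne : (A W ∩ W).Nonempty := by
      by_contra hne
      rw [Finset.not_nonempty_iff_eq_empty] at hne
      apply hx z _ hz
      intro i hi
      have : i ∉ W := fun hiW => by
        have := Finset.mem_inter.2 ⟨hi, hiW⟩
        rw [hne] at this
        simp at this
      simp [flipSet, this]
    have := Finset.card_sdiff_add_card_inter (A W) W
    have h4 := Finset.card_pos.2 hne
    omega
  have hw1 : ∑ _a : Fin M, (1 / (M : ℝ)) = 1 := by
    rw [Finset.sum_const, Finset.card_univ, Fintype.card_fin, nsmul_eq_mul]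
    field_simp
  have hwn : ∀ _a : Fin M, 0 ≤ (1 / (M : ℝ)) := fun _ => by positivity
  rw [Ex_resample hw1 _ v]
  have hpt : ∀ t : Fin m → Fin M,
      ∑ s : Fin M, (1 / (M : ℝ)) * (if Hit A d {v} (fun i => decide (i ∈ P) || decide (t i < s))
        then (1 : ℝ) else 0) ≤
      ∑ s : Fin M, (1 / (M : ℝ)) * (if Forc S (lab P (Function.update t v s)) z v
        then (1 : ℝ) else 0) := by
    intro t
    apply Finset.sum_le_sum
    intro s _
    apply mul_le_mul_of_nonneg_left _ (by positivity)
    by_cases h : Hit A d {v} (fun i => decide (i ∈ P) || decide (t i < s))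
    · rw [if_pos h, if_pos]
      intro y hy hpre
      by_contra hne
      have h' : Hit A d {v} (Function.update
          (fun i => decide (i ∈ P) || decide (t i < s)) v false) := by
        apply Hit.congr _ h
        intro i hi
        rw [Function.update_of_ne]
        exact fun h => hi (by simp [h])
      refine Hit.sound (S := S) (z := z) (y := y) (P := P) (d := d)
        (fun W h1 h2 h3 => (hA W h1 h2 h3).2) hy ?_ ?_ (by simp) (by simp [add_comm])
        (by simpa using hv) ?_ h'
      · intro i hi
        by_cases hiv : i = v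
        · subst hiv; simp at hi
        · rw [Function.update_of_ne hiv] at hi
          apply hpre
          unfold lab
          rw [if_neg hv, Function.update_self, Function.update_of_ne hiv]
          by_cases hiP : i ∈ P
          · simp [hiP]
          · simp only [hiP, decide_false, Bool.false_or, decide_eq_true_eq] at hi
            rw [if_neg hiP]
            have : (t i : ℕ) < s := hi
            omega
      · intro i hi
        have hiv : i ≠ v := fun h => hv (h ▸ hi)
        rw [Function.update_of_ne hiv]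
        simp [hi]
      · intro i hi
        rw [Finset.mem_singleton.1 hi]
        exact hne
    · rw [if_neg h]
      split_ifs <;> norm_num
  refine le_trans ?_ (Ex_mono hwn hpt)
  rw [Ex_sum]
  have hs : ∀ s : Fin M, (1 / (M : ℝ)) * Q k ((s : ℕ) / (M : ℝ)) d ≤
      Ex (fun _ : Fin M => 1 / (M : ℝ)) (fun t : Fin m → Fin M => (1 / (M : ℝ)) *
        (if Hit A d {v} (fun i => decide (i ∈ P) || decide (t i < s)) then (1 : ℝ) else 0)) := by
    intro s
    rw [Ex_smul]
    apply mul_le_mul_of_nonneg_left _ (by positivity)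
    have hr0 : 0 ≤ ((s : ℕ) : ℝ) / M := by positivity
    have hr1 : ((s : ℕ) : ℝ) / M ≤ 1 := by
      rw [div_le_one hMpos]
      exact_mod_cast s.2.le
    have h3 := prob_hit (k := k) (d := d) hr0 hr1 hAk d {v} (by simp) (by simp [add_comm])
      (by simpa using hv)
    refine h3.trans (le_of_eq ?_)
    exact (Ex_push (fun a : Fin M => decide (a < s)) (fun _ => 1 / (M : ℝ)) (wr ((s : ℕ) / (M : ℝ)))
      (push_lt hM s) (fun ω => if Hit A d {v} (fun i => decide (i ∈ P) || ω i)
        then (1 : ℝ) else 0)).symm
  have h4 := Finset.sum_le_sum (s := (univ : Finset (Fin M))) fun s _ => hs s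
  refine le_trans (le_of_eq ?_) h4
  rw [← Finset.mul_sum, qavg, ← Fin.sum_univ_eq_sum_range (fun s => Q k ((s : ℝ) / M) d)]
  ring

open Classical in
/-- **The number of locally isolated points.** -/
theorem card_locIso {k d M : ℕ} (hM : 0 < M) (hd1 : 1 ≤ d) {S : Set (Fin m → Bool)}
    (hS : KCnf k S) (P : Finset (Fin m)) :
    ((univ.filter (fun z => z ∈ S ∧ LocIso d P S z)).card : ℝ) ≤
      (2 : ℝ) ^ ((m : ℝ) - (m - P.card : ℕ) * qavg k d M) := by
  have : Nonempty (Fin M) := ⟨⟨0, hM⟩⟩
  have hMpos : (0 : ℝ) < M := by exact_mod_cast hM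
  have hN : (0 : ℝ) < Fintype.card (Fin m → Fin M) := by exact_mod_cast Fintype.card_pos
  have hEx : ∀ F : (Fin m → Fin M) → ℝ, Ex (fun _ : Fin M => 1 / (M : ℝ)) F *
      Fintype.card (Fin m → Fin M) = ∑ t, F t := by
    intro F
    unfold Ex
    simp only [Finset.prod_const, Finset.card_univ, Fintype.card_fin, Fintype.card_fun]
    rw [← Finset.mul_sum, one_div, inv_pow]
    push_cast
    field_simp
  have h1 : ∀ z ∈ univ.filter (fun z => z ∈ S ∧ LocIso d P S z),
      (Fintype.card (Fin m → Fin M) : ℝ) * (2 : ℝ) ^ ((m - P.card : ℕ) * qavg k d M) ≤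
        ∑ t : Fin m → Fin M, (2 : ℝ) ^ nfo S (lab P t) z := by
    intro z hz
    obtain ⟨hzS, hiso⟩ := (Finset.mem_filter.1 hz).2
    apply jensen_pow
    have h2 : ∑ t : Fin m → Fin M, (nfo S (lab P t) z : ℝ) =
        ∑ v : Fin m, ∑ t : Fin m → Fin M, (if Forc S (lab P t) z v then (1 : ℝ) else 0) := by
      rw [Finset.sum_comm]
      refine Finset.sum_congr rfl fun t _ => ?_
      rw [nfo, Finset.card_filter]
      push_cast
      rfl
    rw [h2]
    have h3 : ∀ v ∈ univ \ P, qavg k d M * Fintype.card (Fin m → Fin M) ≤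
        ∑ t : Fin m → Fin M, (if Forc S (lab P t) z v then (1 : ℝ) else 0) := by
      intro v hv
      rw [← hEx]
      exact mul_le_mul_of_nonneg_right (forc_many hM hS hzS hiso hd1 (Finset.mem_sdiff.1 hv).2)
        hN.le
    have h4 := Finset.sum_le_sum h3
    rw [Finset.sum_const, nsmul_eq_mul, Finset.card_sdiff_of_subset (Finset.subset_univ _),
      Finset.card_univ, Fintype.card_fin] at h4
    refine le_trans (le_of_eq (by ring)) (h4.trans ?_)
    apply Finset.sum_le_sum_of_subset_of_nonneg (Finset.subset_univ _)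
    intro v _ _
    apply Finset.sum_nonneg
    intro t _
    split_ifs <;> norm_num
  have h4 := Finset.sum_le_sum h1
  rw [Finset.sum_const, nsmul_eq_mul, Finset.sum_comm] at h4
  have h5 : ∀ t ∈ (univ : Finset (Fin m → Fin M)),
      ∑ z ∈ univ.filter (fun z => z ∈ S ∧ LocIso d P S z), (2 : ℝ) ^ nfo S (lab P t) z ≤ 2 ^ m := by
    intro t _
    have h6 : ∑ z ∈ univ.filter (fun z => z ∈ S ∧ LocIso d P S z), 2 ^ nfo S (lab P t) z ≤
        2 ^ m := by
      refine le_trans (Finset.sum_le_sum_of_subset ?_) (kraft' S (lab P t))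
      intro z hz
      exact Finset.mem_filter.2 ⟨Finset.mem_univ _, (Finset.mem_filter.1 hz).2.1⟩
    exact_mod_cast h6
  have h7 := Finset.sum_le_sum h5
  rw [Finset.sum_const, nsmul_eq_mul, Finset.card_univ] at h7
  have h8 := h4.trans h7
  have h9 : ((univ.filter (fun z => z ∈ S ∧ LocIso d P S z)).card : ℝ) *
      (2 : ℝ) ^ ((m - P.card : ℕ) * qavg k d M) ≤ 2 ^ m := by
    have : (Fintype.card (Fin m → Fin M) : ℝ) *
        (((univ.filter (fun z => z ∈ S ∧ LocIso d P S z)).card : ℝ) *
          (2 : ℝ) ^ ((m - P.card : ℕ) * qavg k d M)) ≤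
        (Fintype.card (Fin m → Fin M) : ℝ) * 2 ^ m := by linarith
    exact le_of_mul_le_mul_left this hN
  rw [Real.rpow_sub (by norm_num), Real.rpow_natCast, le_div_iff₀ (by positivity)]
  exact h9

end Pool.Agent.H96.Ppsz
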