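import Mathlib
import Pool.Agent.H96.Kr
import Pool.Agent.H96.Ppsz

/-!
# Graphs without `K_{r,u}` whose neighbourhoods are unions of few sets given by `k`-CNFs:
the bound from locally isolated solutions
-/

set_option autoImplicit false

namespace Pool.Agent.H96.Ppsz

open Finset Pool.Agent.H96.Ppz H568R2

variable {m : ℕ}

lemma qavg_nonneg (k d M : ℕ) : 0 ≤ qavg k d M := by
  unfold qavg
  rcases Nat.eq_zero_or_pos M with h | h
  · subst h; simp
  · have hM : (0 : ℝ) < M := by exact_mod_cast h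
    apply div_nonneg _ hM.le
    apply Finset.sum_nonneg
    intro s hs
    apply Q_nonneg k (by positivity)
    rw [div_le_one hM]
    exact_mod_cast (Finset.mem_range.1 hs).le

lemma qavg_le_one (k d M : ℕ) : qavg k d M ≤ 1 := by
  unfold qavg
  rcases Nat.eq_zero_or_pos M with h | h
  · subst h; simp
  · have hM : (0 : ℝ) < M := by exact_mod_cast h
    rw [div_le_one hM]
    calc ∑ s ∈ Finset.range M, Q k ((s : ℝ) / M) d ≤ ∑ s ∈ Finset.range M, (1 : ℝ) := by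
          apply Finset.sum_le_sum
          intro s hs
          apply Q_le_one k (by positivity)
          rw [div_le_one hM]
          exact_mod_cast (Finset.mem_range.1 hs).le
      _ = M := by simp

/-- A family of disjoint nonempty sets of size at most `d`. -/
def Fam (d : ℕ) (𝒲 : Finset (Finset (Fin m))) : Prop :=
  (∀ W ∈ 𝒲, W.Nonempty ∧ W.card ≤ d) ∧ ∀ W ∈ 𝒲, ∀ W' ∈ 𝒲, W ≠ W' → Disjoint W W'

/-- the union of the members of a family -/
def un (I : Finset (Finset (Fin m))) : Finset (Fin m) := I.biUnion id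

lemma mem_un {I : Finset (Finset (Fin m))} {i : Fin m} : i ∈ un I ↔ ∃ W ∈ I, i ∈ W := by
  simp [un]

/-- The points such that all points obtained by flipping the union of some members of `𝒲` are
in `S`. -/
def Cube (𝒲 : Finset (Finset (Fin m))) (S : Set (Fin m → Bool)) : Set (Fin m → Bool) :=
  {z | ∀ I, I ⊆ 𝒲 → flipSet z (un I) ∈ S}

lemma flipSet_empty (z : Fin m → Bool) : flipSet z ∅ = z := by
  funext i; simp [flipSet]

lemma cube_sub {𝒲 : Finset (Finset (Fin m))} {S : Set (Fin m → Bool)} {z : Fin m → Bool}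
    (h : z ∈ Cube 𝒲 S) : z ∈ S := by
  have := h ∅ (Finset.empty_subset _)
  simpa [un, flipSet_empty] using this

lemma cube_mono {𝒲 𝒲' : Finset (Finset (Fin m))} (hs : 𝒲' ⊆ 𝒲) {S : Set (Fin m → Bool)}
    {z : Fin m → Bool} (h : z ∈ Cube 𝒲 S) : z ∈ Cube 𝒲' S := fun I hI => h I (hI.trans hs)

lemma kcnf_cube {k : ℕ} {S : Set (Fin m → Bool)} (hS : KCnf k S)
    (𝒲 : Finset (Finset (Fin m))) : KCnf k (Cube 𝒲 S) := by
  intro y hy
  have hy' : ¬ ∀ I, I ⊆ 𝒲 → flipSet y (un I) ∈ S := hy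
  push Not at hy'
  obtain ⟨I, hI, hyS⟩ := hy'
  obtain ⟨A, hA, hcert⟩ := hS _ hyS
  refine ⟨A, hA, fun z hz hzc => hcert _ ?_ (hzc I hI)⟩
  intro i hi
  simp only [flipSet, hz i hi]

lemma Fam.subset {d : ℕ} {𝒲 𝒲' : Finset (Finset (Fin m))} (h : Fam d 𝒲) (hs : 𝒲' ⊆ 𝒲) :
    Fam d 𝒲' := ⟨fun W hW => h.1 W (hs hW), fun W hW W' hW' => h.2 W (hs hW) W' (hs hW')⟩

open Classical in
lemma dichotomy' {a d : ℕ} {S : Set (Fin m → Bool)} {z : Fin m → Bool} (hz : z ∈ S) :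
    (∃ 𝒲 : Finset (Finset (Fin m)), Fam d 𝒲 ∧ 𝒲.card = a ∧ z ∈ Cube 𝒲 S) ∨
    (∃ 𝒲 : Finset (Finset (Fin m)), Fam d 𝒲 ∧ 𝒲.card < a ∧ z ∈ Cube 𝒲 S ∧
      LocIso d (un 𝒲) (Cube 𝒲 S) z) := by
  have hne : (univ.filter (fun 𝒲 : Finset (Finset (Fin m)) => Fam d 𝒲 ∧ z ∈ Cube 𝒲 S)).Nonempty := by
    refine ⟨∅, Finset.mem_filter.2 ⟨Finset.mem_univ _, ⟨by simp [Fam], ?_⟩⟩⟩
    intro I hI
    rw [Finset.subset_empty.1 hI]
    simpa [un, flipSet_empty] using hz
  obtain ⟨𝒲, h𝒲, hmax⟩ := Finset.exists_max_image _ Finset.card hne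
  obtain ⟨hF, hzC⟩ := (Finset.mem_filter.1 h𝒲).2
  by_cases hc : a ≤ 𝒲.card
  · obtain ⟨B, hB, hBc⟩ := Finset.exists_subset_card_eq hc
    exact Or.inl ⟨B, hF.subset hB, hBc, cube_mono hB hzC⟩
  · push Not at hc
    refine Or.inr ⟨𝒲, hF, hc, hzC, ?_⟩
    intro W hW hWd hdisj hflip
    have hWn : W ∉ 𝒲 := by
      intro hWm
      obtain ⟨i, hi⟩ := hW
      exact Finset.disjoint_left.1 hdisj hi (mem_un.2 ⟨W, hWm, hi⟩)
    have hdW : ∀ W' ∈ 𝒲, Disjoint W W' := by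
      intro W' hW'
      rw [Finset.disjoint_left]
      intro i hi hi'
      exact Finset.disjoint_left.1 hdisj hi (mem_un.2 ⟨W', hW', hi'⟩)
    have hF' : Fam d (insert W 𝒲) := by
      refine ⟨fun W' hW' => ?_, fun W₁ h₁ W₂ h₂ hne => ?_⟩
      · rcases Finset.mem_insert.1 hW' with rfl | h
        · exact ⟨hW, hWd⟩
        · exact hF.1 W' h
      · rcases Finset.mem_insert.1 h₁ with g₁ | g₁
        · rcases Finset.mem_insert.1 h₂ with g₂ | g₂
          · exact absurd (g₁.trans g₂.symm) hne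
          · rw [g₁]; exact hdW _ g₂
        · rcases Finset.mem_insert.1 h₂ with g₂ | g₂
          · rw [g₂]; exact (hdW _ g₁).symm
          · exact hF.2 _ g₁ _ g₂ hne
    have hC' : z ∈ Cube (insert W 𝒲) S := by
      intro I hI
      by_cases hWI : W ∈ I
      · have hI' : I.erase W ⊆ 𝒲 := by
          intro W' hW'
          obtain ⟨h1, h2⟩ := Finset.mem_erase.1 hW'
          rcases Finset.mem_insert.1 (hI h2) with h | h
          · exact absurd h h1
          · exact h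
        have h3 := hflip (I.erase W) hI'
        have h4 : flipSet (flipSet z W) (un (I.erase W)) = flipSet z (un I) := by
          funext i
          by_cases hiW : i ∈ W
          · have h5 : i ∉ un (I.erase W) := by
              intro h6
              obtain ⟨W', hW', hiW'⟩ := mem_un.1 h6
              exact Finset.disjoint_left.1 (hdW W' (hI' hW')) hiW hiW'
            have h6 : i ∈ un I := mem_un.2 ⟨W, hWI, hiW⟩
            simp [flipSet, h5, h6, hiW]
          · by_cases h6 : i ∈ un I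
            · have h5 : i ∈ un (I.erase W) := by
                obtain ⟨W', hW', hiW'⟩ := mem_un.1 h6
                refine mem_un.2 ⟨W', Finset.mem_erase.2 ⟨?_, hW'⟩, hiW'⟩
                rintro rfl
                exact hiW hiW'
              simp [flipSet, h5, h6, hiW]
            · have h5 : i ∉ un (I.erase W) := by
                intro h7
                obtain ⟨W', hW', hiW'⟩ := mem_un.1 h7
                exact h6 (mem_un.2 ⟨W', Finset.mem_of_mem_erase hW', hiW'⟩)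
              simp [flipSet, h5, h6, hiW]
        rw [h4] at h3
        exact h3
      · apply hzC
        intro W' hW'
        rcases Finset.mem_insert.1 (hI hW') with h | h
        · exact absurd (h ▸ hW') hWI
        · exact h
    have := hmax _ (Finset.mem_filter.2 ⟨Finset.mem_univ _, hF', hC'⟩)
    rw [Finset.card_insert_of_notMem hWn] at this
    omega

/-- The number of small subsets. -/
lemma card_small' {α : Type*} [DecidableEq α] (G : Finset α) (b : ℕ) :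
    (G.powerset.filter (fun A => A.card ≤ b)).card ≤ (G.card + 1) ^ b := by
  have : (G.powerset.filter (fun A => A.card ≤ b)) ⊆
      (univ : Finset (Fin b → Option G)).image
        (fun g => G.filter (fun i => ∃ j, ∃ h : i ∈ G, g j = some ⟨i, h⟩)) := by
    intro A hA
    obtain ⟨hAG, hAc⟩ := Finset.mem_filter.1 hA
    have hAG' := Finset.mem_powerset.1 hAG
    refine Finset.mem_image.2 ⟨fun j => if h : j.1 < A.card then
      some ⟨((A.equivFin.symm ⟨j.1, h⟩ : A) : α), hAG' (A.equivFin.symm ⟨j.1, h⟩).2⟩ else none,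
      Finset.mem_univ _, ?_⟩
    ext i
    simp only [Finset.mem_filter]
    constructor
    · rintro ⟨_, j, h', hj⟩
      split_ifs at hj with h
      · simp only [Option.some.injEq, Subtype.mk.injEq] at hj
        rw [← hj]
        exact (A.equivFin.symm ⟨j.1, h⟩).2
    · intro hi
      refine ⟨hAG' hi, ⟨(A.equivFin ⟨i, hi⟩).1, lt_of_lt_of_le (A.equivFin ⟨i, hi⟩).2 hAc⟩,
        hAG' hi, ?_⟩
      simp
  refine (Finset.card_le_card this).trans (Finset.card_image_le.trans ?_)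
  simp

open Classical in
/-- The number of small families. -/
lemma card_fam (m d b : ℕ) :
    (univ.filter (fun 𝒲 : Finset (Finset (Fin m)) => Fam d 𝒲 ∧ 𝒲.card ≤ b)).card ≤
      (m + 1) ^ (d * b) := by
  set G : Finset (Finset (Fin m)) := univ.filter (fun W : Finset (Fin m) => W.Nonempty ∧ W.card ≤ d)
    with hG
  have hGc : G.card + 1 ≤ (m + 1) ^ d := by
    have h1 := card_small m d
    have h2 : insert ∅ G ⊆ univ.filter (fun A : Finset (Fin m) => A.card ≤ d) := by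
      intro A hA
      rcases Finset.mem_insert.1 hA with rfl | h
      · simp
      · exact Finset.mem_filter.2 ⟨Finset.mem_univ _, (Finset.mem_filter.1 h).2.2⟩
    have h3 : (∅ : Finset (Fin m)) ∉ G := by simp [hG]
    have h4 := Finset.card_le_card h2
    rw [Finset.card_insert_of_notMem h3] at h4
    exact h4.trans h1
  have h5 : (univ.filter (fun 𝒲 : Finset (Finset (Fin m)) => Fam d 𝒲 ∧ 𝒲.card ≤ b)) ⊆
      (G.powerset.filter (fun A => A.card ≤ b)) := by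
    intro 𝒲 h
    obtain ⟨h1, h2⟩ := (Finset.mem_filter.1 h).2
    refine Finset.mem_filter.2 ⟨Finset.mem_powerset.2 fun W hW =>
      Finset.mem_filter.2 ⟨Finset.mem_univ _, h1.1 W hW⟩, h2⟩
  refine (Finset.card_le_card h5).trans ((card_small' G b).trans ?_)
  rw [pow_mul]
  exact Nat.pow_le_pow_left hGc b

lemma card_un {d : ℕ} {𝒲 : Finset (Finset (Fin m))} (h : Fam d 𝒲) :
    (un 𝒲).card ≤ d * 𝒲.card := by
  unfold un
  refine Finset.card_biUnion_le.trans ?_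
  refine (Finset.sum_le_sum fun W hW => (h.1 W hW).2).trans ?_
  rw [Finset.sum_const, smul_eq_mul, mul_comm]

open Classical in
/-- Few elements of a set defined by constraints on `k` bits lie in no cube of dimension `a`
whose directions are flips of at most `d` bits. -/
theorem card_bad' {k d a M : ℕ} (hM : 0 < M) (hd : 1 ≤ d)
    {S : Set (Fin m → Bool)} (hS : KCnf k S) :
    ((univ.filter (fun z => z ∈ S ∧ ¬ ∃ 𝒲 : Finset (Finset (Fin m)), Fam d 𝒲 ∧ 𝒲.card = a ∧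
      z ∈ Cube 𝒲 S)).card : ℝ) ≤
      (m + 1) ^ (d * (a - 1)) * 2 ^ (d * (a - 1)) * ((2 : ℝ) ^ m) ^ (1 - qavg k d M) := by
  have hq0 := qavg_nonneg k d M
  have hq1 := qavg_le_one k d M
  have hsub : univ.filter (fun z => z ∈ S ∧ ¬ ∃ 𝒲 : Finset (Finset (Fin m)), Fam d 𝒲 ∧
      𝒲.card = a ∧ z ∈ Cube 𝒲 S) ⊆
      (univ.filter (fun 𝒲 : Finset (Finset (Fin m)) => Fam d 𝒲 ∧ 𝒲.card ≤ a - 1)).biUnion
        (fun 𝒲 => univ.filter (fun z => z ∈ Cube 𝒲 S ∧ LocIso d (un 𝒲) (Cube 𝒲 S) z)) := by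
    intro z hz
    obtain ⟨hzS, hzn⟩ := (Finset.mem_filter.1 hz).2
    rcases dichotomy' (a := a) (d := d) hzS with h | ⟨𝒲, hF, hc, h1, h2⟩
    · exact absurd h hzn
    · exact Finset.mem_biUnion.2 ⟨𝒲, Finset.mem_filter.2 ⟨Finset.mem_univ _, hF, by omega⟩,
        Finset.mem_filter.2 ⟨Finset.mem_univ _, h1, h2⟩⟩
  have hb : ∀ 𝒲 ∈ univ.filter (fun 𝒲 : Finset (Finset (Fin m)) => Fam d 𝒲 ∧ 𝒲.card ≤ a - 1),
      ((univ.filter (fun z => z ∈ Cube 𝒲 S ∧ LocIso d (un 𝒲) (Cube 𝒲 S) z)).card : ℝ) ≤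
        2 ^ (d * (a - 1)) * ((2 : ℝ) ^ m) ^ (1 - qavg k d M) := by
    intro 𝒲 h𝒲
    obtain ⟨hF, hc⟩ := (Finset.mem_filter.1 h𝒲).2
    refine (card_locIso hM hd (kcnf_cube hS 𝒲) (un 𝒲)).trans ?_
    rw [← Real.rpow_natCast (2 : ℝ) (d * (a - 1)), ← Real.rpow_natCast (2 : ℝ) m,
      ← Real.rpow_mul (by norm_num), ← Real.rpow_add (by norm_num)]
    apply Real.rpow_le_rpow_of_exponent_le (by norm_num)
    have h1 : (m : ℝ) - ((d * (a - 1) : ℕ) : ℝ) ≤ ((m - (un 𝒲).card : ℕ) : ℝ) := by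
      have h3 := card_un hF
      have h4 : d * 𝒲.card ≤ d * (a - 1) := Nat.mul_le_mul_left d hc
      have : m ≤ (m - (un 𝒲).card) + d * (a - 1) := by omega
      have h2 : (m : ℝ) ≤ ((m - (un 𝒲).card : ℕ) : ℝ) + ((d * (a - 1) : ℕ) : ℝ) := by
        exact_mod_cast this
      linarith
    have h3 := mul_le_mul_of_nonneg_right h1 hq0
    have h4 : ((d * (a - 1) : ℕ) : ℝ) * qavg k d M ≤ ((d * (a - 1) : ℕ) : ℝ) :=
      mul_le_of_le_one_right (by positivity) hq1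
    rw [sub_mul] at h3
    linarith
  calc ((univ.filter (fun z => z ∈ S ∧ ¬ ∃ 𝒲 : Finset (Finset (Fin m)), Fam d 𝒲 ∧
        𝒲.card = a ∧ z ∈ Cube 𝒲 S)).card : ℝ)
      ≤ (((univ.filter (fun 𝒲 : Finset (Finset (Fin m)) => Fam d 𝒲 ∧ 𝒲.card ≤ a - 1)).biUnion
        (fun 𝒲 => univ.filter (fun z => z ∈ Cube 𝒲 S ∧ LocIso d (un 𝒲) (Cube 𝒲 S) z))).card
          : ℝ) := by
        exact_mod_cast Finset.card_le_card hsub
    _ ≤ ∑ 𝒲 ∈ univ.filter (fun 𝒲 : Finset (Finset (Fin m)) => Fam d 𝒲 ∧ 𝒲.card ≤ a - 1),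
        ((univ.filter (fun z => z ∈ Cube 𝒲 S ∧ LocIso d (un 𝒲) (Cube 𝒲 S) z)).card : ℝ) := by
        exact_mod_cast Finset.card_biUnion_le
    _ ≤ ∑ _𝒲 ∈ univ.filter (fun 𝒲 : Finset (Finset (Fin m)) => Fam d 𝒲 ∧ 𝒲.card ≤ a - 1),
        (2 ^ (d * (a - 1)) * ((2 : ℝ) ^ m) ^ (1 - qavg k d M)) := Finset.sum_le_sum hb
    _ = ((univ.filter (fun 𝒲 : Finset (Finset (Fin m)) => Fam d 𝒲 ∧ 𝒲.card ≤ a - 1)).card : ℝ) *
        (2 ^ (d * (a - 1)) * ((2 : ℝ) ^ m) ^ (1 - qavg k d M)) := by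
        rw [Finset.sum_const, nsmul_eq_mul]
    _ ≤ (m + 1) ^ (d * (a - 1)) * (2 ^ (d * (a - 1)) * ((2 : ℝ) ^ m) ^ (1 - qavg k d M)) := by
        apply mul_le_mul_of_nonneg_right _ (by positivity)
        exact_mod_cast card_fam m d (a - 1)
    _ = _ := by ring

lemma card_points {d : ℕ} {𝒲 : Finset (Finset (Fin m))} (h : Fam d 𝒲) (z : Fin m → Bool) :
    (𝒲.powerset.image (fun I => flipSet z (un I))).card = 2 ^ 𝒲.card := by
  rw [Finset.card_image_of_injOn, Finset.card_powerset]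
  intro I hI J hJ hIJ
  have hI' := Finset.mem_powerset.1 hI
  have hJ' := Finset.mem_powerset.1 hJ
  have hun : ∀ i, i ∈ un I ↔ i ∈ un J := by
    intro i
    have h1 := congrFun hIJ i
    simp only [flipSet] at h1
    by_cases a1 : i ∈ un I <;> by_cases a2 : i ∈ un J <;> simp [a1, a2] at h1 ⊢
  have key : ∀ I J : Finset (Finset (Fin m)), I ⊆ 𝒲 → J ⊆ 𝒲 → (∀ i, i ∈ un I ↔ i ∈ un J) →
      I ⊆ J := by
    intro I J hI hJ hu W hW
    obtain ⟨i, hi⟩ := (h.1 W (hI hW)).1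
    obtain ⟨W', hW', hi'⟩ := mem_un.1 ((hu i).1 (mem_un.2 ⟨W, hW, hi⟩))
    by_contra hne
    have : W ≠ W' := fun h => hne (h ▸ hW')
    exact Finset.disjoint_left.1 (h.2 W (hI hW) W' (hJ hW') this) hi hi'
  exact Finset.Subset.antisymm (key I J hI' hJ' hun) (key J I hJ' hI' fun i => (hun i).symm)

open Classical in
/-- Counting. -/
theorem count' {V : Type*} [Fintype V] {k d M r u a : ℕ} (hM : 0 < M) (hd : 1 ≤ d)
    (hra : r ≤ 2 ^ a)
    (T : V → Set (Fin m → Bool)) (hT : ∀ x, KCnf k (T x))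
    (hfree : ∀ (X : Finset V) (Y : Finset (Fin m → Bool)), X.card = u → Y.card = r →
      (∀ x ∈ X, ∀ y ∈ Y, y ∈ T x) → False) :
    (∑ x, ((univ.filter (fun z => z ∈ T x)).card : ℝ)) ≤
      2 ^ (d * (a - 1)) * (m + 1) ^ (d * (a - 1)) * Fintype.card V *
        ((2 : ℝ) ^ m) ^ (1 - qavg k d M) + u * (m + 1) ^ (d * a) * 2 ^ m := by
  have hpt : ∀ (𝒲 : Finset (Finset (Fin m))) (z : Fin m → Bool), Fam d 𝒲 → 𝒲.card = a →
      (univ.filter (fun x : V => z ∈ Cube 𝒲 (T x))).card ≤ u := by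
    intro 𝒲 z hF hc
    by_contra hcon
    push Not at hcon
    obtain ⟨X, hX, hXc⟩ := Finset.exists_subset_card_eq hcon.le
    have hbox := card_points hF z
    rw [hc] at hbox
    obtain ⟨Y, hY, hYc⟩ := Finset.exists_subset_card_eq (hra.trans hbox.symm.le)
    refine hfree X Y hXc hYc fun x hx y hy => ?_
    have h1 := (Finset.mem_filter.1 (hX hx)).2
    obtain ⟨I, hI, rfl⟩ := Finset.mem_image.1 (hY hy)
    exact h1 I (Finset.mem_powerset.1 hI)
  set Fs := univ.filter (fun 𝒲 : Finset (Finset (Fin m)) => Fam d 𝒲 ∧ 𝒲.card = a) with hFs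
  have hFc : Fs.card ≤ (m + 1) ^ (d * a) := by
    refine (Finset.card_le_card ?_).trans (card_fam m d a)
    intro 𝒲 h
    obtain ⟨h1, h2⟩ := (Finset.mem_filter.1 h).2
    exact Finset.mem_filter.2 ⟨Finset.mem_univ _, h1, h2.le⟩
  have hx : ∀ x : V, (univ.filter (fun z => z ∈ T x)).card ≤
      (univ.filter (fun z => z ∈ T x ∧ ¬ ∃ 𝒲 : Finset (Finset (Fin m)), Fam d 𝒲 ∧ 𝒲.card = a ∧
        z ∈ Cube 𝒲 (T x))).card +
      ∑ 𝒲 ∈ Fs, (univ.filter (fun z => z ∈ Cube 𝒲 (T x))).card := by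
    intro x
    refine le_trans (Finset.card_le_card (t := (univ.filter (fun z => z ∈ T x ∧
        ¬ ∃ 𝒲 : Finset (Finset (Fin m)), Fam d 𝒲 ∧ 𝒲.card = a ∧ z ∈ Cube 𝒲 (T x))) ∪
        Fs.biUnion (fun 𝒲 => univ.filter (fun z => z ∈ Cube 𝒲 (T x)))) ?_) ?_
    · intro z hz
      have hzT := (Finset.mem_filter.1 hz).2
      by_cases h : ∃ 𝒲 : Finset (Finset (Fin m)), Fam d 𝒲 ∧ 𝒲.card = a ∧ z ∈ Cube 𝒲 (T x)
      · obtain ⟨𝒲, hF, hc, hz⟩ := h
        refine Finset.mem_union_right _ (Finset.mem_biUnion.2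
          ⟨𝒲, Finset.mem_filter.2 ⟨Finset.mem_univ _, hF, hc⟩,
            Finset.mem_filter.2 ⟨Finset.mem_univ _, hz⟩⟩)
      · exact Finset.mem_union_left _ (Finset.mem_filter.2 ⟨Finset.mem_univ _, hzT, h⟩)
    · exact (Finset.card_union_le _ _).trans (Nat.add_le_add_left Finset.card_biUnion_le _)
  have hsum : ∑ x : V, ∑ 𝒲 ∈ Fs, (univ.filter (fun z => z ∈ Cube 𝒲 (T x))).card ≤
      u * (m + 1) ^ (d * a) * 2 ^ m := by
    rw [Finset.sum_comm]
    have h1 : ∀ 𝒲 ∈ Fs, ∑ x : V, (univ.filter (fun z => z ∈ Cube 𝒲 (T x))).card ≤ 2 ^ m * u := by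
      intro 𝒲 h𝒲
      obtain ⟨hF, hc⟩ := (Finset.mem_filter.1 h𝒲).2
      have h2 : ∑ x : V, (univ.filter (fun z => z ∈ Cube 𝒲 (T x))).card =
          ∑ z : Fin m → Bool, (univ.filter (fun x : V => z ∈ Cube 𝒲 (T x))).card := by
        simp only [Finset.card_filter]
        rw [Finset.sum_comm]
      rw [h2]
      refine (Finset.sum_le_sum fun z _ => hpt 𝒲 z hF hc).trans ?_
      rw [Finset.sum_const, smul_eq_mul, Finset.card_univ]
      simp
    refine (Finset.sum_le_sum h1).trans ?_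
    rw [Finset.sum_const, smul_eq_mul]
    calc Fs.card * (2 ^ m * u) ≤ (m + 1) ^ (d * a) * (2 ^ m * u) := Nat.mul_le_mul_right _ hFc
      _ = _ := by ring
  calc (∑ x, ((univ.filter (fun z => z ∈ T x)).card : ℝ))
      ≤ ∑ x : V, (((univ.filter (fun z => z ∈ T x ∧
        ¬ ∃ 𝒲 : Finset (Finset (Fin m)), Fam d 𝒲 ∧ 𝒲.card = a ∧ z ∈ Cube 𝒲 (T x))).card : ℝ) +
        (∑ 𝒲 ∈ Fs, (univ.filter (fun z => z ∈ Cube 𝒲 (T x))).card : ℕ)) :=
        Finset.sum_le_sum fun x _ => by exact_mod_cast hx x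
    _ = ∑ x : V, ((univ.filter (fun z => z ∈ T x ∧
        ¬ ∃ 𝒲 : Finset (Finset (Fin m)), Fam d 𝒲 ∧ 𝒲.card = a ∧ z ∈ Cube 𝒲 (T x))).card : ℝ) +
        ((∑ x : V, ∑ 𝒲 ∈ Fs, (univ.filter (fun z => z ∈ Cube 𝒲 (T x))).card : ℕ) : ℝ) := by
        rw [Finset.sum_add_distrib, Nat.cast_sum]
    _ ≤ ∑ _x : V, ((m + 1) ^ (d * (a - 1)) * 2 ^ (d * (a - 1)) *
          ((2 : ℝ) ^ m) ^ (1 - qavg k d M)) + ((u * (m + 1) ^ (d * a) * 2 ^ m : ℕ) : ℝ) :=
        add_le_add (Finset.sum_le_sum fun x _ => card_bad' hM hd (hT x))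
          (by exact_mod_cast hsum)
    _ = _ := by
        rw [Finset.sum_const, nsmul_eq_mul, Finset.card_univ]
        push_cast
        ring

open Classical in
/-- From neighbourhoods to edges. -/
theorem graph_sum {m k L r u : ℕ} {V : Type} [Fintype V] {lab : V → Fin m → Bool}
    {G : SimpleGraph V} (hu : 1 ≤ u) (hlab : Function.Injective lab)
    (hN : ∀ x, Depth3 L k (lab '' G.neighborSet x))
    (hfree : (completeBipartiteGraph (Fin r) (Fin u)).Free G) {B : ℝ}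
    (hB : ∀ T : V → Set (Fin m → Bool), (∀ x, KCnf k (T x)) →
      (∀ (X : Finset V) (Y : Finset (Fin m → Bool)), X.card = u → Y.card = r →
        (∀ x ∈ X, ∀ y ∈ Y, y ∈ T x) → False) →
      (∑ x, ((univ.filter (fun z => z ∈ T x)).card : ℝ)) ≤ B) :
    2 * (Nat.card G.edgeSet : ℝ) ≤ L * B := by
  choose T hT hTU using hN
  have hcnt : ∀ j : Fin L, (∑ x, ((univ.filter (fun z => z ∈ T x j)).card : ℝ)) ≤ B := by
    intro j
    apply hB (fun x => T x j) (fun x => hT x j)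
    intro X Y hX hY hXY
    have hsub : ∀ x y, y ∈ T x j → ∃ v, G.Adj x v ∧ lab v = y := by
      intro x y hy
      have : y ∈ lab '' G.neighborSet x := by
        rw [hTU x]; exact Set.mem_iUnion.2 ⟨j, hy⟩
      obtain ⟨v, hv, hvy⟩ := this
      exact ⟨v, hv, hvy⟩
    obtain ⟨x₀, hx₀⟩ : X.Nonempty := Finset.card_pos.1 (by omega)
    have himg : (univ.filter (fun v => lab v ∈ Y)).image lab = Y := by
      ext y
      simp only [Finset.mem_image, Finset.mem_filter, Finset.mem_univ, true_and]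
      constructor
      · rintro ⟨v, hv, rfl⟩; exact hv
      · intro hy
        obtain ⟨v, _, hv⟩ := hsub x₀ y (hXY x₀ hx₀ y hy)
        exact ⟨v, by rw [hv]; exact hy, hv⟩
    have hc : (univ.filter (fun v => lab v ∈ Y)).card = r := by
      rw [← hY, ← himg, Finset.card_image_of_injective _ hlab, himg]
    refine not_free G X (univ.filter (fun v => lab v ∈ Y)) hX hc ?_ hfree
    intro x hx v hv
    obtain ⟨w, hw, hwv⟩ := hsub x _ (hXY x hx _ (Finset.mem_filter.1 hv).2)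
    rw [← hlab hwv]
    exact hw
  have hdeg : 2 * (Nat.card G.edgeSet : ℝ) ≤
      ∑ j : Fin L, ∑ x, ((univ.filter (fun z => z ∈ T x j)).card : ℝ) := by
    have h1 := G.sum_degrees_eq_twice_card_edges
    have h2 : (Nat.card G.edgeSet) = #G.edgeFinset := by
      rw [Nat.card_eq_fintype_card, SimpleGraph.edgeFinset_card]
    have h3 : ∀ x, G.degree x ≤ ∑ j : Fin L, (univ.filter (fun z => z ∈ T x j)).card := by
      intro x
      rw [← G.card_neighborFinset_eq_degree, ← Finset.card_image_of_injective _ hlab]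
      refine le_trans (Finset.card_le_card (t := (univ : Finset (Fin L)).biUnion
        (fun j => univ.filter (fun z => z ∈ T x j))) ?_) Finset.card_biUnion_le
      intro y hy
      obtain ⟨v, hv, rfl⟩ := Finset.mem_image.1 hy
      have : lab v ∈ lab '' G.neighborSet x := ⟨v, by simpa using hv, rfl⟩
      rw [hTU x] at this
      obtain ⟨j, hj⟩ := Set.mem_iUnion.1 this
      exact Finset.mem_biUnion.2 ⟨j, Finset.mem_univ _,
        Finset.mem_filter.2 ⟨Finset.mem_univ _, hj⟩⟩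
    have h4 : 2 * Nat.card G.edgeSet ≤ ∑ j : Fin L, ∑ x, (univ.filter (fun z => z ∈ T x j)).card := by
      rw [h2, ← h1, Finset.sum_comm]
      exact Finset.sum_le_sum fun x _ => h3 x
    exact_mod_cast h4
  refine hdeg.trans ((Finset.sum_le_sum fun j _ => hcnt j).trans ?_)
  rw [Finset.sum_const, nsmul_eq_mul, Finset.card_univ, Fintype.card_fin]

/-- The bound for graphs. -/
theorem graph_boundP (m k d M L r u : ℕ) (V : Type) [Fintype V] (lab : V → Fin m → Bool)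
    (G : SimpleGraph V) (hM : 1 ≤ M) (hd : 1 ≤ d) (hu : 1 ≤ u)
    (hlab : Function.Injective lab)
    (hN : ∀ x, Depth3 L k (lab '' G.neighborSet x))
    (hfree : (completeBipartiteGraph (Fin r) (Fin u)).Free G) :
    2 * (Nat.card G.edgeSet : ℝ) ≤
      L * (2 ^ (d * (Nat.clog 2 r - 1)) * (m + 1) ^ (d * (Nat.clog 2 r - 1)) * (Fintype.card V) *
        ((2 : ℝ) ^ m) ^ (1 - qavg k d M) + u * (m + 1) ^ (d * Nat.clog 2 r) * 2 ^ m) := by
  apply graph_sum hu hlab hN hfree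
  intro T hT hf
  exact count' hM hd (Nat.le_pow_clog (by norm_num) r) T hT hf

/-- Asymptotic form. -/
theorem graph_asymp (k d M r u D : ℕ) (e : ℝ) (hM : 1 ≤ M) (hd : 1 ≤ d) (hu : 1 ≤ u)
    (he : 2 - qavg k d M < e) :
    ∃ n₀ : ℕ, ∀ (n m L : ℕ) (lab : Fin n → Fin m → Bool) (G : SimpleGraph (Fin n)), n₀ ≤ n →
      Function.Injective lab → 2 ^ m ≤ D * n →
      (∀ x, Depth3 L k (lab '' G.neighborSet x)) →
      (completeBipartiteGraph (Fin r) (Fin u)).Free G →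
      (Nat.card G.edgeSet : ℝ) ≤ L * (n : ℝ) ^ e := by
  set q := qavg k d M with hq
  have hq0 : 0 ≤ q := qavg_nonneg k d M
  have hq1 : q ≤ 1 := qavg_le_one k d M
  set a := Nat.clog 2 r with ha
  set η : ℝ := e - (2 - q) with hη
  have hη0 : 0 < η := by linarith
  obtain ⟨K, hK, hKm⟩ := pow_small (d * a) (half_pos hη0)
  set C : ℝ := D * (2 ^ (d * (a - 1)) + u) * (K * (D : ℝ) ^ (η / 2)) with hC
  have ht := tendsto_rpow_atTop (half_pos hη0)
  have ht2 := ht.comp (tendsto_natCast_atTop_atTop (R := ℝ))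
  obtain ⟨n₀, hn₀⟩ := Filter.eventually_atTop.1 (ht2.eventually_gt_atTop C)
  refine ⟨n₀, ?_⟩
  intro n m L lab G hn hlab hD hN hfree
  have hpos : 0 < D * n := lt_of_lt_of_le (by positivity) hD
  have hn1 : 1 ≤ n := Nat.pos_of_mul_pos_left hpos
  have hD1 : 1 ≤ D := Nat.pos_of_mul_pos_right hpos
  have hn1' : (1 : ℝ) ≤ n := by exact_mod_cast hn1
  have hD1' : (1 : ℝ) ≤ D := by exact_mod_cast hD1
  have hn0' : (0 : ℝ) < n := by linarith
  have h := graph_boundP m k d M L r u (Fin n) lab G hM hd hu hlab hN hfree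
  rw [Fintype.card_fin, ← hq, ← ha] at h
  have hDn : ((2 : ℝ) ^ m) ≤ D * n := by exact_mod_cast hD
  have e1 : ((2 : ℝ) ^ m) ^ (1 - q) ≤ D * (n : ℝ) ^ (1 - q) := by
    refine (Real.rpow_le_rpow (by positivity) hDn (by linarith)).trans ?_
    rw [Real.mul_rpow (by positivity) (by positivity)]
    apply mul_le_mul_of_nonneg_right _ (by positivity)
    calc (D : ℝ) ^ (1 - q) ≤ (D : ℝ) ^ (1 : ℝ) :=
          Real.rpow_le_rpow_of_exponent_le hD1' (by linarith)
      _ = D := Real.rpow_one _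
  have e2 : (n : ℝ) * (n : ℝ) ^ (1 - q) = (n : ℝ) ^ (2 - q) := by
    rw [← Real.rpow_one_add' (by positivity) (by linarith)]
    congr 1; ring
  have e3 : (n : ℝ) ≤ (n : ℝ) ^ (2 - q) := by
    calc (n : ℝ) = (n : ℝ) ^ (1 : ℝ) := (Real.rpow_one _).symm
      _ ≤ _ := Real.rpow_le_rpow_of_exponent_le hn1' (by linarith)
  have e4 : ((m : ℝ) + 1) ^ (d * (a - 1)) ≤ ((m : ℝ) + 1) ^ (d * a) :=
    pow_le_pow_right₀ (by linarith [(Nat.cast_nonneg m : (0:ℝ) ≤ m)])
      (Nat.mul_le_mul_left d (Nat.sub_le a 1))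
  have f1 : (2 : ℝ) ^ (d * (a - 1)) * (m + 1) ^ (d * (a - 1)) * n * ((2 : ℝ) ^ m) ^ (1 - q) ≤
      D * 2 ^ (d * (a - 1)) * (m + 1) ^ (d * a) * (n : ℝ) ^ (2 - q) := by
    calc (2 : ℝ) ^ (d * (a - 1)) * (m + 1) ^ (d * (a - 1)) * n * ((2 : ℝ) ^ m) ^ (1 - q)
        ≤ (2 : ℝ) ^ (d * (a - 1)) * (m + 1) ^ (d * a) * n * (D * (n : ℝ) ^ (1 - q)) := by gcongr
      _ = D * 2 ^ (d * (a - 1)) * (m + 1) ^ (d * a) * ((n : ℝ) * (n : ℝ) ^ (1 - q)) := by ring
      _ = _ := by rw [e2]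
  have f2 : (u : ℝ) * (m + 1) ^ (d * a) * 2 ^ m ≤ D * u * (m + 1) ^ (d * a) * (n : ℝ) ^ (2 - q) := by
    calc (u : ℝ) * (m + 1) ^ (d * a) * 2 ^ m ≤ (u : ℝ) * (m + 1) ^ (d * a) * (D * n) := by gcongr
      _ = D * u * (m + 1) ^ (d * a) * n := by ring
      _ ≤ _ := by gcongr
  have f3 := mul_le_mul_of_nonneg_left (add_le_add f1 f2) (Nat.cast_nonneg L : (0:ℝ) ≤ L)
  have f4 : (Nat.card G.edgeSet : ℝ) ≤
      L * (D * (2 ^ (d * (a - 1)) + u) * (m + 1) ^ (d * a) * (n : ℝ) ^ (2 - q)) := by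
    have h0 : (0 : ℝ) ≤ Nat.card G.edgeSet := Nat.cast_nonneg _
    have := h.trans f3
    linarith
  refine f4.trans (mul_le_mul_of_nonneg_left ?_ (Nat.cast_nonneg L))
  have e5 : ((m : ℝ) + 1) ^ (d * a) ≤ K * (D : ℝ) ^ (η / 2) * (n : ℝ) ^ (η / 2) := by
    refine (hKm m).trans ?_
    rw [mul_assoc]
    apply mul_le_mul_of_nonneg_left _ hK.le
    rw [← Real.mul_rpow (by positivity) (by positivity)]
    exact Real.rpow_le_rpow (by positivity) hDn (by positivity)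
  have e6 := (hn₀ n hn).le
  simp only [Function.comp] at e6
  calc D * (2 ^ (d * (a - 1)) + u) * ((m : ℝ) + 1) ^ (d * a) * (n : ℝ) ^ (2 - q)
      ≤ D * (2 ^ (d * (a - 1)) + u) * (K * (D : ℝ) ^ (η / 2) * (n : ℝ) ^ (η / 2)) *
        (n : ℝ) ^ (2 - q) := by gcongr
    _ = C * (n : ℝ) ^ (η / 2) * (n : ℝ) ^ (2 - q) := by rw [hC]; ring
    _ ≤ (n : ℝ) ^ (η / 2) * (n : ℝ) ^ (η / 2) * (n : ℝ) ^ (2 - q) := by gcongr
    _ = (n : ℝ) ^ e := by
        rw [← Real.rpow_add hn0', ← Real.rpow_add hn0']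
        congr 1
        rw [hη]; ring

end Pool.Agent.H96.Ppsz
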