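import Mathlib
import Pool.Agent.H96.KrPpsz

/-!
# Cubes with prescribed directions in sets given by `k`-CNFs
-/

set_option autoImplicit false

namespace Pool.Agent.H96.Ppsz

open Finset Pool.Agent.H96.Ppz H568R2

variable {m : ℕ}

open Classical in
lemma dichotomyP {a d : ℕ} (P : Finset (Fin m)) {S : Set (Fin m → Bool)} {z : Fin m → Bool}
    (hz : z ∈ S) :
    (∃ 𝒲 : Finset (Finset (Fin m)), Fam d 𝒲 ∧ (∀ W ∈ 𝒲, Disjoint W P) ∧ 𝒲.card = a ∧
      z ∈ Cube 𝒲 S) ∨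
    (∃ 𝒲 : Finset (Finset (Fin m)), Fam d 𝒲 ∧ 𝒲.card < a ∧ z ∈ Cube 𝒲 S ∧
      LocIso d (P ∪ un 𝒲) (Cube 𝒲 S) z) := by
  have hne : (univ.filter (fun 𝒲 : Finset (Finset (Fin m)) =>
      (Fam d 𝒲 ∧ ∀ W ∈ 𝒲, Disjoint W P) ∧ z ∈ Cube 𝒲 S)).Nonempty := by
    refine ⟨∅, Finset.mem_filter.2 ⟨Finset.mem_univ _, ⟨⟨by simp [Fam], by simp⟩, ?_⟩⟩⟩
    intro I hI
    rw [Finset.subset_empty.1 hI]
    simpa [un, flipSet_empty] using hz
  obtain ⟨𝒲, h𝒲, hmax⟩ := Finset.exists_max_image _ Finset.card hne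
  obtain ⟨⟨hF, hP⟩, hzC⟩ := (Finset.mem_filter.1 h𝒲).2
  by_cases hc : a ≤ 𝒲.card
  · obtain ⟨B, hB, hBc⟩ := Finset.exists_subset_card_eq hc
    exact Or.inl ⟨B, hF.subset hB, fun W hW => hP W (hB hW), hBc, cube_mono hB hzC⟩
  · push Not at hc
    refine Or.inr ⟨𝒲, hF, hc, hzC, ?_⟩
    intro W hW hWd hdisj hflip
    have hdP : Disjoint W P := Finset.disjoint_of_subset_right Finset.subset_union_left hdisj
    have hdU : Disjoint W (un 𝒲) := Finset.disjoint_of_subset_right Finset.subset_union_right hdisj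
    have hWn : W ∉ 𝒲 := by
      intro hWm
      obtain ⟨i, hi⟩ := hW
      exact Finset.disjoint_left.1 hdU hi (mem_un.2 ⟨W, hWm, hi⟩)
    have hdW : ∀ W' ∈ 𝒲, Disjoint W W' := by
      intro W' hW'
      rw [Finset.disjoint_left]
      intro i hi hi'
      exact Finset.disjoint_left.1 hdU hi (mem_un.2 ⟨W', hW', hi'⟩)
    have hF' : Fam d (insert W 𝒲) := by
      refine ⟨fun W' hW' => ?_, fun W₁ h₁ W₂ h₂ hne => ?_⟩
      · rcases Finset.mem_insert.1 hW' with rfl | h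
        · exact ⟨hW, hWd⟩
        · exact hF.1 W' h
      · rcases Finset.mem_insert.1 h₁ with g₁ | g₁
        · rcases Finset.mem_insert.1 h₂ with g₂ | g₂
          · exact absurd (g₁.trans g₂.symm) hne
          · rw [g₁]; exact hdW _ g₂
        · rcases Finset.mem_insert.1 h₂ with g₂ | g₂
          · rw [g₂]; exact (hdW _ g₁).symm
          · exact hF.2 _ g₁ _ g₂ hne
    have hP' : ∀ W' ∈ insert W 𝒲, Disjoint W' P := by
      intro W' hW'
      rcases Finset.mem_insert.1 hW' with rfl | h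
      · exact hdP
      · exact hP W' h
    have hC' : z ∈ Cube (insert W 𝒲) S := by
      intro I hI
      by_cases hWI : W ∈ I
      · have hI' : I.erase W ⊆ 𝒲 := by
          intro W' hW'
          obtain ⟨h1, h2⟩ := Finset.mem_erase.1 hW'
          rcases Finset.mem_insert.1 (hI h2) with h | h
          · exact absurd h h1
          · exact h
        have h3 := hflip (I.erase W) hI'
        have h4 : flipSet (flipSet z W) (un (I.erase W)) = flipSet z (un I) := by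
          funext i
          by_cases hiW : i ∈ W
          · have h5 : i ∉ un (I.erase W) := by
              intro h6
              obtain ⟨W', hW', hiW'⟩ := mem_un.1 h6
              exact Finset.disjoint_left.1 (hdW W' (hI' hW')) hiW hiW'
            have h6 : i ∈ un I := mem_un.2 ⟨W, hWI, hiW⟩
            simp [flipSet, h5, h6, hiW]
          · by_cases h6 : i ∈ un I
            · have h5 : i ∈ un (I.erase W) := by
                obtain ⟨W', hW', hiW'⟩ := mem_un.1 h6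
                refine mem_un.2 ⟨W', Finset.mem_erase.2 ⟨?_, hW'⟩, hiW'⟩
                rintro rfl
                exact hiW hiW'
              simp [flipSet, h5, h6, hiW]
            · have h5 : i ∉ un (I.erase W) := by
                intro h7
                obtain ⟨W', hW', hiW'⟩ := mem_un.1 h7
                exact h6 (mem_un.2 ⟨W', Finset.mem_of_mem_erase hW', hiW'⟩)
              simp [flipSet, h5, h6, hiW]
        rw [h4] at h3
        exact h3
      · apply hzC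
        intro W' hW'
        rcases Finset.mem_insert.1 (hI hW') with h | h
        · exact absurd (h ▸ hW') hWI
        · exact h
    have := hmax _ (Finset.mem_filter.2 ⟨Finset.mem_univ _, ⟨hF', hP'⟩, hC'⟩)
    rw [Finset.card_insert_of_notMem hWn] at this
    omega

open Classical in
/-- Few elements of a set defined by constraints on `k` bits lie in no cube of dimension `a`
whose directions are flips of at most `d` bits outside `P`. -/
theorem card_badP {k d a M : ℕ} (hM : 0 < M) (hd : 1 ≤ d) (P : Finset (Fin m))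
    {S : Set (Fin m → Bool)} (hS : KCnf k S) :
    ((univ.filter (fun z => z ∈ S ∧ ¬ ∃ 𝒲 : Finset (Finset (Fin m)), Fam d 𝒲 ∧
      (∀ W ∈ 𝒲, Disjoint W P) ∧ 𝒲.card = a ∧ z ∈ Cube 𝒲 S)).card : ℝ) ≤
      (m + 1) ^ (d * a) * 2 ^ (d * a) *
        (2 : ℝ) ^ ((m : ℝ) - ((m : ℝ) - P.card) * qavg k d M) := by
  have hq0 := qavg_nonneg k d M
  have hq1 := qavg_le_one k d M
  have hsub : univ.filter (fun z => z ∈ S ∧ ¬ ∃ 𝒲 : Finset (Finset (Fin m)), Fam d 𝒲 ∧
      (∀ W ∈ 𝒲, Disjoint W P) ∧ 𝒲.card = a ∧ z ∈ Cube 𝒲 S) ⊆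
      (univ.filter (fun 𝒲 : Finset (Finset (Fin m)) => Fam d 𝒲 ∧ 𝒲.card ≤ a)).biUnion
        (fun 𝒲 => univ.filter (fun z => z ∈ Cube 𝒲 S ∧ LocIso d (P ∪ un 𝒲) (Cube 𝒲 S) z)) := by
    intro z hz
    obtain ⟨hzS, hzn⟩ := (Finset.mem_filter.1 hz).2
    rcases dichotomyP (a := a) (d := d) P hzS with h | ⟨𝒲, hF, hc, h1, h2⟩
    · exact absurd h hzn
    · exact Finset.mem_biUnion.2 ⟨𝒲, Finset.mem_filter.2 ⟨Finset.mem_univ _, hF, hc.le⟩,
        Finset.mem_filter.2 ⟨Finset.mem_univ _, h1, h2⟩⟩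
  have hb : ∀ 𝒲 ∈ univ.filter (fun 𝒲 : Finset (Finset (Fin m)) => Fam d 𝒲 ∧ 𝒲.card ≤ a),
      ((univ.filter (fun z => z ∈ Cube 𝒲 S ∧ LocIso d (P ∪ un 𝒲) (Cube 𝒲 S) z)).card : ℝ) ≤
        2 ^ (d * a) * (2 : ℝ) ^ ((m : ℝ) - ((m : ℝ) - P.card) * qavg k d M) := by
    intro 𝒲 h𝒲
    obtain ⟨hF, hc⟩ := (Finset.mem_filter.1 h𝒲).2
    refine (card_locIso hM hd (kcnf_cube hS 𝒲) (P ∪ un 𝒲)).trans ?_
    rw [← Real.rpow_natCast (2 : ℝ) (d * a), ← Real.rpow_add (by norm_num)]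
    apply Real.rpow_le_rpow_of_exponent_le (by norm_num)
    have h1 : (m : ℝ) - P.card - ((d * a : ℕ) : ℝ) ≤ ((m - (P ∪ un 𝒲).card : ℕ) : ℝ) := by
      have h3 := card_un hF
      have h4 : d * 𝒲.card ≤ d * a := Nat.mul_le_mul_left d hc
      have h5 := Finset.card_union_le P (un 𝒲)
      have : m ≤ (m - (P ∪ un 𝒲).card) + P.card + d * a := by omega
      have h2 : (m : ℝ) ≤ ((m - (P ∪ un 𝒲).card : ℕ) : ℝ) + P.card + ((d * a : ℕ) : ℝ) := by
        exact_mod_cast this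
      linarith
    have h3 := mul_le_mul_of_nonneg_right h1 hq0
    have h4 : ((d * a : ℕ) : ℝ) * qavg k d M ≤ ((d * a : ℕ) : ℝ) :=
      mul_le_of_le_one_right (by positivity) hq1
    rw [sub_mul] at h3
    linarith
  calc ((univ.filter (fun z => z ∈ S ∧ ¬ ∃ 𝒲 : Finset (Finset (Fin m)), Fam d 𝒲 ∧
        (∀ W ∈ 𝒲, Disjoint W P) ∧ 𝒲.card = a ∧ z ∈ Cube 𝒲 S)).card : ℝ)
      ≤ (((univ.filter (fun 𝒲 : Finset (Finset (Fin m)) => Fam d 𝒲 ∧ 𝒲.card ≤ a)).biUnion
        (fun 𝒲 => univ.filter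
          (fun z => z ∈ Cube 𝒲 S ∧ LocIso d (P ∪ un 𝒲) (Cube 𝒲 S) z))).card : ℝ) := by
        exact_mod_cast Finset.card_le_card hsub
    _ ≤ ∑ 𝒲 ∈ univ.filter (fun 𝒲 : Finset (Finset (Fin m)) => Fam d 𝒲 ∧ 𝒲.card ≤ a),
        ((univ.filter (fun z => z ∈ Cube 𝒲 S ∧ LocIso d (P ∪ un 𝒲) (Cube 𝒲 S) z)).card : ℝ) := by
        exact_mod_cast Finset.card_biUnion_le
    _ ≤ ∑ _𝒲 ∈ univ.filter (fun 𝒲 : Finset (Finset (Fin m)) => Fam d 𝒲 ∧ 𝒲.card ≤ a),
        (2 ^ (d * a) * (2 : ℝ) ^ ((m : ℝ) - ((m : ℝ) - P.card) * qavg k d M)) :=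
        Finset.sum_le_sum hb
    _ = ((univ.filter (fun 𝒲 : Finset (Finset (Fin m)) => Fam d 𝒲 ∧ 𝒲.card ≤ a)).card : ℝ) *
        (2 ^ (d * a) * (2 : ℝ) ^ ((m : ℝ) - ((m : ℝ) - P.card) * qavg k d M)) := by
        rw [Finset.sum_const, nsmul_eq_mul]
    _ ≤ (m + 1) ^ (d * a) *
        (2 ^ (d * a) * (2 : ℝ) ^ ((m : ℝ) - ((m : ℝ) - P.card) * qavg k d M)) := by
        apply mul_le_mul_of_nonneg_right _ (by positivity)
        exact_mod_cast card_fam m d a
    _ = _ := by ring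

lemma cube_cube {𝒲 𝒲' : Finset (Finset (Fin m))} {S : Set (Fin m → Bool)} {z : Fin m → Bool}
    (hd : ∀ W ∈ 𝒲, ∀ W' ∈ 𝒲', Disjoint W W') (h : z ∈ Cube 𝒲' (Cube 𝒲 S)) :
    z ∈ Cube (𝒲 ∪ 𝒲') S := by
  classical
  intro I hI
  have h1 : I \ 𝒲 ⊆ 𝒲' := by
    intro W hW
    obtain ⟨h1, h2⟩ := Finset.mem_sdiff.1 hW
    rcases Finset.mem_union.1 (hI h1) with h | h
    · exact absurd h h2
    · exact h
  have h2 := h (I \ 𝒲) h1 (I ∩ 𝒲) Finset.inter_subset_right
  have h3 : flipSet (flipSet z (un (I \ 𝒲))) (un (I ∩ 𝒲)) = flipSet z (un I) := by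
    funext i
    have hu : i ∈ un I ↔ i ∈ un (I \ 𝒲) ∨ i ∈ un (I ∩ 𝒲) := by
      simp only [mem_un]
      constructor
      · rintro ⟨W, hW, hi⟩
        by_cases hW' : W ∈ 𝒲
        · exact Or.inr ⟨W, Finset.mem_inter.2 ⟨hW, hW'⟩, hi⟩
        · exact Or.inl ⟨W, Finset.mem_sdiff.2 ⟨hW, hW'⟩, hi⟩
      · rintro (⟨W, hW, hi⟩ | ⟨W, hW, hi⟩)
        · exact ⟨W, (Finset.mem_sdiff.1 hW).1, hi⟩
        · exact ⟨W, (Finset.mem_inter.1 hW).1, hi⟩
    have hn : ¬ (i ∈ un (I \ 𝒲) ∧ i ∈ un (I ∩ 𝒲)) := by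
      rintro ⟨h4, h5⟩
      obtain ⟨W, hW, hi⟩ := mem_un.1 h4
      obtain ⟨W', hW', hi'⟩ := mem_un.1 h5
      exact Finset.disjoint_left.1 (hd W' (Finset.mem_inter.1 hW').2 W (h1 hW)) hi' hi
    by_cases h4 : i ∈ un (I \ 𝒲) <;> by_cases h5 : i ∈ un (I ∩ 𝒲)
    · exact absurd ⟨h4, h5⟩ hn
    · have h6 : i ∈ un I := hu.2 (Or.inl h4)
      simp [flipSet, h4, h5, h6]
    · have h6 : i ∈ un I := hu.2 (Or.inr h5)
      simp [flipSet, h4, h5, h6]
    · have h6 : i ∉ un I := fun h => (hu.1 h).elim h4 h5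
      simp [flipSet, h4, h5, h6]
  rw [h3] at h2
  exact h2

/-- the threshold -/
noncomputable def Th (F B : ℝ) : ℕ → ℝ
  | 0 => 0
  | i + 1 => B + F * Th F B i

lemma Th_nonneg {F B : ℝ} (hF : 0 ≤ F) (hB : 0 ≤ B) : ∀ i, 0 ≤ Th F B i
  | 0 => le_refl _
  | i + 1 => add_nonneg hB (mul_nonneg hF (Th_nonneg hF hB i))

lemma Th_le {F B : ℝ} (hF : 1 ≤ F) (hB : 0 ≤ B) : ∀ i, Th F B i ≤ i * F ^ i * B
  | 0 => by simp [Th]
  | i + 1 => by
      have ih := Th_le hF hB i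
      have h1 : F * Th F B i ≤ F * (i * F ^ i * B) := mul_le_mul_of_nonneg_left ih (by linarith)
      have h2 : B ≤ F ^ (i + 1) * B := le_mul_of_one_le_left hB (one_le_pow₀ hF)
      calc Th F B (i + 1) = B + F * Th F B i := rfl
        _ ≤ F ^ (i + 1) * B + F * (i * F ^ i * B) := add_le_add h2 h1
        _ = ((i + 1 : ℕ) : ℝ) * F ^ (i + 1) * B := by push_cast; ring

open Classical in
/-- Families of directions, one for each element of `J`, avoiding prescribed sets. -/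
theorem multi {ι : Type*} [DecidableEq ι] {k d a M p : ℕ} (hM : 0 < M) (hd : 1 ≤ d)
    (blk : ι → Finset (Fin m)) (hblk : ∀ j, (blk j).card ≤ p) (c : ℕ) :
    ∀ (J : Finset ι) (S : Set (Fin m → Bool)) (U : Finset (Fin m)), KCnf k S →
      U.card + d * a * J.card ≤ c →
      Th ((m + 1) ^ (d * a)) ((m + 1) ^ (d * a) * 2 ^ (d * a) * 2 ^ c *
        (2 : ℝ) ^ ((m : ℝ) - ((m : ℝ) - p) * qavg k d M)) J.card <
        ((univ.filter (fun z => z ∈ S)).card : ℝ) →
      ∃ (z : Fin m → Bool) (𝒲 : ι → Finset (Finset (Fin m))),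
        (∀ j ∈ J, Fam d (𝒲 j) ∧ (𝒲 j).card = a ∧
          ∀ W ∈ 𝒲 j, Disjoint W (blk j) ∧ Disjoint W U) ∧
        (∀ j ∈ J, ∀ j' ∈ J, j ≠ j' → ∀ W ∈ 𝒲 j, ∀ W' ∈ 𝒲 j', Disjoint W W') ∧
        z ∈ Cube (J.biUnion 𝒲) S := by
  intro J
  induction J using Finset.induction_on with
  | empty =>
    intro S U _ _ hc
    simp only [Finset.card_empty, Th] at hc
    have : (univ.filter (fun z => z ∈ S)).Nonempty := by
      rw [← Finset.card_pos]
      exact_mod_cast hc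
    obtain ⟨z, hz⟩ := this
    refine ⟨z, fun _ => ∅, by simp, by simp, ?_⟩
    intro I hI
    rw [Finset.biUnion_empty] at hI
    rw [Finset.subset_empty.1 hI]
    simpa [un, flipSet_empty] using (Finset.mem_filter.1 hz).2
  | insert j₀ J hj₀ ih =>
    intro S U hS hUc hc
    rw [Finset.card_insert_of_notMem hj₀] at hUc hc
    set B : ℝ := (m + 1) ^ (d * a) * 2 ^ (d * a) * 2 ^ c *
        (2 : ℝ) ^ ((m : ℝ) - ((m : ℝ) - p) * qavg k d M) with hB
    set F : ℝ := ((m : ℝ) + 1) ^ (d * a) with hF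
    have hq0 := qavg_nonneg k d M
    have hq1 := qavg_le_one k d M
    have hmul : d * a * (J.card + 1) = d * a * J.card + d * a := by ring
    have hUc' : U.card ≤ c := by omega
    set P := blk j₀ ∪ U with hP
    have hbad := card_badP (k := k) (d := d) (a := a) (M := M) hM hd P hS
    have hbadB : ((univ.filter (fun z => z ∈ S ∧ ¬ ∃ 𝒲 : Finset (Finset (Fin m)), Fam d 𝒲 ∧
        (∀ W ∈ 𝒲, Disjoint W P) ∧ 𝒲.card = a ∧ z ∈ Cube 𝒲 S)).card : ℝ) ≤ B := by
      refine hbad.trans ?_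
      rw [hB, mul_assoc ((m + 1 : ℝ) ^ (d * a) * 2 ^ (d * a)) (2 ^ c)]
      apply mul_le_mul_of_nonneg_left _ (by positivity)
      rw [← Real.rpow_natCast (2 : ℝ) c, ← Real.rpow_add (by norm_num)]
      apply Real.rpow_le_rpow_of_exponent_le (by norm_num)
      have h1 : (P.card : ℝ) ≤ p + c := by
        have h2 : P.card ≤ p + c :=
          (Finset.card_union_le _ _).trans (Nat.add_le_add (hblk j₀) hUc')
        exact_mod_cast h2
      have h2 : ((P.card : ℝ) - p) * qavg k d M ≤ c := by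
        by_cases h3 : (P.card : ℝ) - p ≤ 0
        · have : ((P.card : ℝ) - p) * qavg k d M ≤ 0 := mul_nonpos_of_nonpos_of_nonneg h3 hq0
          have : (0 : ℝ) ≤ c := Nat.cast_nonneg c
          linarith
        · push Not at h3
          have := mul_le_of_le_one_right h3.le hq1
          linarith
      linarith
    set Fs := univ.filter (fun 𝒲 : Finset (Finset (Fin m)) => Fam d 𝒲 ∧ 𝒲.card ≤ a) with hFs
    have hFsc : (Fs.card : ℝ) ≤ F := by
      rw [hF]
      exact_mod_cast card_fam m d a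
    -- some family is good for many points
    have hex : ∃ 𝒲₀ : Finset (Finset (Fin m)), Fam d 𝒲₀ ∧ (∀ W ∈ 𝒲₀, Disjoint W P) ∧
        𝒲₀.card = a ∧ Th F B J.card < ((univ.filter (fun z => z ∈ Cube 𝒲₀ S)).card : ℝ) := by
      by_contra hcon
      push Not at hcon
      have h1 : (univ.filter (fun z => z ∈ S)) ⊆
          (univ.filter (fun z => z ∈ S ∧ ¬ ∃ 𝒲 : Finset (Finset (Fin m)), Fam d 𝒲 ∧
            (∀ W ∈ 𝒲, Disjoint W P) ∧ 𝒲.card = a ∧ z ∈ Cube 𝒲 S)) ∪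
          (Fs.filter (fun 𝒲 => Fam d 𝒲 ∧ (∀ W ∈ 𝒲, Disjoint W P) ∧ 𝒲.card = a)).biUnion
            (fun 𝒲 => univ.filter (fun z => z ∈ Cube 𝒲 S)) := by
        intro z hz
        have hzS := (Finset.mem_filter.1 hz).2
        by_cases h : ∃ 𝒲 : Finset (Finset (Fin m)), Fam d 𝒲 ∧
            (∀ W ∈ 𝒲, Disjoint W P) ∧ 𝒲.card = a ∧ z ∈ Cube 𝒲 S
        · obtain ⟨𝒲, h1, h2, h3, h4⟩ := h
          refine Finset.mem_union_right _ (Finset.mem_biUnion.2 ⟨𝒲, ?_, ?_⟩)
          · exact Finset.mem_filter.2 ⟨Finset.mem_filter.2 ⟨Finset.mem_univ _, h1, h3.le⟩,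
              h1, h2, h3⟩
          · exact Finset.mem_filter.2 ⟨Finset.mem_univ _, h4⟩
        · exact Finset.mem_union_left _ (Finset.mem_filter.2 ⟨Finset.mem_univ _, hzS, h⟩)
      have h2 := Finset.card_le_card h1
      have h3 := h2.trans (Finset.card_union_le _ _)
      have h4 : (((Fs.filter (fun 𝒲 => Fam d 𝒲 ∧ (∀ W ∈ 𝒲, Disjoint W P) ∧ 𝒲.card = a)).biUnion
            (fun 𝒲 => univ.filter (fun z => z ∈ Cube 𝒲 S))).card : ℝ) ≤ F * Th F B J.card := by
        calc _ ≤ ((∑ 𝒲 ∈ Fs.filter (fun 𝒲 => Fam d 𝒲 ∧ (∀ W ∈ 𝒲, Disjoint W P) ∧ 𝒲.card = a),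
              (univ.filter (fun z => z ∈ Cube 𝒲 S)).card : ℕ) : ℝ) := by
              exact_mod_cast Finset.card_biUnion_le
          _ = ∑ 𝒲 ∈ Fs.filter (fun 𝒲 => Fam d 𝒲 ∧ (∀ W ∈ 𝒲, Disjoint W P) ∧ 𝒲.card = a),
              ((univ.filter (fun z => z ∈ Cube 𝒲 S)).card : ℝ) := by push_cast; rfl
          _ ≤ ∑ _𝒲 ∈ Fs.filter (fun 𝒲 => Fam d 𝒲 ∧ (∀ W ∈ 𝒲, Disjoint W P) ∧ 𝒲.card = a),
              Th F B J.card := by
              apply Finset.sum_le_sum
              intro 𝒲 h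
              obtain ⟨g1, g2, g3⟩ := (Finset.mem_filter.1 h).2
              exact hcon 𝒲 g1 g2 g3
          _ = ((Fs.filter (fun 𝒲 => Fam d 𝒲 ∧ (∀ W ∈ 𝒲, Disjoint W P) ∧ 𝒲.card = a)).card : ℝ) *
              Th F B J.card := by rw [Finset.sum_const, nsmul_eq_mul]
          _ ≤ F * Th F B J.card := by
              apply mul_le_mul_of_nonneg_right _
                (Th_nonneg (by rw [hF]; positivity) (by rw [hB]; positivity) _)
              refine le_trans ?_ hFsc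
              exact_mod_cast Finset.card_le_card (Finset.filter_subset _ _)
      have h5 : ((univ.filter (fun z => z ∈ S)).card : ℝ) ≤ B + F * Th F B J.card := by
        have h3' : ((univ.filter (fun z => z ∈ S)).card : ℝ) ≤
            ((univ.filter (fun z => z ∈ S ∧ ¬ ∃ 𝒲 : Finset (Finset (Fin m)), Fam d 𝒲 ∧
              (∀ W ∈ 𝒲, Disjoint W P) ∧ 𝒲.card = a ∧ z ∈ Cube 𝒲 S)).card : ℝ) +
            (((Fs.filter (fun 𝒲 => Fam d 𝒲 ∧ (∀ W ∈ 𝒲, Disjoint W P) ∧ 𝒲.card = a)).biUnion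
              (fun 𝒲 => univ.filter (fun z => z ∈ Cube 𝒲 S))).card : ℝ) := by
          exact_mod_cast h3
        exact h3'.trans (add_le_add hbadB h4)
      have h6 : Th F B (J.card + 1) = B + F * Th F B J.card := rfl
      linarith
    obtain ⟨𝒲₀, hF0, hP0, hc0, hbig⟩ := hex
    have hun : (un 𝒲₀).card ≤ d * a := by
      have := card_un hF0
      rwa [hc0] at this
    obtain ⟨z, 𝒲, h1, h2, h3⟩ := ih (Cube 𝒲₀ S) (U ∪ un 𝒲₀) (kcnf_cube hS 𝒲₀)
      (by
        have := Finset.card_union_le U (un 𝒲₀)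
        omega) hbig
    have hdis : ∀ W ∈ 𝒲₀, ∀ j ∈ J, ∀ W' ∈ 𝒲 j, Disjoint W W' := by
      intro W hW j hj W' hW'
      rw [Finset.disjoint_left]
      intro i hi hi'
      have := ((h1 j hj).2.2 W' hW').2
      exact Finset.disjoint_left.1 this hi'
        (Finset.mem_union_right _ (mem_un.2 ⟨W, hW, hi⟩))
    refine ⟨z, Function.update 𝒲 j₀ 𝒲₀, ?_, ?_, ?_⟩
    · intro j hj
      rcases Finset.mem_insert.1 hj with rfl | hj
      · rw [Function.update_self]
        refine ⟨hF0, hc0, fun W hW => ?_⟩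
        have := hP0 W hW
        rw [hP] at this
        exact Finset.disjoint_union_right.1 this
      · have hne : j ≠ j₀ := fun h => hj₀ (h ▸ hj)
        rw [Function.update_of_ne hne]
        obtain ⟨g1, g2, g3⟩ := h1 j hj
        refine ⟨g1, g2, fun W hW => ⟨(g3 W hW).1, ?_⟩⟩
        exact (Finset.disjoint_union_right.1 (g3 W hW).2).1
    · intro j hj j' hj' hne W hW W' hW'
      rcases Finset.mem_insert.1 hj with g | g
      · rcases Finset.mem_insert.1 hj' with g' | g'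
        · exact absurd (g.trans g'.symm) hne
        · rw [g, Function.update_self] at hW
          have hne' : j' ≠ j₀ := fun h => hj₀ (h ▸ g')
          rw [Function.update_of_ne hne'] at hW'
          exact hdis W hW j' g' W' hW'
      · have hne1 : j ≠ j₀ := fun h => hj₀ (h ▸ g)
        rw [Function.update_of_ne hne1] at hW
        rcases Finset.mem_insert.1 hj' with g' | g'
        · rw [g', Function.update_self] at hW'
          exact (hdis W' hW' j g W hW).symm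
        · have hne' : j' ≠ j₀ := fun h => hj₀ (h ▸ g')
          rw [Function.update_of_ne hne'] at hW'
          exact h2 j g j' g' hne W hW W' hW'
    · have heq : (insert j₀ J).biUnion (Function.update 𝒲 j₀ 𝒲₀) = 𝒲₀ ∪ J.biUnion 𝒲 := by
        rw [Finset.biUnion_insert, Function.update_self]
        congr 1
        apply Finset.biUnion_congr rfl
        intro j hj
        have hne : j ≠ j₀ := fun h => hj₀ (h ▸ hj)
        rw [Function.update_of_ne hne]
      rw [heq]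
      apply cube_cube _ h3
      intro W hW W' hW'
      obtain ⟨j, hj, hW'⟩ := Finset.mem_biUnion.1 hW'
      exact hdis W hW j hj W' hW'

end Pool.Agent.H96.Ppsz
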