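import Mathlib
import Pool.Agent.H96.Blocks

/-!
# Uniform hypergraphs whose edges are decided by circuits of depth three
-/

set_option autoImplicit false

namespace Pool.Agent.H96.Bes

open Finset Pool.Agent.H96.Ppz Pool.Agent.H96.Ppsz H568R2

/-- the concatenation of `r` strings of `m` bits -/
def cat {r m : ℕ} (x : Fin r → Fin m → Bool) : Fin (r * m) → Bool :=
  fun i => x (finProdFinEquiv.symm i).1 (finProdFinEquiv.symm i).2

lemma cat_apply {r m : ℕ} (x : Fin r → Fin m → Bool) (b : Fin r) (i : Fin m) :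
    cat x (finProdFinEquiv (b, i)) = x b i := by
  unfold cat
  rw [Equiv.symm_apply_apply]

open Classical in
/-- The ordered edges of a hypergraph, written as strings of `r m` bits. -/
def Rel {V : Type} (r : ℕ) {m : ℕ} (lab : V → Fin m → Bool) (E : Finset (Finset V)) :
    Set (Fin (r * m) → Bool) :=
  {w | ∃ v : Fin r → V, Function.Injective v ∧ Finset.univ.image v ∈ E ∧
    w = cat (fun j => lab (v j))}

/-- the positions of the `j`-th string -/
def blk (r m : ℕ) (j : Fin r) : Finset (Fin (r * m)) :=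
  univ.filter (fun i => (finProdFinEquiv.symm i).1 = j)

lemma card_blk (r m : ℕ) (j : Fin r) : (blk r m j).card ≤ m := by
  have : blk r m j ⊆ (univ : Finset (Fin m)).image (fun i => finProdFinEquiv (j, i)) := by
    intro i hi
    have h := (Finset.mem_filter.1 hi).2
    refine Finset.mem_image.2 ⟨(finProdFinEquiv.symm i).2, Finset.mem_univ _, ?_⟩
    rw [← h]
    exact finProdFinEquiv.apply_symm_apply i
  refine (Finset.card_le_card this).trans (Finset.card_image_le.trans ?_)
  simp

/-- the strings with prescribed separating bits -/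
def Sep {r m : ℕ} (p : Fin r → Fin r → Fin m) (c : Fin r → Fin r → Bool) :
    Set (Fin (r * m) → Bool) :=
  {w | ∀ b b', b ≠ b' → w (finProdFinEquiv (b, p b b')) = c b b'}

/-- the data separate the classes -/
def Valid {r m : ℕ} (p : Fin r → Fin r → Fin m) (c : Fin r → Fin r → Bool) : Prop :=
  ∀ b b', b ≠ b' → p b b' = p b' b ∧ c b b' ≠ c b' b

lemma kcnf_sep {r m k : ℕ} (hk : 1 ≤ k) (p : Fin r → Fin r → Fin m) (c : Fin r → Fin r → Bool)
    {T : Set (Fin (r * m) → Bool)} (hT : KCnf k T) : KCnf k (T ∩ Sep p c) := by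
  intro y hy
  by_cases h : y ∈ T
  · have h2 : ¬ ∀ b b', b ≠ b' → y (finProdFinEquiv (b, p b b')) = c b b' := fun h3 => hy ⟨h, h3⟩
    push Not at h2
    obtain ⟨b, b', hbb, hne⟩ := h2
    refine ⟨{finProdFinEquiv (b, p b b')}, by simpa using hk, fun z hz hzc => ?_⟩
    have h4 := hz _ (Finset.mem_singleton_self _)
    have h5 := hzc.2 b b' hbb
    exact hne (h4.symm.trans h5)
  · obtain ⟨A, hA, hc⟩ := hT y h
    exact ⟨A, hA, fun z hz hzc => hc z hz hzc.1⟩

lemma exists_sep {V : Type} {r m : ℕ} (hm : 0 < m) {lab : V → Fin m → Bool}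
    (hlab : Function.Injective lab) {v : Fin r → V} (hv : Function.Injective v) :
    ∃ (p : Fin r → Fin r → Fin m) (c : Fin r → Fin r → Bool), Valid p c ∧
      cat (fun j => lab (v j)) ∈ Sep p c := by
  have h1 : ∀ b b' : Fin r, ∃ q : Fin m, b ≠ b' → lab (v b) q ≠ lab (v b') q := by
    intro b b'
    by_cases hb : b = b'
    · exact ⟨⟨0, hm⟩, fun h => absurd hb h⟩
    · have : lab (v b) ≠ lab (v b') := fun h => hb (hv (hlab h))
      obtain ⟨q, hq⟩ := Function.ne_iff.1 this
      exact ⟨q, fun _ => hq⟩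
  choose q hq using h1
  refine ⟨fun b b' => if b < b' then q b b' else q b' b,
    fun b b' => lab (v b) (if b < b' then q b b' else q b' b), ?_, ?_⟩
  · intro b b' hbb
    rcases lt_trichotomy b b' with h | h | h
    · have h' : ¬ b' < b := not_lt.2 h.le
      simp only [h, h', if_true, if_false]
      exact ⟨trivial, hq b b' hbb⟩
    · exact absurd h hbb
    · have h' : ¬ b < b' := not_lt.2 h.le
      simp only [h, h', if_true, if_false]
      exact ⟨trivial, fun h2 => hq b' b hbb.symm h2.symm⟩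
  · intro b b' _
    rw [cat_apply]

lemma flipSet_inj {m : ℕ} {z : Fin m → Bool} {A B : Finset (Fin m)}
    (h : flipSet z A = flipSet z B) : ∀ i, i ∈ A ↔ i ∈ B := by
  intro i
  have h1 := congrFun h i
  simp only [flipSet] at h1
  by_cases a1 : i ∈ A <;> by_cases a2 : i ∈ B <;> simp [a1, a2] at h1 ⊢

open Classical in
/-- The configuration in a dense set. -/
theorem config {V : Type} {r m k d a M : ℕ} (hM : 0 < M) (hd : 1 ≤ d)
    {lab : V → Fin m → Bool} (hlab : Function.Injective lab) {E : Finset (Finset V)}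
    {p : Fin r → Fin r → Fin m} {c : Fin r → Fin r → Bool} (hval : Valid p c)
    {S : Set (Fin (r * m) → Bool)} (hS : KCnf k S) (hSR : S ⊆ Rel r lab E) (hSs : S ⊆ Sep p c)
    (hbig : Th (((r * m : ℕ) + 1 : ℝ) ^ (d * a)) (((r * m : ℕ) + 1 : ℝ) ^ (d * a) * 2 ^ (d * a) *
        2 ^ (d * a * r) * (2 : ℝ) ^ (((r * m : ℕ) : ℝ) - (((r * m : ℕ) : ℝ) - m) * qavg k d M)) r <
        ((univ.filter (fun z => z ∈ S)).card : ℝ))
    (𝒯 : Finset (Fin r → Fin (2 ^ a))) :
    ∃ T ⊆ E, T.card = 𝒯.card ∧ (T.biUnion id).card ≤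
      ∑ b, (𝒯.image (fun t => Function.update t b (⟨0, Nat.two_pow_pos a⟩ : Fin (2 ^ a)))).card := by
  obtain ⟨z, 𝒲, h1, h2, h3⟩ := multi (k := k) (d := d) (a := a) (M := M) hM hd (blk r m)
    (card_blk r m) (d * a * r) (univ : Finset (Fin r)) S ∅ hS (by simp) (by simpa using hbig)
  have hF : ∀ j, Fam d (𝒲 j) := fun j => (h1 j (Finset.mem_univ j)).1
  have hFc : ∀ j, (𝒲 j).card = a := fun j => (h1 j (Finset.mem_univ j)).2.1
  have hdb : ∀ j, ∀ W ∈ 𝒲 j, Disjoint W (blk r m j) :=
    fun j W hW => ((h1 j (Finset.mem_univ j)).2.2 W hW).1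
  have hdd : ∀ j j', j ≠ j' → ∀ W ∈ 𝒲 j, ∀ W' ∈ 𝒲 j', Disjoint W W' :=
    fun j j' hne => h2 j (Finset.mem_univ j) j' (Finset.mem_univ j') hne
  -- indices of the subfamilies
  have hφ : ∀ j : Fin r, ∃ φ : Fin (2 ^ a) → Finset (Finset (Fin (r * m))),
      Function.Injective φ ∧ ∀ x, φ x ⊆ 𝒲 j := by
    intro j
    have hc : Fintype.card ((𝒲 j).powerset : Finset _) = 2 ^ a := by
      rw [Fintype.card_coe, Finset.card_powerset, hFc j]
    let e := (Fintype.equivFinOfCardEq hc).symm
    refine ⟨fun x => (e x : Finset (Finset (Fin (r * m)))), ?_, fun x => ?_⟩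
    · intro x y hxy
      exact e.injective (Subtype.ext hxy)
    · exact Finset.mem_powerset.1 (e x).2
  choose φ hφi hφs using hφ
  set I : (Fin r → Fin (2 ^ a)) → Finset (Finset (Fin (r * m))) :=
    fun t => univ.biUnion (fun j => φ j (t j)) with hI
  have hIs : ∀ t, I t ⊆ univ.biUnion 𝒲 := by
    intro t W hW
    obtain ⟨j, _, hj⟩ := Finset.mem_biUnion.1 hW
    exact Finset.mem_biUnion.2 ⟨j, Finset.mem_univ j, hφs j _ hj⟩
  set w : (Fin r → Fin (2 ^ a)) → Fin (r * m) → Bool := fun t => flipSet z (un (I t)) with hw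
  have hwS : ∀ t, w t ∈ S := fun t => h3 (I t) (hIs t)
  have hv : ∀ t, ∃ v : Fin r → V, Function.Injective v ∧ Finset.univ.image v ∈ E ∧
      w t = cat (fun j => lab (v j)) := fun t => hSR (hwS t)
  choose v hvi hvE hvw using hv
  have hvlab : ∀ t b i, lab (v t b) i = w t (finProdFinEquiv (b, i)) := by
    intro t b i
    rw [hvw t, cat_apply]
  -- the vertex in block `b` does not depend on `t b`
  have hA : ∀ t t' b, (∀ j, j ≠ b → t j = t' j) → v t b = v t' b := by
    intro t t' b htt
    apply hlab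
    funext i
    rw [hvlab, hvlab]
    have key : finProdFinEquiv (b, i) ∈ un (I t) ↔ finProdFinEquiv (b, i) ∈ un (I t') := by
      have aux : ∀ s s' : Fin r → Fin (2 ^ a), (∀ j, j ≠ b → s j = s' j) →
          finProdFinEquiv (b, i) ∈ un (I s) → finProdFinEquiv (b, i) ∈ un (I s') := by
        intro s s' hss hin
        obtain ⟨W, hW, hiW⟩ := mem_un.1 hin
        obtain ⟨j, _, hj⟩ := Finset.mem_biUnion.1 hW
        have hjb : j ≠ b := by
          rintro rfl
          have := hdb j W (hφs j _ hj)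
          refine Finset.disjoint_left.1 this hiW (Finset.mem_filter.2 ⟨Finset.mem_univ _, ?_⟩)
          rw [Equiv.symm_apply_apply]
        refine mem_un.2 ⟨W, Finset.mem_biUnion.2 ⟨j, Finset.mem_univ j, ?_⟩, hiW⟩
        rw [← hss j hjb]
        exact hj
      exact ⟨aux t t' htt, aux t' t fun j hj => (htt j hj).symm⟩
    simp only [hw, flipSet]
    by_cases hk : finProdFinEquiv (b, i) ∈ un (I t)
    · rw [if_pos hk, if_pos (key.1 hk)]
    · rw [if_neg hk, if_neg (fun h => hk (key.2 h))]
  -- different indices give different edges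
  have hB : ∀ t t', (univ.image (v t)) = univ.image (v t') → t = t' := by
    intro t t' he
    have hvv : ∀ b, v t b = v t' b := by
      intro b
      have hm : v t b ∈ univ.image (v t') := by
        rw [← he]; exact Finset.mem_image_of_mem _ (Finset.mem_univ b)
      obtain ⟨b', _, hb'⟩ := Finset.mem_image.1 hm
      by_cases hbb : b' = b
      · rw [← hb', hbb]
      · exfalso
        have hne : b ≠ b' := fun h => hbb h.symm
        obtain ⟨g1, g2⟩ := hval b b' hne
        have e1 := hSs (hwS t) b b' hne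
        have e2 := hSs (hwS t') b' b hbb
        rw [← hvlab] at e1 e2
        rw [hb', ← g1] at e2
        exact g2 (e1.symm.trans e2)
    have hww : w t = w t' := by
      rw [hvw t, hvw t']
      congr 1
      funext j
      rw [hvv j]
    have hun := flipSet_inj hww
    have hsub : ∀ s s' : Fin r → Fin (2 ^ a), (∀ i, i ∈ un (I s) ↔ i ∈ un (I s')) →
        ∀ j, φ j (s j) ⊆ φ j (s' j) := by
      intro s s' hss j W hW
      obtain ⟨i, hi⟩ := ((hF j).1 W (hφs j _ hW)).1
      have h5 : i ∈ un (I s) := mem_un.2 ⟨W, Finset.mem_biUnion.2 ⟨j, Finset.mem_univ j, hW⟩, hi⟩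
      obtain ⟨W', hW', hi'⟩ := mem_un.1 ((hss i).1 h5)
      obtain ⟨j', _, hj'⟩ := Finset.mem_biUnion.1 hW'
      have hjj : j' = j := by
        by_contra hne
        exact Finset.disjoint_left.1 (hdd j' j hne W' (hφs j' _ hj') W (hφs j _ hW)) hi' hi
      subst hjj
      by_cases hWW : W = W'
      · rw [hWW]; exact hj'
      · exact absurd hi' (Finset.disjoint_left.1
          ((hF j').2 W (hφs j' _ hW) W' (hφs j' _ hj') hWW) hi)
    funext j
    apply hφi j
    exact Finset.Subset.antisymm (hsub t t' hun j) (hsub t' t (fun i => (hun i).symm) j)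
  refine ⟨𝒯.image (fun t => univ.image (v t)), ?_, ?_, ?_⟩
  · intro e he
    obtain ⟨t, _, rfl⟩ := Finset.mem_image.1 he
    exact hvE t
  · rw [Finset.card_image_of_injOn]
    intro t _ t' _ h
    exact hB t t' h
  · have hsub : (𝒯.image (fun t => univ.image (v t))).biUnion id ⊆
        (univ : Finset (Fin r)).biUnion (fun b => 𝒯.image (fun t => v t b)) := by
      intro x hx
      obtain ⟨e, he, hxe⟩ := Finset.mem_biUnion.1 hx
      obtain ⟨t, ht, rfl⟩ := Finset.mem_image.1 he
      obtain ⟨b, _, rfl⟩ := Finset.mem_image.1 hxe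
      exact Finset.mem_biUnion.2 ⟨b, Finset.mem_univ b, Finset.mem_image_of_mem _ ht⟩
    refine (Finset.card_le_card hsub).trans (Finset.card_biUnion_le.trans ?_)
    apply Finset.sum_le_sum
    intro b _
    have himg : 𝒯.image (fun t => v t b) =
        (𝒯.image (fun t => Function.update t b (⟨0, Nat.two_pow_pos a⟩ : Fin (2 ^ a)))).image
          (fun s => v s b) := by
      rw [Finset.image_image]
      apply Finset.image_congr
      intro t _
      exact hA t _ b fun j hj => (Function.update_of_ne hj _ _).symm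
    rw [himg]
    exact Finset.card_image_le

open Classical in
/-- **The bound for hypergraphs.** -/
theorem bes_bound (r m k d a M L : ℕ) (V : Type) (lab : V → Fin m → Bool)
    (E : Finset (Finset V)) (hr : 2 ≤ r) (hk : 1 ≤ k) (hM : 1 ≤ M) (hd : 1 ≤ d)
    (hlab : Function.Injective lab) (hE : ∀ e ∈ E, e.card = r)
    (hD : Depth3 L k (Rel r lab E)) (𝒯 : Finset (Fin r → Fin (2 ^ a)))
    (hfree : ∀ T ⊆ E, T.card = 𝒯.card →
      ∑ b, (𝒯.image (fun t => Function.update t b (⟨0, Nat.two_pow_pos a⟩ : Fin (2 ^ a)))).card <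
        (T.biUnion id).card) :
    (E.card : ℝ) ≤ L * ((2 * m) ^ (r * r) * (r * (r * m + 1) ^ (d * a * (r + 1)) *
      2 ^ (d * a * (r + 1)) * (2 : ℝ) ^ ((r : ℝ) * m - (r - 1) * m * qavg k d M))) := by
  rcases E.eq_empty_or_nonempty with rfl | ⟨e₀, he₀⟩
  · simp only [Finset.card_empty, Nat.cast_zero]
    positivity
  -- the length of the names is positive
  have hm : 0 < m := by
    by_contra hm
    have hm0 : m = 0 := by omega
    subst hm0
    have h1 := hE e₀ he₀
    have h2 : e₀.card ≤ 1 := by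
      rw [Finset.card_le_one]
      intro x _ y _
      exact hlab (Subsingleton.elim _ _)
    omega
  obtain ⟨T, hT, hTU⟩ := hD
  set Thr : ℝ := Th (((r * m : ℕ) + 1 : ℝ) ^ (d * a)) (((r * m : ℕ) + 1 : ℝ) ^ (d * a) *
        2 ^ (d * a) * 2 ^ (d * a * r) *
        (2 : ℝ) ^ (((r * m : ℕ) : ℝ) - (((r * m : ℕ) : ℝ) - m) * qavg k d M)) r with hThr
  have hF1 : (1 : ℝ) ≤ ((r * m : ℕ) + 1 : ℝ) ^ (d * a) := by
    apply one_le_pow₀
    have : (0 : ℝ) ≤ ((r * m : ℕ) : ℝ) := Nat.cast_nonneg _
    linarith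
  have hThr0 : 0 ≤ Thr := Th_nonneg (by positivity) (by positivity) _
  have hsmall : ∀ (p : Fin r → Fin r → Fin m) (c : Fin r → Fin r → Bool) (j : Fin L),
      Valid p c → ((univ.filter (fun z => z ∈ T j ∩ Sep p c)).card : ℝ) ≤ Thr := by
    intro p c j hval
    by_contra hcon
    push Not at hcon
    obtain ⟨T', hT', h1, h2⟩ := config (k := k) (d := d) (a := a) (M := M) (E := E)
      hM hd hlab hval (kcnf_sep hk p c (hT j)) (fun z hz => by
        rw [hTU]; exact Set.mem_iUnion.2 ⟨j, hz.1⟩) (fun z hz => hz.2) (lt_of_lt_of_eq hcon (by congr)) 𝒯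
    exact absurd h2 (not_le.2 (hfree T' hT' h1))
  -- choose an order, separating data and a set of the union for every edge
  have hch : ∀ e : Finset V, ∃ (w : Fin (r * m) → Bool) (p : Fin r → Fin r → Fin m)
      (c : Fin r → Fin r → Bool) (j : Option (Fin L)), e ∈ E → Valid p c ∧
        (∃ j₀, j = some j₀ ∧ w ∈ T j₀ ∩ Sep p c) ∧
        ∃ v : Fin r → V, univ.image v = e ∧ w = cat (fun j => lab (v j)) := by
    intro e
    by_cases he : e ∈ E
    · have hc := hE e he
      let q : Fin r ≃ e := (Fintype.equivFinOfCardEq (by simpa using hc)).symm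
      let v : Fin r → V := fun i => (q i : V)
      have hvi : Function.Injective v := fun i j h => q.injective (Subtype.ext h)
      have hve : univ.image v = e := by
        ext x
        simp only [Finset.mem_image, Finset.mem_univ, true_and]
        constructor
        · rintro ⟨i, rfl⟩; exact (q i).2
        · intro hx
          exact ⟨q.symm ⟨x, hx⟩, by simp [v]⟩
      obtain ⟨p, c, hval, hsep⟩ := exists_sep hm hlab hvi
      have hR : cat (fun j => lab (v j)) ∈ Rel r lab E := ⟨v, hvi, by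
        convert he using 1, rfl⟩
      rw [hTU] at hR
      obtain ⟨j, hj⟩ := Set.mem_iUnion.1 hR
      exact ⟨_, p, c, some j, fun _ => ⟨hval, ⟨j, rfl, hj, hsep⟩, v, hve, rfl⟩⟩
    · exact ⟨fun _ => false, fun _ _ => ⟨0, hm⟩, fun _ _ => false, none, fun h => absurd h he⟩
  choose w p c j hwp using hch
  set D := (Fin r → Fin r → Fin m) × (Fin r → Fin r → Bool) × Fin L with hDdef
  have hsubE : E ⊆ (univ : Finset D).biUnion (fun D => E.filter (fun e =>
      p e = D.1 ∧ c e = D.2.1 ∧ j e = some D.2.2)) := by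
    intro e he
    obtain ⟨_, ⟨j₀, hj₀, _⟩, _⟩ := hwp e he
    exact Finset.mem_biUnion.2 ⟨(p e, c e, j₀), Finset.mem_univ _,
      Finset.mem_filter.2 ⟨he, rfl, rfl, hj₀⟩⟩
  have hfib : ∀ D' : D, ((E.filter (fun e =>
      p e = D'.1 ∧ c e = D'.2.1 ∧ j e = some D'.2.2)).card : ℝ) ≤ Thr := by
    intro D'
    rcases (E.filter (fun e => p e = D'.1 ∧ c e = D'.2.1 ∧ j e = some D'.2.2)).eq_empty_or_nonempty
      with h0 | ⟨e₁, he₁⟩
    · rw [h0]; simpa using hThr0
    · obtain ⟨he₁E, hp1, hc1, hj1⟩ := Finset.mem_filter.1 he₁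
      have hval : Valid D'.1 D'.2.1 := by
        rw [← hp1, ← hc1]; exact (hwp e₁ he₁E).1
      refine le_trans ?_ (hsmall D'.1 D'.2.1 D'.2.2 hval)
      have : (E.filter (fun e => p e = D'.1 ∧ c e = D'.2.1 ∧ j e = some D'.2.2)).card ≤
          (univ.filter (fun z => z ∈ T D'.2.2 ∩ Sep D'.1 D'.2.1)).card := by
        apply Finset.card_le_card_of_injOn w
        · intro e he
          obtain ⟨heE, hp2, hc2, hj2⟩ := Finset.mem_filter.1 he
          obtain ⟨_, ⟨j₀, hj₀, hw₀⟩, _⟩ := hwp e heE
          have hjj : j₀ = D'.2.2 := Option.some_injective _ (hj₀.symm.trans hj2)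
          refine Finset.mem_coe.2 (Finset.mem_filter.2 ⟨Finset.mem_univ _, ?_⟩)
          rw [← hjj, ← hp2, ← hc2]
          exact hw₀
        · intro e he e' he' hww
          obtain ⟨heE, _⟩ := Finset.mem_filter.1 he
          obtain ⟨heE', _⟩ := Finset.mem_filter.1 he'
          obtain ⟨_, _, v, hv, hvw⟩ := hwp e heE
          obtain ⟨_, _, v', hv', hvw'⟩ := hwp e' heE'
          rw [← hv, ← hv']
          have hvv : v = v' := by
            funext b
            apply hlab
            funext i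
            have h5 : cat (fun j => lab (v j)) = cat (fun j => lab (v' j)) := by
              rw [← hvw, ← hvw']; exact hww
            have h6 := congrFun h5 (finProdFinEquiv (b, i))
            rwa [cat_apply, cat_apply] at h6
          rw [hvv]
      exact_mod_cast this
  have hcount : (E.card : ℝ) ≤ (Fintype.card D : ℝ) * Thr := by
    calc (E.card : ℝ) ≤ (((univ : Finset D).biUnion (fun D => E.filter (fun e =>
          p e = D.1 ∧ c e = D.2.1 ∧ j e = some D.2.2))).card : ℝ) := by
          exact_mod_cast Finset.card_le_card hsubE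
      _ ≤ ∑ D' : D, ((E.filter (fun e =>
          p e = D'.1 ∧ c e = D'.2.1 ∧ j e = some D'.2.2)).card : ℝ) := by
          exact_mod_cast Finset.card_biUnion_le
      _ ≤ ∑ _D' : D, Thr := Finset.sum_le_sum fun D' _ => hfib D'
      _ = _ := by rw [Finset.sum_const, nsmul_eq_mul, Finset.card_univ]
  have hDc : (Fintype.card D : ℝ) = L * (2 * m) ^ (r * r) := by
    show ((Fintype.card ((Fin r → Fin r → Fin m) × (Fin r → Fin r → Bool) × Fin L) : ℕ) : ℝ) = _
    simp only [Fintype.card_prod, Fintype.card_fun, Fintype.card_fin, Fintype.card_bool]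
    push_cast
    rw [← pow_mul, ← pow_mul, mul_pow]
    ring
  rw [hDc] at hcount
  refine hcount.trans ?_
  rw [mul_assoc]
  apply mul_le_mul_of_nonneg_left _ (Nat.cast_nonneg L)
  apply mul_le_mul_of_nonneg_left _ (by positivity)
  refine (Th_le hF1 (by positivity) r).trans (le_of_eq ?_)
  have e1 : (((r * m : ℕ) : ℝ) - (((r * m : ℕ) : ℝ) - m) * qavg k d M) =
      (r : ℝ) * m - (r - 1) * m * qavg k d M := by push_cast; ring
  rw [e1]
  have e2 : (d * a * (r + 1)) = d * a * r + d * a := by ring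
  rw [e2, pow_add, pow_add, ← pow_mul, pow_mul _ (d * a) r]
  push_cast
  ring

end Pool.Agent.H96.Bes
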