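import Mathlib
import Pool.Agent.H96.KrPpsz

/-!
# Lower bounds for the exponents
-/

set_option autoImplicit false

namespace Pool.Agent.H96.Ppsz

open Finset Pool.Agent.H96.Ppz

/-- The recursion rounded down to multiples of `1 / N`. -/
def qn (k M N s : ℕ) : ℕ → ℕ
  | 0 => 0
  | j + 1 => (s * N + (M - s) * qn k M N s j) ^ (k - 1) / (M ^ (k - 1) * N ^ (k - 2))

/-- the sum of the rounded values -/
def sn (k M N d : ℕ) : ℕ → ℕ
  | 0 => 0
  | s + 1 => sn k M N d s + qn k M N s d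

lemma qn_le {k M N s : ℕ} (hk : 2 ≤ k) (hM : 0 < M) (hN : 0 < N) (hs : s ≤ M) :
    ∀ j, (qn k M N s j : ℝ) / N ≤ Q k ((s : ℝ) / M) j
  | 0 => by simp [qn, Q]
  | j + 1 => by
      have ih := qn_le hk hM hN hs j
      have hM' : (0 : ℝ) < M := by exact_mod_cast hM
      have hN' : (0 : ℝ) < N := by exact_mod_cast hN
      have h1 : (qn k M N s (j + 1) : ℝ) ≤
          ((s * N + (M - s : ℕ) * qn k M N s j : ℕ) : ℝ) ^ (k - 1) / (M ^ (k - 1) * N ^ (k - 2)) := by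
        have := @Nat.cast_div_le ℝ _ _ _ ((s * N + (M - s) * qn k M N s j) ^ (k - 1))
          (M ^ (k - 1) * N ^ (k - 2))
        push_cast at this ⊢
        exact this
      have h2 : ((s * N + (M - s : ℕ) * qn k M N s j : ℕ) : ℝ) =
          (M * N) * ((s : ℝ) / M + (1 - (s : ℝ) / M) * ((qn k M N s j : ℝ) / N)) := by
        push_cast [Nat.cast_sub hs]
        field_simp
      have hr1 : 0 ≤ 1 - (s : ℝ) / M := by
        rw [sub_nonneg, div_le_one hM']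
        exact_mod_cast hs
      have hN2 : (N : ℝ) ^ (k - 1) = N ^ (k - 2) * N := by
        rw [← pow_succ]; congr 1; omega
      calc (qn k M N s (j + 1) : ℝ) / N
          ≤ (((s * N + (M - s : ℕ) * qn k M N s j : ℕ) : ℝ) ^ (k - 1) /
              (M ^ (k - 1) * N ^ (k - 2))) / N := div_le_div_of_nonneg_right h1 hN'.le
        _ = ((s : ℝ) / M + (1 - (s : ℝ) / M) * ((qn k M N s j : ℝ) / N)) ^ (k - 1) := by
            rw [h2, mul_pow, mul_pow, hN2]
            field_simp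
        _ ≤ ((s : ℝ) / M + (1 - (s : ℝ) / M) * Q k ((s : ℝ) / M) j) ^ (k - 1) := by
            apply pow_le_pow_left₀
            · positivity
            · linarith [mul_le_mul_of_nonneg_left ih hr1]
        _ = Q k ((s : ℝ) / M) (j + 1) := rfl

lemma qavg_ge {k M N d : ℕ} (hk : 2 ≤ k) (hM : 0 < M) (hN : 0 < N) :
    (sn k M N d M : ℝ) / (N * M) ≤ qavg k d M := by
  have hM' : (0 : ℝ) < M := by exact_mod_cast hM
  have hN' : (0 : ℝ) < N := by exact_mod_cast hN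
  have h1 : ∀ t ≤ M, (sn k M N d t : ℝ) / N ≤ ∑ s ∈ Finset.range t, Q k ((s : ℝ) / M) d := by
    intro t
    induction t with
    | zero => intro _; simp [sn]
    | succ t ih =>
      intro ht
      rw [Finset.sum_range_succ]
      have h2 := ih (by omega)
      have h3 := qn_le (s := t) hk hM hN (by omega) d
      have h4 : (sn k M N d (t + 1) : ℝ) = sn k M N d t + qn k M N t d := by
        simp [sn]
      rw [h4, add_div]
      linarith
  unfold qavg
  rw [← div_div]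
  exact div_le_div_of_nonneg_right (h1 M le_rfl) hM'.le

lemma q3 : (1 : ℝ) / 2 < qavg 3 6 20 := by
  refine lt_of_lt_of_le ?_ (qavg_ge (N := 10 ^ 6) (by norm_num) (by norm_num) (by norm_num))
  have h : 20 * 10 ^ 6 < 2 * sn 3 20 (10 ^ 6) 6 20 := by decide +kernel
  have h' : ((20 * 10 ^ 6 : ℕ) : ℝ) < ((2 * sn 3 20 (10 ^ 6) 6 20 : ℕ) : ℝ) := by exact_mod_cast h
  push_cast at h' ⊢
  rw [div_lt_div_iff₀ (by norm_num) (by norm_num)]
  linarith

lemma q5 : (1 : ℝ) / 3 < qavg 5 20 100 := by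
  refine lt_of_lt_of_le ?_ (qavg_ge (N := 10 ^ 6) (by norm_num) (by norm_num) (by norm_num))
  have h : 100 * 10 ^ 6 < 3 * sn 5 100 (10 ^ 6) 20 100 := by decide +kernel
  have h' : ((100 * 10 ^ 6 : ℕ) : ℝ) < ((3 * sn 5 100 (10 ^ 6) 20 100 : ℕ) : ℝ) := by
    exact_mod_cast h
  push_cast at h' ⊢
  rw [div_lt_div_iff₀ (by norm_num) (by norm_num)]
  linarith

lemma q6 : (1 : ℝ) / 4 < qavg 6 8 40 := by
  refine lt_of_lt_of_le ?_ (qavg_ge (N := 10 ^ 6) (by norm_num) (by norm_num) (by norm_num))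
  have h : 40 * 10 ^ 6 < 4 * sn 6 40 (10 ^ 6) 8 40 := by decide +kernel
  have h' : ((40 * 10 ^ 6 : ℕ) : ℝ) < ((4 * sn 6 40 (10 ^ 6) 8 40 : ℕ) : ℝ) := by
    exact_mod_cast h
  push_cast at h' ⊢
  rw [div_lt_div_iff₀ (by norm_num) (by norm_num)]
  linarith

/-! ## Power sums -/

lemma pow_low {x : ℝ} (hx : 0 ≤ x) : ∀ n : ℕ, x ^ (n + 1) + (n + 1) * x ^ n ≤ (x + 1) ^ (n + 1)
  | 0 => by simp
  | n + 1 => by
      have ih := pow_low hx n
      have h1 := mul_le_mul_of_nonneg_right ih (by linarith : 0 ≤ x + 1)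
      have h2 : 0 ≤ ((n : ℝ) + 1) * x ^ n := by positivity
      calc x ^ (n + 1 + 1) + ((n + 1 : ℕ) + 1) * x ^ (n + 1)
          ≤ (x ^ (n + 1) + (n + 1) * x ^ n) * (x + 1) := by
            push_cast
            have : (x ^ (n + 1) + (n + 1) * x ^ n) * (x + 1) =
              x ^ (n + 1 + 1) + ((n + 1 : ℝ) + 1) * x ^ (n + 1) + ((n : ℝ) + 1) * x ^ n := by ring
            linarith
        _ ≤ (x + 1) ^ (n + 1) * (x + 1) := h1
        _ = _ := by ring

lemma pow_up {x : ℝ} (hx : 0 ≤ x) : ∀ n : ℕ,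
    (x + 1) ^ (n + 1) - (n + 1) * (x + 1) ^ n ≤ x ^ (n + 1)
  | 0 => by simp
  | n + 1 => by
      have ih := pow_up hx n
      have h1 := mul_le_mul_of_nonneg_left ih hx
      have h2 : 0 ≤ ((n : ℝ) + 1) * (x + 1) ^ n := by positivity
      calc (x + 1) ^ (n + 1 + 1) - ((n + 1 : ℕ) + 1) * (x + 1) ^ (n + 1)
          ≤ x * ((x + 1) ^ (n + 1) - (n + 1) * (x + 1) ^ n) := by
            push_cast
            have : x * ((x + 1) ^ (n + 1) - (n + 1) * (x + 1) ^ n) =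
              (x + 1) ^ (n + 1 + 1) - ((n + 1 : ℝ) + 1) * (x + 1) ^ (n + 1) +
                ((n : ℝ) + 1) * (x + 1) ^ n := by ring
            linarith
        _ ≤ x * x ^ (n + 1) := h1
        _ = _ := by ring

/-- the left Riemann sums -/
noncomputable def As (p M : ℕ) : ℝ := (∑ s ∈ Finset.range M, ((s : ℝ) / M) ^ p) / M

lemma sum_pow_up (p : ℕ) : ∀ M : ℕ, ((p : ℝ) + 1) * ∑ s ∈ Finset.range M, (s : ℝ) ^ p ≤
    (M : ℝ) ^ (p + 1)
  | 0 => by simp
  | M + 1 => by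
      rw [Finset.sum_range_succ, mul_add]
      have := sum_pow_up p M
      have h := pow_low (Nat.cast_nonneg M : (0:ℝ) ≤ M) p
      push_cast
      linarith

lemma sum_pow_low (p : ℕ) : ∀ M : ℕ, (M : ℝ) ^ (p + 1) - (p + 1) * (M : ℝ) ^ p ≤
    ((p : ℝ) + 1) * ∑ s ∈ Finset.range M, (s : ℝ) ^ p
  | 0 => by
      simp only [Nat.cast_zero, Finset.range_zero, Finset.sum_empty, mul_zero]
      rw [zero_pow (Nat.succ_ne_zero p)]
      have : (0 : ℝ) ≤ (p + 1) * 0 ^ p := by positivity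
      linarith
  | M + 1 => by
      rw [Finset.sum_range_succ, mul_add]
      have := sum_pow_low p M
      have h := pow_up (Nat.cast_nonneg M : (0:ℝ) ≤ M) p
      push_cast
      linarith

lemma As_eq (p : ℕ) {M : ℕ} : As p M = (∑ s ∈ Finset.range M, (s : ℝ) ^ p) / (M : ℝ) ^ (p + 1) := by
  unfold As
  simp only [div_pow]
  rw [← Finset.sum_div, div_div, ← pow_succ]

lemma As_up (p : ℕ) {M : ℕ} (hM : 0 < M) : As p M ≤ 1 / ((p : ℝ) + 1) := by
  have hM' : (0 : ℝ) < M := by exact_mod_cast hM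
  rw [As_eq p, div_le_div_iff₀ (by positivity) (by positivity), one_mul, mul_comm]
  exact sum_pow_up p M

lemma As_low (p : ℕ) {M : ℕ} (hM : 0 < M) : 1 / ((p : ℝ) + 1) - 1 / M ≤ As p M := by
  have hM' : (0 : ℝ) < M := by exact_mod_cast hM
  rw [As_eq p, le_div_iff₀ (by positivity)]
  have h := sum_pow_low p M
  have h2 : (1 / ((p : ℝ) + 1) - 1 / M) * (M : ℝ) ^ (p + 1) =
      ((M : ℝ) ^ (p + 1) - (p + 1) * (M : ℝ) ^ p) / ((p : ℝ) + 1) := by
    rw [pow_succ]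
    field_simp
  rw [h2, div_le_iff₀ (by positivity)]
  linarith

/-- A lower bound for the exponent from flips of at most two bits. -/
lemma qavg_two {k M : ℕ} (hk : 2 ≤ k) (hM : 0 < M) :
    1 / (k : ℝ) + 1 / (4 * k - 2) - k / M ≤ qavg k 2 M := by
  have hM' : (0 : ℝ) < M := by exact_mod_cast hM
  obtain ⟨p, rfl⟩ : ∃ p, k = p + 2 := ⟨k - 2, by omega⟩
  have hpt : ∀ s ∈ Finset.range M, ((s : ℝ) / M) ^ (p + 1) +
      (p + 1) * (((s : ℝ) / M) ^ (2 * p + 1) - ((s : ℝ) / M) ^ (2 * p + 2)) ≤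
      Q (p + 2) ((s : ℝ) / M) 2 := by
    intro s hs
    set r : ℝ := (s : ℝ) / M with hr
    have hr0 : 0 ≤ r := by positivity
    have hr1 : r ≤ 1 := by
      rw [hr, div_le_one hM']
      exact_mod_cast (Finset.mem_range.1 hs).le
    have h1 : Q (p + 2) r 2 = (r + (1 - r) * r ^ (p + 1)) ^ (p + 1) := by
      simp [Q]
    rw [h1]
    rcases hr0.eq_or_lt with h0 | h0
    · rw [← h0]; simp
    · set x : ℝ := (1 - r) * r ^ p with hx
      have hx0 : 0 ≤ x := mul_nonneg (by linarith) (by positivity)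
      have h2 : r + (1 - r) * r ^ (p + 1) = r * (1 + x) := by rw [hx]; ring
      rw [h2, mul_pow]
      have h3 : 1 + ((p + 1 : ℕ) : ℝ) * x ≤ (1 + x) ^ (p + 1) :=
        one_add_mul_le_pow (by linarith) (p + 1)
      have h4 := mul_le_mul_of_nonneg_left h3 (pow_nonneg hr0 (p + 1))
      refine le_trans (le_of_eq ?_) h4
      rw [hx]
      push_cast
      ring
  have hsum : As (p + 1) M + (p + 1) * (As (2 * p + 1) M - As (2 * p + 2) M) ≤
      qavg (p + 2) 2 M := by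
    unfold qavg As
    have := Finset.sum_le_sum hpt
    rw [Finset.sum_add_distrib, ← Finset.mul_sum, Finset.sum_sub_distrib] at this
    have h5 := div_le_div_of_nonneg_right this hM'.le
    refine le_trans (le_of_eq ?_) h5
    ring
  refine le_trans ?_ hsum
  have a1 := As_low (p + 1) hM
  have a2 := As_low (2 * p + 1) hM
  have a3 := As_up (2 * p + 2) hM
  push_cast at a1 a2 a3 ⊢
  have hp1 : (0 : ℝ) < p + 1 := by positivity
  have h6 : ((p : ℝ) + 1) * (1 / (2 * p + 1 + 1) - 1 / M - 1 / (2 * p + 2 + 1)) ≤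
      (p + 1) * (As (2 * p + 1) M - As (2 * p + 2) M) := by
    apply mul_le_mul_of_nonneg_left _ hp1.le
    linarith
  have h7 : ((p : ℝ) + 1) * (1 / (2 * p + 1 + 1) - 1 / M - 1 / (2 * p + 2 + 1)) =
      1 / (4 * (p + 2) - 2) - (p + 1) / M := by
    have e : (4 * ((p : ℝ) + 2) - 2) = 2 * (2 * p + 3) := by ring
    have e2 : (2 * (p : ℝ) + 1 + 1) = 2 * (p + 1) := by ring
    have e3 : (2 * (p : ℝ) + 2 + 1) = 2 * p + 3 := by ring
    rw [e, e2, e3]
    have h23 : (0 : ℝ) < 2 * p + 3 := by positivity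
    field_simp
    ring
  have h8 : ((p : ℝ) + 2) / M = (p + 1) / M + 1 / M := by rw [← add_div]; congr 1; ring
  rw [h7] at h6
  rw [h8]
  have h9 : (1 : ℝ) / (p + 1 + 1) = 1 / (p + 2) := by congr 1; ring
  rw [h9] at a1
  linarith

lemma q_general {s k : ℕ} (hk : 2 ≤ k) (hks : 4 * k ≤ 5 * s) :
    ∃ M : ℕ, 1 ≤ M ∧ 1 / (s : ℝ) < qavg k 2 M := by
  have hk0 : 0 < k := by omega
  refine ⟨k * (4 * k) * (4 * k), Nat.succ_le_of_lt (by positivity), ?_⟩
  have hk' : (2 : ℝ) ≤ k := by exact_mod_cast hk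
  have hs0 : (0 : ℝ) < s := by
    have : 0 < s := by omega
    exact_mod_cast this
  refine lt_of_lt_of_le ?_ (qavg_two hk (by positivity))
  have h1 : (1 : ℝ) / s ≤ 5 / (4 * k) := by
    rw [div_le_div_iff₀ hs0 (by positivity)]
    have : (4 * (k : ℝ)) ≤ 5 * s := by exact_mod_cast hks
    linarith
  refine lt_of_le_of_lt h1 ?_
  push_cast
  have h2 : (k : ℝ) / (k * (4 * k) * (4 * k)) = 1 / ((4 * k) * (4 * k)) := by
    field_simp
  rw [h2]
  have h3 : (5 : ℝ) / (4 * k) = 1 / k + 1 / (4 * k) := by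
    field_simp
    norm_num
  rw [h3]
  have h4 : (0 : ℝ) < 4 * k - 2 := by linarith
  have h5 : (1 : ℝ) / (4 * k) + 1 / ((4 * k) * (4 * k)) < 1 / (4 * k - 2) := by
    rw [div_add_div _ _ (by positivity) (by positivity), div_lt_div_iff₀ (by positivity) h4]
    nlinarith [mul_pos (by linarith : (0:ℝ) < k) (by linarith : (0:ℝ) < k)]
  linarith

lemma kcnf_mono {m k k' : ℕ} (h : k ≤ k') {S : Set (Fin m → Bool)} (hS : KCnf k S) :
    KCnf k' S := fun y hy => by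
  obtain ⟨A, hA, hc⟩ := hS y hy
  exact ⟨A, hA.trans h, hc⟩

lemma depth3_mono {m L k k' : ℕ} (h : k ≤ k') {S : Set (Fin m → Bool)} (hS : Depth3 L k S) :
    Depth3 L k' S := by
  obtain ⟨T, hT, hU⟩ := hS
  exact ⟨T, fun j => kcnf_mono h (hT j), hU⟩

lemma exists_q {s k : ℕ} (hs : 2 ≤ s)
    (h : 4 * k ≤ 5 * s ∨ (s = 2 ∧ k ≤ 3) ∨ (s = 3 ∧ k ≤ 5) ∨ (s = 4 ∧ k ≤ 6)) :
    ∃ k' d M : ℕ, k ≤ k' ∧ 1 ≤ d ∧ 1 ≤ M ∧ 1 / (s : ℝ) < qavg k' d M := by
  rcases h with h | ⟨rfl, h⟩ | ⟨rfl, h⟩ | ⟨rfl, h⟩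
  · by_cases hk : 2 ≤ k
    · obtain ⟨M, hM, hq⟩ := q_general hk h
      exact ⟨k, 2, M, le_rfl, by norm_num, hM, hq⟩
    · obtain ⟨M, hM, hq⟩ := q_general (s := s) (k := 2) le_rfl (by omega)
      exact ⟨2, 2, M, by omega, by norm_num, hM, hq⟩
  · exact ⟨3, 6, 20, h, by norm_num, by norm_num, by push_cast; exact q3⟩
  · exact ⟨5, 20, 100, h, by norm_num, by norm_num, by push_cast; exact q5⟩
  · exact ⟨6, 8, 40, h, by norm_num, by norm_num, by push_cast; exact q6⟩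

/-- Graphs of the conjectured order. -/
theorem graph_order (s t k D : ℕ) (hs : 2 ≤ s) (ht : 1 ≤ t)
    (h : 4 * k ≤ 5 * s ∨ (s = 2 ∧ k ≤ 3) ∨ (s = 3 ∧ k ≤ 5) ∨ (s = 4 ∧ k ≤ 6)) :
    ∃ δ : ℝ, 0 < δ ∧ ∀ c : ℝ, 0 < c → ∃ n₀ : ℕ,
      ∀ (n m L : ℕ) (lab : Fin n → Fin m → Bool) (G : SimpleGraph (Fin n)), n₀ ≤ n →
      Function.Injective lab → 2 ^ m ≤ D * n →
      (∀ x, Depth3 L k (lab '' G.neighborSet x)) →
      (completeBipartiteGraph (Fin s) (Fin t)).Free G →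
      c * (n : ℝ) ^ (2 - 1 / (s : ℝ)) ≤ Nat.card G.edgeSet → (n : ℝ) ^ δ < L := by
  obtain ⟨k', d, M, hk', hd, hM, hq⟩ := exists_q hs h
  set δ : ℝ := (qavg k' d M - 1 / s) / 3 with hδ
  have hδ0 : 0 < δ := by rw [hδ]; linarith
  refine ⟨δ, hδ0, fun c hc => ?_⟩
  obtain ⟨n₀, hn₀⟩ := graph_asymp k' d M s t D (2 - 1 / (s : ℝ) - 2 * δ) hM hd ht
    (by rw [hδ]; linarith)
  have ht2 := (tendsto_rpow_atTop hδ0).comp (tendsto_natCast_atTop_atTop (R := ℝ))
  obtain ⟨n₁, hn₁⟩ := Filter.eventually_atTop.1 (ht2.eventually_gt_atTop (1 / c))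
  refine ⟨max (max n₀ n₁) 1, ?_⟩
  intro n m L lab G hn hlab hD hN hfree hE
  have hn0 : n₀ ≤ n := le_trans (le_trans (le_max_left _ _) (le_max_left _ _)) hn
  have hn1 : n₁ ≤ n := le_trans (le_trans (le_max_right _ _) (le_max_left _ _)) hn
  have hn2 : 1 ≤ n := le_trans (le_max_right _ _) hn
  have hn' : (0 : ℝ) < n := by exact_mod_cast hn2
  have h1 := hn₀ n m L lab G hn0 hlab hD (fun x => depth3_mono hk' (hN x)) hfree
  have h2 := hE.trans h1
  have h3 : (n : ℝ) ^ (2 - 1 / (s : ℝ)) = (n : ℝ) ^ (2 * δ) * (n : ℝ) ^ (2 - 1 / (s : ℝ) - 2 * δ) := by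
    rw [← Real.rpow_add hn']; congr 1; ring
  rw [h3, ← mul_assoc] at h2
  have h4 : c * (n : ℝ) ^ (2 * δ) ≤ L := le_of_mul_le_mul_right h2 (by positivity)
  have h5 : (n : ℝ) ^ (2 * δ) = (n : ℝ) ^ δ * (n : ℝ) ^ δ := by
    rw [← Real.rpow_add hn']; congr 1; ring
  have h6 := hn₁ n hn1
  simp only [Function.comp] at h6
  have h7 : 1 < c * (n : ℝ) ^ δ := by
    rw [div_lt_iff₀ hc] at h6
    linarith
  have h8 : 0 < (n : ℝ) ^ δ := by positivity
  rw [h5] at h4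
  nlinarith

/-- The exponents for `k = 2` tend to one. -/
lemma q_two (d : ℕ) {M : ℕ} (hM : 0 < M) : 1 - 1 / ((d : ℝ) + 1) - 1 / M ≤ qavg 2 d M := by
  have hM' : (0 : ℝ) < M := by exact_mod_cast hM
  have hQ : ∀ (r : ℝ) (j : ℕ), Q 2 r j = 1 - (1 - r) ^ j := by
    intro r j
    induction j with
    | zero => simp [Q]
    | succ j ih =>
      simp only [Q, ih]
      ring
  unfold qavg
  simp only [hQ]
  rw [Finset.sum_sub_distrib, Finset.sum_const, Finset.card_range, nsmul_eq_mul, mul_one, sub_div,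
    div_self hM'.ne']
  have h1 : ∑ s ∈ Finset.range M, (1 - (s : ℝ) / M) ^ d =
      ∑ s ∈ Finset.range M, (((s : ℝ) + 1) / M) ^ d := by
    rw [← Finset.sum_range_reflect]
    refine Finset.sum_congr rfl fun s hs => ?_
    have hs' := Finset.mem_range.1 hs
    congr 1
    have : ((M - 1 - s : ℕ) : ℝ) = (M : ℝ) - 1 - s := by
      rw [Nat.cast_sub (by omega), Nat.cast_sub (by omega)]; simp
    rw [this]
    field_simp
    ring
  have h2 : ∑ s ∈ Finset.range M, (((s : ℝ) + 1) / M) ^ d ≤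
      ∑ s ∈ Finset.range M, ((s : ℝ) / M) ^ d + 1 := by
    have h3 := Finset.sum_range_succ (fun s : ℕ => ((s : ℝ) / M) ^ d) M
    have h4 := Finset.sum_range_succ' (fun s : ℕ => ((s : ℝ) / M) ^ d) M
    rw [h3] at h4
    rw [div_self hM'.ne', one_pow] at h4
    have h5 : (0 : ℝ) ≤ (((0 : ℕ) : ℝ) / M) ^ d := by positivity
    push_cast at h4 h5
    linarith
  rw [h1]
  have h6 := As_up d hM
  unfold As at h6
  have h7 := div_le_div_of_nonneg_right h2 hM'.le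
  rw [add_div] at h7
  linarith

end Pool.Agent.H96.Ppsz
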