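import Mathlib
import Pool.Agent.H96.Exponents

/-!
# Graphs whose neighbourhoods are unions of few median-closed sets
-/

set_option autoImplicit false

namespace Pool.Agent.H96.Median

open Finset Pool.Agent.H96.Ppz Pool.Agent.H96.Ppsz

/-- the majority of three bits -/
def maj (a b c : Bool) : Bool := (a && b) || (b && c) || (a && c)

/-- `S` contains the coordinatewise majority of any three of its members. -/
def MedClosed {m : ℕ} (S : Set (Fin m → Bool)) : Prop :=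
  ∀ a ∈ S, ∀ b ∈ S, ∀ c ∈ S, (fun i => maj (a i) (b i) (c i)) ∈ S

/-- `S` is a union of `L` median-closed sets. -/
def MedUnion (L : ℕ) {m : ℕ} (S : Set (Fin m → Bool)) : Prop :=
  ∃ T : Fin L → Set (Fin m → Bool), (∀ j, MedClosed (T j)) ∧ S = ⋃ j, T j

lemma med_kcnf {m : ℕ} {S : Set (Fin m → Bool)} (hS : MedClosed S) : KCnf 2 S := by
  classical
  intro y hy
  by_contra hcon
  push Not at hcon
  have key : ∀ n : ℕ, ∀ B : Finset (Fin m), B.card ≤ n → ∃ z ∈ S, ∀ i ∈ B, z i = y i := by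
    intro n
    induction n with
    | zero =>
      intro B hB
      obtain ⟨z, hz, hzS⟩ := hcon B (by omega)
      exact ⟨z, hzS, hz⟩
    | succ n ih =>
      intro B hB
      by_cases h2 : B.card ≤ 2
      · obtain ⟨z, hz, hzS⟩ := hcon B h2
        exact ⟨z, hzS, hz⟩
      · push Not at h2
        obtain ⟨i, j, l, hi, hj, hl, hij, hil, hjl⟩ := Finset.two_lt_card_iff.1 h2
        have he : ∀ x ∈ B, (B.erase x).card ≤ n := by
          intro x hx
          rw [Finset.card_erase_of_mem hx]; omega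
        obtain ⟨a, ha, hay⟩ := ih _ (he i hi)
        obtain ⟨b, hb, hby⟩ := ih _ (he j hj)
        obtain ⟨c, hc, hcy⟩ := ih _ (he l hl)
        refine ⟨_, hS a ha b hb c hc, ?_⟩
        intro x hx
        show maj (a x) (b x) (c x) = y x
        by_cases h1 : x = i
        · have e1 := hby x (Finset.mem_erase.2 ⟨fun h => hij (h1.symm.trans h), hx⟩)
          have e2 := hcy x (Finset.mem_erase.2 ⟨fun h => hil (h1.symm.trans h), hx⟩)
          rw [e1, e2]
          cases a x <;> cases y x <;> rfl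
        · have e1 := hay x (Finset.mem_erase.2 ⟨h1, hx⟩)
          by_cases h3 : x = j
          · have e2 := hcy x (Finset.mem_erase.2 ⟨fun h => hjl (h3.symm.trans h), hx⟩)
            rw [e1, e2]
            cases b x <;> cases y x <;> rfl
          · have e2 := hby x (Finset.mem_erase.2 ⟨h3, hx⟩)
            rw [e1, e2]
            cases c x <;> cases y x <;> rfl
  obtain ⟨z, hz, hzy⟩ := key _ univ le_rfl
  have : z = y := funext fun i => hzy i (Finset.mem_univ _)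
  exact hy (this ▸ hz)

lemma med_depth3 {m L : ℕ} {S : Set (Fin m → Bool)} (h : MedUnion L S) : Depth3 L 2 S := by
  obtain ⟨T, hT, hU⟩ := h
  exact ⟨T, fun j => med_kcnf (hT j), hU⟩

/-- Explicit bound. -/
theorem med_bound (m d L r u : ℕ) (V : Type) [Fintype V] (lab : V → Fin m → Bool)
    (G : SimpleGraph V) (hd : 1 ≤ d) (hu : 1 ≤ u) (hlab : Function.Injective lab)
    (hN : ∀ x, MedUnion L (lab '' G.neighborSet x))
    (hfree : (completeBipartiteGraph (Fin r) (Fin u)).Free G) :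
    (Nat.card G.edgeSet : ℝ) ≤
      L * ((2 * (m + 1)) ^ (d * (Nat.clog 2 r - 1)) * (Fintype.card V) *
        ((2 : ℝ) ^ m) ^ (1 / ((d : ℝ) + 1)) + u * (m + 1) ^ (d * Nat.clog 2 r) * 2 ^ m) := by
  have h := graph_boundP m 2 d (m + 1) L r u V lab G (by omega) hd hu hlab
    (fun x => med_depth3 (hN x)) hfree
  have hq := q_two d (M := m + 1) (by omega)
  have hm : (0 : ℝ) < (m : ℝ) + 1 := by positivity
  have h1 : ((2 : ℝ) ^ m) ^ (1 - qavg 2 d (m + 1)) ≤ 2 * ((2 : ℝ) ^ m) ^ (1 / ((d : ℝ) + 1)) := by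
    have hb : (1 : ℝ) ≤ (2 : ℝ) ^ m := one_le_pow₀ (by norm_num)
    calc ((2 : ℝ) ^ m) ^ (1 - qavg 2 d (m + 1))
        ≤ ((2 : ℝ) ^ m) ^ (1 / ((d : ℝ) + 1) + 1 / ((m + 1 : ℕ) : ℝ)) :=
          Real.rpow_le_rpow_of_exponent_le hb (by linarith)
      _ = ((2 : ℝ) ^ m) ^ (1 / ((d : ℝ) + 1)) * ((2 : ℝ) ^ m) ^ (1 / ((m + 1 : ℕ) : ℝ)) :=
          Real.rpow_add (by positivity) _ _
      _ ≤ ((2 : ℝ) ^ m) ^ (1 / ((d : ℝ) + 1)) * 2 := by
          apply mul_le_mul_of_nonneg_left _ (by positivity)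
          rw [← Real.rpow_natCast, ← Real.rpow_mul (by norm_num)]
          calc (2 : ℝ) ^ ((m : ℝ) * (1 / ((m + 1 : ℕ) : ℝ))) ≤ (2 : ℝ) ^ (1 : ℝ) := by
                apply Real.rpow_le_rpow_of_exponent_le (by norm_num)
                push_cast
                rw [mul_one_div, div_le_one hm]
                linarith
            _ = 2 := Real.rpow_one _
      _ = _ := by ring
  have h2 : (2 : ℝ) ^ (d * (Nat.clog 2 r - 1)) * (m + 1) ^ (d * (Nat.clog 2 r - 1)) *
      (Fintype.card V) * ((2 : ℝ) ^ m) ^ (1 - qavg 2 d (m + 1)) ≤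
      2 * ((2 * (m + 1)) ^ (d * (Nat.clog 2 r - 1)) * (Fintype.card V) *
        ((2 : ℝ) ^ m) ^ (1 / ((d : ℝ) + 1))) := by
    rw [mul_pow]
    have := mul_le_mul_of_nonneg_left h1
      (by positivity : (0 : ℝ) ≤ (2 : ℝ) ^ (d * (Nat.clog 2 r - 1)) *
        (m + 1) ^ (d * (Nat.clog 2 r - 1)) * (Fintype.card V))
    linarith
  have h3 : (0 : ℝ) ≤ u * (m + 1) ^ (d * Nat.clog 2 r) * 2 ^ m := by positivity
  have h4 := mul_le_mul_of_nonneg_left (add_le_add_left h2 ((u : ℝ) * (m + 1) ^ (d * Nat.clog 2 r) *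
    2 ^ m)) (Nat.cast_nonneg L : (0:ℝ) ≤ L)
  have h5 := mul_nonneg (Nat.cast_nonneg L : (0:ℝ) ≤ L) h3
  nlinarith

/-- Asymptotic bound. -/
theorem med_asymp (r u D : ℕ) (ε : ℝ) (hu : 1 ≤ u) (hε : 0 < ε) :
    ∃ n₀ : ℕ, ∀ (n m L : ℕ) (lab : Fin n → Fin m → Bool) (G : SimpleGraph (Fin n)), n₀ ≤ n →
      Function.Injective lab → 2 ^ m ≤ D * n →
      (∀ x, MedUnion L (lab '' G.neighborSet x)) →
      (completeBipartiteGraph (Fin r) (Fin u)).Free G →
      (Nat.card G.edgeSet : ℝ) ≤ L * (n : ℝ) ^ (1 + ε) := by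
  obtain ⟨d, hd⟩ := exists_nat_gt (4 / ε)
  have hd0 : (0 : ℝ) < d := lt_trans (by positivity) hd
  have hd1 : 0 < d := by exact_mod_cast hd0
  have hq := q_two d (M := d) hd1
  have h1 : 1 / (d : ℝ) < ε / 4 := by
    rw [div_lt_iff₀ hε] at hd
    rw [div_lt_iff₀ hd0]
    linarith
  have h2 : 1 / ((d : ℝ) + 1) ≤ 1 / d := one_div_le_one_div_of_le hd0 (by linarith)
  obtain ⟨n₀, hn₀⟩ := graph_asymp 2 d d r u D (1 + ε) hd1 hd1 hu (by linarith)
  exact ⟨n₀, fun n m L lab G hn hlab hD hN hfree =>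
    hn₀ n m L lab G hn hlab hD (fun x => med_depth3 (hN x)) hfree⟩

/-- Dense graphs need many median-closed sets. -/
theorem med_large (r u D : ℕ) (c δ β : ℝ) (hu : 1 ≤ u) (hc : 0 < c) (hδ : δ < β) :
    ∃ n₀ : ℕ, ∀ (n m L : ℕ) (lab : Fin n → Fin m → Bool) (G : SimpleGraph (Fin n)), n₀ ≤ n →
      Function.Injective lab → 2 ^ m ≤ D * n →
      (∀ x, MedUnion L (lab '' G.neighborSet x)) →
      (completeBipartiteGraph (Fin r) (Fin u)).Free G →
      c * (n : ℝ) ^ (1 + β) ≤ Nat.card G.edgeSet → (n : ℝ) ^ δ < L := by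
  set ε : ℝ := (β - δ) / 2 with hε
  have hε0 : 0 < ε := by rw [hε]; linarith
  obtain ⟨n₀, hn₀⟩ := med_asymp r u D ε hu hε0
  have ht2 := (tendsto_rpow_atTop hε0).comp (tendsto_natCast_atTop_atTop (R := ℝ))
  obtain ⟨n₁, hn₁⟩ := Filter.eventually_atTop.1 (ht2.eventually_gt_atTop (1 / c))
  refine ⟨max (max n₀ n₁) 1, ?_⟩
  intro n m L lab G hn hlab hD hN hfree hE
  have hn0 : n₀ ≤ n := le_trans (le_trans (le_max_left _ _) (le_max_left _ _)) hn
  have hn1 : n₁ ≤ n := le_trans (le_trans (le_max_right _ _) (le_max_left _ _)) hn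
  have hn2 : 1 ≤ n := le_trans (le_max_right _ _) hn
  have hn' : (0 : ℝ) < n := by exact_mod_cast hn2
  have h1 := hE.trans (hn₀ n m L lab G hn0 hlab hD hN hfree)
  have h3 : (n : ℝ) ^ (1 + β) = (n : ℝ) ^ δ * (n : ℝ) ^ ε * (n : ℝ) ^ (1 + ε) := by
    rw [← Real.rpow_add hn', ← Real.rpow_add hn']; congr 1; rw [hε]; ring
  rw [h3, ← mul_assoc] at h1
  have h4 : c * ((n : ℝ) ^ δ * (n : ℝ) ^ ε) ≤ L := le_of_mul_le_mul_right h1 (by positivity)
  have h6 := hn₁ n hn1
  simp only [Function.comp] at h6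
  have h7 : 1 < c * (n : ℝ) ^ ε := by
    rw [div_lt_iff₀ hc] at h6
    linarith
  have h8 : 0 < (n : ℝ) ^ δ := by positivity
  nlinarith

/-- Even cycles in complete bipartite graphs. -/
theorem cycle_in_biclique (k : ℕ) (hk : 2 ≤ k) :
    (SimpleGraph.cycleGraph (2 * k)).IsContained (completeBipartiteGraph (Fin k) (Fin k)) := by
  let f : Fin (2 * k) → Fin k ⊕ Fin k := fun i =>
    if i.1 % 2 = 0 then Sum.inl ⟨i.1 / 2, by omega⟩ else Sum.inr ⟨i.1 / 2, by omega⟩
  have hpar : ∀ u v : Fin (2 * k), (u - v).val = 1 → u.1 % 2 ≠ v.1 % 2 := by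
    intro u v h
    rw [Fin.sub_def] at h
    simp only at h
    have h1 := Nat.mod_mod_of_dvd (2 * k - v.1 + u.1) (Dvd.intro k rfl : 2 ∣ 2 * k)
    rw [h] at h1
    have := v.2
    omega
  refine ⟨⟨⟨f, ?_⟩, ?_⟩⟩
  · intro u v huv
    have hne : u.1 % 2 ≠ v.1 % 2 := by
      rcases SimpleGraph.cycleGraph_adj'.1 huv with h | h
      · exact hpar u v h
      · exact (hpar v u h).symm
    by_cases h1 : u.1 % 2 = 0
    · have h2 : ¬ v.1 % 2 = 0 := fun h => hne (h1.trans h.symm)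
      simp [f, h1, h2]
    · have h2 : v.1 % 2 = 0 := by omega
      simp [f, h1, h2]
  · intro u v huv
    have huv' : f u = f v := huv
    simp only [f] at huv'
    split_ifs at huv' with h1 h2 h2
    · simp only [Sum.inl.injEq, Fin.mk.injEq] at huv'
      exact Fin.ext (by omega)
    · simp only [Sum.inr.injEq, Fin.mk.injEq] at huv'
      exact Fin.ext (by omega)

lemma free_biclique {V : Type*} {G : SimpleGraph V} {k : ℕ} (hk : 2 ≤ k)
    (h : (SimpleGraph.cycleGraph (2 * k)).Free G) :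
    (completeBipartiteGraph (Fin k) (Fin k)).Free G :=
  fun hcon => h ((cycle_in_biclique k hk).trans hcon)

end Pool.Agent.H96.Median
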