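import Mathlib
import Pool.Agent.H96.Bes
import Pool.Agent.H96.Median

/-!
# Uniform hypergraphs decided by circuits of depth three: asymptotic forms
-/

set_option autoImplicit false

namespace Pool.Agent.H96.Bes

open Finset Pool.Agent.H96.Ppz Pool.Agent.H96.Ppsz Pool.Agent.H96.Median

open Classical in
/-- Asymptotic form of the bound. -/
theorem bes_asymp (r k d a M D : ℕ) (e : ℝ) (hr : 2 ≤ r) (hk : 1 ≤ k) (hM : 1 ≤ M) (hd : 1 ≤ d)
    (he : (r : ℝ) - (r - 1) * qavg k d M < e) (𝒯 : Finset (Fin r → Fin (2 ^ a))) :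
    ∃ n₀ : ℕ, ∀ (n m L : ℕ) (lab : Fin n → Fin m → Bool) (E : Finset (Finset (Fin n))), n₀ ≤ n →
      Function.Injective lab → 2 ^ m ≤ D * n → (∀ s ∈ E, s.card = r) →
      Depth3 L k (Rel r lab E) →
      (∀ T ⊆ E, T.card = 𝒯.card →
        ∑ b, (𝒯.image (fun t => Function.update t b (⟨0, Nat.two_pow_pos a⟩ : Fin (2 ^ a)))).card <
          (T.biUnion id).card) →
      (E.card : ℝ) ≤ L * (n : ℝ) ^ e := by
  set q := qavg k d M with hq
  have hq0 : 0 ≤ q := qavg_nonneg k d M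
  have hq1 : q ≤ 1 := qavg_le_one k d M
  have hr' : (2 : ℝ) ≤ r := by exact_mod_cast hr
  set β : ℝ := (r : ℝ) - (r - 1) * q with hβ
  have hβ0 : 0 < β := by rw [hβ]; nlinarith
  set η : ℝ := (e - β) / 2 with hη
  have hη0 : 0 < η := by rw [hη]; linarith
  set b : ℕ := r * r + d * a * (r + 1) with hb
  obtain ⟨K, hK, hKm⟩ := pow_small b hη0
  set C0 : ℝ := 2 ^ (r * r) * (r * (r ^ (d * a * (r + 1)) * 2 ^ (d * a * (r + 1)))) with hC0
  have hC00 : 0 < C0 := by rw [hC0]; positivity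
  set C : ℝ := C0 * K * (D : ℝ) ^ (β + η) with hC
  have ht2 := (tendsto_rpow_atTop hη0).comp (tendsto_natCast_atTop_atTop (R := ℝ))
  obtain ⟨n₀, hn₀⟩ := Filter.eventually_atTop.1 (ht2.eventually_gt_atTop C)
  refine ⟨n₀, ?_⟩
  intro n m L lab E hn hlab hD hE hDep hfree
  have hpos : 0 < D * n := lt_of_lt_of_le (by positivity) hD
  have hn1 : 1 ≤ n := Nat.pos_of_mul_pos_left hpos
  have hn0' : (0 : ℝ) < n := by exact_mod_cast hn1
  have h := bes_bound r m k d a M L (Fin n) lab E hr hk hM hd hlab hE hDep 𝒯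
    (fun T hT hc => lt_of_lt_of_eq (hfree T hT hc)
      (by congr; exact Subsingleton.elim _ _))
  refine h.trans (mul_le_mul_of_nonneg_left ?_ (Nat.cast_nonneg L))
  rw [← hq]
  have hm0 : (0 : ℝ) ≤ m := Nat.cast_nonneg m
  have hDn : ((2 : ℝ) ^ m) ≤ D * n := by exact_mod_cast hD
  have e1 : (2 : ℝ) ^ ((r : ℝ) * m - (r - 1) * m * q) = ((2 : ℝ) ^ m) ^ β := by
    rw [← Real.rpow_natCast, ← Real.rpow_mul (by norm_num)]
    congr 1
    rw [hβ]; ring
  have e2 : (2 * (m : ℝ)) ^ (r * r) ≤ 2 ^ (r * r) * (m + 1) ^ (r * r) := by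
    rw [mul_pow]; gcongr; linarith
  have e3 : ((r : ℝ) * m + 1) ^ (d * a * (r + 1)) ≤
      r ^ (d * a * (r + 1)) * (m + 1) ^ (d * a * (r + 1)) := by
    rw [← mul_pow]; gcongr; nlinarith
  have e4 := hKm m
  have e5 : ((2 : ℝ) ^ m) ^ (β + η) ≤ (D : ℝ) ^ (β + η) * (n : ℝ) ^ (β + η) := by
    rw [← Real.mul_rpow (by positivity) (by positivity)]
    exact Real.rpow_le_rpow (by positivity) hDn (by linarith)
  have e6 := (hn₀ n hn).le
  simp only [Function.comp] at e6
  rw [e1]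
  calc (2 * (m : ℝ)) ^ (r * r) * (r * (r * m + 1) ^ (d * a * (r + 1)) * 2 ^ (d * a * (r + 1)) *
        ((2 : ℝ) ^ m) ^ β)
      ≤ (2 ^ (r * r) * (m + 1) ^ (r * r)) * (r * (r ^ (d * a * (r + 1)) *
        (m + 1) ^ (d * a * (r + 1))) * 2 ^ (d * a * (r + 1)) * ((2 : ℝ) ^ m) ^ β) := by
        gcongr
    _ = C0 * ((m : ℝ) + 1) ^ b * ((2 : ℝ) ^ m) ^ β := by
        rw [hC0, hb, pow_add ((m : ℝ) + 1)]; ring
    _ ≤ C0 * (K * ((2 : ℝ) ^ m) ^ η) * ((2 : ℝ) ^ m) ^ β := by gcongr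
    _ = C0 * K * ((2 : ℝ) ^ m) ^ (β + η) := by
        rw [Real.rpow_add (by positivity)]; ring
    _ ≤ C0 * K * ((D : ℝ) ^ (β + η) * (n : ℝ) ^ (β + η)) := by gcongr
    _ = C * (n : ℝ) ^ (β + η) := by rw [hC]; ring
    _ ≤ (n : ℝ) ^ η * (n : ℝ) ^ (β + η) := by gcongr
    _ = (n : ℝ) ^ e := by
        rw [← Real.rpow_add hn0']
        congr 1
        rw [hη]; ring

/-! ## The configuration for triple systems -/

/-- three numbers below `2 ^ k` -/
def vec (k x y z : ℕ) : Fin 3 → Fin (2 ^ k) :=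
  ![⟨x % 2 ^ k, Nat.mod_lt _ (Nat.two_pow_pos k)⟩, ⟨y % 2 ^ k, Nat.mod_lt _ (Nat.two_pow_pos k)⟩,
    ⟨z % 2 ^ k, Nat.mod_lt _ (Nat.two_pow_pos k)⟩]

open Classical in
theorem grid3 (k : ℕ) (hk : k = 18 ∨ 23 ≤ k) : ∃ 𝒯 : Finset (Fin 3 → Fin (2 ^ k)), 𝒯.card = k ∧
    ∑ b, (𝒯.image (fun t => Function.update t b (⟨0, Nat.two_pow_pos k⟩ : Fin (2 ^ k)))).card ≤
      k + 3 := by
  have hlt : ∀ x, x ≤ k → x % 2 ^ k = x := fun x hx =>
    Nat.mod_eq_of_lt (lt_of_le_of_lt hx Nat.lt_two_pow_self)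
  set G : ℕ → Fin 3 → Fin (2 ^ k) := fun t => vec k (t % 3) (t / 3 % 3) (t / 9) with hG
  have h0 : ∀ t, ((G t 0 : Fin (2 ^ k)) : ℕ) = (t % 3) % 2 ^ k := fun t => rfl
  have h1 : ∀ t, ((G t 1 : Fin (2 ^ k)) : ℕ) = (t / 3 % 3) % 2 ^ k := fun t => rfl
  have h2 : ∀ t, ((G t 2 : Fin (2 ^ k)) : ℕ) = (t / 9) % 2 ^ k := fun t => rfl
  refine ⟨(Finset.range k).image G, ?_, ?_⟩
  · rw [Finset.card_image_of_injOn, Finset.card_range]
    intro t ht t' ht' h
    have ht := Finset.mem_range.1 ht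
    have ht' := Finset.mem_range.1 ht'
    have e0 := congrArg Fin.val (congrFun h 0)
    have e1 := congrArg Fin.val (congrFun h 1)
    have e2 := congrArg Fin.val (congrFun h 2)
    rw [h0, h0, hlt _ (by omega), hlt _ (by omega)] at e0
    rw [h1, h1, hlt _ (by omega), hlt _ (by omega)] at e1
    rw [h2, h2, hlt _ (by omega), hlt _ (by omega)] at e2
    omega
  · rw [Fin.sum_univ_three]
    have b0 : (((Finset.range k).image G).image
        (fun t => Function.update t 0 (⟨0, Nat.two_pow_pos k⟩ : Fin (2 ^ k)))).card ≤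
        (k + 2) / 3 := by
      have : ((Finset.range k).image G).image
          (fun t => Function.update t 0 (⟨0, Nat.two_pow_pos k⟩ : Fin (2 ^ k))) ⊆
          (Finset.range ((k + 2) / 3)).image (fun s => vec k 0 (s % 3) (s / 3)) := by
        intro x hx
        rw [Finset.image_image] at hx
        obtain ⟨t, ht, rfl⟩ := Finset.mem_image.1 hx
        have ht := Finset.mem_range.1 ht
        refine Finset.mem_image.2 ⟨t / 3, Finset.mem_range.2 (by omega), ?_⟩
        have h9 : t / 3 / 3 = t / 9 := by omega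
        funext b
        fin_cases b
        · simp [vec, Function.comp]
        · simp [vec, Function.comp, hG]
        · simp [vec, Function.comp, hG, h9]
      exact (Finset.card_le_card this).trans (Finset.card_image_le.trans (by simp))
    have b1 : (((Finset.range k).image G).image
        (fun t => Function.update t 1 (⟨0, Nat.two_pow_pos k⟩ : Fin (2 ^ k)))).card ≤
        3 * (k / 9) + min (k % 9) 3 := by
      have : ((Finset.range k).image G).image
          (fun t => Function.update t 1 (⟨0, Nat.two_pow_pos k⟩ : Fin (2 ^ k))) ⊆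
          (Finset.range (3 * (k / 9) + min (k % 9) 3)).image
            (fun s => vec k (s % 3) 0 (s / 3)) := by
        intro x hx
        rw [Finset.image_image] at hx
        obtain ⟨t, ht, rfl⟩ := Finset.mem_image.1 hx
        have ht := Finset.mem_range.1 ht
        refine Finset.mem_image.2 ⟨3 * (t / 9) + t % 3, Finset.mem_range.2 (by omega), ?_⟩
        have h8 : (3 * (t / 9) + t % 3) % 3 = t % 3 := by omega
        have h9 : (3 * (t / 9) + t % 3) / 3 = t / 9 := by omega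
        funext b
        fin_cases b
        · simp [vec, Function.comp, hG]
        · simp [vec, Function.comp]
        · simp [vec, Function.comp, hG, h9]
      exact (Finset.card_le_card this).trans (Finset.card_image_le.trans (by simp))
    have b2 : (((Finset.range k).image G).image
        (fun t => Function.update t 2 (⟨0, Nat.two_pow_pos k⟩ : Fin (2 ^ k)))).card ≤ 9 := by
      have : ((Finset.range k).image G).image
          (fun t => Function.update t 2 (⟨0, Nat.two_pow_pos k⟩ : Fin (2 ^ k))) ⊆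
          (Finset.range 9).image (fun s => vec k (s % 3) (s / 3) 0) := by
        intro x hx
        rw [Finset.image_image] at hx
        obtain ⟨t, ht, rfl⟩ := Finset.mem_image.1 hx
        refine Finset.mem_image.2 ⟨t % 9, Finset.mem_range.2 (by omega), ?_⟩
        have h8 : t % 9 % 3 = t % 3 := by omega
        have h9 : t % 9 / 3 = t / 3 % 3 := by omega
        funext b
        fin_cases b
        · simp [vec, Function.comp, hG, h8]
        · simp [vec, Function.comp, hG, h9]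
        · simp [vec, Function.comp]
      exact (Finset.card_le_card this).trans (Finset.card_image_le.trans (by simp))
    have := min_le_left (k % 9) 3
    omega

lemma q3' : (3 : ℝ) / 5 < qavg 3 30 200 := by
  refine lt_of_lt_of_le ?_ (qavg_ge (N := 10 ^ 6) (by norm_num) (by norm_num) (by norm_num))
  have h : 3 * (200 * 10 ^ 6) < 5 * sn 3 200 (10 ^ 6) 30 200 := by decide +kernel
  have h' : ((3 * (200 * 10 ^ 6) : ℕ) : ℝ) < ((5 * sn 3 200 (10 ^ 6) 30 200 : ℕ) : ℝ) := by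
    exact_mod_cast h
  push_cast at h' ⊢
  rw [div_lt_div_iff₀ (by norm_num) (by norm_num)]
  linarith

open Classical in
/-- Triple systems. -/
theorem bes_triple (k D : ℕ) (hk : k = 18 ∨ 23 ≤ k) :
    ∃ n₀ : ℕ, ∀ (n m L : ℕ) (lab : Fin n → Fin m → Bool) (E : Finset (Finset (Fin n))), n₀ ≤ n →
      Function.Injective lab → 2 ^ m ≤ D * n → (∀ s ∈ E, s.card = 3) →
      Depth3 L 3 (Rel 3 lab E) →
      (∀ T ⊆ E, T.card = k → k + 3 < (T.biUnion id).card) →
      (E.card : ℝ) ≤ L * (n : ℝ) ^ ((9 : ℝ) / 5) := by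
  obtain ⟨𝒯, h𝒯, hsum⟩ := grid3 k hk
  have hq := q3'
  obtain ⟨n₀, hn₀⟩ := bes_asymp 3 3 30 k 200 D (9 / 5) (by norm_num) (by norm_num) (by norm_num)
    (by norm_num) (by push_cast; linarith) 𝒯
  refine ⟨n₀, fun n m L lab E hn hlab hD hE hDep hfree => hn₀ n m L lab E hn hlab hD hE hDep ?_⟩
  intro T hT hTc
  exact lt_of_le_of_lt hsum (hfree T hT (hTc.trans h𝒯))

/-! ## General uniformity -/

lemma pow_half {A n : ℕ} (hA : 2 * n ≤ A) (h1 : 1 ≤ A) : A ^ n ≤ 2 * (A - 1) ^ n := by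
  have hA' : (0 : ℝ) < A := by exact_mod_cast h1
  have h2 := one_add_mul_le_pow (a := -(1 / (A : ℝ))) (by
    have : 1 / (A : ℝ) ≤ 1 := by
      rw [div_le_one hA']; exact_mod_cast h1
    linarith) n
  have h3 : (1 : ℝ) / 2 ≤ 1 + n * -(1 / (A : ℝ)) := by
    have : (n : ℝ) * (1 / A) ≤ 1 / 2 := by
      rw [mul_one_div, div_le_div_iff₀ hA' (by norm_num)]
      have : (2 * (n : ℝ)) ≤ A := by exact_mod_cast hA
      linarith
    linarith
  have h4 : (1 : ℝ) / 2 ≤ (1 + -(1 / (A : ℝ))) ^ n := h3.trans h2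
  have h5 : (A : ℝ) ^ n ≤ 2 * ((A - 1 : ℕ) : ℝ) ^ n := by
    have h6 : ((A - 1 : ℕ) : ℝ) = A * (1 + -(1 / (A : ℝ))) := by
      rw [Nat.cast_sub h1]; field_simp; push_cast; ring
    rw [h6, mul_pow]
    have h7 : (0 : ℝ) < (A : ℝ) ^ n := by positivity
    nlinarith
  exact_mod_cast h5

open Classical in
theorem gridr (r e : ℕ) (hr : 3 ≤ r) (he : (4 * r) ^ r ≤ e) :
    ∃ (a : ℕ) (𝒯 : Finset (Fin r → Fin (2 ^ a))), 𝒯.card = e ∧
    ∑ b, (𝒯.image (fun t => Function.update t b (⟨0, Nat.two_pow_pos a⟩ : Fin (2 ^ a)))).card ≤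
      e := by
  -- the least `A` with `e ≤ A ^ r`
  have hex : ∃ A : ℕ, e ≤ A ^ r := ⟨e, Nat.le_self_pow (by omega) e⟩
  set A := Nat.find hex with hA
  have hA1 : e ≤ A ^ r := Nat.find_spec hex
  have hA4 : 4 * r ≤ A := by
    by_contra hcon
    push Not at hcon
    have : A ^ r < (4 * r) ^ r := Nat.pow_lt_pow_left hcon (by omega)
    omega
  have hA2 : (A - 1) ^ r < e := by
    by_contra hcon
    push Not at hcon
    have := Nat.find_min' hex hcon
    omega
  have hAlt : A < 2 ^ A := Nat.lt_two_pow_self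
  -- the grid
  set Gr : Finset (Fin r → Fin (2 ^ A)) :=
    Fintype.piFinset (fun _ => univ.filter (fun x : Fin (2 ^ A) => (x : ℕ) < A)) with hGr
  have hfc : (univ.filter (fun x : Fin (2 ^ A) => (x : ℕ) < A)).card = A := by
    have : (univ.filter (fun x : Fin (2 ^ A) => (x : ℕ) < A)) =
        (univ : Finset (Fin A)).map (Fin.castLEEmb hAlt.le) := by
      ext x
      simp only [Finset.mem_filter, Finset.mem_univ, true_and, Finset.mem_map]
      constructor
      · intro hx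
        exact ⟨⟨x, hx⟩, by ext; simp⟩
      · rintro ⟨y, rfl⟩
        simp
    rw [this, Finset.card_map, Finset.card_univ, Fintype.card_fin]
  have hGc : Gr.card = A ^ r := by
    rw [hGr, Fintype.card_piFinset]
    simp [hfc]
  obtain ⟨𝒯, h𝒯, h𝒯c⟩ := Finset.exists_subset_card_eq (hA1.trans hGc.symm.le)
  refine ⟨A, 𝒯, h𝒯c, ?_⟩
  have hb : ∀ b : Fin r, (𝒯.image (fun t => Function.update t b
      (⟨0, Nat.two_pow_pos A⟩ : Fin (2 ^ A)))).card ≤ A ^ (r - 1) := by
    intro b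
    have hsub : 𝒯.image (fun t => Function.update t b (⟨0, Nat.two_pow_pos A⟩ : Fin (2 ^ A))) ⊆
        Fintype.piFinset (fun j : Fin r => if j = b then {(⟨0, Nat.two_pow_pos A⟩ : Fin (2 ^ A))}
          else univ.filter (fun x : Fin (2 ^ A) => (x : ℕ) < A)) := by
      intro x hx
      obtain ⟨t, ht, rfl⟩ := Finset.mem_image.1 hx
      have htG := Fintype.mem_piFinset.1 (h𝒯 ht)
      rw [Fintype.mem_piFinset]
      intro j
      by_cases hj : j = b
      · subst hj; simp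
      · rw [if_neg hj, Function.update_of_ne hj]
        exact htG j
    refine (Finset.card_le_card hsub).trans ?_
    rw [Fintype.card_piFinset]
    have h1 : ∀ j : Fin r, (if j = b then {(⟨0, Nat.two_pow_pos A⟩ : Fin (2 ^ A))}
          else univ.filter (fun x : Fin (2 ^ A) => (x : ℕ) < A)).card = if j = b then 1 else A := by
      intro j
      split_ifs
      · simp
      · exact hfc
    simp only [h1]
    rw [← Finset.mul_prod_erase univ _ (Finset.mem_univ b), if_pos rfl, one_mul]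
    rw [Finset.prod_congr rfl (g := fun _ => A)
      (fun j hj => if_neg (Finset.ne_of_mem_erase hj))]
    rw [Finset.prod_const, Finset.card_erase_of_mem (Finset.mem_univ b), Finset.card_univ,
      Fintype.card_fin]
  refine (Finset.sum_le_sum fun b _ => hb b).trans ?_
  rw [Finset.sum_const, smul_eq_mul, Finset.card_univ, Fintype.card_fin]
  have h5 : A ^ (r - 1) ≤ 2 * (A - 1) ^ (r - 1) := pow_half (by omega) (by omega)
  have h6 : (A - 1) ^ r = (A - 1) ^ (r - 1) * (A - 1) := by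
    rw [← pow_succ]; congr 1; omega
  calc r * A ^ (r - 1) ≤ r * (2 * (A - 1) ^ (r - 1)) := Nat.mul_le_mul_left r h5
    _ = (2 * r) * (A - 1) ^ (r - 1) := by ring
    _ ≤ (A - 1) * (A - 1) ^ (r - 1) := Nat.mul_le_mul_right _ (by omega)
    _ = (A - 1) ^ r := by rw [h6]; ring
    _ ≤ e := hA2.le

open Classical in
/-- Uniform hypergraphs with median-closed edge sets: the general form. -/
theorem median_general (r a D : ℕ) (ε : ℝ) (hr : 3 ≤ r) (hε : 0 < ε)
    (𝒯 : Finset (Fin r → Fin (2 ^ a))) :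
    ∃ n₀ : ℕ, ∀ (n m L : ℕ) (lab : Fin n → Fin m → Bool) (E : Finset (Finset (Fin n))), n₀ ≤ n →
      Function.Injective lab → 2 ^ m ≤ D * n → (∀ s ∈ E, s.card = r) →
      MedUnion L (Rel r lab E) →
      (∀ T ⊆ E, T.card = 𝒯.card →
        ∑ b, (𝒯.image (fun t => Function.update t b (⟨0, Nat.two_pow_pos a⟩ : Fin (2 ^ a)))).card <
          (T.biUnion id).card) →
      (E.card : ℝ) ≤ L * (n : ℝ) ^ (1 + ε) := by
  obtain ⟨d, hd⟩ := exists_nat_gt (2 * r / ε)
  have hr0 : (0 : ℝ) < r := by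
    have : 0 < r := by omega
    exact_mod_cast this
  have hd0 : (0 : ℝ) < d := lt_trans (by positivity) hd
  have hd1 : 0 < d := by exact_mod_cast hd0
  have hq := q_two d (M := d) hd1
  have hq1 := qavg_le_one 2 d d
  have h1 : 2 * (r : ℝ) / d < ε := by
    rw [div_lt_iff₀ hε] at hd
    rw [div_lt_iff₀ hd0]
    linarith
  have h2 : 1 / ((d : ℝ) + 1) ≤ 1 / d := one_div_le_one_div_of_le hd0 (by linarith)
  have h3 : 1 - qavg 2 d d ≤ 2 * (1 / d) := by linarith
  have h4 : (r : ℝ) - (r - 1) * qavg 2 d d < 1 + ε := by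
    have h5 : (r : ℝ) - (r - 1) * qavg 2 d d = 1 + (r - 1) * (1 - qavg 2 d d) := by ring
    rw [h5]
    have h6 : ((r : ℝ) - 1) * (1 - qavg 2 d d) ≤ r * (2 * (1 / d)) := by
      apply mul_le_mul (by linarith) h3 (by linarith) hr0.le
    have h7 : (r : ℝ) * (2 * (1 / d)) = 2 * r / d := by ring
    linarith
  obtain ⟨n₀, hn₀⟩ := bes_asymp r 2 d a d D (1 + ε) (by omega) (by norm_num) hd1 hd1 h4 𝒯
  exact ⟨n₀, fun n m L lab E hn hlab hD hE hDep hfree =>
    hn₀ n m L lab E hn hlab hD hE (med_depth3 hDep) hfree⟩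

open Classical in
/-- Uniform hypergraphs with median-closed edge sets. -/
theorem bes_median (r e D : ℕ) (ε : ℝ) (hr : 3 ≤ r) (he : (4 * r) ^ r ≤ e) (hε : 0 < ε) :
    ∃ n₀ : ℕ, ∀ (n m L : ℕ) (lab : Fin n → Fin m → Bool) (E : Finset (Finset (Fin n))), n₀ ≤ n →
      Function.Injective lab → 2 ^ m ≤ D * n → (∀ s ∈ E, s.card = r) →
      MedUnion L (Rel r lab E) →
      (∀ T ⊆ E, T.card = e → e < (T.biUnion id).card) →
      (E.card : ℝ) ≤ L * (n : ℝ) ^ (1 + ε) := by
  obtain ⟨a, 𝒯, h𝒯, hsum⟩ := gridr r e hr he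
  obtain ⟨n₀, hn₀⟩ := median_general r a D ε hr hε 𝒯
  refine ⟨n₀, fun n m L lab E hn hlab hD hE hDep hfree =>
    hn₀ n m L lab E hn hlab hD hE hDep ?_⟩
  intro T hT hTc
  exact lt_of_le_of_lt hsum (hfree T hT (hTc.trans h𝒯))

open Classical in
/-- Triple systems with median-closed edge sets. -/
theorem triple_median (k D : ℕ) (ε : ℝ) (hk : k = 18 ∨ 23 ≤ k) (hε : 0 < ε) :
    ∃ n₀ : ℕ, ∀ (n m L : ℕ) (lab : Fin n → Fin m → Bool) (E : Finset (Finset (Fin n))), n₀ ≤ n →
      Function.Injective lab → 2 ^ m ≤ D * n → (∀ s ∈ E, s.card = 3) →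
      MedUnion L (Rel 3 lab E) →
      (∀ T ⊆ E, T.card = k → k + 3 < (T.biUnion id).card) →
      (E.card : ℝ) ≤ L * (n : ℝ) ^ (1 + ε) := by
  obtain ⟨𝒯, h𝒯, hsum⟩ := grid3 k hk
  obtain ⟨n₀, hn₀⟩ := median_general 3 k D ε le_rfl hε 𝒯
  refine ⟨n₀, fun n m L lab E hn hlab hD hE hDep hfree =>
    hn₀ n m L lab E hn hlab hD hE hDep ?_⟩
  intro T hT hTc
  exact lt_of_le_of_lt hsum (hfree T hT (hTc.trans h𝒯))

end Pool.Agent.H96.Bes
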