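import Mathlib
import Pool.Agent.H96.KrPpsz

/-!
# Tame sets: monotone up to the orientation, or symmetric in the coordinates of a few classes
-/

set_option autoImplicit false

namespace Pool.Agent.H96.Tame

open Finset Pool.Agent.H96.Ppz Pool.Agent.H96.Ppsz

variable {m c : ℕ}

/-- The moves at a string `z`: change a free position (`κ i = none`) which does not have its
preferred value `τ i`; or change two positions of the same class, exactly one of which has its
preferred value. -/
def Move (τ : Fin m → Bool) (κ : Fin m → Option (Fin c)) (z : Fin m → Bool)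
    (W : Finset (Fin m)) : Prop :=
  (∃ i, κ i = none ∧ z i ≠ τ i ∧ W = {i}) ∨
  (∃ i j l, κ i = some l ∧ κ j = some l ∧ z i ≠ τ i ∧ z j = τ j ∧ W = {i, j})

/-- A set of strings is tame with `c` classes if for suitable preferred values and a suitable
partition of the positions into free positions and `c` classes it is closed under the moves. -/
def Tame (c : ℕ) (S : Set (Fin m → Bool)) : Prop :=
  ∃ (τ : Fin m → Bool) (κ : Fin m → Option (Fin c)),
    ∀ z ∈ S, ∀ W, Move τ κ z W → flipSet z W ∈ S

/-- A union of `L` tame sets. -/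
def TameUnion (L c : ℕ) (S : Set (Fin m → Bool)) : Prop :=
  ∃ T : Fin L → Set (Fin m → Bool), (∀ j, Tame c (T j)) ∧ S = ⋃ j, T j

lemma Move.congr {τ : Fin m → Bool} {κ : Fin m → Option (Fin c)} {z z' : Fin m → Bool}
    {W : Finset (Fin m)} (h : Move τ κ z W) (hz : ∀ i ∈ W, z' i = z i) : Move τ κ z' W := by
  rcases h with ⟨i, h1, h2, rfl⟩ | ⟨i, j, l, h1, h2, h3, h4, rfl⟩
  · exact Or.inl ⟨i, h1, by rw [hz i (by simp)]; exact h2, rfl⟩
  · exact Or.inr ⟨i, j, l, h1, h2, by rw [hz i (by simp)]; exact h3,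
      by rw [hz j (by simp)]; exact h4, rfl⟩

lemma Move.nonempty {τ : Fin m → Bool} {κ : Fin m → Option (Fin c)} {z : Fin m → Bool}
    {W : Finset (Fin m)} (h : Move τ κ z W) : W.Nonempty ∧ W.card ≤ 2 := by
  rcases h with ⟨i, h1, h2, rfl⟩ | ⟨i, j, l, h1, h2, h3, h4, rfl⟩
  · exact ⟨Finset.singleton_nonempty i, by simp⟩
  · exact ⟨⟨i, by simp⟩, Finset.card_le_two⟩

lemma cube_of_moves {τ : Fin m → Bool} {κ : Fin m → Option (Fin c)} {S : Set (Fin m → Bool)}
    (hS : ∀ z ∈ S, ∀ W, Move τ κ z W → flipSet z W ∈ S) {z : Fin m → Bool} (hz : z ∈ S)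
    {𝒲 : Finset (Finset (Fin m))} (hM : ∀ W ∈ 𝒲, Move τ κ z W)
    (hd : ∀ W ∈ 𝒲, ∀ W' ∈ 𝒲, W ≠ W' → Disjoint W W') : z ∈ Cube 𝒲 S := by
  classical
  intro I
  induction I using Finset.induction_on with
  | empty =>
    intro _
    simpa [un, flipSet_empty] using hz
  | insert W I hW ih =>
    intro hI
    have hI' : I ⊆ 𝒲 := fun X hX => hI (Finset.mem_insert_of_mem hX)
    have hWW : W ∈ 𝒲 := hI (Finset.mem_insert_self _ _)
    have hdis : ∀ i ∈ W, i ∉ un I := by
      intro i hi hiI
      obtain ⟨X, hX, hiX⟩ := mem_un.1 hiI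
      have hne : W ≠ X := fun h => hW (h ▸ hX)
      exact Finset.disjoint_left.1 (hd W hWW X (hI' hX) hne) hi hiX
    have h1 := hS _ (ih hI') W ((hM W hWW).congr (fun i hi => by
      simp [flipSet, hdis i hi]))
    have h2 : flipSet (flipSet z (un I)) W = flipSet z (un (insert W I)) := by
      funext i
      by_cases hiW : i ∈ W
      · have h3 : i ∈ un (insert W I) := mem_un.2 ⟨W, Finset.mem_insert_self _ _, hiW⟩
        simp [flipSet, hiW, hdis i hiW, h3]
      · have h3 : i ∈ un (insert W I) ↔ i ∈ un I := by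
          rw [mem_un, mem_un]
          constructor
          · rintro ⟨X, hX, hiX⟩
            rcases Finset.mem_insert.1 hX with rfl | hX
            · exact absurd hiX hiW
            · exact ⟨X, hX, hiX⟩
          · rintro ⟨X, hX, hiX⟩
            exact ⟨X, Finset.mem_insert_of_mem hX, hiX⟩
        by_cases hiI : i ∈ un I
        · simp [flipSet, hiW, hiI, h3.2 hiI]
        · have h4 : i ∉ un (insert W I) := fun h => hiI (h3.1 h)
          simp [flipSet, hiW, hiI, h4]
    rw [← h2]
    exact h1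

/-- the correction of a class -/
def side (κ : Fin m → Option (Fin c)) (β : Fin c → Bool) (i : Fin m) : Bool :=
  match κ i with
  | none => false
  | some l => β l

open Classical in
/-- the string described by the corrections of the classes and a small set -/
noncomputable def code (τ : Fin m → Bool) (κ : Fin m → Option (Fin c)) (β : Fin c → Bool)
    (M : Finset (Fin m)) (i : Fin m) : Bool :=
  xor (τ i) (xor (side κ β i) (decide (i ∈ M)))

lemma exists_inj {α : Type*} [DecidableEq α] {A B : Finset α} (h : A.card ≤ B.card) :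
    ∃ f : α → α, (∀ a ∈ A, f a ∈ B) ∧ Set.InjOn f A := by
  obtain ⟨B', hB', hc⟩ := Finset.exists_subset_card_eq h
  let e := Finset.equivOfCardEq hc.symm
  refine ⟨fun a => if h : a ∈ A then (e ⟨a, h⟩ : α) else a, ?_, ?_⟩
  · intro a ha
    simp only [ha, dif_pos]
    exact hB' (e ⟨a, ha⟩).2
  · intro a ha b hb hab
    have ha' : a ∈ A := ha
    have hb' : b ∈ A := hb
    simp only [ha', hb', dif_pos] at hab
    have := e.injective (Subtype.ext hab)
    exact congrArg Subtype.val this

lemma exists_moves (τ : Fin m → Bool) (κ : Fin m → Option (Fin c)) (R : Finset (Fin m)) (A : ℕ)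
    (z : Fin m → Bool) :
    (∃ 𝒲 : Finset (Finset (Fin m)), 𝒲.card = A ∧ (∀ W ∈ 𝒲, Move τ κ z W ∧ W ⊆ R) ∧
      ∀ W ∈ 𝒲, ∀ W' ∈ 𝒲, W ≠ W' → Disjoint W W') ∨
    (∃ (β : Fin c → Bool) (M : Finset (Fin m)), M.card < A ∧ ∀ i ∈ R, z i = code τ κ β M i) := by
  classical
  set O : Fin c → Finset (Fin m) := fun l => R.filter (fun i => κ i = some l ∧ z i ≠ τ i) with hO
  set Z : Fin c → Finset (Fin m) := fun l => R.filter (fun i => κ i = some l ∧ z i = τ i) with hZ
  set β : Fin c → Bool := fun l => decide ((Z l).card < (O l).card) with hβ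
  set M : Finset (Fin m) := R.filter (fun i => xor (xor (z i) (τ i)) (side κ β i) = true) with hM
  have hcode : ∀ i ∈ R, z i = code τ κ β M i := by
    intro i hi
    have h1 : decide (i ∈ M) = xor (xor (z i) (τ i)) (side κ β i) := by
      by_cases h : xor (xor (z i) (τ i)) (side κ β i) = true
      · rw [h]
        exact decide_eq_true (Finset.mem_filter.2 ⟨hi, h⟩)
      · have h' : xor (xor (z i) (τ i)) (side κ β i) = false := by simpa using h
        rw [h']
        exact decide_eq_false (fun hm => h (Finset.mem_filter.1 hm).2)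
    unfold code
    rw [h1]
    cases z i <;> cases τ i <;> cases side κ β i <;> rfl
  by_cases hcard : M.card < A
  · exact Or.inr ⟨β, M, hcard, hcode⟩
  push Not at hcard
  left
  obtain ⟨M', hM', hM'c⟩ := Finset.exists_subset_card_eq hcard
  -- minority and majority
  set mi : Fin c → Finset (Fin m) := fun l => R.filter (fun i => κ i = some l ∧ i ∈ M) with hmi
  set ma : Fin c → Finset (Fin m) := fun l => R.filter (fun i => κ i = some l ∧ i ∉ M) with hma
  have hle : ∀ l, (mi l).card ≤ (ma l).card := by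
    intro l
    by_cases hb : (Z l).card < (O l).card
    · have hbl : β l = true := by simp [hβ, hb]
      have h1 : mi l = Z l := by
        ext i
        simp only [hmi, hZ, hM, Finset.mem_filter]
        constructor
        · rintro ⟨hi, hk, _, h2⟩
          refine ⟨hi, hk, ?_⟩
          rw [side, hk] at h2
          simp only [hbl] at h2
          revert h2; cases z i <;> cases τ i <;> simp
        · rintro ⟨hi, hk, h2⟩
          refine ⟨hi, hk, hi, ?_⟩
          rw [side, hk]
          simp only [hbl, h2]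
          cases τ i <;> rfl
      have h2 : ma l = O l := by
        ext i
        simp only [hma, hO, hM, Finset.mem_filter]
        constructor
        · rintro ⟨hi, hk, h2⟩
          refine ⟨hi, hk, ?_⟩
          intro h3
          apply h2
          refine ⟨hi, ?_⟩
          rw [side, hk]
          simp only [hbl, h3]
          cases τ i <;> rfl
        · rintro ⟨hi, hk, h2⟩
          refine ⟨hi, hk, ?_⟩
          rintro ⟨_, h3⟩
          rw [side, hk] at h3
          simp only [hbl] at h3
          revert h3 h2; cases z i <;> cases τ i <;> simp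
      rw [h1, h2]
      exact hb.le
    · have hbl : β l = false := by simp [hβ, hb]
      have h1 : mi l = O l := by
        ext i
        simp only [hmi, hO, hM, Finset.mem_filter]
        constructor
        · rintro ⟨hi, hk, _, h2⟩
          refine ⟨hi, hk, ?_⟩
          rw [side, hk] at h2
          simp only [hbl] at h2
          revert h2; cases z i <;> cases τ i <;> simp
        · rintro ⟨hi, hk, h2⟩
          refine ⟨hi, hk, hi, ?_⟩
          rw [side, hk]
          simp only [hbl]
          revert h2; cases z i <;> cases τ i <;> simp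
      have h2 : ma l = Z l := by
        ext i
        simp only [hma, hZ, hM, Finset.mem_filter]
        constructor
        · rintro ⟨hi, hk, h2⟩
          refine ⟨hi, hk, ?_⟩
          by_contra h3
          apply h2
          refine ⟨hi, ?_⟩
          rw [side, hk]
          simp only [hbl]
          revert h3; cases z i <;> cases τ i <;> simp
        · rintro ⟨hi, hk, h2⟩
          refine ⟨hi, hk, ?_⟩
          rintro ⟨_, h3⟩
          rw [side, hk] at h3
          simp only [hbl, h2] at h3
          revert h3; cases τ i <;> simp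
      rw [h1, h2]
      exact not_lt.1 hb
  choose f hf1 hf2 using fun l => exists_inj (hle l)
  set g : Fin m → Fin m := fun i => match κ i with
    | none => i
    | some l => f l i with hg
  have hgs : ∀ i l, κ i = some l → g i = f l i := by
    intro i l h
    simp only [hg, h]
  have hMR : ∀ i ∈ M, i ∈ R := fun i hi => (Finset.mem_filter.1 hi).1
  have hgm : ∀ i ∈ M, ∀ l, κ i = some l → κ (g i) = some l ∧ g i ∉ M ∧ g i ∈ R := by
    intro i hi l hl
    have h1 := hf1 l i (Finset.mem_filter.2 ⟨hMR i hi, hl, hi⟩)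
    obtain ⟨h2, h3, h4⟩ := Finset.mem_filter.1 h1
    rw [hgs i l hl]
    exact ⟨h3, h4, h2⟩
  set W : Fin m → Finset (Fin m) := fun i => if κ i = none then {i} else {i, g i} with hW
  have hWi : ∀ i, i ∈ W i := by
    intro i
    simp only [hW]
    split_ifs <;> simp
  have hWM : ∀ i ∈ M, ∀ x ∈ W i, x ∈ M → x = i := by
    intro i hi x hx hxM
    simp only [hW] at hx
    split_ifs at hx with h
    · simpa using hx
    · obtain ⟨l, hl⟩ := Option.ne_none_iff_exists'.1 h
      rcases Finset.mem_insert.1 hx with h1 | h1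
      · exact h1
      · rw [Finset.mem_singleton.1 h1] at hxM
        exact absurd hxM (hgm i hi l hl).2.1
  have hWdis : ∀ i ∈ M, ∀ j ∈ M, i ≠ j → Disjoint (W i) (W j) := by
    intro i hi j hj hij
    rw [Finset.disjoint_left]
    intro x hx hx'
    by_cases hxM : x ∈ M
    · exact hij ((hWM i hi x hx hxM).symm.trans (hWM j hj x hx' hxM))
    · have key : ∀ i ∈ M, x ∈ W i → ∃ l, κ i = some l ∧ x = g i := by
        intro i hi hx
        simp only [hW] at hx
        split_ifs at hx with h
        · exact absurd hi (by rw [← Finset.mem_singleton.1 hx]; exact hxM)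
        · obtain ⟨l, hl⟩ := Option.ne_none_iff_exists'.1 h
          rcases Finset.mem_insert.1 hx with h1 | h1
          · exact absurd hi (by rw [← h1]; exact hxM)
          · exact ⟨l, hl, Finset.mem_singleton.1 h1⟩
      obtain ⟨l, hl, hxi⟩ := key i hi hx
      obtain ⟨l', hl', hxj⟩ := key j hj hx'
      have h1 := (hgm i hi l hl).1
      have h2 := (hgm j hj l' hl').1
      rw [← hxi] at h1
      rw [← hxj] at h2
      have hll : l = l' := Option.some_injective _ (h1.symm.trans h2)
      subst hll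
      apply hij
      apply hf2 l
      · exact Finset.mem_coe.2 (Finset.mem_filter.2 ⟨hMR i hi, hl, hi⟩)
      · exact Finset.mem_coe.2 (Finset.mem_filter.2 ⟨hMR j hj, hl', hj⟩)
      · rw [← hgs i l hl, ← hgs j l hl', ← hxi, ← hxj]
  have hWinj : Set.InjOn W (M' : Set (Fin m)) := by
    intro i hi j hj hij
    have h1 : i ∈ W j := by rw [← hij]; exact hWi i
    exact hWM j (hM' hj) i h1 (hM' hi)
  refine ⟨M'.image W, ?_, ?_, ?_⟩
  · rw [Finset.card_image_of_injOn hWinj, hM'c]
  · intro X hX
    obtain ⟨i, hi, rfl⟩ := Finset.mem_image.1 hX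
    have hiM := hM' hi
    obtain ⟨hiR, hx⟩ := Finset.mem_filter.1 hiM
    cases hk : κ i with
    | none =>
      have h1 : W i = {i} := by simp [hW, hk]
      rw [h1]
      refine ⟨Or.inl ⟨i, hk, ?_, rfl⟩, by simpa using hiR⟩
      rw [side, hk] at hx
      revert hx; cases z i <;> cases τ i <;> simp
    | some l =>
      have h1 : W i = {i, g i} := by simp [hW, hk]
      obtain ⟨g1, g2, g3⟩ := hgm i hiM l hk
      rw [h1]
      refine ⟨?_, ?_⟩
      · have hgx : ¬ (xor (xor (z (g i)) (τ (g i))) (side κ β (g i)) = true) := fun h =>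
          g2 (Finset.mem_filter.2 ⟨g3, h⟩)
        rw [side, hk] at hx
        rw [side, g1] at hgx
        right
        cases hb : β l with
        | false =>
          refine ⟨i, g i, l, hk, g1, ?_, ?_, rfl⟩
          · simp only [hb] at hx
            revert hx; cases z i <;> cases τ i <;> simp
          · simp only [hb] at hgx
            revert hgx; cases z (g i) <;> cases τ (g i) <;> simp
        | true =>
          refine ⟨g i, i, l, g1, hk, ?_, ?_, Finset.pair_comm _ _⟩
          · simp only [hb] at hgx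
            revert hgx; cases z (g i) <;> cases τ (g i) <;> simp
          · simp only [hb] at hx
            revert hx; cases z i <;> cases τ i <;> simp
      · intro x hx
        rcases Finset.mem_insert.1 hx with rfl | hx
        · exact hiR
        · rw [Finset.mem_singleton.1 hx]; exact g3
  · intro X hX Y hY hXY
    obtain ⟨i, hi, rfl⟩ := Finset.mem_image.1 hX
    obtain ⟨j, hj, rfl⟩ := Finset.mem_image.1 hY
    exact hWdis i (hM' hi) j (hM' hj) fun h => hXY (by rw [h])

open Classical in
lemma card_fix (R : Finset (Fin m)) (w : Fin m → Bool) :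
    (univ.filter (fun z : Fin m → Bool => ∀ i ∈ R, z i = w i)).card = 2 ^ (m - R.card) := by
  have h1 : univ.filter (fun z : Fin m → Bool => ∀ i ∈ R, z i = w i) =
      Fintype.piFinset (fun i => if i ∈ R then {w i} else (univ : Finset Bool)) := by
    ext z
    simp only [Finset.mem_filter, Finset.mem_univ, true_and, Fintype.mem_piFinset]
    refine forall_congr' fun i => ?_
    by_cases hi : i ∈ R <;> simp [hi]
  rw [h1, Fintype.card_piFinset]
  have h2 : ∀ i, (if i ∈ R then {w i} else (univ : Finset Bool)).card =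
      if i ∈ R then 1 else 2 := by
    intro i; split_ifs <;> simp
  simp only [h2]
  rw [Finset.prod_ite]
  simp only [Finset.prod_const_one, one_mul, Finset.prod_const]
  congr 1
  have h3 : univ.filter (fun i => i ∉ R) = Rᶜ := by ext i; simp
  rw [h3, Finset.card_compl, Fintype.card_fin]

open Classical in
lemma card_code (τ : Fin m → Bool) (κ : Fin m → Option (Fin c)) (R : Finset (Fin m)) (A : ℕ) :
    (univ.filter (fun z : Fin m → Bool => ∃ (β : Fin c → Bool) (M : Finset (Fin m)), M.card < A ∧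
      ∀ i ∈ R, z i = code τ κ β M i)).card ≤ 2 ^ c * (m + 1) ^ (A - 1) * 2 ^ (m - R.card) := by
  set Ms := univ.filter (fun M : Finset (Fin m) => M.card ≤ A - 1) with hMs
  have hsub : univ.filter (fun z : Fin m → Bool => ∃ (β : Fin c → Bool) (M : Finset (Fin m)),
      M.card < A ∧ ∀ i ∈ R, z i = code τ κ β M i) ⊆
      ((univ : Finset (Fin c → Bool)) ×ˢ Ms).biUnion
        (fun p => univ.filter (fun z : Fin m → Bool => ∀ i ∈ R, z i = code τ κ p.1 p.2 i)) := by
    intro z hz
    obtain ⟨β, M, h1, h2⟩ := (Finset.mem_filter.1 hz).2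
    refine Finset.mem_biUnion.2 ⟨(β, M), Finset.mem_product.2 ⟨Finset.mem_univ _,
      Finset.mem_filter.2 ⟨Finset.mem_univ _, by show M.card ≤ A - 1; omega⟩⟩,
      Finset.mem_filter.2 ⟨Finset.mem_univ _, h2⟩⟩
  refine (Finset.card_le_card hsub).trans (Finset.card_biUnion_le.trans ?_)
  simp only [card_fix]
  rw [Finset.sum_const, smul_eq_mul, Finset.card_product]
  have h3 := card_small m (A - 1)
  have h4 : (univ : Finset (Fin c → Bool)).card = 2 ^ c := by simp
  rw [h4]
  exact Nat.mul_le_mul_right _ (Nat.mul_le_mul_left _ h3)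

open Classical in
/-- Tame sets have few elements outside cubes. -/
lemma tame_rich {S : Set (Fin m → Bool)} (hS : Tame c S) (a : ℕ) :
    (univ.filter (fun z => z ∈ S ∧ ¬ ∃ 𝒲 : Finset (Finset (Fin m)), Fam 2 𝒲 ∧ 𝒲.card = a ∧
      z ∈ Cube 𝒲 S)).card ≤ 2 ^ c * (m + 1) ^ (a - 1) := by
  obtain ⟨τ, κ, hcl⟩ := hS
  have h := card_code τ κ (univ : Finset (Fin m)) a
  rw [Finset.card_univ, Fintype.card_fin, Nat.sub_self, pow_zero, mul_one] at h
  refine le_trans (Finset.card_le_card ?_) h
  intro z hz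
  obtain ⟨hzS, hno⟩ := (Finset.mem_filter.1 hz).2
  refine Finset.mem_filter.2 ⟨Finset.mem_univ _, ?_⟩
  rcases exists_moves τ κ univ a z with ⟨𝒲, h1, h2, h3⟩ | h
  · exfalso
    exact hno ⟨𝒲, ⟨fun W hW => (h2 W hW).1.nonempty, h3⟩, h1,
      cube_of_moves hcl hzS (fun W hW => (h2 W hW).1) h3⟩
  · exact h

open Classical in
lemma union_rich {L : ℕ} {S : Set (Fin m → Bool)} (hS : TameUnion L c S) (a : ℕ) :
    (univ.filter (fun z => z ∈ S ∧ ¬ ∃ 𝒲 : Finset (Finset (Fin m)), Fam 2 𝒲 ∧ 𝒲.card = a ∧
      z ∈ Cube 𝒲 S)).card ≤ L * (2 ^ c * (m + 1) ^ (a - 1)) := by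
  obtain ⟨T, hT, hU⟩ := hS
  have hsub : univ.filter (fun z => z ∈ S ∧ ¬ ∃ 𝒲 : Finset (Finset (Fin m)), Fam 2 𝒲 ∧
      𝒲.card = a ∧ z ∈ Cube 𝒲 S) ⊆ (univ : Finset (Fin L)).biUnion (fun j =>
      univ.filter (fun z => z ∈ T j ∧ ¬ ∃ 𝒲 : Finset (Finset (Fin m)), Fam 2 𝒲 ∧ 𝒲.card = a ∧
        z ∈ Cube 𝒲 (T j))) := by
    intro z hz
    obtain ⟨hzS, hno⟩ := (Finset.mem_filter.1 hz).2
    rw [hU] at hzS
    obtain ⟨j, hj⟩ := Set.mem_iUnion.1 hzS
    refine Finset.mem_biUnion.2 ⟨j, Finset.mem_univ _,
      Finset.mem_filter.2 ⟨Finset.mem_univ _, hj, ?_⟩⟩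
    rintro ⟨𝒲, h1, h2, h3⟩
    refine hno ⟨𝒲, h1, h2, fun I hI => ?_⟩
    rw [hU]
    exact Set.mem_iUnion.2 ⟨j, h3 I hI⟩
  refine (Finset.card_le_card hsub).trans (Finset.card_biUnion_le.trans ?_)
  refine (Finset.sum_le_sum fun j _ => tame_rich (hT j) a).trans ?_
  rw [Finset.sum_const, smul_eq_mul, Finset.card_univ, Fintype.card_fin]

open Classical in
/-- Counting incidences. -/
theorem count_rich {V : Type*} [Fintype V] {d r u a B : ℕ} (hra : r ≤ 2 ^ a)
    (T : V → Set (Fin m → Bool))
    (hT : ∀ x, (univ.filter (fun z => z ∈ T x ∧ ¬ ∃ 𝒲 : Finset (Finset (Fin m)), Fam d 𝒲 ∧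
      𝒲.card = a ∧ z ∈ Cube 𝒲 (T x))).card ≤ B)
    (hfree : ∀ (X : Finset V) (Y : Finset (Fin m → Bool)), X.card = u → Y.card = r →
      (∀ x ∈ X, ∀ y ∈ Y, y ∈ T x) → False) :
    (∑ x, (univ.filter (fun z => z ∈ T x)).card) ≤
      Fintype.card V * B + u * (m + 1) ^ (d * a) * 2 ^ m := by
  have hpt : ∀ (𝒲 : Finset (Finset (Fin m))) (z : Fin m → Bool), Fam d 𝒲 → 𝒲.card = a →
      (univ.filter (fun x : V => z ∈ Cube 𝒲 (T x))).card ≤ u := by
    intro 𝒲 z hF hc
    by_contra hcon
    push Not at hcon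
    obtain ⟨X, hX, hXc⟩ := Finset.exists_subset_card_eq hcon.le
    have hbox := card_points hF z
    rw [hc] at hbox
    obtain ⟨Y, hY, hYc⟩ := Finset.exists_subset_card_eq (hra.trans hbox.symm.le)
    refine hfree X Y hXc hYc fun x hx y hy => ?_
    have h1 := (Finset.mem_filter.1 (hX hx)).2
    obtain ⟨I, hI, rfl⟩ := Finset.mem_image.1 (hY hy)
    exact h1 I (Finset.mem_powerset.1 hI)
  set Fs := univ.filter (fun 𝒲 : Finset (Finset (Fin m)) => Fam d 𝒲 ∧ 𝒲.card = a) with hFs
  have hFc : Fs.card ≤ (m + 1) ^ (d * a) := by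
    refine (Finset.card_le_card ?_).trans (card_fam m d a)
    intro 𝒲 h
    obtain ⟨h1, h2⟩ := (Finset.mem_filter.1 h).2
    exact Finset.mem_filter.2 ⟨Finset.mem_univ _, h1, h2.le⟩
  have hx : ∀ x : V, (univ.filter (fun z => z ∈ T x)).card ≤
      B + ∑ 𝒲 ∈ Fs, (univ.filter (fun z => z ∈ Cube 𝒲 (T x))).card := by
    intro x
    refine le_trans (Finset.card_le_card (t := (univ.filter (fun z => z ∈ T x ∧
        ¬ ∃ 𝒲 : Finset (Finset (Fin m)), Fam d 𝒲 ∧ 𝒲.card = a ∧ z ∈ Cube 𝒲 (T x))) ∪
        Fs.biUnion (fun 𝒲 => univ.filter (fun z => z ∈ Cube 𝒲 (T x)))) ?_) ?_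
    · intro z hz
      have hzT := (Finset.mem_filter.1 hz).2
      by_cases h : ∃ 𝒲 : Finset (Finset (Fin m)), Fam d 𝒲 ∧ 𝒲.card = a ∧ z ∈ Cube 𝒲 (T x)
      · obtain ⟨𝒲, hF, hc, hz⟩ := h
        refine Finset.mem_union_right _ (Finset.mem_biUnion.2
          ⟨𝒲, Finset.mem_filter.2 ⟨Finset.mem_univ _, hF, hc⟩,
            Finset.mem_filter.2 ⟨Finset.mem_univ _, hz⟩⟩)
      · exact Finset.mem_union_left _ (Finset.mem_filter.2 ⟨Finset.mem_univ _, hzT, h⟩)
    · exact (Finset.card_union_le _ _).trans (Nat.add_le_add (hT x) Finset.card_biUnion_le)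
  have hsum : ∑ x : V, ∑ 𝒲 ∈ Fs, (univ.filter (fun z => z ∈ Cube 𝒲 (T x))).card ≤
      u * (m + 1) ^ (d * a) * 2 ^ m := by
    rw [Finset.sum_comm]
    have h1 : ∀ 𝒲 ∈ Fs, ∑ x : V, (univ.filter (fun z => z ∈ Cube 𝒲 (T x))).card ≤ 2 ^ m * u := by
      intro 𝒲 h𝒲
      obtain ⟨hF, hc⟩ := (Finset.mem_filter.1 h𝒲).2
      have h2 : ∑ x : V, (univ.filter (fun z => z ∈ Cube 𝒲 (T x))).card =
          ∑ z : Fin m → Bool, (univ.filter (fun x : V => z ∈ Cube 𝒲 (T x))).card := by
        simp only [Finset.card_filter]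
        rw [Finset.sum_comm]
      rw [h2]
      refine (Finset.sum_le_sum fun z _ => hpt 𝒲 z hF hc).trans ?_
      rw [Finset.sum_const, smul_eq_mul, Finset.card_univ]
      simp
    refine (Finset.sum_le_sum h1).trans ?_
    rw [Finset.sum_const, smul_eq_mul]
    calc Fs.card * (2 ^ m * u) ≤ (m + 1) ^ (d * a) * (2 ^ m * u) := Nat.mul_le_mul_right _ hFc
      _ = _ := by ring
  calc (∑ x, (univ.filter (fun z => z ∈ T x)).card)
      ≤ ∑ x : V, (B + ∑ 𝒲 ∈ Fs, (univ.filter (fun z => z ∈ Cube 𝒲 (T x))).card) :=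
        Finset.sum_le_sum fun x _ => hx x
    _ = Fintype.card V * B + ∑ x : V, ∑ 𝒲 ∈ Fs, (univ.filter (fun z => z ∈ Cube 𝒲 (T x))).card := by
        rw [Finset.sum_add_distrib, Finset.sum_const, smul_eq_mul, Finset.card_univ]
    _ ≤ _ := Nat.add_le_add_left hsum _

open Classical in
/-- The bound for graphs. -/
theorem graph_tame (m c L r u : ℕ) (V : Type) [Fintype V] (lab : V → Fin m → Bool)
    (G : SimpleGraph V) (hu : 1 ≤ u) (hlab : Function.Injective lab)
    (hN : ∀ x, TameUnion L c (lab '' G.neighborSet x))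
    (hfree : (completeBipartiteGraph (Fin r) (Fin u)).Free G) :
    2 * Nat.card G.edgeSet ≤
      Fintype.card V * (L * (2 ^ c * (m + 1) ^ (Nat.clog 2 r - 1))) +
        u * (m + 1) ^ (2 * Nat.clog 2 r) * 2 ^ m := by
  have hcnt := count_rich (u := u) (Nat.le_pow_clog (by norm_num) r)
    (fun x => lab '' G.neighborSet x) (fun x => union_rich (hN x) (Nat.clog 2 r)) (by
      intro X Y hX hY hXY
      obtain ⟨x₀, hx₀⟩ : X.Nonempty := Finset.card_pos.1 (by omega)
      have himg : (univ.filter (fun v => lab v ∈ Y)).image lab = Y := by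
        ext y
        simp only [Finset.mem_image, Finset.mem_filter, Finset.mem_univ, true_and]
        constructor
        · rintro ⟨v, hv, rfl⟩; exact hv
        · intro hy
          obtain ⟨v, _, hv⟩ := hXY x₀ hx₀ y hy
          exact ⟨v, by rw [hv]; exact hy, hv⟩
      have hc : (univ.filter (fun v => lab v ∈ Y)).card = r := by
        rw [← hY, ← himg, Finset.card_image_of_injective _ hlab, himg]
      refine not_free G X (univ.filter (fun v => lab v ∈ Y)) hX hc ?_ hfree
      intro x hx v hv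
      obtain ⟨w, hw, hwv⟩ := hXY x hx _ (Finset.mem_filter.1 hv).2
      rw [← hlab hwv]
      exact hw)
  refine le_trans (le_of_eq ?_) hcnt
  have h1 := G.sum_degrees_eq_twice_card_edges
  have h2 : (Nat.card G.edgeSet) = #G.edgeFinset := by
    rw [Nat.card_eq_fintype_card, SimpleGraph.edgeFinset_card]
  rw [h2, ← h1]
  refine Finset.sum_congr rfl fun x _ => ?_
  rw [← G.card_neighborFinset_eq_degree, ← Finset.card_image_of_injective _ hlab]
  congr 1
  ext y
  simp

end Pool.Agent.H96.Tame
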