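import Mathlib
import Pool.Agent.H96.Tame

/-!
# Tame sets: examples and asymptotic forms
-/

set_option autoImplicit false

namespace Pool.Agent.H96.Tame

open Finset Pool.Agent.H96.Ppz Pool.Agent.H96.Ppsz

variable {m : ℕ}

/-- Linear threshold functions of the bits are tame without classes. -/
lemma tame_threshold (w : Fin m → ℝ) (θ : ℝ) :
    Tame 0 {z : Fin m → Bool | θ ≤ ∑ i, if z i then w i else 0} := by
  refine ⟨fun i => decide (0 ≤ w i), fun _ => none, ?_⟩
  intro z hz W hW
  rcases hW with ⟨i, _, h2, rfl⟩ | ⟨i, j, l, h1, _⟩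
  · have hz' : θ ≤ ∑ i, if z i then w i else 0 := hz
    show θ ≤ ∑ j, if flipSet z {i} j then w j else 0
    refine le_trans hz' (Finset.sum_le_sum fun j _ => ?_)
    by_cases hj : j = i
    · subst hj
      have h3 : flipSet z {j} j = !z j := by simp [flipSet]
      rw [h3]
      cases hzj : z j with
      | false =>
        rw [hzj] at h2
        have : 0 ≤ w j := by
          by_contra hc
          simp [hc] at h2
        simpa using this
      | true =>
        rw [hzj] at h2
        have : ¬ 0 ≤ w j := by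
          intro hc
          simp [hc] at h2
        simpa using (not_le.1 this).le
    · have h3 : flipSet z {i} j = z j := by simp [flipSet, hj]
      rw [h3]
  · exact absurd h1 (by simp)

open Classical in
/-- Sets which depend only on the numbers of the ones (relative to `τ`) in `c` classes of positions
are tame with `c` classes. -/
lemma tame_symmetric {c : ℕ} (κ : Fin m → Fin c) (τ : Fin m → Bool) (P : (Fin c → ℕ) → Prop) :
    Tame c {z : Fin m → Bool | P (fun l => (univ.filter (fun i => κ i = l ∧ z i ≠ τ i)).card)} := by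
  refine ⟨τ, fun i => some (κ i), ?_⟩
  intro z hz W hW
  rcases hW with ⟨i, h1, _⟩ | ⟨i, j, l, hi, hj, h3, h4, rfl⟩
  · exact absurd h1 (by simp)
  · have hij : i ≠ j := by
      rintro rfl
      exact h3 h4
    have hi' : κ i = l := by simpa using hi
    have hj' : κ j = l := by simpa using hj
    have key : ∀ l', (univ.filter (fun x => κ x = l' ∧ flipSet z {i, j} x ≠ τ x)).card =
        (univ.filter (fun x => κ x = l' ∧ z x ≠ τ x)).card := by
      intro l'
      by_cases hl : l' = l
      · subst hl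
        have h5 : univ.filter (fun x => κ x = l' ∧ flipSet z {i, j} x ≠ τ x) =
            insert j ((univ.filter (fun x => κ x = l' ∧ z x ≠ τ x)).erase i) := by
          ext x
          simp only [Finset.mem_filter, Finset.mem_univ, true_and, Finset.mem_insert,
            Finset.mem_erase]
          by_cases hxi : x = i
          · subst hxi
            have : flipSet z {x, j} x = !z x := by simp [flipSet]
            rw [this]
            constructor
            · rintro ⟨_, h6⟩
              exfalso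
              revert h6 h3; cases z x <;> cases τ x <;> simp
            · rintro (h6 | ⟨h6, _⟩)
              · exact absurd h6 hij
              · exact absurd rfl h6
          · by_cases hxj : x = j
            · subst hxj
              have : flipSet z {i, x} x = !z x := by simp [flipSet]
              rw [this]
              constructor
              · intro _; exact Or.inl rfl
              · intro _
                refine ⟨hj', ?_⟩
                rw [h4]
                cases τ x <;> simp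
            · have : flipSet z {i, j} x = z x := by simp [flipSet, hxi, hxj]
              rw [this]
              constructor
              · rintro ⟨h6, h7⟩; exact Or.inr ⟨hxi, h6, h7⟩
              · rintro (h6 | ⟨_, h6, h7⟩)
                · exact absurd h6 hxj
                · exact ⟨h6, h7⟩
        rw [h5, Finset.card_insert_of_notMem, Finset.card_erase_of_mem]
        · have : 0 < (univ.filter (fun x => κ x = l' ∧ z x ≠ τ x)).card :=
            Finset.card_pos.2 ⟨i, Finset.mem_filter.2 ⟨Finset.mem_univ _, hi', h3⟩⟩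
          omega
        · exact Finset.mem_filter.2 ⟨Finset.mem_univ _, hi', h3⟩
        · simp [h4]
      · congr 1
        apply Finset.filter_congr
        intro x _
        have hx : κ x = l' → flipSet z {i, j} x = z x := by
          intro hx
          have h6 : x ≠ i := by rintro rfl; exact hl (hx.symm.trans hi')
          have h7 : x ≠ j := by rintro rfl; exact hl (hx.symm.trans hj')
          simp [flipSet, h6, h7]
        constructor
        · rintro ⟨h6, h7⟩; rw [hx h6] at h7; exact ⟨h6, h7⟩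
        · rintro ⟨h6, h7⟩; rw [← hx h6] at h7; exact ⟨h6, h7⟩
    show P _
    have h8 : (fun l => (univ.filter (fun x => κ x = l ∧ flipSet z {i, j} x ≠ τ x)).card) =
        fun l => (univ.filter (fun x => κ x = l ∧ z x ≠ τ x)).card := funext key
    rw [h8]
    exact hz

lemma no_edges {c : ℕ} {V : Type} {lab : V → Fin m → Bool} {G : SimpleGraph V}
    (hN : ∀ x, TameUnion 0 c (lab '' G.neighborSet x)) : Nat.card G.edgeSet = 0 := by
  have : G = ⊥ := by
    ext x y
    simp only [SimpleGraph.bot_adj, iff_false]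
    intro hxy
    obtain ⟨T, _, hU⟩ := hN x
    have h1 : lab y ∈ lab '' G.neighborSet x := ⟨y, hxy, rfl⟩
    rw [hU] at h1
    obtain ⟨j, _⟩ := Set.mem_iUnion.1 h1
    exact j.elim0
  subst this
  simp

/-- Asymptotic form of the bound. -/
theorem graph_tame_asymp (r u D : ℕ) (ε : ℝ) (hu : 1 ≤ u) (hε : 0 < ε) :
    ∃ n₀ : ℕ, ∀ (n m c L : ℕ) (lab : Fin n → Fin m → Bool) (G : SimpleGraph (Fin n)), n₀ ≤ n →
      Function.Injective lab → 2 ^ m ≤ D * n →
      (∀ x, TameUnion L c (lab '' G.neighborSet x)) →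
      (completeBipartiteGraph (Fin r) (Fin u)).Free G →
      (Nat.card G.edgeSet : ℝ) ≤ L * 2 ^ c * (n : ℝ) ^ (1 + ε) := by
  set a := Nat.clog 2 r with ha
  obtain ⟨K, hK, hKm⟩ := pow_small (2 * a) (half_pos hε)
  have ht2 := (tendsto_rpow_atTop (half_pos hε)).comp (tendsto_natCast_atTop_atTop (R := ℝ))
  obtain ⟨n₀, hn₀⟩ := Filter.eventually_atTop.1 (ht2.eventually_ge_atTop
    ((1 + u * D) * (K * (D : ℝ) ^ (ε / 2))))
  refine ⟨n₀, ?_⟩
  intro n m c L lab G hn hlab hD hN hfree
  have hpos : 0 < D * n := lt_of_lt_of_le (by positivity) hD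
  have hn1 : 1 ≤ n := Nat.pos_of_mul_pos_left hpos
  have hn0 : (0 : ℝ) < n := by exact_mod_cast hn1
  rcases Nat.eq_zero_or_pos L with hL | hL
  · subst hL
    rw [no_edges hN]
    simp
  · have h := graph_tame m c L r u (Fin n) lab G hu hlab hN hfree
    rw [Fintype.card_fin, ← ha] at h
    have hL1 : (1 : ℝ) ≤ L := by exact_mod_cast hL
    have h2c : (1 : ℝ) ≤ 2 ^ c := one_le_pow₀ (by norm_num)
    have hLc : (1 : ℝ) ≤ L * 2 ^ c := by nlinarith
    have hDn : ((2 : ℝ) ^ m) ≤ D * n := by exact_mod_cast hD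
    have hm1 : (1 : ℝ) ≤ (m : ℝ) + 1 := by
      have : (0 : ℝ) ≤ m := Nat.cast_nonneg m
      linarith
    have h' : 2 * (Nat.card G.edgeSet : ℝ) ≤ n * (L * (2 ^ c * (m + 1) ^ (a - 1))) +
        u * (m + 1) ^ (2 * a) * 2 ^ m := by exact_mod_cast h
    have e1 : ((m : ℝ) + 1) ^ (a - 1) ≤ ((m : ℝ) + 1) ^ (2 * a) :=
      pow_le_pow_right₀ hm1 (by omega)
    have e2 : 2 * (Nat.card G.edgeSet : ℝ) ≤
        L * 2 ^ c * n * ((1 + u * D) * ((m : ℝ) + 1) ^ (2 * a)) := by
      refine h'.trans ?_
      have f1 : (n : ℝ) * (L * (2 ^ c * (m + 1) ^ (a - 1))) ≤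
          L * 2 ^ c * n * ((m : ℝ) + 1) ^ (2 * a) := by
        calc (n : ℝ) * (L * (2 ^ c * (m + 1) ^ (a - 1)))
            ≤ (n : ℝ) * (L * (2 ^ c * (m + 1) ^ (2 * a))) := by gcongr
          _ = _ := by ring
      have f2 : (u : ℝ) * (m + 1) ^ (2 * a) * 2 ^ m ≤
          L * 2 ^ c * n * (u * D * ((m : ℝ) + 1) ^ (2 * a)) := by
        calc (u : ℝ) * (m + 1) ^ (2 * a) * 2 ^ m ≤ (u : ℝ) * (m + 1) ^ (2 * a) * (D * n) := by
              gcongr
          _ = 1 * (n * (u * D * ((m : ℝ) + 1) ^ (2 * a))) := by ring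
          _ ≤ (L * 2 ^ c) * (n * (u * D * ((m : ℝ) + 1) ^ (2 * a))) := by gcongr
          _ = _ := by ring
      calc _ ≤ L * 2 ^ c * n * ((m : ℝ) + 1) ^ (2 * a) +
            L * 2 ^ c * n * (u * D * ((m : ℝ) + 1) ^ (2 * a)) := add_le_add f1 f2
        _ = _ := by ring
    have e3 : ((m : ℝ) + 1) ^ (2 * a) ≤ K * (D : ℝ) ^ (ε / 2) * (n : ℝ) ^ (ε / 2) := by
      refine (hKm m).trans ?_
      rw [mul_assoc]
      apply mul_le_mul_of_nonneg_left _ hK.le
      rw [← Real.mul_rpow (by positivity) (by positivity)]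
      exact Real.rpow_le_rpow (by positivity) hDn (by positivity)
    have e4 := hn₀ n hn
    simp only [Function.comp] at e4
    have e5 : (1 + u * D) * ((m : ℝ) + 1) ^ (2 * a) ≤ (n : ℝ) ^ ε := by
      calc (1 + u * D) * ((m : ℝ) + 1) ^ (2 * a)
          ≤ (1 + u * D) * (K * (D : ℝ) ^ (ε / 2) * (n : ℝ) ^ (ε / 2)) := by gcongr
        _ = (1 + u * D) * (K * (D : ℝ) ^ (ε / 2)) * (n : ℝ) ^ (ε / 2) := by ring
        _ ≤ (n : ℝ) ^ (ε / 2) * (n : ℝ) ^ (ε / 2) := by gcongr
        _ = (n : ℝ) ^ ε := by rw [← Real.rpow_add hn0]; congr 1; ring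
    have e6 : 2 * (Nat.card G.edgeSet : ℝ) ≤ L * 2 ^ c * n * (n : ℝ) ^ ε :=
      e2.trans (mul_le_mul_of_nonneg_left e5 (by positivity))
    have e7 : (n : ℝ) ^ (1 + ε) = n * (n : ℝ) ^ ε := by
      rw [Real.rpow_add hn0, Real.rpow_one]
    rw [e7]
    have e8 : (0 : ℝ) ≤ Nat.card G.edgeSet := Nat.cast_nonneg _
    linarith

/-- Graphs with many edges. -/
theorem graph_tame_large (r u D : ℕ) (c₀ δ α : ℝ) (hu : 1 ≤ u) (hc : 0 < c₀) (hδ : δ < α) :
    ∃ n₀ : ℕ, ∀ (n m c L : ℕ) (lab : Fin n → Fin m → Bool) (G : SimpleGraph (Fin n)), n₀ ≤ n →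
      Function.Injective lab → 2 ^ m ≤ D * n →
      (∀ x, TameUnion L c (lab '' G.neighborSet x)) →
      (completeBipartiteGraph (Fin r) (Fin u)).Free G →
      c₀ * (n : ℝ) ^ (1 + α) ≤ Nat.card G.edgeSet → (n : ℝ) ^ δ < L * 2 ^ c := by
  set ε := (α - δ) / 2 with hε
  have hε0 : 0 < ε := by rw [hε]; linarith
  obtain ⟨n₀, hn₀⟩ := graph_tame_asymp r u D ε hu hε0
  have ht2 := (tendsto_rpow_atTop hε0).comp (tendsto_natCast_atTop_atTop (R := ℝ))
  obtain ⟨n₁, hn₁⟩ := Filter.eventually_atTop.1 (ht2.eventually_gt_atTop (1 / c₀))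
  refine ⟨max (max n₀ n₁) 1, ?_⟩
  intro n m c L lab G hn hlab hD hN hfree hE
  have hn0 : n₀ ≤ n := le_trans (le_trans (le_max_left _ _) (le_max_left _ _)) hn
  have hn1 : n₁ ≤ n := le_trans (le_trans (le_max_right _ _) (le_max_left _ _)) hn
  have hn2 : 1 ≤ n := le_trans (le_max_right _ _) hn
  have hn' : (0 : ℝ) < n := by exact_mod_cast hn2
  have h1 := hE.trans (hn₀ n m c L lab G hn0 hlab hD hN hfree)
  have h3 : (n : ℝ) ^ (1 + α) = (n : ℝ) ^ (ε + δ) * (n : ℝ) ^ (1 + ε) := by
    rw [← Real.rpow_add hn']; congr 1; rw [hε]; ring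
  rw [h3, ← mul_assoc] at h1
  have h4 : c₀ * (n : ℝ) ^ (ε + δ) ≤ L * 2 ^ c := le_of_mul_le_mul_right h1 (by positivity)
  have h6 := hn₁ n hn1
  simp only [Function.comp] at h6
  have h7 : 1 < c₀ * (n : ℝ) ^ ε := by
    rw [div_lt_iff₀ hc] at h6
    linarith
  rw [Real.rpow_add hn'] at h4
  have h8 : 0 < (n : ℝ) ^ δ := by positivity
  nlinarith

end Pool.Agent.H96.Tame
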