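import Mathlib
import Pool.Agent.H96.BesAsy
import Pool.Agent.H96.TameAsy

/-!
# Uniform hypergraphs whose edges are given by unions of tame sets
-/

set_option autoImplicit false

namespace Pool.Agent.H96.Bes

open Finset Pool.Agent.H96.Ppz Pool.Agent.H96.Ppsz Pool.Agent.H96.Tame

open Classical in
/-- The configuration from families of directions. -/
theorem config_core {V : Type} {r m d a : ℕ}
    {lab : V → Fin m → Bool} (hlab : Function.Injective lab) {E : Finset (Finset V)}
    {p : Fin r → Fin r → Fin m} {c : Fin r → Fin r → Bool} (hval : Valid p c)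
    {S : Set (Fin (r * m) → Bool)} (hSR : S ⊆ Rel r lab E) (hSs : S ⊆ Sep p c)
    {z : Fin (r * m) → Bool} {𝒲 : Fin r → Finset (Finset (Fin (r * m)))}
    (hF : ∀ j, Fam d (𝒲 j)) (hFc : ∀ j, (𝒲 j).card = a)
    (hdb : ∀ j, ∀ W ∈ 𝒲 j, Disjoint W (blk r m j))
    (hdd : ∀ j j', j ≠ j' → ∀ W ∈ 𝒲 j, ∀ W' ∈ 𝒲 j', Disjoint W W')
    (h3 : z ∈ Cube (univ.biUnion 𝒲) S)
    (𝒯 : Finset (Fin r → Fin (2 ^ a))) :
    ∃ T ⊆ E, T.card = 𝒯.card ∧ (T.biUnion id).card ≤
      ∑ b, (𝒯.image (fun t => Function.update t b (⟨0, Nat.two_pow_pos a⟩ : Fin (2 ^ a)))).card := by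
  -- indices of the subfamilies
  have hφ : ∀ j : Fin r, ∃ φ : Fin (2 ^ a) → Finset (Finset (Fin (r * m))),
      Function.Injective φ ∧ ∀ x, φ x ⊆ 𝒲 j := by
    intro j
    have hc : Fintype.card ((𝒲 j).powerset : Finset _) = 2 ^ a := by
      rw [Fintype.card_coe, Finset.card_powerset, hFc j]
    let e := (Fintype.equivFinOfCardEq hc).symm
    refine ⟨fun x => (e x : Finset (Finset (Fin (r * m)))), ?_, fun x => ?_⟩
    · intro x y hxy
      exact e.injective (Subtype.ext hxy)
    · exact Finset.mem_powerset.1 (e x).2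
  choose φ hφi hφs using hφ
  set I : (Fin r → Fin (2 ^ a)) → Finset (Finset (Fin (r * m))) :=
    fun t => univ.biUnion (fun j => φ j (t j)) with hI
  have hIs : ∀ t, I t ⊆ univ.biUnion 𝒲 := by
    intro t W hW
    obtain ⟨j, _, hj⟩ := Finset.mem_biUnion.1 hW
    exact Finset.mem_biUnion.2 ⟨j, Finset.mem_univ j, hφs j _ hj⟩
  set w : (Fin r → Fin (2 ^ a)) → Fin (r * m) → Bool := fun t => flipSet z (un (I t)) with hw
  have hwS : ∀ t, w t ∈ S := fun t => h3 (I t) (hIs t)
  have hv : ∀ t, ∃ v : Fin r → V, Function.Injective v ∧ Finset.univ.image v ∈ E ∧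
      w t = cat (fun j => lab (v j)) := fun t => hSR (hwS t)
  choose v hvi hvE hvw using hv
  have hvlab : ∀ t b i, lab (v t b) i = w t (finProdFinEquiv (b, i)) := by
    intro t b i
    rw [hvw t, cat_apply]
  -- the vertex in block `b` does not depend on `t b`
  have hA : ∀ t t' b, (∀ j, j ≠ b → t j = t' j) → v t b = v t' b := by
    intro t t' b htt
    apply hlab
    funext i
    rw [hvlab, hvlab]
    have key : finProdFinEquiv (b, i) ∈ un (I t) ↔ finProdFinEquiv (b, i) ∈ un (I t') := by
      have aux : ∀ s s' : Fin r → Fin (2 ^ a), (∀ j, j ≠ b → s j = s' j) →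
          finProdFinEquiv (b, i) ∈ un (I s) → finProdFinEquiv (b, i) ∈ un (I s') := by
        intro s s' hss hin
        obtain ⟨W, hW, hiW⟩ := mem_un.1 hin
        obtain ⟨j, _, hj⟩ := Finset.mem_biUnion.1 hW
        have hjb : j ≠ b := by
          rintro rfl
          have := hdb j W (hφs j _ hj)
          refine Finset.disjoint_left.1 this hiW (Finset.mem_filter.2 ⟨Finset.mem_univ _, ?_⟩)
          rw [Equiv.symm_apply_apply]
        refine mem_un.2 ⟨W, Finset.mem_biUnion.2 ⟨j, Finset.mem_univ j, ?_⟩, hiW⟩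
        rw [← hss j hjb]
        exact hj
      exact ⟨aux t t' htt, aux t' t fun j hj => (htt j hj).symm⟩
    simp only [hw, flipSet]
    by_cases hk : finProdFinEquiv (b, i) ∈ un (I t)
    · rw [if_pos hk, if_pos (key.1 hk)]
    · rw [if_neg hk, if_neg (fun h => hk (key.2 h))]
  -- different indices give different edges
  have hB : ∀ t t', (univ.image (v t)) = univ.image (v t') → t = t' := by
    intro t t' he
    have hvv : ∀ b, v t b = v t' b := by
      intro b
      have hm : v t b ∈ univ.image (v t') := by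
        rw [← he]; exact Finset.mem_image_of_mem _ (Finset.mem_univ b)
      obtain ⟨b', _, hb'⟩ := Finset.mem_image.1 hm
      by_cases hbb : b' = b
      · rw [← hb', hbb]
      · exfalso
        have hne : b ≠ b' := fun h => hbb h.symm
        obtain ⟨g1, g2⟩ := hval b b' hne
        have e1 := hSs (hwS t) b b' hne
        have e2 := hSs (hwS t') b' b hbb
        rw [← hvlab] at e1 e2
        rw [hb', ← g1] at e2
        exact g2 (e1.symm.trans e2)
    have hww : w t = w t' := by
      rw [hvw t, hvw t']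
      congr 1
      funext j
      rw [hvv j]
    have hun := flipSet_inj hww
    have hsub : ∀ s s' : Fin r → Fin (2 ^ a), (∀ i, i ∈ un (I s) ↔ i ∈ un (I s')) →
        ∀ j, φ j (s j) ⊆ φ j (s' j) := by
      intro s s' hss j W hW
      obtain ⟨i, hi⟩ := ((hF j).1 W (hφs j _ hW)).1
      have h5 : i ∈ un (I s) := mem_un.2 ⟨W, Finset.mem_biUnion.2 ⟨j, Finset.mem_univ j, hW⟩, hi⟩
      obtain ⟨W', hW', hi'⟩ := mem_un.1 ((hss i).1 h5)
      obtain ⟨j', _, hj'⟩ := Finset.mem_biUnion.1 hW'
      have hjj : j' = j := by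
        by_contra hne
        exact Finset.disjoint_left.1 (hdd j' j hne W' (hφs j' _ hj') W (hφs j _ hW)) hi' hi
      subst hjj
      by_cases hWW : W = W'
      · rw [hWW]; exact hj'
      · exact absurd hi' (Finset.disjoint_left.1
          ((hF j').2 W (hφs j' _ hW) W' (hφs j' _ hj') hWW) hi)
    funext j
    apply hφi j
    exact Finset.Subset.antisymm (hsub t t' hun j) (hsub t' t (fun i => (hun i).symm) j)
  refine ⟨𝒯.image (fun t => univ.image (v t)), ?_, ?_, ?_⟩
  · intro e he
    obtain ⟨t, _, rfl⟩ := Finset.mem_image.1 he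
    exact hvE t
  · rw [Finset.card_image_of_injOn]
    intro t _ t' _ h
    exact hB t t' h
  · have hsub : (𝒯.image (fun t => univ.image (v t))).biUnion id ⊆
        (univ : Finset (Fin r)).biUnion (fun b => 𝒯.image (fun t => v t b)) := by
      intro x hx
      obtain ⟨e, he, hxe⟩ := Finset.mem_biUnion.1 hx
      obtain ⟨t, ht, rfl⟩ := Finset.mem_image.1 he
      obtain ⟨b, _, rfl⟩ := Finset.mem_image.1 hxe
      exact Finset.mem_biUnion.2 ⟨b, Finset.mem_univ b, Finset.mem_image_of_mem _ ht⟩
    refine (Finset.card_le_card hsub).trans (Finset.card_biUnion_le.trans ?_)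
    apply Finset.sum_le_sum
    intro b _
    have himg : 𝒯.image (fun t => v t b) =
        (𝒯.image (fun t => Function.update t b (⟨0, Nat.two_pow_pos a⟩ : Fin (2 ^ a)))).image
          (fun s => v s b) := by
      rw [Finset.image_image]
      apply Finset.image_congr
      intro t _
      exact hA t _ b fun j hj => (Function.update_of_ne hj _ _).symm
    rw [himg]
    exact Finset.card_image_le

open Classical in
/-- Counting edges by separating data. -/
theorem bes_abstract (r m L : ℕ) (V : Type) (lab : V → Fin m → Bool)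
    (E : Finset (Finset V)) (hr : 2 ≤ r)
    (hlab : Function.Injective lab) (hE : ∀ e ∈ E, e.card = r)
    (T : Fin L → Set (Fin (r * m) → Bool)) (hTU : Rel r lab E = ⋃ j, T j) (Thr : ℝ)
    (hThr0 : 0 ≤ Thr)
    (hsmall : ∀ (p : Fin r → Fin r → Fin m) (c : Fin r → Fin r → Bool) (j : Fin L),
      Valid p c → ((univ.filter (fun z => z ∈ T j ∩ Sep p c)).card : ℝ) ≤ Thr) :
    (E.card : ℝ) ≤ L * (2 * m) ^ (r * r) * Thr := by
  rcases E.eq_empty_or_nonempty with rfl | ⟨e₀, he₀⟩
  · simp only [Finset.card_empty, Nat.cast_zero]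
    positivity
  -- the length of the names is positive
  have hm : 0 < m := by
    by_contra hm
    have hm0 : m = 0 := by omega
    subst hm0
    have h1 := hE e₀ he₀
    have h2 : e₀.card ≤ 1 := by
      rw [Finset.card_le_one]
      intro x _ y _
      exact hlab (Subsingleton.elim _ _)
    omega
  -- choose an order, separating data and a set of the union for every edge
  have hch : ∀ e : Finset V, ∃ (w : Fin (r * m) → Bool) (p : Fin r → Fin r → Fin m)
      (c : Fin r → Fin r → Bool) (j : Option (Fin L)), e ∈ E → Valid p c ∧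
        (∃ j₀, j = some j₀ ∧ w ∈ T j₀ ∩ Sep p c) ∧
        ∃ v : Fin r → V, univ.image v = e ∧ w = cat (fun j => lab (v j)) := by
    intro e
    by_cases he : e ∈ E
    · have hc := hE e he
      let q : Fin r ≃ e := (Fintype.equivFinOfCardEq (by simpa using hc)).symm
      let v : Fin r → V := fun i => (q i : V)
      have hvi : Function.Injective v := fun i j h => q.injective (Subtype.ext h)
      have hve : univ.image v = e := by
        ext x
        simp only [Finset.mem_image, Finset.mem_univ, true_and]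
        constructor
        · rintro ⟨i, rfl⟩; exact (q i).2
        · intro hx
          exact ⟨q.symm ⟨x, hx⟩, by simp [v]⟩
      obtain ⟨p, c, hval, hsep⟩ := exists_sep hm hlab hvi
      have hR : cat (fun j => lab (v j)) ∈ Rel r lab E := ⟨v, hvi, by
        convert he using 1, rfl⟩
      rw [hTU] at hR
      obtain ⟨j, hj⟩ := Set.mem_iUnion.1 hR
      exact ⟨_, p, c, some j, fun _ => ⟨hval, ⟨j, rfl, hj, hsep⟩, v, hve, rfl⟩⟩
    · exact ⟨fun _ => false, fun _ _ => ⟨0, hm⟩, fun _ _ => false, none, fun h => absurd h he⟩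
  choose w p c j hwp using hch
  set D := (Fin r → Fin r → Fin m) × (Fin r → Fin r → Bool) × Fin L with hDdef
  have hsubE : E ⊆ (univ : Finset D).biUnion (fun D => E.filter (fun e =>
      p e = D.1 ∧ c e = D.2.1 ∧ j e = some D.2.2)) := by
    intro e he
    obtain ⟨_, ⟨j₀, hj₀, _⟩, _⟩ := hwp e he
    exact Finset.mem_biUnion.2 ⟨(p e, c e, j₀), Finset.mem_univ _,
      Finset.mem_filter.2 ⟨he, rfl, rfl, hj₀⟩⟩
  have hfib : ∀ D' : D, ((E.filter (fun e =>
      p e = D'.1 ∧ c e = D'.2.1 ∧ j e = some D'.2.2)).card : ℝ) ≤ Thr := by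
    intro D'
    rcases (E.filter (fun e => p e = D'.1 ∧ c e = D'.2.1 ∧ j e = some D'.2.2)).eq_empty_or_nonempty
      with h0 | ⟨e₁, he₁⟩
    · rw [h0]; simpa using hThr0
    · obtain ⟨he₁E, hp1, hc1, hj1⟩ := Finset.mem_filter.1 he₁
      have hval : Valid D'.1 D'.2.1 := by
        rw [← hp1, ← hc1]; exact (hwp e₁ he₁E).1
      refine le_trans ?_ (hsmall D'.1 D'.2.1 D'.2.2 hval)
      have : (E.filter (fun e => p e = D'.1 ∧ c e = D'.2.1 ∧ j e = some D'.2.2)).card ≤
          (univ.filter (fun z => z ∈ T D'.2.2 ∩ Sep D'.1 D'.2.1)).card := by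
        apply Finset.card_le_card_of_injOn w
        · intro e he
          obtain ⟨heE, hp2, hc2, hj2⟩ := Finset.mem_filter.1 he
          obtain ⟨_, ⟨j₀, hj₀, hw₀⟩, _⟩ := hwp e heE
          have hjj : j₀ = D'.2.2 := Option.some_injective _ (hj₀.symm.trans hj2)
          refine Finset.mem_coe.2 (Finset.mem_filter.2 ⟨Finset.mem_univ _, ?_⟩)
          rw [← hjj, ← hp2, ← hc2]
          exact hw₀
        · intro e he e' he' hww
          obtain ⟨heE, _⟩ := Finset.mem_filter.1 he
          obtain ⟨heE', _⟩ := Finset.mem_filter.1 he'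
          obtain ⟨_, _, v, hv, hvw⟩ := hwp e heE
          obtain ⟨_, _, v', hv', hvw'⟩ := hwp e' heE'
          rw [← hv, ← hv']
          have hvv : v = v' := by
            funext b
            apply hlab
            funext i
            have h5 : cat (fun j => lab (v j)) = cat (fun j => lab (v' j)) := by
              rw [← hvw, ← hvw']; exact hww
            have h6 := congrFun h5 (finProdFinEquiv (b, i))
            rwa [cat_apply, cat_apply] at h6
          rw [hvv]
      exact_mod_cast this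
  have hcount : (E.card : ℝ) ≤ (Fintype.card D : ℝ) * Thr := by
    calc (E.card : ℝ) ≤ (((univ : Finset D).biUnion (fun D => E.filter (fun e =>
          p e = D.1 ∧ c e = D.2.1 ∧ j e = some D.2.2))).card : ℝ) := by
          exact_mod_cast Finset.card_le_card hsubE
      _ ≤ ∑ D' : D, ((E.filter (fun e =>
          p e = D'.1 ∧ c e = D'.2.1 ∧ j e = some D'.2.2)).card : ℝ) := by
          exact_mod_cast Finset.card_biUnion_le
      _ ≤ ∑ _D' : D, Thr := Finset.sum_le_sum fun D' _ => hfib D'
      _ = _ := by rw [Finset.sum_const, nsmul_eq_mul, Finset.card_univ]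
  have hDc : (Fintype.card D : ℝ) = L * (2 * m) ^ (r * r) := by
    show ((Fintype.card ((Fin r → Fin r → Fin m) × (Fin r → Fin r → Bool) × Fin L) : ℕ) : ℝ) = _
    simp only [Fintype.card_prod, Fintype.card_fun, Fintype.card_fin, Fintype.card_bool]
    push_cast
    rw [← pow_mul, ← pow_mul, mul_pow]
    ring
  rw [hDc] at hcount
  exact hcount

/-- Disjoint subfamilies. -/
lemma greedy {N r a A : ℕ} (𝒱 : Fin r → Finset (Finset (Fin N)))
    (hc : ∀ j, (𝒱 j).card = A) (hn : ∀ j, ∀ W ∈ 𝒱 j, W.Nonempty ∧ W.card ≤ 2)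
    (hd : ∀ j, ∀ W ∈ 𝒱 j, ∀ W' ∈ 𝒱 j, W ≠ W' → Disjoint W W') (hA : a + 2 * a * r ≤ A) :
    ∀ J : Finset (Fin r), ∃ 𝒲 : Fin r → Finset (Finset (Fin N)),
      (∀ j ∈ J, 𝒲 j ⊆ 𝒱 j ∧ (𝒲 j).card = a) ∧
      ∀ j ∈ J, ∀ j' ∈ J, j ≠ j' → ∀ W ∈ 𝒲 j, ∀ W' ∈ 𝒲 j', Disjoint W W' := by
  classical
  intro J
  induction J using Finset.induction_on with
  | empty => exact ⟨fun _ => ∅, by simp, by simp⟩
  | insert j₀ J hj₀ ih =>
    obtain ⟨𝒲, h1, h2⟩ := ih
    set U : Finset (Fin N) := J.biUnion (fun j => (𝒲 j).biUnion id) with hU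
    have hUc : U.card ≤ 2 * a * r := by
      refine Finset.card_biUnion_le.trans ?_
      have h3 : ∀ j ∈ J, ((𝒲 j).biUnion id).card ≤ 2 * a := by
        intro j hj
        refine Finset.card_biUnion_le.trans ?_
        refine (Finset.sum_le_sum (g := fun _ => 2) fun W hW => ?_).trans ?_
        · exact (hn j W ((h1 j hj).1 hW)).2
        · rw [Finset.sum_const, smul_eq_mul, (h1 j hj).2, mul_comm]
      refine (Finset.sum_le_sum h3).trans ?_
      rw [Finset.sum_const, smul_eq_mul, mul_comm]
      apply Nat.mul_le_mul_left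
      have := Finset.card_le_univ J
      rwa [Fintype.card_fin] at this
    have hbad : ((𝒱 j₀).filter (fun W => ¬ Disjoint W U)).card ≤ U.card := by
      have h5 : ∀ W : Finset (Fin N), ∃ x : Option (Fin N), W ∈ (𝒱 j₀).filter (fun W => ¬ Disjoint W U) →
          ∃ y, x = some y ∧ y ∈ W ∧ y ∈ U := by
        intro W
        by_cases hW : W ∈ (𝒱 j₀).filter (fun W => ¬ Disjoint W U)
        · have := (Finset.mem_filter.1 hW).2
          rw [Finset.not_disjoint_iff] at this
          obtain ⟨y, hy1, hy2⟩ := this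
          exact ⟨some y, fun _ => ⟨y, rfl, hy1, hy2⟩⟩
        · exact ⟨none, fun h => absurd h hW⟩
      choose x hx using h5
      have hUU : (U.image some).card = U.card :=
        Finset.card_image_of_injective _ (Option.some_injective _)
      rw [← hUU]
      apply Finset.card_le_card_of_injOn x
      · intro W hW
        obtain ⟨y, hy, _, hyU⟩ := hx W hW
        rw [hy]
        exact Finset.mem_coe.2 (Finset.mem_image_of_mem _ hyU)
      · intro W hW W' hW' hxx
        by_contra hne
        have h6 := hd j₀ W (Finset.mem_filter.1 hW).1 W' (Finset.mem_filter.1 hW').1 hne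
        obtain ⟨y, hy, hyW, _⟩ := hx W hW
        obtain ⟨y', hy', hyW', _⟩ := hx W' hW'
        have h7 : y = y' := by
          rw [hy, hy'] at hxx
          exact Option.some_injective _ hxx
        subst h7
        exact Finset.disjoint_left.1 h6 hyW hyW'
    have hgood : a ≤ ((𝒱 j₀).filter (fun W => Disjoint W U)).card := by
      have := Finset.card_filter_add_card_filter_not (s := 𝒱 j₀) (fun W => Disjoint W U)
      rw [hc j₀] at this
      omega
    obtain ⟨X, hX, hXc⟩ := Finset.exists_subset_card_eq hgood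
    have hXU : ∀ W ∈ X, ∀ j ∈ J, ∀ W' ∈ 𝒲 j, Disjoint W W' := by
      intro W hW j hj W' hW'
      have h8 := (Finset.mem_filter.1 (hX hW)).2
      refine Finset.disjoint_of_subset_right ?_ h8
      intro i hi
      exact Finset.mem_biUnion.2 ⟨j, hj, Finset.mem_biUnion.2 ⟨W', hW', hi⟩⟩
    have hne : ∀ j ∈ J, j ≠ j₀ := fun j hj h => hj₀ (h ▸ hj)
    refine ⟨Function.update 𝒲 j₀ X, ?_, ?_⟩
    · intro j hj
      rcases Finset.mem_insert.1 hj with rfl | hj
      · rw [Function.update_self]
        exact ⟨fun W hW => (Finset.mem_filter.1 (hX hW)).1, hXc⟩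
      · rw [Function.update_of_ne (hne j hj)]
        exact h1 j hj
    · intro j hj j' hj' hjj W hW W' hW'
      rcases Finset.mem_insert.1 hj with hj1 | hj1
      · rcases Finset.mem_insert.1 hj' with hj2 | hj2
        · exact absurd (hj1.trans hj2.symm) hjj
        · rw [hj1, Function.update_self] at hW
          rw [Function.update_of_ne (hne j' hj2)] at hW'
          exact hXU W hW j' hj2 W' hW'
      · rw [Function.update_of_ne (hne j hj1)] at hW
        rcases Finset.mem_insert.1 hj' with hj2 | hj2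
        · rw [hj2, Function.update_self] at hW'
          exact (hXU W' hW' j hj1 W hW).symm
        · rw [Function.update_of_ne (hne j' hj2)] at hW'
          exact h2 j hj1 j' hj2 hjj W hW W' hW'

/-- the separating positions -/
def sepPos {r m : ℕ} (p : Fin r → Fin r → Fin m) : Finset (Fin (r * m)) :=
  (univ : Finset (Fin r × Fin r)).image (fun b => finProdFinEquiv (b.1, p b.1 b.2))

lemma card_sepPos {r m : ℕ} (p : Fin r → Fin r → Fin m) : (sepPos p).card ≤ r * r := by
  unfold sepPos
  refine Finset.card_image_le.trans ?_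
  simp

open Classical in
/-- A tame set which consists of names of edges and respects separating data is small. -/
theorem tame_small {V : Type} {r m a cc : ℕ} {lab : V → Fin m → Bool}
    (hlab : Function.Injective lab) {E : Finset (Finset V)}
    {p : Fin r → Fin r → Fin m} {c : Fin r → Fin r → Bool} (hval : Valid p c)
    {T : Set (Fin (r * m) → Bool)} (hT : Tame cc T) (hTR : T ⊆ Rel r lab E)
    (𝒯 : Finset (Fin r → Fin (2 ^ a)))
    (hfree : ∀ T ⊆ E, T.card = 𝒯.card →
      ∑ b, (𝒯.image (fun t => Function.update t b (⟨0, Nat.two_pow_pos a⟩ : Fin (2 ^ a)))).card <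
        (T.biUnion id).card) :
    (univ.filter (fun z => z ∈ T ∩ Sep p c)).card ≤
      r * (2 ^ cc * (r * m + 1) ^ (a + 2 * a * r) * 2 ^ (m + r * r)) := by
  obtain ⟨τ, κ, hcl⟩ := hT
  set A := a + 2 * a * r with hA
  set R : Fin r → Finset (Fin (r * m)) := fun j => (blk r m j ∪ sepPos p)ᶜ with hR
  have hRc : ∀ j, 2 ^ (r * m - (R j).card) ≤ 2 ^ (m + r * r) := by
    intro j
    apply Nat.pow_le_pow_right (by norm_num)
    have h1 : (R j).card = r * m - (blk r m j ∪ sepPos p).card := by
      simp only [hR]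
      rw [Finset.card_compl, Fintype.card_fin]
    have h2 : (blk r m j ∪ sepPos p).card ≤ m + r * r :=
      (Finset.card_union_le _ _).trans (Nat.add_le_add (card_blk r m j) (card_sepPos p))
    omega
  have hsub : univ.filter (fun z => z ∈ T ∩ Sep p c) ⊆ (univ : Finset (Fin r)).biUnion
      (fun j => univ.filter (fun z : Fin (r * m) → Bool => ∃ (β : Fin cc → Bool)
        (M : Finset (Fin (r * m))), M.card < A ∧ ∀ i ∈ R j, z i = code τ κ β M i)) := by
    intro z hz
    obtain ⟨hzT, hzs⟩ := (Finset.mem_filter.1 hz).2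
    by_contra hcon
    have hall : ∀ j, ∃ 𝒱 : Finset (Finset (Fin (r * m))), 𝒱.card = A ∧
        (∀ W ∈ 𝒱, Move τ κ z W ∧ W ⊆ R j) ∧ ∀ W ∈ 𝒱, ∀ W' ∈ 𝒱, W ≠ W' → Disjoint W W' := by
      intro j
      rcases exists_moves τ κ (R j) A z with h | h
      · exact h
      · exfalso
        apply hcon
        refine Finset.mem_biUnion.2 ⟨j, Finset.mem_univ _, ?_⟩
        simp only [Finset.mem_filter, Finset.mem_univ, true_and]
        exact h
    choose 𝒱 hV1 hV2 hV3 using hall
    obtain ⟨𝒲, hW1, hW2⟩ := greedy 𝒱 hV1 (fun j W hW => (hV2 j W hW).1.nonempty) hV3 (le_of_eq hA.symm)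
      univ
    have hsubR : ∀ j, ∀ W ∈ 𝒲 j, W ⊆ R j := fun j W hW =>
      (hV2 j W ((hW1 j (Finset.mem_univ j)).1 hW)).2
    have hdisU : ∀ W ∈ (univ : Finset (Fin r)).biUnion 𝒲, ∀ W' ∈ (univ : Finset (Fin r)).biUnion 𝒲,
        W ≠ W' → Disjoint W W' := by
      intro W hW W' hW' hne
      obtain ⟨j, _, hj⟩ := Finset.mem_biUnion.1 hW
      obtain ⟨j', _, hj'⟩ := Finset.mem_biUnion.1 hW'
      by_cases hjj : j = j'
      · subst hjj
        exact hV3 j W ((hW1 j (Finset.mem_univ j)).1 hj) W' ((hW1 j (Finset.mem_univ j)).1 hj') hne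
      · exact hW2 j (Finset.mem_univ _) j' (Finset.mem_univ _) hjj W hj W' hj'
    have hcube : z ∈ Cube ((univ : Finset (Fin r)).biUnion 𝒲) T := by
      apply cube_of_moves hcl hzT _ hdisU
      intro W hW
      obtain ⟨j, _, hj⟩ := Finset.mem_biUnion.1 hW
      exact (hV2 j W ((hW1 j (Finset.mem_univ j)).1 hj)).1
    have hcube' : z ∈ Cube ((univ : Finset (Fin r)).biUnion 𝒲) (T ∩ Sep p c) := by
      intro I hI
      refine ⟨hcube I hI, ?_⟩
      intro b b' hbb
      have h1 : finProdFinEquiv (b, p b b') ∉ un I := by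
        intro h
        obtain ⟨W, hW, hi⟩ := mem_un.1 h
        obtain ⟨j, _, hj⟩ := Finset.mem_biUnion.1 (hI hW)
        have h2 := hsubR j W hj hi
        simp only [hR, Finset.mem_compl, Finset.mem_union, not_or] at h2
        exact h2.2 (Finset.mem_image.2 ⟨(b, b'), Finset.mem_univ _, rfl⟩)
      show flipSet z (un I) (finProdFinEquiv (b, p b b')) = c b b'
      simp only [flipSet, h1, if_false]
      exact hzs b b' hbb
    obtain ⟨T', hT', h1, h2⟩ := config_core (d := 2) (a := a) hlab hval
      (S := T ∩ Sep p c) (fun w hw => hTR hw.1) (fun w hw => hw.2)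
      (fun j => ⟨fun W hW => (hV2 j W ((hW1 j (Finset.mem_univ j)).1 hW)).1.nonempty,
        fun W hW W' hW' hne => hV3 j W ((hW1 j (Finset.mem_univ j)).1 hW) W'
          ((hW1 j (Finset.mem_univ j)).1 hW') hne⟩)
      (fun j => (hW1 j (Finset.mem_univ j)).2)
      (fun j W hW => by
        rw [Finset.disjoint_left]
        intro i hi hi'
        have h2 := hsubR j W hW hi
        simp only [hR, Finset.mem_compl, Finset.mem_union, not_or] at h2
        exact h2.1 hi')
      (fun j j' hjj => hW2 j (Finset.mem_univ _) j' (Finset.mem_univ _) hjj) hcube' 𝒯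
    exact absurd h2 (not_le.2 (hfree T' hT' h1))
  refine (Finset.card_le_card hsub).trans (Finset.card_biUnion_le.trans ?_)
  have h5 : ∀ j ∈ (univ : Finset (Fin r)), (univ.filter (fun z : Fin (r * m) → Bool =>
      ∃ (β : Fin cc → Bool) (M : Finset (Fin (r * m))), M.card < A ∧
        ∀ i ∈ R j, z i = code τ κ β M i)).card ≤
      2 ^ cc * (r * m + 1) ^ A * 2 ^ (m + r * r) := by
    intro j _
    refine (card_code τ κ (R j) A).trans ?_
    refine Nat.mul_le_mul (Nat.mul_le_mul_left _ ?_) (hRc j)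
    exact Nat.pow_le_pow_right (by omega) (by omega)
  refine (Finset.sum_le_sum h5).trans ?_
  rw [Finset.sum_const, smul_eq_mul, Finset.card_univ, Fintype.card_fin]

open Classical in
/-- **The bound for hypergraphs given by tame sets.** -/
theorem bes_tame (r m a cc L : ℕ) (V : Type) (lab : V → Fin m → Bool)
    (E : Finset (Finset V)) (hr : 2 ≤ r)
    (hlab : Function.Injective lab) (hE : ∀ e ∈ E, e.card = r)
    (hD : TameUnion L cc (Rel r lab E)) (𝒯 : Finset (Fin r → Fin (2 ^ a)))
    (hfree : ∀ T ⊆ E, T.card = 𝒯.card →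
      ∑ b, (𝒯.image (fun t => Function.update t b (⟨0, Nat.two_pow_pos a⟩ : Fin (2 ^ a)))).card <
        (T.biUnion id).card) :
    (E.card : ℝ) ≤ L * (2 * m) ^ (r * r) *
      (r * (2 ^ cc * (r * m + 1) ^ (a + 2 * a * r) * 2 ^ (m + r * r))) := by
  obtain ⟨T, hT, hTU⟩ := hD
  apply bes_abstract r m L V lab E hr hlab hE T hTU _ (by positivity)
  intro p c j hval
  exact_mod_cast tame_small hlab hval (hT j) (fun z hz => by
    rw [hTU]; exact Set.mem_iUnion.2 ⟨j, hz⟩) 𝒯 hfree

end Pool.Agent.H96.Bes
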