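import Mathlib
import Pool.Agent.H96.BesTame

/-!
# Uniform hypergraphs whose edges are given by unions of tame sets: asymptotic forms
-/

set_option autoImplicit false

namespace Pool.Agent.H96.Bes

open Finset Pool.Agent.H96.Ppz Pool.Agent.H96.Ppsz Pool.Agent.H96.Tame

open Classical in
/-- Asymptotic form of the bound. -/
theorem bes_tame_asymp (r a D : ℕ) (ε : ℝ) (hr : 2 ≤ r) (hε : 0 < ε)
    (𝒯 : Finset (Fin r → Fin (2 ^ a))) :
    ∃ n₀ : ℕ, ∀ (n m cc L : ℕ) (lab : Fin n → Fin m → Bool) (E : Finset (Finset (Fin n))), n₀ ≤ n →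
      Function.Injective lab → 2 ^ m ≤ D * n → (∀ s ∈ E, s.card = r) →
      TameUnion L cc (Rel r lab E) →
      (∀ T ⊆ E, T.card = 𝒯.card →
        ∑ b, (𝒯.image (fun t => Function.update t b (⟨0, Nat.two_pow_pos a⟩ : Fin (2 ^ a)))).card <
          (T.biUnion id).card) →
      (E.card : ℝ) ≤ L * 2 ^ cc * (n : ℝ) ^ (1 + ε) := by
  set η : ℝ := ε / 2 with hη
  have hη0 : 0 < η := by rw [hη]; linarith
  set A : ℕ := a + 2 * a * r with hA
  set b : ℕ := r * r + A with hb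
  obtain ⟨K, hK, hKm⟩ := pow_small b hη0
  set C0 : ℝ := 2 ^ (r * r) * (r * (r ^ A * 2 ^ (r * r))) with hC0
  have hC00 : 0 ≤ C0 := by rw [hC0]; positivity
  set C : ℝ := C0 * K * (D : ℝ) ^ (1 + η) with hC
  have ht2 := (tendsto_rpow_atTop hη0).comp (tendsto_natCast_atTop_atTop (R := ℝ))
  obtain ⟨n₀, hn₀⟩ := Filter.eventually_atTop.1 (ht2.eventually_gt_atTop C)
  refine ⟨n₀, ?_⟩
  intro n m cc L lab E hn hlab hD hE hDep hfree
  have hpos : 0 < D * n := lt_of_lt_of_le (by positivity) hD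
  have hn1 : 1 ≤ n := Nat.pos_of_mul_pos_left hpos
  have hn0' : (0 : ℝ) < n := by exact_mod_cast hn1
  have h := bes_tame r m a cc L (Fin n) lab E hr hlab hE hDep 𝒯
    (fun T hT hc => lt_of_lt_of_eq (hfree T hT hc)
      (by congr; exact Subsingleton.elim _ _))
  refine h.trans ?_
  have hm0 : (0 : ℝ) ≤ m := Nat.cast_nonneg m
  have hr1 : (1 : ℝ) ≤ r := by
    have : 1 ≤ r := by omega
    exact_mod_cast this
  have hDn : ((2 : ℝ) ^ m) ≤ D * n := by exact_mod_cast hD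
  have e2 : (2 * (m : ℝ)) ^ (r * r) ≤ 2 ^ (r * r) * (m + 1) ^ (r * r) := by
    rw [mul_pow]; gcongr; linarith
  have e3 : ((r : ℝ) * m + 1) ^ A ≤ r ^ A * (m + 1) ^ A := by
    rw [← mul_pow]; gcongr; nlinarith
  have e4 := hKm m
  have e5 : ((2 : ℝ) ^ m) ^ (1 + η) ≤ (D : ℝ) ^ (1 + η) * (n : ℝ) ^ (1 + η) := by
    rw [← Real.mul_rpow (by positivity) (by positivity)]
    exact Real.rpow_le_rpow (by positivity) hDn (by linarith)
  have e6 := (hn₀ n hn).le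
  simp only [Function.comp] at e6
  rw [← hA]
  calc (L : ℝ) * (2 * (m : ℝ)) ^ (r * r) * (r * (2 ^ cc * (r * m + 1) ^ A * 2 ^ (m + r * r)))
      ≤ L * (2 ^ (r * r) * (m + 1) ^ (r * r)) *
        (r * (2 ^ cc * (r ^ A * (m + 1) ^ A) * 2 ^ (m + r * r))) := by
        gcongr
    _ = L * 2 ^ cc * (C0 * ((m : ℝ) + 1) ^ b * (2 : ℝ) ^ m) := by
        rw [hC0, hb, pow_add ((m : ℝ) + 1), pow_add (2 : ℝ) m]; ring
    _ ≤ L * 2 ^ cc * (C0 * (K * ((2 : ℝ) ^ m) ^ η) * (2 : ℝ) ^ m) := by gcongr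
    _ = L * 2 ^ cc * (C0 * K * ((2 : ℝ) ^ m) ^ (1 + η)) := by
        rw [Real.rpow_add (by positivity), Real.rpow_one]; ring
    _ ≤ L * 2 ^ cc * (C0 * K * ((D : ℝ) ^ (1 + η) * (n : ℝ) ^ (1 + η))) := by gcongr
    _ = L * 2 ^ cc * (C * (n : ℝ) ^ (1 + η)) := by rw [hC]; ring
    _ ≤ L * 2 ^ cc * ((n : ℝ) ^ η * (n : ℝ) ^ (1 + η)) := by gcongr
    _ = L * 2 ^ cc * (n : ℝ) ^ (1 + ε) := by
        rw [← Real.rpow_add hn0']
        congr 2
        rw [hη]; ring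

open Classical in
/-- Triple systems. -/
theorem triple_tame (k D : ℕ) (ε : ℝ) (hk : k = 18 ∨ 23 ≤ k) (hε : 0 < ε) :
    ∃ n₀ : ℕ, ∀ (n m cc L : ℕ) (lab : Fin n → Fin m → Bool) (E : Finset (Finset (Fin n))), n₀ ≤ n →
      Function.Injective lab → 2 ^ m ≤ D * n → (∀ s ∈ E, s.card = 3) →
      TameUnion L cc (Rel 3 lab E) →
      (∀ T ⊆ E, T.card = k → k + 3 < (T.biUnion id).card) →
      (E.card : ℝ) ≤ L * 2 ^ cc * (n : ℝ) ^ (1 + ε) := by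
  obtain ⟨𝒯, h𝒯, hsum⟩ := grid3 k hk
  obtain ⟨n₀, hn₀⟩ := bes_tame_asymp 3 k D ε (by norm_num) hε 𝒯
  refine ⟨n₀, fun n m cc L lab E hn hlab hD hE hDep hfree =>
    hn₀ n m cc L lab E hn hlab hD hE hDep ?_⟩
  intro T hT hTc
  exact lt_of_le_of_lt hsum (hfree T hT (hTc.trans h𝒯))

open Classical in
/-- General uniformity. -/
theorem uniform_tame (r e D : ℕ) (ε : ℝ) (hr : 3 ≤ r) (he : (4 * r) ^ r ≤ e) (hε : 0 < ε) :
    ∃ n₀ : ℕ, ∀ (n m cc L : ℕ) (lab : Fin n → Fin m → Bool) (E : Finset (Finset (Fin n))), n₀ ≤ n →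
      Function.Injective lab → 2 ^ m ≤ D * n → (∀ s ∈ E, s.card = r) →
      TameUnion L cc (Rel r lab E) →
      (∀ T ⊆ E, T.card = e → e < (T.biUnion id).card) →
      (E.card : ℝ) ≤ L * 2 ^ cc * (n : ℝ) ^ (1 + ε) := by
  obtain ⟨a, 𝒯, h𝒯, hsum⟩ := gridr r e hr he
  obtain ⟨n₀, hn₀⟩ := bes_tame_asymp r a D ε (by omega) hε 𝒯
  refine ⟨n₀, fun n m cc L lab E hn hlab hD hE hDep hfree =>
    hn₀ n m cc L lab E hn hlab hD hE hDep ?_⟩
  intro T hT hTc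
  exact lt_of_le_of_lt hsum (hfree T hT (hTc.trans h𝒯))

end Pool.Agent.H96.Bes
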