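import Mathlib
import Pool.Agent.H96.Median

/-!
# Blowups of rooted trees in graphs whose neighbourhoods are decided by circuits of depth three
-/

set_option autoImplicit false

namespace Pool.Agent.H96.Blowup

open Finset Pool.Agent.H96.Ppz Pool.Agent.H96.Ppsz Pool.Agent.H96.Median

/-- The graph `G` contains the `t`-blowup of the tree `T` with the root set `R`. -/
def HasBlowup {V : Type} (T : SimpleGraph V) (R : Set V) (t n : ℕ) (G : SimpleGraph (Fin n)) :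
    Prop :=
  ∃ f : {p : V × ℕ // p.2 < t ∧ (p.1 ∈ R → p.2 = 0)} → Fin n, Function.Injective f ∧
    ∀ a b : {p : V × ℕ // p.2 < t ∧ (p.1 ∈ R → p.2 = 0)},
      (SimpleGraph.fromRel
        (fun a b : {p : V × ℕ // p.2 < t ∧ (p.1 ∈ R → p.2 = 0)} =>
          T.Adj a.1.1 b.1.1 ∧ (a.1.2 = b.1.2 ∨ a.1.1 ∈ R ∨ b.1.1 ∈ R))).Adj a b →
      G.Adj (f a) (f b)

/-- the density of a rooted tree -/
noncomputable def dens {V : Type} (T : SimpleGraph V) (R : Set V) : ℝ :=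
  (({e | e ∈ T.edgeSet ∧ ∃ v ∈ Rᶜ, v ∈ e} : Set (Sym2 V)).ncard : ℝ) / ((Rᶜ : Set V).ncard : ℝ)

theorem free_of_no_blowup {V : Type} [Fintype V] {T : SimpleGraph V} {R : Set V} (hT : T.IsTree)
    {t n : ℕ} {G : SimpleGraph (Fin n)} (h : ¬ HasBlowup T R t n G) :
    (completeBipartiteGraph (Fin (Fintype.card V * t)) (Fin (Fintype.card V * t))).Free G := by
  classical
  rintro ⟨φ⟩
  apply h
  obtain ⟨col⟩ := hT.colorable_two
  set P := {p : V × ℕ // p.2 < t ∧ (p.1 ∈ R → p.2 = 0)} with hP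
  let ι : P → Fin (Fintype.card V * t) := fun p =>
    finProdFinEquiv (Fintype.equivFin V p.1.1, ⟨p.1.2, p.2.1⟩)
  have hι : Function.Injective ι := by
    intro p q hpq
    have h1 := finProdFinEquiv.injective hpq
    simp only [Prod.mk.injEq, EmbeddingLike.apply_eq_iff_eq, Fin.mk.injEq] at h1
    exact Subtype.ext (Prod.ext h1.1 h1.2)
  let f : P → Fin n := fun p => φ (if col p.1.1 = 0 then Sum.inl (ι p) else Sum.inr (ι p))
  refine ⟨f, ?_, ?_⟩
  · intro p q hpq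
    have h1 := φ.injective hpq
    by_cases hp : col p.1.1 = 0 <;> by_cases hq : col q.1.1 = 0
    · simp only [hp, hq, if_true] at h1
      exact hι (Sum.inl_injective h1)
    · simp [hp, hq] at h1
    · simp [hp, hq] at h1
    · simp only [hp, hq, if_false] at h1
      exact hι (Sum.inr_injective h1)
  · intro p q hpq
    rw [SimpleGraph.fromRel_adj] at hpq
    have hadj : T.Adj p.1.1 q.1.1 := by
      rcases hpq.2 with h1 | h1
      · exact h1.1
      · exact h1.1.symm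
    have hcol : col p.1.1 ≠ col q.1.1 := col.valid hadj
    apply φ.toHom.map_rel
    by_cases hp : col p.1.1 = 0 <;> by_cases hq : col q.1.1 = 0
    · exact absurd (hp.trans hq.symm) hcol
    · simp [hp, hq, completeBipartiteGraph]
    · simp [hp, hq, completeBipartiteGraph]
    · exfalso
      apply hcol
      have h1 : ∀ x : Fin 2, x ≠ 0 → x = 1 := by decide
      rw [h1 _ hp, h1 _ hq]

lemma q4 : (3 : ℝ) / 7 < qavg 4 30 200 := by
  refine lt_of_lt_of_le ?_ (qavg_ge (N := 10 ^ 6) (by norm_num) (by norm_num) (by norm_num))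
  have h : 3 * (200 * 10 ^ 6) < 7 * sn 4 200 (10 ^ 6) 30 200 := by decide +kernel
  have h' : ((3 * (200 * 10 ^ 6) : ℕ) : ℝ) < ((7 * sn 4 200 (10 ^ 6) 30 200 : ℕ) : ℝ) := by
    exact_mod_cast h
  push_cast at h' ⊢
  rw [div_lt_div_iff₀ (by norm_num) (by norm_num)]
  linarith

lemma q3b : (3 : ℝ) / 5 < qavg 3 30 200 := by
  refine lt_of_lt_of_le ?_ (qavg_ge (N := 10 ^ 6) (by norm_num) (by norm_num) (by norm_num))
  have h : 3 * (200 * 10 ^ 6) < 5 * sn 3 200 (10 ^ 6) 30 200 := by decide +kernel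
  have h' : ((3 * (200 * 10 ^ 6) : ℕ) : ℝ) < ((5 * sn 3 200 (10 ^ 6) 30 200 : ℕ) : ℝ) := by
    exact_mod_cast h
  push_cast at h' ⊢
  rw [div_lt_div_iff₀ (by norm_num) (by norm_num)]
  linarith

lemma q_real {k : ℕ} (hk : 2 ≤ k) {ρ : ℝ} (hks : 4 * (k : ℝ) ≤ 5 * ρ) :
    ∃ M : ℕ, 1 ≤ M ∧ 1 / ρ < qavg k 2 M := by
  have hk0 : 0 < k := by omega
  refine ⟨k * (4 * k) * (4 * k), Nat.succ_le_of_lt (by positivity), ?_⟩
  have hk' : (2 : ℝ) ≤ k := by exact_mod_cast hk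
  have hs0 : (0 : ℝ) < ρ := by linarith
  refine lt_of_lt_of_le ?_ (qavg_two hk (by positivity))
  have h1 : (1 : ℝ) / ρ ≤ 5 / (4 * k) := by
    rw [div_le_div_iff₀ hs0 (by positivity)]
    linarith
  refine lt_of_le_of_lt h1 ?_
  push_cast
  have h2 : (k : ℝ) / (k * (4 * k) * (4 * k)) = 1 / ((4 * k) * (4 * k)) := by
    field_simp
  rw [h2]
  have h3 : (5 : ℝ) / (4 * k) = 1 / k + 1 / (4 * k) := by
    field_simp
    norm_num
  rw [h3]
  have h4 : (0 : ℝ) < 4 * k - 2 := by linarith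
  have h5 : (1 : ℝ) / (4 * k) + 1 / ((4 * k) * (4 * k)) < 1 / (4 * k - 2) := by
    rw [div_add_div _ _ (by positivity) (by positivity), div_lt_div_iff₀ (by positivity) h4]
    nlinarith [mul_pos (by linarith : (0:ℝ) < k) (by linarith : (0:ℝ) < k)]
  linarith

/-- Range of the densities for which the bound is proved. -/
def Range (k : ℕ) (ρ : ℝ) : Prop :=
  (k ≤ 2 ∧ 1 < ρ) ∨ (k = 3 ∧ 5 / 3 ≤ ρ) ∨ (k = 4 ∧ 7 / 3 ≤ ρ) ∨ (k = 5 ∧ 3 ≤ ρ) ∨
    (2 ≤ k ∧ 4 * (k : ℝ) ≤ 5 * ρ)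

lemma range_q {k : ℕ} {ρ : ℝ} (h : Range k ρ) :
    ∃ k' d M : ℕ, k ≤ k' ∧ 1 ≤ d ∧ 1 ≤ M ∧ 1 / ρ < qavg k' d M := by
  rcases h with ⟨h, hρ⟩ | ⟨rfl, hρ⟩ | ⟨rfl, hρ⟩ | ⟨rfl, hρ⟩ | ⟨h1, h⟩
  · have h0 : 0 < 1 - 1 / ρ := by
      have : 1 / ρ < 1 := by
        rw [div_lt_one (by linarith)]; exact hρ
      linarith
    obtain ⟨d, hd⟩ := exists_nat_gt (2 / (1 - 1 / ρ))
    have hd0 : (0 : ℝ) < d := lt_trans (by positivity) hd
    have hd1 : 0 < d := by exact_mod_cast hd0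
    refine ⟨2, d, d, h, hd1, hd1, lt_of_lt_of_le ?_ (q_two d hd1)⟩
    have h2 : 1 / ((d : ℝ) + 1) ≤ 1 / d := one_div_le_one_div_of_le hd0 (by linarith)
    have h3 : 2 * (1 / (d : ℝ)) < 1 - 1 / ρ := by
      rw [div_lt_iff₀ h0] at hd
      rw [mul_one_div, div_lt_iff₀ hd0]
      linarith
    linarith
  · refine ⟨3, 30, 200, le_rfl, by norm_num, by norm_num, lt_of_le_of_lt ?_ q3b⟩
    rw [div_le_div_iff₀ (by linarith) (by norm_num)]
    linarith
  · refine ⟨4, 30, 200, le_rfl, by norm_num, by norm_num, lt_of_le_of_lt ?_ q4⟩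
    rw [div_le_div_iff₀ (by linarith) (by norm_num)]
    linarith
  · refine ⟨5, 20, 100, le_rfl, by norm_num, by norm_num, lt_of_le_of_lt ?_ q5⟩
    exact one_div_le_one_div_of_le (by norm_num) hρ
  · obtain ⟨M, hM, hq⟩ := q_real h1 h
    exact ⟨k, 2, M, le_rfl, by norm_num, hM, hq⟩

/-- The upper bound for hosts whose neighbourhoods are decided by circuits of depth three. -/
theorem blowup_depth3 (k D t : ℕ) (V : Type) [Fintype V] (T : SimpleGraph V) (R : Set V)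
    (hT : T.IsTree) (ht : 0 < t) (hk : Range k (dens T R)) :
    ∃ δ : ℝ, 0 < δ ∧ ∃ n₀ : ℕ,
      ∀ (n m L : ℕ) (lab : Fin n → Fin m → Bool) (G : SimpleGraph (Fin n)), n₀ ≤ n →
      Function.Injective lab → 2 ^ m ≤ D * n →
      (∀ x, Depth3 L k (lab '' G.neighborSet x)) → ¬ HasBlowup T R t n G →
      (Nat.card G.edgeSet : ℝ) ≤ L * (n : ℝ) ^ (2 - 1 / dens T R - δ) := by
  obtain ⟨k', d, M, hk', hd, hM, hq⟩ := range_q hk
  set ρ := dens T R with hρ
  set δ : ℝ := (qavg k' d M - 1 / ρ) / 2 with hδ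
  have hδ0 : 0 < δ := by rw [hδ]; linarith
  have : Nonempty V := hT.connected.nonempty
  have hN : 1 ≤ Fintype.card V * t := Nat.mul_pos Fintype.card_pos ht
  obtain ⟨n₀, hn₀⟩ := graph_asymp k' d M (Fintype.card V * t) (Fintype.card V * t) D
    (2 - 1 / ρ - δ) hM hd hN (by rw [hδ]; linarith)
  exact ⟨δ, hδ0, n₀, fun n m L lab G hn hlab hD hNb hB =>
    hn₀ n m L lab G hn hlab hD (fun x => depth3_mono hk' (hNb x)) (free_of_no_blowup hT hB)⟩

/-- The upper bound for hosts whose neighbourhoods are unions of median-closed sets. -/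
theorem blowup_median (D t : ℕ) (ε : ℝ) (V : Type) [Fintype V] (T : SimpleGraph V) (R : Set V)
    (hT : T.IsTree) (ht : 0 < t) (hε : 0 < ε) :
    ∃ n₀ : ℕ,
      ∀ (n m L : ℕ) (lab : Fin n → Fin m → Bool) (G : SimpleGraph (Fin n)), n₀ ≤ n →
      Function.Injective lab → 2 ^ m ≤ D * n →
      (∀ x, MedUnion L (lab '' G.neighborSet x)) → ¬ HasBlowup T R t n G →
      (Nat.card G.edgeSet : ℝ) ≤ L * (n : ℝ) ^ (1 + ε) := by
  have : Nonempty V := hT.connected.nonempty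
  have hN : 1 ≤ Fintype.card V * t := Nat.mul_pos Fintype.card_pos ht
  obtain ⟨n₀, hn₀⟩ := med_asymp (Fintype.card V * t) (Fintype.card V * t) D ε hN hε
  exact ⟨n₀, fun n m L lab G hn hlab hD hNb hB =>
    hn₀ n m L lab G hn hlab hD hNb (free_of_no_blowup hT hB)⟩

end Pool.Agent.H96.Blowup
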