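import Mathlib

/-!
# Stars in the lines of corner-free sets

For a point `b` of a line and a subset `T` of the line, the star of `T` at `b` consists of the
points `y` such that the whole subcube spanned by `b` and `y` lies in `T`.
-/

set_option autoImplicit false

namespace Pool.Agent.H96.CornerStar

open Finset

/-- `F_2^n` -/
abbrev V (n : ℕ) := Fin n → ZMod 2

/-- the subcube spanned by `b` and `y` -/
def cube {n : ℕ} (b y : V n) : Set (V n) := {w | ∀ i, w i = b i ∨ w i = y i}

lemma add_self' {n : ℕ} (a : V n) : a + a = 0 := by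
  funext i
  exact CharTwo.add_self_eq_zero _

lemma zadd (a : ZMod 2) : a + a = 0 := CharTwo.add_self_eq_zero _

/-- the linear functions killing the differences which are not allowed -/
def g (d e f v u : ZMod 2) : ZMod 2 × ZMod 2 :=
  if d = 0 then
    if e = 0 then
      if f = 0 then (v, u) else (v, 0)
    else
      if f = 0 then (0, u) else (0, 0)
  else
    if e = 0 then
      if f = 0 then (v + u, 0) else (0, 0)
    else (0, 0)

lemma g_spec : ∀ d e f v u v' u' : ZMod 2, g d e f v u = g d e f v' u' →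
    ∃ w1 w2 w3 : ZMod 2, (w1 = 0 ∨ w1 = d) ∧ (w2 = 0 ∨ w2 = f) ∧
      (w3 = 0 ∨ w3 = e) ∧ v + v' = w1 + w3 ∧ u + u' = w1 + w2 := by
  unfold g
  decide +kernel

/-- the possible values of the patterns -/
def Q : Finset ((ZMod 2 × ZMod 2 × ZMod 2) × (ZMod 2 × ZMod 2)) :=
  (univ : Finset ((ZMod 2 × ZMod 2 × ZMod 2) × (ZMod 2 × ZMod 2))).image
    (fun p => (p.1, g p.1.1 p.1.2.1 p.1.2.2 p.2.1 p.2.2))

lemma card_Q : Q.card = 14 := by decide

section rows

variable {n : ℕ} (T : V n → Set (V n))
  (hT : ∀ x y z : V n, y ∈ T x → y + z ∈ T x → y ∈ T (x + z) → z = 0)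

include hT

open Classical in
lemma star_triples (b : V n → V n) :
    (univ.filter (fun p : V n × (V n × V n × V n) => cube (b p.1) p.2.1 ⊆ T p.1 ∧
      cube (b p.1) p.2.2.1 ⊆ T p.1 ∧ cube (b p.1) p.2.2.2 ⊆ T p.1)).card ≤ 14 ^ n := by
  have h14 : (Fintype.piFinset (fun _ : Fin n => Q)).card = 14 ^ n := by
    rw [Fintype.card_piFinset]
    simp [card_Q]
  rw [← h14]
  refine Finset.card_le_card_of_injOn (fun p i =>
    ((b p.1 i + p.2.1 i, b p.1 i + p.2.2.1 i, b p.1 i + p.2.2.2 i),
      g (b p.1 i + p.2.1 i) (b p.1 i + p.2.2.1 i) (b p.1 i + p.2.2.2 i) (p.1 i) (b p.1 i))) ?_ ?_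
  · intro p _
    rw [Finset.mem_coe, Fintype.mem_piFinset]
    intro i
    exact Finset.mem_image.2 ⟨((b p.1 i + p.2.1 i, b p.1 i + p.2.2.1 i, b p.1 i + p.2.2.2 i),
      (p.1 i, b p.1 i)), Finset.mem_univ _, rfl⟩
  · rintro ⟨x, D, E, F⟩ h ⟨x', D', E', F'⟩ h' heq
    obtain ⟨hD, hE, hF⟩ := (Finset.mem_filter.1 (Finset.mem_coe.1 h)).2
    obtain ⟨hD', hE', hF'⟩ := (Finset.mem_filter.1 (Finset.mem_coe.1 h')).2
    simp only at hD hE hF hD' hE' hF'
    have hi : ∀ i, (b x i + D i = b x' i + D' i ∧ b x i + E i = b x' i + E' i ∧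
        b x i + F i = b x' i + F' i) ∧
        g (b x i + D i) (b x i + E i) (b x i + F i) (x i) (b x i) =
          g (b x i + D i) (b x i + E i) (b x i + F i) (x' i) (b x' i) := by
      intro i
      have := congrFun heq i
      simp only [Prod.mk.injEq] at this
      obtain ⟨⟨h1, h2, h3⟩, h4⟩ := this
      refine ⟨⟨h1, h2, h3⟩, ?_⟩
      rw [h4, ← h1, ← h2, ← h3]
    choose w1 w2 w3 hw1 hw2 hw3 hw4 hw5 using fun i => g_spec _ _ _ _ _ _ _ (hi i).2
    -- the corner
    have key : x + x' = 0 := by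
      refine hT x (fun i => b x i + w1 i) (x + x') ?_ ?_ ?_
      · refine hD ?_
        intro i
        rcases hw1 i with h | h
        · left; show b x i + w1 i = b x i
          rw [h, add_zero]
        · right; show b x i + w1 i = D i
          rw [h, ← add_assoc, zadd, zero_add]
      · refine hE ?_
        intro i
        have h1 : ((fun i => b x i + w1 i) + (x + x')) i = b x i + w3 i := by
          show b x i + w1 i + (x i + x' i) = b x i + w3 i
          rw [hw4 i]
          calc b x i + w1 i + (w1 i + w3 i)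
              = b x i + w3 i + (w1 i + w1 i) := by ring
            _ = b x i + w3 i := by rw [zadd, add_zero]
        rw [h1]
        rcases hw3 i with h | h
        · left; rw [h, add_zero]
        · right; rw [h, ← add_assoc, zadd, zero_add]
      · have h0 : x + (x + x') = x' := by rw [← add_assoc, add_self', zero_add]
        rw [h0]
        refine hF' ?_
        intro i
        have h1 : b x i + w1 i = b x' i + w2 i := by
          have h5 := hw5 i
          calc b x i + w1 i = b x i + w1 i + (b x' i + b x' i) := by rw [zadd, add_zero]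
            _ = (b x i + b x' i) + w1 i + b x' i := by ring
            _ = (w1 i + w2 i) + w1 i + b x' i := by rw [h5]
            _ = b x' i + w2 i + (w1 i + w1 i) := by ring
            _ = b x' i + w2 i := by rw [zadd, add_zero]
        show b x i + w1 i = b x' i ∨ b x i + w1 i = F' i
        rw [h1]
        rcases hw2 i with h | h
        · left; rw [h, add_zero]
        · right; rw [h, (hi i).1.2.2, ← add_assoc, zadd, zero_add]
    have hx : x = x' := by
      have : x = x + (x + x') := by rw [key, add_zero]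
      rw [this, ← add_assoc, add_self', zero_add]
    subst hx
    have h1 : D = D' := funext fun i => add_left_cancel (hi i).1.1
    have h2 : E = E' := funext fun i => add_left_cancel (hi i).1.2.1
    have h3 : F = F' := funext fun i => add_left_cancel (hi i).1.2.2
    rw [h1, h2, h3]

open Classical in
lemma star_cubes (b : V n → V n) :
    ∑ x, (univ.filter (fun y : V n => cube (b x) y ⊆ T x)).card ^ 3 ≤ 14 ^ n := by
  refine le_trans (le_of_eq ?_) (star_triples T hT b)
  have h1 : univ.filter (fun p : V n × (V n × V n × V n) => cube (b p.1) p.2.1 ⊆ T p.1 ∧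
      cube (b p.1) p.2.2.1 ⊆ T p.1 ∧ cube (b p.1) p.2.2.2 ⊆ T p.1) =
      (univ : Finset (V n)).biUnion (fun x =>
        ({x} : Finset (V n)) ×ˢ ((univ.filter (fun y : V n => cube (b x) y ⊆ T x)) ×ˢ
          ((univ.filter (fun y : V n => cube (b x) y ⊆ T x)) ×ˢ
            (univ.filter (fun y : V n => cube (b x) y ⊆ T x))))) := by
    ext ⟨x, D, E, F⟩
    simp only [Finset.mem_filter, Finset.mem_univ, true_and, Finset.mem_biUnion,
      Finset.mem_product, Finset.mem_singleton]
    constructor
    · rintro ⟨h1, h2, h3⟩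
      exact ⟨x, rfl, h1, h2, h3⟩
    · rintro ⟨x', rfl, h1, h2, h3⟩
      exact ⟨h1, h2, h3⟩
  rw [h1, Finset.card_biUnion]
  · refine Finset.sum_congr rfl fun x _ => ?_
    simp only [Finset.card_product, Finset.card_singleton]
    ring
  · intro x _ x' _ hne
    rw [Function.onFun, Finset.disjoint_left]
    rintro ⟨z, p⟩ h h'
    have h2 := Finset.mem_singleton.1 (Finset.mem_product.1 h).1
    have h3 := Finset.mem_singleton.1 (Finset.mem_product.1 h').1
    exact hne (h2.symm.trans h3)

open Classical in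
theorem star_row_dep (b : V n → V n) :
    (∑ x, (univ.filter (fun y : V n => cube (b x) y ⊆ T x)).card) ^ 3 ≤ 56 ^ n := by
  have h := star_cubes T hT b
  have h1 := pow_sum_le_card_mul_sum_pow (s := (univ : Finset (V n)))
    (f := fun x => (univ.filter (fun y : V n => cube (b x) y ⊆ T x)).card)
    (fun _ _ => Nat.zero_le _) 2
  have h2 : (univ : Finset (V n)).card = 2 ^ n := by
    rw [Finset.card_univ, Fintype.card_fun, ZMod.card, Fintype.card_fin]
  rw [h2] at h1
  calc _ ≤ (2 ^ n) ^ 2 * ∑ x, (univ.filter (fun y : V n => cube (b x) y ⊆ T x)).card ^ 3 := h1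
    _ ≤ (2 ^ n) ^ 2 * 14 ^ n := Nat.mul_le_mul_left _ h
    _ = 56 ^ n := by
      rw [← pow_mul, mul_comm n 2, pow_mul, ← mul_pow]
      norm_num

omit hT in
lemma zmod2_ne {a b : ZMod 2} (h : a ≠ b) : a = b + 1 := by
  revert a b; decide

open Classical in
theorem star_common (b : V n) :
    (univ.filter (fun p : V n × V n => cube b p.2 ⊆ T p.1)).card ≤ 3 ^ n := by
  have h3 : (Fintype.piFinset (fun _ : Fin n => (univ : Finset (Option (ZMod 2))))).card =
      3 ^ n := by
    rw [Fintype.card_piFinset]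
    simp [ZMod.card]
  rw [← h3]
  refine Finset.card_le_card_of_injOn (fun p i => if p.2 i = b i then some (p.1 i) else none)
    ?_ ?_
  · intro p _
    simp
  · rintro ⟨x, y⟩ h ⟨x', y'⟩ h' heq
    have h1 : cube b y ⊆ T x := (Finset.mem_filter.1 (Finset.mem_coe.1 h)).2
    have h2 : cube b y' ⊆ T x' := (Finset.mem_filter.1 (Finset.mem_coe.1 h')).2
    have hi : ∀ i, (y i = b i ↔ y' i = b i) ∧ (y i = b i → x i = x' i) := by
      intro i
      have := congrFun heq i
      simp only at this
      by_cases hy : y i = b i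
      · by_cases hy' : y' i = b i
        · rw [if_pos hy, if_pos hy'] at this
          exact ⟨iff_of_true hy hy', fun _ => Option.some_injective _ this⟩
        · rw [if_pos hy, if_neg hy'] at this
          exact absurd this (by simp)
      · by_cases hy' : y' i = b i
        · rw [if_neg hy, if_pos hy'] at this
          exact absurd this (by simp)
        · exact ⟨iff_of_false hy hy', fun h => absurd h hy⟩
    have hy : y = y' := by
      funext i
      by_cases hyi : y i = b i
      · rw [hyi, ((hi i).1.1 hyi)]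
      · rw [zmod2_ne hyi, zmod2_ne (fun h => hyi ((hi i).1.2 h))]
    subst hy
    have key : x + x' = 0 := by
      refine hT x y (x + x') (h1 fun i => Or.inr rfl) (h1 fun i => ?_) ?_
      · by_cases hyi : y i = b i
        · right
          show y i + (x i + x' i) = y i
          rw [(hi i).2 hyi, zadd, add_zero]
        · by_cases hx : x i = x' i
          · right
            show y i + (x i + x' i) = y i
            rw [hx, zadd, add_zero]
          · left
            show y i + (x i + x' i) = b i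
            rw [zmod2_ne hyi, zmod2_ne hx]
            calc b i + 1 + (x' i + 1 + x' i) = b i + (1 + 1) + (x' i + x' i) := by ring
              _ = b i := by rw [zadd, zadd, add_zero, add_zero]
      · have h0 : x + (x + x') = x' := by rw [← add_assoc, add_self', zero_add]
        rw [h0]
        exact h2 fun i => Or.inr rfl
    have hx : x = x' := by
      have : x = x + (x + x') := by rw [key, add_zero]
      rw [this, ← add_assoc, add_self', zero_add]
    rw [hx]

end rows

/-- the subcube spanned by `(a, b)` and `p` lies in `A` -/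
def Star {n : ℕ} (A : Set (V n × V n)) (a b : V n) (p : V n × V n) : Prop :=
  ∀ q : V n × V n, q.1 ∈ cube a p.1 → q.2 ∈ cube b p.2 → q ∈ A

open Classical in
/-- the star of a corner-free set at a point -/
theorem star_joint {n : ℕ} (A : Set (V n × V n))
    (hA : ∀ x y z : V n, (x, y) ∈ A → (x, y + z) ∈ A → (x + z, y) ∈ A → z = 0) (a b : V n) :
    (univ.filter (Star A a b)).card ≤ 2 ^ n := by
  have h2 : (univ : Finset (Fin n → Prop)).card = 2 ^ n := by
    rw [Finset.card_univ, Fintype.card_fun, Fintype.card_fin]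
    simp
  rw [← h2]
  -- sets of changed positions in x and in y are disjoint
  have key : ∀ p, Star A a b p → ∀ p', Star A a b p' → ∀ i, p.1 i ≠ a i → p'.2 i ≠ b i →
      False := by
    intro p h1 p' h1' i hi hi'
    have h3 : (Pi.single i 1 : V n) = 0 := by
      refine hA a b (Pi.single i 1) (h1 (a, b) (fun j => Or.inl rfl) (fun j => Or.inl rfl))
        (h1' (a, b + Pi.single i 1) (fun j => Or.inl rfl) (fun j => ?_))
        (h1 (a + Pi.single i 1, b) (fun j => ?_) (fun j => Or.inl rfl))
      · by_cases hj : j = i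
        · subst hj
          right
          show b j + (Pi.single j 1 : V n) j = p'.2 j
          rw [Pi.single_eq_same, zmod2_ne hi']
        · left
          show b j + (Pi.single i 1 : V n) j = b j
          rw [Pi.single_eq_of_ne hj, add_zero]
      · by_cases hj : j = i
        · subst hj
          right
          show a j + (Pi.single j 1 : V n) j = p.1 j
          rw [Pi.single_eq_same, zmod2_ne hi]
        · left
          show a j + (Pi.single i 1 : V n) j = a j
          rw [Pi.single_eq_of_ne hj, add_zero]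
    have := congrFun h3 i
    rw [Pi.single_eq_same] at this
    exact one_ne_zero this
  refine Finset.card_le_card_of_injOn (fun p i => p.1 i ≠ a i ∨ p.2 i ≠ b i)
    (fun p _ => Finset.mem_coe.2 (Finset.mem_univ _)) ?_
  intro p hp p' hp' heq
  have hp : Star A a b p := (Finset.mem_filter.1 (Finset.mem_coe.1 hp)).2
  have hp' : Star A a b p' := (Finset.mem_filter.1 (Finset.mem_coe.1 hp')).2
  have hi : ∀ i, (p.1 i ≠ a i ∨ p.2 i ≠ b i) ↔ (p'.1 i ≠ a i ∨ p'.2 i ≠ b i) := fun i =>
    iff_of_eq (congrFun heq i)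
  have h1 : ∀ i, p.1 i ≠ a i ↔ p'.1 i ≠ a i := by
    intro i
    constructor
    · intro h
      rcases (hi i).1 (Or.inl h) with h' | h'
      · exact h'
      · exact (key p hp p' hp' i h h').elim
    · intro h
      rcases (hi i).2 (Or.inl h) with h' | h'
      · exact h'
      · exact (key p' hp' p hp i h h').elim
  have h2 : ∀ i, p.2 i ≠ b i ↔ p'.2 i ≠ b i := by
    intro i
    constructor
    · intro h
      rcases (hi i).1 (Or.inr h) with h' | h'
      · exact (key p' hp' p hp i h' h).elim
      · exact h'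
    · intro h
      rcases (hi i).2 (Or.inr h) with h' | h'
      · exact (key p hp p' hp' i h' h).elim
      · exact h'
  refine Prod.ext (funext fun i => ?_) (funext fun i => ?_)
  · by_cases h : p.1 i = a i
    · rw [h]; by_contra h'; exact (h1 i).2 (fun h'' => h' h''.symm) h
    · rw [zmod2_ne h, zmod2_ne ((h1 i).1 h)]
  · by_cases h : p.2 i = b i
    · rw [h]; by_contra h'; exact (h2 i).2 (fun h'' => h' h''.symm) h
    · rw [zmod2_ne h, zmod2_ne ((h2 i).1 h)]

section lines

variable {n : ℕ}

lemma lines_free (A : Finset (V n × V n))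
    (hA : ∀ x y z : V n, (x, y) ∈ A → (x, y + z) ∈ A → (x + z, y) ∈ A → z = 0)
    (L : V n → Set (V n))
    (hL : (∀ s, L s = {y | (s, y) ∈ A}) ∨ (∀ s, L s = {x | (x, s) ∈ A}) ∨
      (∀ s, L s = {y | (s + y, y) ∈ A})) :
    ∀ x y z : V n, y ∈ L x → y + z ∈ L x → y ∈ L (x + z) → z = 0 := by
  intro x y z h1 h2 h3
  rcases hL with hL | hL | hL
  · rw [hL] at h1 h2 h3
    exact hA x y z h1 h2 h3
  · rw [hL] at h1 h2 h3
    exact hA y x z h1 h3 h2
  · rw [hL] at h1 h2 h3
    have h1 : (x + y, y) ∈ A := h1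
    have h2 : (x + (y + z), y + z) ∈ A := h2
    have h3 : (x + z + y, y) ∈ A := h3
    refine hA (x + z + y) y z h3 ?_ ?_
    · rw [show x + z + y = x + (y + z) by abel]; exact h2
    · rw [show x + z + y + z = x + y + (z + z) by abel, add_self', add_zero]; exact h1

open Classical in
lemma lines_card (A : Finset (V n × V n)) (L : V n → Set (V n))
    (hL : (∀ s, L s = {y | (s, y) ∈ A}) ∨ (∀ s, L s = {x | (x, s) ∈ A}) ∨
      (∀ s, L s = {y | (s + y, y) ∈ A})) :
    A.card ≤ ∑ x, (univ.filter (fun y : V n => y ∈ L x)).card := by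
  have h1 : ∑ x, (univ.filter (fun y : V n => y ∈ L x)).card =
      (univ.filter (fun p : V n × V n => p.2 ∈ L p.1)).card := by
    simp only [Finset.card_filter]
    rw [← Finset.univ_product_univ, Finset.sum_product]
  rw [h1]
  rcases hL with hL | hL | hL
  · refine Finset.card_le_card fun p hp => Finset.mem_filter.2 ⟨Finset.mem_univ _, ?_⟩
    rw [hL]; exact hp
  · refine Finset.card_le_card_of_injOn Prod.swap (fun p hp => ?_)
      (fun p _ q _ h => Prod.swap_injective h)
    refine Finset.mem_coe.2 (Finset.mem_filter.2 ⟨Finset.mem_univ _, ?_⟩)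
    rw [hL]; exact hp
  · refine Finset.card_le_card_of_injOn (fun p => (p.1 + p.2, p.2)) (fun p hp => ?_) ?_
    · refine Finset.mem_coe.2 (Finset.mem_filter.2 ⟨Finset.mem_univ _, ?_⟩)
      rw [hL]
      show (p.1 + p.2 + p.2, p.2) ∈ A
      rw [add_assoc, add_self', add_zero]
      exact hp
    · rintro ⟨x, y⟩ _ ⟨x', y'⟩ _ h
      simp only [Prod.mk.injEq] at h
      obtain ⟨h1, rfl⟩ := h
      rw [add_right_cancel h1]

open Classical in
theorem lines_unate (N : ℕ) (A : Finset (V n × V n))
    (hA : ∀ x y z : V n, (x, y) ∈ A → (x, y + z) ∈ A → (x + z, y) ∈ A → z = 0)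
    (L : V n → Set (V n))
    (hL : (∀ s, L s = {y | (s, y) ∈ A}) ∨ (∀ s, L s = {x | (x, s) ∈ A}) ∨
      (∀ s, L s = {y | (s + y, y) ∈ A}))
    (F : V n → Fin N → Set (V n)) (b : V n → Fin N → V n)
    (hF : ∀ x j, ∀ y ∈ F x j, cube (b x j) y ⊆ F x j) (hU : ∀ x, L x = ⋃ j, F x j) :
    A.card ^ 3 ≤ N ^ 3 * 56 ^ n := by
  have hT := lines_free A hA L hL
  have h1 : A.card ≤ ∑ j : Fin N, ∑ x,
      (univ.filter (fun y : V n => cube (b x j) y ⊆ L x)).card := by
    refine (lines_card A L hL).trans ?_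
    rw [Finset.sum_comm]
    refine Finset.sum_le_sum fun x _ => ?_
    refine le_trans (Finset.card_le_card ?_) Finset.card_biUnion_le
    intro y hy
    have hy' := (Finset.mem_filter.1 hy).2
    rw [hU] at hy'
    obtain ⟨j, hj⟩ := Set.mem_iUnion.1 hy'
    refine Finset.mem_biUnion.2 ⟨j, Finset.mem_univ _, Finset.mem_filter.2
      ⟨Finset.mem_univ _, (hF x j y hj).trans ?_⟩⟩
    rw [hU]
    exact Set.subset_iUnion _ j
  have h2 := pow_sum_le_card_mul_sum_pow (s := (univ : Finset (Fin N)))
    (f := fun j => ∑ x, (univ.filter (fun y : V n => cube (b x j) y ⊆ L x)).card)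
    (fun _ _ => Nat.zero_le _) 2
  rw [Finset.card_univ, Fintype.card_fin] at h2
  calc A.card ^ 3 ≤ (∑ j : Fin N, ∑ x,
        (univ.filter (fun y : V n => cube (b x j) y ⊆ L x)).card) ^ 3 := Nat.pow_le_pow_left h1 3
    _ ≤ N ^ 2 * ∑ j : Fin N, (∑ x,
        (univ.filter (fun y : V n => cube (b x j) y ⊆ L x)).card) ^ 3 := h2
    _ ≤ N ^ 2 * ∑ _j : Fin N, 56 ^ n :=
        Nat.mul_le_mul_left _ (Finset.sum_le_sum fun j _ => star_row_dep L hT (fun x => b x j))
    _ = N ^ 3 * 56 ^ n := by
        rw [Finset.sum_const, Finset.card_univ, Fintype.card_fin, smul_eq_mul]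
        ring

open Classical in
theorem lines_common (N : ℕ) (A : Finset (V n × V n))
    (hA : ∀ x y z : V n, (x, y) ∈ A → (x, y + z) ∈ A → (x + z, y) ∈ A → z = 0)
    (L : V n → Set (V n))
    (hL : (∀ s, L s = {y | (s, y) ∈ A}) ∨ (∀ s, L s = {x | (x, s) ∈ A}) ∨
      (∀ s, L s = {y | (s + y, y) ∈ A}))
    (F : V n → Fin N → Set (V n)) (b : Fin N → V n)
    (hF : ∀ x j, ∀ y ∈ F x j, cube (b j) y ⊆ F x j) (hU : ∀ x, L x = ⋃ j, F x j) :
    A.card ≤ N * 3 ^ n := by
  have hT := lines_free A hA L hL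
  have h1 : A.card ≤ ∑ j : Fin N,
      (univ.filter (fun p : V n × V n => cube (b j) p.2 ⊆ L p.1)).card := by
    have h3 : ∀ j : Fin N, (univ.filter (fun p : V n × V n => cube (b j) p.2 ⊆ L p.1)).card =
        ∑ x, (univ.filter (fun y : V n => cube (b j) y ⊆ L x)).card := by
      intro j
      simp only [Finset.card_filter]
      rw [← Finset.univ_product_univ, Finset.sum_product]
    simp only [h3]
    refine (lines_card A L hL).trans ?_
    rw [Finset.sum_comm]
    refine Finset.sum_le_sum fun x _ => ?_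
    refine le_trans (Finset.card_le_card ?_) Finset.card_biUnion_le
    intro y hy
    have hy' := (Finset.mem_filter.1 hy).2
    rw [hU] at hy'
    obtain ⟨j, hj⟩ := Set.mem_iUnion.1 hy'
    refine Finset.mem_biUnion.2 ⟨j, Finset.mem_univ _, Finset.mem_filter.2
      ⟨Finset.mem_univ _, (hF x j y hj).trans ?_⟩⟩
    rw [hU]
    exact Set.subset_iUnion _ j
  refine h1.trans ((Finset.sum_le_sum fun j _ => star_common L hT (b j)).trans ?_)
  rw [Finset.sum_const, Finset.card_univ, Fintype.card_fin, smul_eq_mul]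

open Classical in
theorem joint_unate (N : ℕ) (A : Finset (V n × V n))
    (hA : ∀ x y z : V n, (x, y) ∈ A → (x, y + z) ∈ A → (x + z, y) ∈ A → z = 0)
    (F : Fin N → Set (V n × V n)) (a b : Fin N → V n)
    (hF : ∀ j, ∀ p ∈ F j, Star (F j) (a j) (b j) p)
    (hU : ∀ p, p ∈ A ↔ ∃ j, p ∈ F j) : A.card ≤ N * 2 ^ n := by
  have hAs : ∀ x y z : V n, (x, y) ∈ {p | p ∈ A} → (x, y + z) ∈ {p | p ∈ A} →
      (x + z, y) ∈ {p | p ∈ A} → z = 0 := fun x y z h1 h2 h3 => hA x y z h1 h2 h3
  have h1 : A.card ≤ ∑ j : Fin N, (univ.filter (Star {p | p ∈ A} (a j) (b j))).card := by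
    refine le_trans (Finset.card_le_card ?_) Finset.card_biUnion_le
    intro p hp
    obtain ⟨j, hj⟩ := (hU p).1 hp
    refine Finset.mem_biUnion.2 ⟨j, Finset.mem_univ _, Finset.mem_filter.2
      ⟨Finset.mem_univ _, fun q h1 h2 => ?_⟩⟩
    exact (hU q).2 ⟨j, hF j p hj q h1 h2⟩
  refine h1.trans ((Finset.sum_le_sum fun j _ => star_joint {p | p ∈ A} hAs (a j) (b j)).trans ?_)
  rw [Finset.sum_const, Finset.card_univ, Fintype.card_fin, smul_eq_mul]

end lines

/-- the power saving in the form of the problem -/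
lemma real_form {n N : ℕ} {c : ℕ} (h : c ^ 3 ≤ N ^ 3 * 56 ^ n) :
    (c : ℝ) ≤ N * 4 ^ ((1 - 1 / 32 : ℝ) * n) := by
  have h1 : ((4 : ℝ) ^ ((1 - 1 / 32 : ℝ) * n)) ^ 3 = ((2 : ℝ) ^ (93 / 16 : ℝ)) ^ n := by
    have h4 : (4 : ℝ) = (2 : ℝ) ^ (2 : ℝ) := by norm_num
    rw [h4, ← Real.rpow_mul (by norm_num), ← Real.rpow_natCast, ← Real.rpow_mul (by norm_num),
      ← Real.rpow_natCast ((2 : ℝ) ^ (93 / 16 : ℝ)), ← Real.rpow_mul (by norm_num)]
    congr 1
    push_cast
    ring
  have h2 : (56 : ℝ) ≤ (2 : ℝ) ^ (93 / 16 : ℝ) := by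
    have h3 : (56 : ℝ) ^ 16 ≤ (2 : ℝ) ^ 93 := by norm_num
    have h4 : ((2 : ℝ) ^ (93 / 16 : ℝ)) ^ 16 = (2 : ℝ) ^ 93 := by
      rw [← Real.rpow_natCast, ← Real.rpow_mul (by norm_num), ← Real.rpow_natCast 2 93]
      congr 1
      norm_num
    rw [← h4] at h3
    exact le_of_pow_le_pow_left₀ (by norm_num) (by positivity) h3
  have h5 : (c : ℝ) ^ 3 ≤ (N * 4 ^ ((1 - 1 / 32 : ℝ) * n)) ^ 3 := by
    rw [mul_pow, h1]
    calc (c : ℝ) ^ 3 ≤ (N : ℝ) ^ 3 * 56 ^ n := by exact_mod_cast h
      _ ≤ (N : ℝ) ^ 3 * ((2 : ℝ) ^ (93 / 16 : ℝ)) ^ n :=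
        mul_le_mul_of_nonneg_left (pow_le_pow_left₀ (by norm_num) h2 n) (by positivity)
  exact le_of_pow_le_pow_left₀ (by norm_num) (by positivity) h5

/-- the example -/
def ex (n k : ℕ) : Finset (V n × V n) :=
  univ.filter (fun p => (∀ i, p.1 i = 1 ∨ p.2 i = 1) ∧
    (univ.filter (fun i => p.1 i = 1)).card = k)

lemma ex_free (n k : ℕ) (x y z : V n) (h1 : (x, y) ∈ ex n k) (h2 : (x, y + z) ∈ ex n k)
    (h3 : (x + z, y) ∈ ex n k) : z = 0 := by
  obtain ⟨h1, c1⟩ := (Finset.mem_filter.1 h1).2
  obtain ⟨h2, c2⟩ := (Finset.mem_filter.1 h2).2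
  obtain ⟨h3, c3⟩ := (Finset.mem_filter.1 h3).2
  simp only at h1 h2 h3 c1 c2 c3
  have key : ∀ i, z i ≠ 0 → x i = 1 := by
    intro i hi
    rcases h1 i with h | h
    · exact h
    · rcases h2 i with h' | h'
      · exact h'
      · exfalso
        apply hi
        have : y i + z i = 1 := h'
        rw [h] at this
        exact add_eq_left.1 this
  have hsub : univ.filter (fun i => (x + z) i = 1) ⊆ univ.filter (fun i => x i = 1) := by
    intro i hi
    have h := (Finset.mem_filter.1 hi).2
    refine Finset.mem_filter.2 ⟨Finset.mem_univ _, ?_⟩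
    by_cases hz : z i = 0
    · have : x i + z i = 1 := h
      rwa [hz, add_zero] at this
    · exact key i hz
  have heq := Finset.eq_of_subset_of_card_le hsub (by rw [c1, c3])
  funext i
  by_contra hz
  have h4 : i ∈ univ.filter (fun i => x i = 1) :=
    Finset.mem_filter.2 ⟨Finset.mem_univ _, key i hz⟩
  rw [← heq] at h4
  have h5 : x i + z i = 1 := (Finset.mem_filter.1 h4).2
  rw [key i hz] at h5
  exact hz (add_eq_left.1 h5)

lemma card_all (n : ℕ) :
    (univ.filter (fun p : V n × V n => ∀ i, p.1 i = 1 ∨ p.2 i = 1)).card = 3 ^ n := by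
  have h1 : ((univ : Finset (ZMod 2 × ZMod 2)).filter (fun q => q.1 = 1 ∨ q.2 = 1)).card = 3 := by
    decide
  have h2 : (Fintype.piFinset (fun _ : Fin n => (univ : Finset (ZMod 2 × ZMod 2)).filter
      (fun q => q.1 = 1 ∨ q.2 = 1))).card = 3 ^ n := by
    rw [Fintype.card_piFinset]
    simp only [h1]
    simp
  rw [← h2]
  refine Finset.card_bij (fun p _ i => (p.1 i, p.2 i)) ?_ ?_ ?_
  · intro p hp
    rw [Fintype.mem_piFinset]
    intro i
    exact Finset.mem_filter.2 ⟨Finset.mem_univ _, (Finset.mem_filter.1 hp).2 i⟩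
  · intro p _ q _ h
    refine Prod.ext (funext fun i => ?_) (funext fun i => ?_)
    · exact congrArg Prod.fst (congrFun h i)
    · exact congrArg Prod.snd (congrFun h i)
  · intro f hf
    rw [Fintype.mem_piFinset] at hf
    refine ⟨(fun i => (f i).1, fun i => (f i).2), Finset.mem_filter.2
      ⟨Finset.mem_univ _, fun i => (Finset.mem_filter.1 (hf i)).2⟩, rfl⟩

lemma ex_large (n : ℕ) : ∃ k, 3 ^ n ≤ (n + 1) * (ex n k).card := by
  by_contra hcon
  push Not at hcon
  have h1 : (univ.filter (fun p : V n × V n => ∀ i, p.1 i = 1 ∨ p.2 i = 1)).card =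
      ∑ k ∈ Finset.range (n + 1), (ex n k).card := by
    rw [Finset.card_eq_sum_card_fiberwise (f := fun p : V n × V n =>
      (univ.filter (fun i => p.1 i = 1)).card) (t := Finset.range (n + 1))]
    · refine Finset.sum_congr rfl fun k _ => ?_
      congr 1
      ext p
      simp only [ex, Finset.mem_filter, Finset.mem_univ, true_and]
    · intro p _
      have := Finset.card_le_univ (univ.filter (fun i => p.1 i = 1))
      rw [Fintype.card_fin] at this
      exact Finset.mem_coe.2 (Finset.mem_range.2 (Nat.lt_succ_of_le this))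
  rw [card_all] at h1
  have h2 : (n + 1) * 3 ^ n < (n + 1) * 3 ^ n := by
    calc (n + 1) * 3 ^ n = ∑ k ∈ Finset.range (n + 1), (n + 1) * (ex n k).card := by
          rw [h1, Finset.mul_sum]
      _ < ∑ _k ∈ Finset.range (n + 1), 3 ^ n :=
          Finset.sum_lt_sum_of_nonempty ⟨0, Finset.mem_range.2 (Nat.succ_pos n)⟩
            (fun k _ => hcon k)
      _ = (n + 1) * 3 ^ n := by
          rw [Finset.sum_const, Finset.card_range, smul_eq_mul]
  exact absurd h2 (lt_irrefl _)

end Pool.Agent.H96.CornerStar
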