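import Mathlib
import Pool.Agent.H96.Blowup
import Pool.Agent.H607R2.BW.DES

/-!
# Families of sets decided by circuits of depth three; symmetric designs
-/

set_option autoImplicit false

namespace Pool.Agent.H96.Ppsz

open Finset Pool.Agent.H96.Ppz

open Classical in
/-- The bound for families of sets. -/
theorem family_bound (m k d M L r u : ℕ) (V : Type) [Fintype V] (S : V → Set (Fin m → Bool))
    (hM : 1 ≤ M) (hd : 1 ≤ d) (hS : ∀ x, Depth3 L k (S x))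
    (hfree : ∀ (X : Finset V) (Y : Finset (Fin m → Bool)), X.card = u → Y.card = r →
      (∀ x ∈ X, ∀ y ∈ Y, y ∈ S x) → False) :
    (∑ x, ((univ.filter (fun z => z ∈ S x)).card : ℝ)) ≤
      L * (2 ^ (d * (Nat.clog 2 r - 1)) * (m + 1) ^ (d * (Nat.clog 2 r - 1)) * (Fintype.card V) *
        ((2 : ℝ) ^ m) ^ (1 - qavg k d M) + u * (m + 1) ^ (d * Nat.clog 2 r) * 2 ^ m) := by
  choose T hT hTU using hS
  have hcnt : ∀ j : Fin L, (∑ x, ((univ.filter (fun z => z ∈ T x j)).card : ℝ)) ≤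
      2 ^ (d * (Nat.clog 2 r - 1)) * (m + 1) ^ (d * (Nat.clog 2 r - 1)) * (Fintype.card V) *
        ((2 : ℝ) ^ m) ^ (1 - qavg k d M) + u * (m + 1) ^ (d * Nat.clog 2 r) * 2 ^ m := by
    intro j
    apply count' hM hd (Nat.le_pow_clog (by norm_num) r) (fun x => T x j) (fun x => hT x j)
    intro X Y hX hY hXY
    refine hfree X Y hX hY fun x hx y hy => ?_
    rw [hTU x]
    exact Set.mem_iUnion.2 ⟨j, hXY x hx y hy⟩
  have h3 : ∀ x, (univ.filter (fun z => z ∈ S x)).card ≤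
      ∑ j : Fin L, (univ.filter (fun z => z ∈ T x j)).card := by
    intro x
    refine le_trans (Finset.card_le_card (t := (univ : Finset (Fin L)).biUnion
      (fun j => univ.filter (fun z => z ∈ T x j))) ?_) Finset.card_biUnion_le
    intro y hy
    have hy' := (Finset.mem_filter.1 hy).2
    rw [hTU x] at hy'
    obtain ⟨j, hj⟩ := Set.mem_iUnion.1 hy'
    exact Finset.mem_biUnion.2 ⟨j, Finset.mem_univ _,
      Finset.mem_filter.2 ⟨Finset.mem_univ _, hj⟩⟩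
  have h4 : (∑ x, ((univ.filter (fun z => z ∈ S x)).card : ℝ)) ≤
      ∑ j : Fin L, ∑ x, ((univ.filter (fun z => z ∈ T x j)).card : ℝ) := by
    rw [Finset.sum_comm]
    exact_mod_cast Finset.sum_le_sum fun x _ => h3 x
  refine h4.trans ((Finset.sum_le_sum fun j _ => hcnt j).trans ?_)
  rw [Finset.sum_const, nsmul_eq_mul, Finset.card_univ, Fintype.card_fin]

open Classical in
/-- Asymptotic form. -/
theorem family_asymp (k d M r u D : ℕ) (e : ℝ) (hM : 1 ≤ M) (hd : 1 ≤ d) (hu : 1 ≤ u)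
    (he : 2 - qavg k d M < e) :
    ∃ n₀ : ℕ, ∀ (n m L : ℕ) (S : Fin n → Set (Fin m → Bool)), n₀ ≤ n → 2 ^ m ≤ D * n →
      (∀ x, Depth3 L k (S x)) →
      (∀ (X : Finset (Fin n)) (Y : Finset (Fin m → Bool)), X.card = u → Y.card = r →
        (∀ x ∈ X, ∀ y ∈ Y, y ∈ S x) → False) →
      (∑ x, ((univ.filter (fun z => z ∈ S x)).card : ℝ)) ≤ L * (n : ℝ) ^ e := by
  set q := qavg k d M with hq
  have hq0 : 0 ≤ q := qavg_nonneg k d M
  have hq1 : q ≤ 1 := qavg_le_one k d M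
  set a := Nat.clog 2 r with ha
  set η : ℝ := e - (2 - q) with hη
  have hη0 : 0 < η := by linarith
  obtain ⟨K, hK, hKm⟩ := pow_small (d * a) (half_pos hη0)
  set C : ℝ := D * (2 ^ (d * (a - 1)) + u) * (K * (D : ℝ) ^ (η / 2)) with hC
  have ht := tendsto_rpow_atTop (half_pos hη0)
  have ht2 := ht.comp (tendsto_natCast_atTop_atTop (R := ℝ))
  obtain ⟨n₀, hn₀⟩ := Filter.eventually_atTop.1 (ht2.eventually_gt_atTop C)
  refine ⟨n₀, ?_⟩
  intro n m L S hn hD hN hfree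
  have hpos : 0 < D * n := lt_of_lt_of_le (by positivity) hD
  have hn1 : 1 ≤ n := Nat.pos_of_mul_pos_left hpos
  have hD1 : 1 ≤ D := Nat.pos_of_mul_pos_right hpos
  have hn1' : (1 : ℝ) ≤ n := by exact_mod_cast hn1
  have hD1' : (1 : ℝ) ≤ D := by exact_mod_cast hD1
  have hn0' : (0 : ℝ) < n := by linarith
  have h := family_bound m k d M L r u (Fin n) S hM hd hN hfree
  rw [Fintype.card_fin, ← hq, ← ha] at h
  have hDn : ((2 : ℝ) ^ m) ≤ D * n := by exact_mod_cast hD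
  have e1 : ((2 : ℝ) ^ m) ^ (1 - q) ≤ D * (n : ℝ) ^ (1 - q) := by
    refine (Real.rpow_le_rpow (by positivity) hDn (by linarith)).trans ?_
    rw [Real.mul_rpow (by positivity) (by positivity)]
    apply mul_le_mul_of_nonneg_right _ (by positivity)
    calc (D : ℝ) ^ (1 - q) ≤ (D : ℝ) ^ (1 : ℝ) :=
          Real.rpow_le_rpow_of_exponent_le hD1' (by linarith)
      _ = D := Real.rpow_one _
  have e2 : (n : ℝ) * (n : ℝ) ^ (1 - q) = (n : ℝ) ^ (2 - q) := by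
    rw [← Real.rpow_one_add' (by positivity) (by linarith)]
    congr 1; ring
  have e3 : (n : ℝ) ≤ (n : ℝ) ^ (2 - q) := by
    calc (n : ℝ) = (n : ℝ) ^ (1 : ℝ) := (Real.rpow_one _).symm
      _ ≤ _ := Real.rpow_le_rpow_of_exponent_le hn1' (by linarith)
  have e4 : ((m : ℝ) + 1) ^ (d * (a - 1)) ≤ ((m : ℝ) + 1) ^ (d * a) :=
    pow_le_pow_right₀ (by linarith [(Nat.cast_nonneg m : (0:ℝ) ≤ m)])
      (Nat.mul_le_mul_left d (Nat.sub_le a 1))
  have f1 : (2 : ℝ) ^ (d * (a - 1)) * (m + 1) ^ (d * (a - 1)) * n * ((2 : ℝ) ^ m) ^ (1 - q) ≤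
      D * 2 ^ (d * (a - 1)) * (m + 1) ^ (d * a) * (n : ℝ) ^ (2 - q) := by
    calc (2 : ℝ) ^ (d * (a - 1)) * (m + 1) ^ (d * (a - 1)) * n * ((2 : ℝ) ^ m) ^ (1 - q)
        ≤ (2 : ℝ) ^ (d * (a - 1)) * (m + 1) ^ (d * a) * n * (D * (n : ℝ) ^ (1 - q)) := by gcongr
      _ = D * 2 ^ (d * (a - 1)) * (m + 1) ^ (d * a) * ((n : ℝ) * (n : ℝ) ^ (1 - q)) := by ring
      _ = _ := by rw [e2]
  have f2 : (u : ℝ) * (m + 1) ^ (d * a) * 2 ^ m ≤ D * u * (m + 1) ^ (d * a) * (n : ℝ) ^ (2 - q) := by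
    calc (u : ℝ) * (m + 1) ^ (d * a) * 2 ^ m ≤ (u : ℝ) * (m + 1) ^ (d * a) * (D * n) := by gcongr
      _ = D * u * (m + 1) ^ (d * a) * n := by ring
      _ ≤ _ := by gcongr
  have f3 := mul_le_mul_of_nonneg_left (add_le_add f1 f2) (Nat.cast_nonneg L : (0:ℝ) ≤ L)
  have f4 : (∑ x, ((univ.filter (fun z => z ∈ S x)).card : ℝ)) ≤
      L * (D * (2 ^ (d * (a - 1)) + u) * (m + 1) ^ (d * a) * (n : ℝ) ^ (2 - q)) := by
    have := h.trans f3
    linarith
  refine f4.trans (mul_le_mul_of_nonneg_left ?_ (Nat.cast_nonneg L))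
  have e5 : ((m : ℝ) + 1) ^ (d * a) ≤ K * (D : ℝ) ^ (η / 2) * (n : ℝ) ^ (η / 2) := by
    refine (hKm m).trans ?_
    rw [mul_assoc]
    apply mul_le_mul_of_nonneg_left _ hK.le
    rw [← Real.mul_rpow (by positivity) (by positivity)]
    exact Real.rpow_le_rpow (by positivity) hDn (by positivity)
  have e6 := (hn₀ n hn).le
  simp only [Function.comp] at e6
  calc D * (2 ^ (d * (a - 1)) + u) * ((m : ℝ) + 1) ^ (d * a) * (n : ℝ) ^ (2 - q)
      ≤ D * (2 ^ (d * (a - 1)) + u) * (K * (D : ℝ) ^ (η / 2) * (n : ℝ) ^ (η / 2)) *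
        (n : ℝ) ^ (2 - q) := by gcongr
    _ = C * (n : ℝ) ^ (η / 2) * (n : ℝ) ^ (2 - q) := by rw [hC]; ring
    _ ≤ (n : ℝ) ^ (η / 2) * (n : ℝ) ^ (η / 2) * (n : ℝ) ^ (2 - q) := by gcongr
    _ = (n : ℝ) ^ e := by
        rw [← Real.rpow_add hn0', ← Real.rpow_add hn0']
        congr 1
        rw [hη]; ring

open Classical in
/-- Hall's conjecture for designs whose blocks are decided by circuits of depth three. -/
theorem design_bound (c lam D : ℕ) (β : ℝ) (hlam : 1 ≤ lam) (hβ : 0 ≤ β)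
    (hc : (c ≤ 2 ∧ β < 1 / 2) ∨ (c = 3 ∧ β < 1 / 10)) :
    ∃ N : ℕ, ∀ (m v k L : ℕ) (B : Fin v → Finset (Fin v)) (p : Fin v → Fin m → Bool),
      2 ^ m ≤ D * v → Function.Injective p → (∀ i, (B i).card = k) →
      (∀ x y : Fin v, x ≠ y →
        (Finset.univ.filter (fun i => x ∈ B i ∧ y ∈ B i)).card = lam) →
      (L : ℝ) ≤ (v : ℝ) ^ β → (∀ i, Depth3 L c (p '' (B i : Set (Fin v)))) → v ≤ N := by
  -- the exponent
  obtain ⟨ρ, hρ, hR, hρβ⟩ : ∃ ρ : ℝ, 0 < ρ ∧ Pool.Agent.H96.Blowup.Range c ρ ∧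
      1 / 2 + β < 1 / ρ := by
    rcases hc with ⟨h1, h2⟩ | ⟨h1, h2⟩
    · refine ⟨1 / (3 / 4 + β / 2), by positivity, Or.inl ⟨h1, ?_⟩, ?_⟩
      · rw [lt_div_iff₀ (by linarith)]; linarith
      · rw [one_div_one_div]; linarith
    · refine ⟨5 / 3, by norm_num, Or.inr (Or.inl ⟨h1, le_rfl⟩), ?_⟩
      norm_num
      linarith
  obtain ⟨c', d, M, hc', hd, hM, hq⟩ := Pool.Agent.H96.Blowup.range_q hR
  set e : ℝ := 2 - 1 / ρ with he
  obtain ⟨n₀, hn₀⟩ := family_asymp c' d M 2 (lam + 1) D e hM hd (by omega)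
    (by rw [he]; linarith)
  set η : ℝ := 3 / 2 - β - e with hη
  have hη0 : 0 < η := by rw [hη, he]; linarith
  have ht2 := (tendsto_rpow_atTop hη0).comp (tendsto_natCast_atTop_atTop (R := ℝ))
  obtain ⟨n₁, hn₁⟩ := Filter.eventually_atTop.1 (ht2.eventually_gt_atTop 2)
  refine ⟨max (max n₀ n₁) 2, ?_⟩
  intro m v k L B p hmv hp hk hB hL hS
  by_contra hcon
  push Not at hcon
  have hv0 : n₀ ≤ v := (le_trans (le_trans (le_max_left _ _) (le_max_left _ _)) hcon.le)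
  have hv1 : n₁ ≤ v := (le_trans (le_trans (le_max_right _ _) (le_max_left _ _)) hcon.le)
  have hv2 : 2 ≤ v := (le_trans (le_max_right _ _) hcon.le)
  have h := hn₀ v m L (fun i => p '' (B i : Set (Fin v))) hv0 hmv
    (fun i => depth3_mono hc' (hS i)) (by
      intro X Y hX hY hXY
      obtain ⟨y₁, y₂, hne, rfl⟩ := Finset.card_eq_two.1 hY
      obtain ⟨x₀, hx₀⟩ : X.Nonempty := Finset.card_pos.1 (by omega)
      obtain ⟨a₁, _, ha₁⟩ := hXY x₀ hx₀ y₁ (by simp)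
      obtain ⟨a₂, _, ha₂⟩ := hXY x₀ hx₀ y₂ (by simp)
      have hane : a₁ ≠ a₂ := fun h => hne (by rw [← ha₁, ← ha₂, h])
      have hsub : X ⊆ Finset.univ.filter (fun i => a₁ ∈ B i ∧ a₂ ∈ B i) := by
        intro x hx
        obtain ⟨b₁, hb₁, hb₁'⟩ := hXY x hx y₁ (by simp)
        obtain ⟨b₂, hb₂, hb₂'⟩ := hXY x hx y₂ (by simp)
        have e1 : b₁ = a₁ := hp (hb₁'.trans ha₁.symm)
        have e2 : b₂ = a₂ := hp (hb₂'.trans ha₂.symm)
        subst e1 e2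
        exact Finset.mem_filter.2 ⟨Finset.mem_univ _, hb₁, hb₂⟩
      have hcard := Finset.card_le_card hsub
      rw [hX, hB a₁ a₂ hane] at hcard
      omega)
  have hcardS : ∀ i, (univ.filter (fun z => z ∈ p '' (B i : Set (Fin v)))).card = k := by
    intro i
    rw [← hk i, ← Finset.card_image_of_injective _ hp]
    congr 1
    ext z
    simp
  simp only [hcardS] at h
  rw [Finset.sum_const, Finset.card_univ, Fintype.card_fin, nsmul_eq_mul] at h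
  have hrep := Pool.Agent.H607R2.BW.DES_repl v k lam hv2 hlam B hk (by
    intro x y hxy
    rw [← hB x y hxy])
  have hvp : (0 : ℝ) < v := by
    have : 0 < v := by omega
    exact_mod_cast this
  have h1 : (v : ℝ) * k ≤ (v : ℝ) ^ (β + e) := by
    rw [Real.rpow_add hvp]
    exact h.trans (mul_le_mul_of_nonneg_right hL (by positivity))
  have h2 : (v : ℝ) ≤ 2 * (k : ℝ) ^ 2 := by
    have : v ≤ 2 * k ^ 2 := by
      have hk1 : 1 ≤ k * k := by omega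
      rw [pow_two]; omega
    exact_mod_cast this
  have h3 : (v : ℝ) ^ (3 : ℕ) ≤ 2 * ((v : ℝ) ^ (β + e)) ^ 2 := by
    calc (v : ℝ) ^ (3 : ℕ) = (v : ℝ) ^ 2 * v := by ring
      _ ≤ (v : ℝ) ^ 2 * (2 * (k : ℝ) ^ 2) := by gcongr
      _ = 2 * ((v : ℝ) * k) ^ 2 := by ring
      _ ≤ 2 * ((v : ℝ) ^ (β + e)) ^ 2 := by gcongr
  have h4 : (v : ℝ) ^ (3 : ℕ) = ((v : ℝ) ^ (β + e)) ^ 2 * ((v : ℝ) ^ η) ^ 2 := by
    rw [← mul_pow, ← Real.rpow_add hvp, ← Real.rpow_natCast, ← Real.rpow_natCast,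
      ← Real.rpow_mul hvp.le]
    congr 1
    rw [hη]; push_cast; ring
  rw [h4] at h3
  have h5 : (0 : ℝ) < ((v : ℝ) ^ (β + e)) ^ 2 := by positivity
  have h6 : ((v : ℝ) ^ η) ^ 2 ≤ 2 := by
    have : ((v : ℝ) ^ (β + e)) ^ 2 * ((v : ℝ) ^ η) ^ 2 ≤ ((v : ℝ) ^ (β + e)) ^ 2 * 2 := by
      linarith
    exact le_of_mul_le_mul_left this h5
  have h7 := hn₁ v hv1
  simp only [Function.comp] at h7
  nlinarith

end Pool.Agent.H96.Ppsz
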