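import Mathlib
import Pool.Agent.H96.Blowup

/-!
# Representation functions of sets of integers decided by circuits of depth three
-/

set_option autoImplicit false

namespace Pool.Agent.H96.Reps

open Finset Pool.Agent.H96.Ppz Pool.Agent.H96.Ppsz

/-- The number whose binary digit at the place of `2 ^ i` is `x i`. -/
def val {m : ℕ} (x : Fin m → Bool) : ℕ := ∑ i, (x i).toNat * 2 ^ (i : ℕ)

/-- The binary expansions (`m` digits) of the elements of `A` which are less than `2 ^ m`. -/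
def digits (m : ℕ) (A : Set ℕ) : Set (Fin m → Bool) := {x | val x ∈ A}

/-- The number of ordered pairs of elements of `A` with sum `n`. -/
noncomputable def reps (A : Set ℕ) (n : ℕ) : ℕ :=
  Nat.card {ab : ℕ × ℕ // ab.1 ∈ A ∧ ab.2 ∈ A ∧ ab.1 + ab.2 = n}

/-- the equivalence of strings and numbers -/
def valEquiv (m : ℕ) : (Fin m → Bool) ≃ Fin (2 ^ m) :=
  (Equiv.piCongrRight (fun _ => finTwoEquiv.symm)).trans finFunctionFinEquiv

lemma val_eq {m : ℕ} (x : Fin m → Bool) : (valEquiv m x : ℕ) = val x := by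
  unfold valEquiv val
  rw [Equiv.trans_apply, finFunctionFinEquiv_apply]
  refine Finset.sum_congr rfl fun i _ => ?_
  congr 1
  cases h : x i <;> simp [Equiv.piCongrRight, h] <;> rfl

lemma val_lt {m : ℕ} (x : Fin m → Bool) : val x < 2 ^ m := by
  rw [← val_eq]; exact (valEquiv m x).2

lemma val_inj {m : ℕ} : Function.Injective (val : (Fin m → Bool) → ℕ) := by
  intro x y h
  apply (valEquiv m).injective
  apply Fin.ext
  rw [val_eq, val_eq, h]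

lemma val_surj {m a : ℕ} (ha : a < 2 ^ m) : ∃ x : Fin m → Bool, val x = a :=
  ⟨(valEquiv m).symm ⟨a, ha⟩, by rw [← val_eq, Equiv.apply_symm_apply]⟩

open Classical in
lemma card_digits (m : ℕ) (A : Set ℕ) :
    Nat.card {a : ℕ // a ∈ A ∧ a < 2 ^ m} = (univ.filter (fun x => x ∈ digits m A)).card := by
  rw [← Fintype.card_coe, ← Nat.card_eq_fintype_card]
  refine Nat.card_congr (Equiv.ofBijective
    (fun a => ⟨(val_surj a.2.2).choose, ?_⟩) ⟨?_, ?_⟩)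
  · refine Finset.mem_filter.2 ⟨Finset.mem_univ _, ?_⟩
    change val _ ∈ A
    rw [(val_surj a.2.2).choose_spec]
    exact a.2.1
  · intro a b hab
    have h1 := congrArg (fun x => val x.1) hab
    simp only at h1
    rw [(val_surj a.2.2).choose_spec, (val_surj b.2.2).choose_spec] at h1
    exact Subtype.ext h1
  · intro x
    refine ⟨⟨val x.1, (Finset.mem_filter.1 x.2).2, val_lt x.1⟩, ?_⟩
    apply Subtype.ext
    apply val_inj
    exact (val_surj (val_lt x.1)).choose_spec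

open Classical in
lemma val_pair {m d : ℕ} {𝒲 I : Finset (Finset (Fin m))} (h : Fam d 𝒲) (hI : I ⊆ 𝒲)
    (z : Fin m → Bool) :
    val (flipSet z (un I)) + val (flipSet z (un (𝒲 \ I))) = val z + val (flipSet z (un 𝒲)) := by
  unfold val
  rw [← Finset.sum_add_distrib, ← Finset.sum_add_distrib]
  refine Finset.sum_congr rfl fun p _ => ?_
  rw [← add_mul, ← add_mul]
  congr 1
  by_cases h1 : p ∈ un I
  · have h2 : p ∈ un 𝒲 := by
      obtain ⟨W, hW, hp⟩ := mem_un.1 h1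
      exact mem_un.2 ⟨W, hI hW, hp⟩
    have h3 : p ∉ un (𝒲 \ I) := by
      intro h3
      obtain ⟨W, hW, hp⟩ := mem_un.1 h1
      obtain ⟨W', hW', hp'⟩ := mem_un.1 h3
      obtain ⟨hW'1, hW'2⟩ := Finset.mem_sdiff.1 hW'
      have hne : W ≠ W' := fun he => hW'2 (he ▸ hW)
      exact Finset.disjoint_left.1 (h.2 W (hI hW) W' hW'1 hne) hp hp'
    simp only [flipSet, h1, h2, h3, if_true, if_false]
    omega
  · by_cases h2 : p ∈ un 𝒲
    · have h3 : p ∈ un (𝒲 \ I) := by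
        obtain ⟨W, hW, hp⟩ := mem_un.1 h2
        refine mem_un.2 ⟨W, Finset.mem_sdiff.2 ⟨hW, fun hWI => h1 (mem_un.2 ⟨W, hWI, hp⟩)⟩, hp⟩
      simp only [flipSet, h1, h2, h3, if_true, if_false]
    · have h3 : p ∉ un (𝒲 \ I) := by
        intro h3
        obtain ⟨W, hW, hp⟩ := mem_un.1 h3
        exact h2 (mem_un.2 ⟨W, (Finset.mem_sdiff.1 hW).1, hp⟩)
      simp only [flipSet, h1, h2, h3, if_false]

lemma finite_reps (A : Set ℕ) (n : ℕ) :
    Finite {ab : ℕ × ℕ // ab.1 ∈ A ∧ ab.2 ∈ A ∧ ab.1 + ab.2 = n} := by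
  have : {ab : ℕ × ℕ | ab.1 ∈ A ∧ ab.2 ∈ A ∧ ab.1 + ab.2 = n} ⊆
      ((Finset.HasAntidiagonal.antidiagonal n : Finset (ℕ × ℕ)) : Set (ℕ × ℕ)) := by
    rintro ⟨a, b⟩ ⟨_, _, h⟩
    simpa using h
  exact (Set.Finite.subset (Finset.finite_toSet _) this).to_subtype

open Classical in
/-- A cube gives many representations. -/
lemma cube_reps {m d : ℕ} {𝒲 : Finset (Finset (Fin m))} (h : Fam d 𝒲) {A : Set ℕ}
    {z : Fin m → Bool} (hz : z ∈ Cube 𝒲 (digits m A)) :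
    ∃ n < 2 ^ (m + 1), 2 ^ 𝒲.card ≤ reps A n := by
  refine ⟨val z + val (flipSet z (un 𝒲)), ?_, ?_⟩
  · have h1 := val_lt z
    have h2 := val_lt (flipSet z (un 𝒲))
    rw [pow_succ]
    omega
  · have hfin := finite_reps A (val z + val (flipSet z (un 𝒲)))
    unfold reps
    rw [← Finset.card_powerset, ← Fintype.card_coe, ← Nat.card_eq_fintype_card]
    refine Nat.card_le_card_of_injective (fun I : {x // x ∈ 𝒲.powerset} =>
      (⟨(val (flipSet z (un I.1)), val (flipSet z (un (𝒲 \ I.1)))),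
        hz _ (Finset.mem_powerset.1 I.2), hz _ Finset.sdiff_subset,
        val_pair h (Finset.mem_powerset.1 I.2) z⟩ :
        {ab : ℕ × ℕ // ab.1 ∈ A ∧ ab.2 ∈ A ∧ ab.1 + ab.2 = val z + val (flipSet z (un 𝒲))})) ?_
    intro I J hIJ
    have h1 := congrArg (fun x => x.1.1) hIJ
    simp only at h1
    have h2 := val_inj h1
    by_contra hne
    have h3 := card_points h z
    have h4 : Set.InjOn (fun I => flipSet z (un I)) (𝒲.powerset : Set (Finset (Finset (Fin m)))) := by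
      rw [← Finset.card_image_iff, h3, Finset.card_powerset]
    exact hne (Subtype.ext (h4 I.2 J.2 h2))

open Classical in
/-- The bound for the number of elements. -/
theorem reps_bound (m k d a M L : ℕ) (A : Set ℕ) (hM : 1 ≤ M) (hd : 1 ≤ d)
    (hA : Depth3 L k (digits m A))
    (h : (L : ℝ) * ((m + 1) ^ (d * (a - 1)) * 2 ^ (d * (a - 1)) *
      ((2 : ℝ) ^ m) ^ (1 - qavg k d M)) < Nat.card {a : ℕ // a ∈ A ∧ a < 2 ^ m}) :
    ∃ n < 2 ^ (m + 1), 2 ^ a ≤ reps A n := by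
  by_contra hcon
  apply absurd h
  rw [not_lt, card_digits]
  obtain ⟨T, hT, hTU⟩ := hA
  have h1 : univ.filter (fun x => x ∈ digits m A) ⊆
      (univ : Finset (Fin L)).biUnion (fun j => univ.filter (fun x => x ∈ T j)) := by
    intro x hx
    have hx' := (Finset.mem_filter.1 hx).2
    rw [hTU] at hx'
    obtain ⟨j, hj⟩ := Set.mem_iUnion.1 hx'
    exact Finset.mem_biUnion.2 ⟨j, Finset.mem_univ _, Finset.mem_filter.2 ⟨Finset.mem_univ _, hj⟩⟩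
  have h2 : ∀ j : Fin L, ((univ.filter (fun x => x ∈ T j)).card : ℝ) ≤
      (m + 1) ^ (d * (a - 1)) * 2 ^ (d * (a - 1)) * ((2 : ℝ) ^ m) ^ (1 - qavg k d M) := by
    intro j
    refine le_trans ?_ (card_bad' (a := a) hM hd (hT j))
    have : univ.filter (fun x => x ∈ T j) ⊆ univ.filter (fun z => z ∈ T j ∧
        ¬ ∃ 𝒲 : Finset (Finset (Fin m)), Fam d 𝒲 ∧ 𝒲.card = a ∧ z ∈ Cube 𝒲 (T j)) := by
      intro x hx
      refine Finset.mem_filter.2 ⟨Finset.mem_univ _, (Finset.mem_filter.1 hx).2, ?_⟩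
      rintro ⟨𝒲, hF, hc, hz⟩
      apply hcon
      rw [← hc]
      refine cube_reps hF (z := x) fun I hI => ?_
      rw [hTU]
      exact Set.mem_iUnion.2 ⟨j, hz I hI⟩
    exact_mod_cast Finset.card_le_card this
  have h3 : ((univ.filter (fun x => x ∈ digits m A)).card : ℝ) ≤
      ∑ j : Fin L, ((univ.filter (fun x => x ∈ T j)).card : ℝ) := by
    exact_mod_cast (Finset.card_le_card h1).trans Finset.card_biUnion_le
  refine h3.trans ((Finset.sum_le_sum fun j _ => h2 j).trans ?_)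
  rw [Finset.sum_const, Finset.card_univ, Fintype.card_fin, nsmul_eq_mul]

/-- Asymptotic form. -/
theorem reps_asymp (k d M t : ℕ) (e : ℝ) (hM : 1 ≤ M) (hd : 1 ≤ d) (he : 1 - qavg k d M < e) :
    ∃ m₀ : ℕ, ∀ (m L : ℕ) (A : Set ℕ), m₀ ≤ m → Depth3 L k (digits m A) →
      (L : ℝ) * ((2 : ℝ) ^ m) ^ e < Nat.card {a : ℕ // a ∈ A ∧ a < 2 ^ m} →
      ∃ n < 2 ^ (m + 1), 2 ^ t ≤ reps A n := by
  set q := qavg k d M with hq
  set η : ℝ := (e - (1 - q)) / 2 with hη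
  have hη0 : 0 < η := by rw [hη]; linarith
  obtain ⟨K, hK, hKm⟩ := pow_small (d * (t - 1)) hη0
  have ht2 : Filter.Tendsto (fun m : ℕ => ((2 : ℝ) ^ m) ^ η) Filter.atTop Filter.atTop :=
    (tendsto_rpow_atTop hη0).comp (tendsto_pow_atTop_atTop_of_one_lt (by norm_num))
  obtain ⟨m₀, hm₀⟩ := Filter.eventually_atTop.1
    (ht2.eventually_ge_atTop (2 ^ (d * (t - 1)) * K))
  refine ⟨m₀, fun m L A hm hA hbig => reps_bound m k d t M L A hM hd hA (lt_of_le_of_lt ?_ hbig)⟩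
  apply mul_le_mul_of_nonneg_left _ (Nat.cast_nonneg L)
  have h1 := hKm m
  have h2 := hm₀ m hm
  have hpos : (0 : ℝ) < (2 : ℝ) ^ m := by positivity
  calc ((m : ℝ) + 1) ^ (d * (t - 1)) * 2 ^ (d * (t - 1)) * ((2 : ℝ) ^ m) ^ (1 - q)
      ≤ (K * ((2 : ℝ) ^ m) ^ η) * 2 ^ (d * (t - 1)) * ((2 : ℝ) ^ m) ^ (1 - q) := by gcongr
    _ = (2 ^ (d * (t - 1)) * K) * ((2 : ℝ) ^ m) ^ η * ((2 : ℝ) ^ m) ^ (1 - q) := by ring
    _ ≤ ((2 : ℝ) ^ m) ^ η * ((2 : ℝ) ^ m) ^ η * ((2 : ℝ) ^ m) ^ (1 - q) := by gcongr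
    _ = ((2 : ℝ) ^ m) ^ e := by
        rw [← Real.rpow_add hpos, ← Real.rpow_add hpos]
        congr 1
        rw [hη]; ring

/-- The exponents for which the bound is proved. -/
def Expo (k : ℕ) (e : ℝ) : Prop :=
  (k ≤ 2 ∧ 0 < e) ∨ (k = 3 ∧ 2 / 5 ≤ e) ∨ (k = 4 ∧ 4 / 7 ≤ e) ∨ (k = 5 ∧ 2 / 3 ≤ e) ∨
    (2 ≤ k ∧ 1 - 5 / (4 * (k : ℝ)) ≤ e)

/-- The bound for circuits with bottom fan-in `k`. -/
theorem reps_general (k t : ℕ) (e : ℝ) (he : Expo k e) (he1 : e < 1) :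
    ∃ m₀ : ℕ, ∀ (m L : ℕ) (A : Set ℕ), m₀ ≤ m → Depth3 L k (digits m A) →
      (L : ℝ) * ((2 : ℝ) ^ m) ^ e < Nat.card {a : ℕ // a ∈ A ∧ a < 2 ^ m} →
      ∃ n < 2 ^ (m + 1), 2 ^ t ≤ reps A n := by
  have h1e : (0 : ℝ) < 1 - e := by linarith
  have hR : Pool.Agent.H96.Blowup.Range k (1 / (1 - e)) := by
    rcases he with ⟨h, h2⟩ | ⟨h, h2⟩ | ⟨h, h2⟩ | ⟨h, h2⟩ | ⟨h, h2⟩
    · exact Or.inl ⟨h, by rw [lt_div_iff₀ h1e]; linarith⟩
    · exact Or.inr (Or.inl ⟨h, by rw [le_div_iff₀ h1e]; linarith⟩)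
    · exact Or.inr (Or.inr (Or.inl ⟨h, by rw [le_div_iff₀ h1e]; linarith⟩))
    · exact Or.inr (Or.inr (Or.inr (Or.inl ⟨h, by rw [le_div_iff₀ h1e]; linarith⟩)))
    · refine Or.inr (Or.inr (Or.inr (Or.inr ⟨h, ?_⟩)))
      have hk : (0 : ℝ) < k := by
        have : 0 < k := by omega
        exact_mod_cast this
      rw [mul_one_div, le_div_iff₀ h1e]
      have h3 : 1 - e ≤ 5 / (4 * (k : ℝ)) := by linarith
      calc 4 * (k : ℝ) * (1 - e) ≤ 4 * k * (5 / (4 * k)) := by gcongr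
        _ = 5 := by field_simp
  obtain ⟨k', d, M, hk', hd, hM, hq⟩ := Pool.Agent.H96.Blowup.range_q hR
  rw [one_div_one_div] at hq
  obtain ⟨m₀, hm₀⟩ := reps_asymp k' d M t e hM hd (by linarith)
  exact ⟨m₀, fun m L A hm hA hbig => hm₀ m L A hm (depth3_mono hk' hA) hbig⟩

/-- Density thresholds. -/
theorem threshold (k : ℕ) (α β : ℝ) (hβ : 0 ≤ β)
    (hk : (k ≤ 2 ∧ α + β < 1 / 2) ∨ (k = 3 ∧ α + β < 1 / 10)) (g : ℕ → ℝ) (A : Set ℕ)
    (hg0 : ∀ᶠ N : ℕ in Filter.atTop, 0 < g N)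
    (hg : ∀ᶠ N : ℕ in Filter.atTop, g N ≤ (N : ℝ) ^ α)
    (hA : ∃ C : ℝ, 0 < C ∧ ∀ᶠ N : ℕ in Filter.atTop,
      (N : ℝ) ^ (1 / 2 : ℝ) / g N ≤ C * Nat.card {a : ℕ // a ∈ A ∧ 1 ≤ a ∧ a ≤ N})
    (hD : ∃ᶠ m : ℕ in Filter.atTop, ∃ L : ℕ, (L : ℝ) ≤ ((2 : ℝ) ^ m) ^ β ∧
      Depth3 L k (digits m A)) :
    ∀ K : ℕ, ∃ n, K ≤ reps A n := by
  intro K
  -- the exponent
  obtain ⟨e, he, he1, heab⟩ : ∃ e : ℝ, Expo k e ∧ e < 1 ∧ β + e < 1 / 2 - α := by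
    rcases hk with ⟨h1, h2⟩ | ⟨h1, h2⟩
    · refine ⟨min ((1 / 2 - α - β) / 2) (1 / 2), Or.inl ⟨h1, ?_⟩, ?_, ?_⟩
      · exact lt_min (by linarith) (by norm_num)
      · exact lt_of_le_of_lt (min_le_right _ _) (by norm_num)
      · have := min_le_left ((1 / 2 - α - β) / 2) (1 / 2 : ℝ)
        linarith
    · exact ⟨2 / 5, Or.inr (Or.inl ⟨h1, le_rfl⟩), by norm_num, by linarith⟩
  obtain ⟨m₀, hm₀⟩ := reps_general k K e he he1
  obtain ⟨C, hC, hA⟩ := hA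
  set s : ℝ := 1 / 2 - α with hs
  have hs0 : 0 < s := by
    have : 0 < e ∨ e ≤ 0 := lt_or_ge 0 e
    rcases this with h | h
    · linarith
    · exfalso
      rcases he with ⟨_, h2⟩ | ⟨_, h2⟩ | ⟨_, h2⟩ | ⟨_, h2⟩ | ⟨h1, h2⟩
      · linarith
      · linarith
      · linarith
      · linarith
      · have hk2 : (2 : ℝ) ≤ k := by exact_mod_cast h1
        have : 5 / (4 * (k : ℝ)) ≤ 5 / 8 := by
          rw [div_le_div_iff₀ (by linarith) (by norm_num)]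
          linarith
        linarith
  set η : ℝ := s - (β + e) with hη
  have hη0 : 0 < η := by rw [hη]; linarith
  have ht2 : Filter.Tendsto (fun m : ℕ => ((2 : ℝ) ^ m) ^ η) Filter.atTop Filter.atTop :=
    (tendsto_rpow_atTop hη0).comp (tendsto_pow_atTop_atTop_of_one_lt (by norm_num))
  have ht3 := ht2.eventually_gt_atTop (C * 2 ^ s)
  have hsub : Filter.Tendsto (fun m : ℕ => 2 ^ m - 1) Filter.atTop Filter.atTop := by
    apply Filter.tendsto_atTop_mono (f := fun m => m)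
    · intro m
      have : m < 2 ^ m := Nat.lt_two_pow_self
      show m ≤ 2 ^ m - 1
      omega
    · exact Filter.tendsto_id
  obtain ⟨m, ⟨L, hL, hDep⟩, hm1, hm2, hA', hg0', hg'⟩ :=
    (hD.and_eventually ((Filter.eventually_ge_atTop (max m₀ 1)).and (ht3.and
      ((hsub.eventually hA).and ((hsub.eventually hg0).and (hsub.eventually hg)))))).exists
  have hm0' : m₀ ≤ m := le_trans (le_max_left _ _) hm1
  have hm1' : 1 ≤ m := le_trans (le_max_right _ _) hm1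
  -- the number of elements
  have hcard : (Nat.card {a : ℕ // a ∈ A ∧ 1 ≤ a ∧ a ≤ 2 ^ m - 1} : ℝ) ≤
      Nat.card {a : ℕ // a ∈ A ∧ a < 2 ^ m} := by
    have hfin : Finite {a : ℕ // a ∈ A ∧ a < 2 ^ m} :=
      (Set.Finite.subset (Set.finite_Iio (2 ^ m)) (fun a ha => ha.2) :
        ({a : ℕ | a ∈ A ∧ a < 2 ^ m}).Finite).to_subtype
    have hpos : 0 < 2 ^ m := Nat.two_pow_pos m
    exact_mod_cast Nat.card_le_card_of_injective
      (fun a : {a : ℕ // a ∈ A ∧ 1 ≤ a ∧ a ≤ 2 ^ m - 1} =>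
        (⟨a.1, a.2.1, by have := a.2.2.2; omega⟩ : {a : ℕ // a ∈ A ∧ a < 2 ^ m}))
      (fun a b hab => Subtype.ext (congrArg (fun x => x.1) hab))
  set N : ℕ := 2 ^ m - 1 with hN
  have hNpos : 1 ≤ N := by
    have : 2 ^ 1 ≤ 2 ^ m := Nat.pow_le_pow_right (by norm_num) hm1'
    omega
  have hN0 : (0 : ℝ) < N := by exact_mod_cast hNpos
  have hN2 : (2 : ℝ) ^ m ≤ 2 * N := by
    have : 2 ^ m ≤ 2 * N := by omega
    exact_mod_cast this
  have h5 : (N : ℝ) ^ s ≤ (N : ℝ) ^ (1 / 2 : ℝ) / g N := by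
    rw [le_div_iff₀ hg0']
    calc (N : ℝ) ^ s * g N ≤ (N : ℝ) ^ s * (N : ℝ) ^ α := by gcongr
      _ = (N : ℝ) ^ (1 / 2 : ℝ) := by
          rw [← Real.rpow_add hN0]; congr 1; rw [hs]; ring
  have h6 : ((2 : ℝ) ^ m) ^ s ≤ 2 ^ s * (N : ℝ) ^ s := by
    rw [← Real.mul_rpow (by norm_num) hN0.le]
    exact Real.rpow_le_rpow (by positivity) hN2 hs0.le
  have hP : (0 : ℝ) < (2 : ℝ) ^ m := by positivity
  have h2s : (0 : ℝ) < (2 : ℝ) ^ s := by positivity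
  have h7 : ((2 : ℝ) ^ m) ^ s ≤ 2 ^ s * (C * Nat.card {a : ℕ // a ∈ A ∧ a < 2 ^ m}) := by
    refine h6.trans (mul_le_mul_of_nonneg_left ?_ h2s.le)
    exact (h5.trans hA').trans (mul_le_mul_of_nonneg_left hcard hC.le)
  have h8 : ((2 : ℝ) ^ m) ^ s = ((2 : ℝ) ^ m) ^ η * (((2 : ℝ) ^ m) ^ β * ((2 : ℝ) ^ m) ^ e) := by
    rw [← Real.rpow_add hP, ← Real.rpow_add hP]
    congr 1
    rw [hη]; ring
  have h9 : (0 : ℝ) < ((2 : ℝ) ^ m) ^ β * ((2 : ℝ) ^ m) ^ e := by positivity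
  have h10 : (C * 2 ^ s) * (((2 : ℝ) ^ m) ^ β * ((2 : ℝ) ^ m) ^ e) <
      (C * 2 ^ s) * Nat.card {a : ℕ // a ∈ A ∧ a < 2 ^ m} := by
    calc (C * 2 ^ s) * (((2 : ℝ) ^ m) ^ β * ((2 : ℝ) ^ m) ^ e)
        < ((2 : ℝ) ^ m) ^ η * (((2 : ℝ) ^ m) ^ β * ((2 : ℝ) ^ m) ^ e) :=
          mul_lt_mul_of_pos_right hm2 h9
      _ = ((2 : ℝ) ^ m) ^ s := h8.symm
      _ ≤ _ := h7.trans (le_of_eq (by ring))
  have h11 : ((2 : ℝ) ^ m) ^ β * ((2 : ℝ) ^ m) ^ e <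
      Nat.card {a : ℕ // a ∈ A ∧ a < 2 ^ m} := lt_of_mul_lt_mul_left h10 (by positivity)
  have h12 : (L : ℝ) * ((2 : ℝ) ^ m) ^ e < Nat.card {a : ℕ // a ∈ A ∧ a < 2 ^ m} :=
    lt_of_le_of_lt (mul_le_mul_of_nonneg_right hL (by positivity)) h11
  obtain ⟨n, _, hn⟩ := hm₀ m L A hm0' hDep h12
  exact ⟨n, (Nat.lt_two_pow_self.le).trans hn⟩

end Pool.Agent.H96.Reps
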