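import Mathlib
import Pool.Agent.H96.Reps
import Pool.Agent.H96.TameAsy

/-!
# Representation functions of sets of integers whose binary digits form unions of tame sets
-/

set_option autoImplicit false

namespace Pool.Agent.H96.Reps

open Finset Pool.Agent.H96.Ppz Pool.Agent.H96.Ppsz Pool.Agent.H96.Tame

open Classical in
/-- The bound for the number of elements. -/
theorem tame_reps_bound (m c t L : ℕ) (A : Set ℕ) (hA : TameUnion L c (digits m A))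
    (h : L * 2 ^ c * (m + 1) ^ (t - 1) < Nat.card {a : ℕ // a ∈ A ∧ a < 2 ^ m}) :
    ∃ n < 2 ^ (m + 1), 2 ^ t ≤ reps A n := by
  by_contra hcon
  apply absurd h
  rw [not_lt, card_digits]
  refine le_trans (Finset.card_le_card ?_) ((union_rich hA t).trans (le_of_eq (by ring)))
  intro x hx
  refine Finset.mem_filter.2 ⟨Finset.mem_univ _, (Finset.mem_filter.1 hx).2, ?_⟩
  rintro ⟨𝒲, hF, hc, hz⟩
  apply hcon
  rw [← hc]
  exact cube_reps hF hz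

/-- Asymptotic form. -/
theorem tame_reps_asymp (t : ℕ) (e : ℝ) (he : 0 < e) :
    ∃ m₀ : ℕ, ∀ (m c L : ℕ) (A : Set ℕ), m₀ ≤ m → TameUnion L c (digits m A) →
      (L : ℝ) * 2 ^ c * ((2 : ℝ) ^ m) ^ e < Nat.card {a : ℕ // a ∈ A ∧ a < 2 ^ m} →
      ∃ n < 2 ^ (m + 1), 2 ^ t ≤ reps A n := by
  set η : ℝ := e / 2 with hη
  have hη0 : 0 < η := by rw [hη]; linarith
  obtain ⟨K, hK, hKm⟩ := pow_small (t - 1) hη0
  have ht2 : Filter.Tendsto (fun m : ℕ => ((2 : ℝ) ^ m) ^ η) Filter.atTop Filter.atTop :=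
    (tendsto_rpow_atTop hη0).comp (tendsto_pow_atTop_atTop_of_one_lt (by norm_num))
  obtain ⟨m₀, hm₀⟩ := Filter.eventually_atTop.1 (ht2.eventually_ge_atTop K)
  refine ⟨m₀, fun m c L A hm hA hbig => tame_reps_bound m c t L A hA ?_⟩
  have hpos : (0 : ℝ) < (2 : ℝ) ^ m := by positivity
  have h1 := hKm m
  have h2 := hm₀ m hm
  have h3 : ((L * 2 ^ c * (m + 1) ^ (t - 1) : ℕ) : ℝ) <
      (Nat.card {a : ℕ // a ∈ A ∧ a < 2 ^ m} : ℝ) := by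
    refine lt_of_le_of_lt ?_ hbig
    push_cast
    apply mul_le_mul_of_nonneg_left _ (by positivity)
    calc ((m : ℝ) + 1) ^ (t - 1) ≤ K * ((2 : ℝ) ^ m) ^ η := h1
      _ ≤ ((2 : ℝ) ^ m) ^ η * ((2 : ℝ) ^ m) ^ η := by gcongr
      _ = ((2 : ℝ) ^ m) ^ e := by
          rw [← Real.rpow_add hpos]
          congr 1
          rw [hη]; ring
  exact_mod_cast h3

/-- Density thresholds. -/
theorem tame_threshold_reps (α β : ℝ) (hβ : 0 ≤ β) (hαβ : α + β < 1 / 2) (g : ℕ → ℝ) (A : Set ℕ)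
    (hg0 : ∀ᶠ N : ℕ in Filter.atTop, 0 < g N)
    (hg : ∀ᶠ N : ℕ in Filter.atTop, g N ≤ (N : ℝ) ^ α)
    (hA : ∃ C : ℝ, 0 < C ∧ ∀ᶠ N : ℕ in Filter.atTop,
      (N : ℝ) ^ (1 / 2 : ℝ) / g N ≤ C * Nat.card {a : ℕ // a ∈ A ∧ 1 ≤ a ∧ a ≤ N})
    (hD : ∃ᶠ m : ℕ in Filter.atTop, ∃ L c : ℕ, (L : ℝ) * 2 ^ c ≤ ((2 : ℝ) ^ m) ^ β ∧
      TameUnion L c (digits m A)) :
    ∀ K : ℕ, ∃ n, K ≤ reps A n := by
  intro K
  set e : ℝ := (1 / 2 - α - β) / 2 with he'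
  have he : 0 < e := by rw [he']; linarith
  have heab : β + e < 1 / 2 - α := by rw [he']; linarith
  obtain ⟨m₀, hm₀⟩ := tame_reps_asymp K e he
  obtain ⟨C, hC, hA⟩ := hA
  set s : ℝ := 1 / 2 - α with hs
  have hs0 : 0 ≤ s := by rw [hs]; linarith
  set η : ℝ := s - (β + e) with hη
  have hη0 : 0 < η := by rw [hη]; linarith
  have ht2 : Filter.Tendsto (fun m : ℕ => ((2 : ℝ) ^ m) ^ η) Filter.atTop Filter.atTop :=
    (tendsto_rpow_atTop hη0).comp (tendsto_pow_atTop_atTop_of_one_lt (by norm_num))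
  have ht3 := ht2.eventually_gt_atTop (C * 2 ^ s)
  have hsub : Filter.Tendsto (fun m : ℕ => 2 ^ m - 1) Filter.atTop Filter.atTop := by
    apply Filter.tendsto_atTop_mono (f := fun m => m)
    · intro m
      have : m < 2 ^ m := Nat.lt_two_pow_self
      show m ≤ 2 ^ m - 1
      omega
    · exact Filter.tendsto_id
  obtain ⟨m, ⟨L, c, hL, hDep⟩, hm1, hm2, hA', hg0', hg'⟩ :=
    (hD.and_eventually ((Filter.eventually_ge_atTop (max m₀ 1)).and (ht3.and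
      ((hsub.eventually hA).and ((hsub.eventually hg0).and (hsub.eventually hg)))))).exists
  have hm0' : m₀ ≤ m := le_trans (le_max_left _ _) hm1
  have hm1' : 1 ≤ m := le_trans (le_max_right _ _) hm1
  -- the number of elements
  have hcard : (Nat.card {a : ℕ // a ∈ A ∧ 1 ≤ a ∧ a ≤ 2 ^ m - 1} : ℝ) ≤
      Nat.card {a : ℕ // a ∈ A ∧ a < 2 ^ m} := by
    have hfin : Finite {a : ℕ // a ∈ A ∧ a < 2 ^ m} :=
      (Set.Finite.subset (Set.finite_Iio (2 ^ m)) (fun a ha => ha.2) :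
        ({a : ℕ | a ∈ A ∧ a < 2 ^ m}).Finite).to_subtype
    have hpos : 0 < 2 ^ m := Nat.two_pow_pos m
    exact_mod_cast Nat.card_le_card_of_injective
      (fun a : {a : ℕ // a ∈ A ∧ 1 ≤ a ∧ a ≤ 2 ^ m - 1} =>
        (⟨a.1, a.2.1, by have := a.2.2.2; omega⟩ : {a : ℕ // a ∈ A ∧ a < 2 ^ m}))
      (fun a b hab => Subtype.ext (congrArg (fun x => x.1) hab))
  set N : ℕ := 2 ^ m - 1 with hN
  have hNpos : 1 ≤ N := by
    have : 2 ^ 1 ≤ 2 ^ m := Nat.pow_le_pow_right (by norm_num) hm1'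
    omega
  have hN0 : (0 : ℝ) < N := by exact_mod_cast hNpos
  have hN2 : (2 : ℝ) ^ m ≤ 2 * N := by
    have : 2 ^ m ≤ 2 * N := by omega
    exact_mod_cast this
  have h5 : (N : ℝ) ^ s ≤ (N : ℝ) ^ (1 / 2 : ℝ) / g N := by
    rw [le_div_iff₀ hg0']
    calc (N : ℝ) ^ s * g N ≤ (N : ℝ) ^ s * (N : ℝ) ^ α := by gcongr
      _ = (N : ℝ) ^ (1 / 2 : ℝ) := by
          rw [← Real.rpow_add hN0]; congr 1; rw [hs]; ring
  have h6 : ((2 : ℝ) ^ m) ^ s ≤ 2 ^ s * (N : ℝ) ^ s := by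
    rw [← Real.mul_rpow (by norm_num) hN0.le]
    exact Real.rpow_le_rpow (by positivity) hN2 hs0
  have hP : (0 : ℝ) < (2 : ℝ) ^ m := by positivity
  have h2s : (0 : ℝ) < (2 : ℝ) ^ s := by positivity
  have h7 : ((2 : ℝ) ^ m) ^ s ≤ 2 ^ s * (C * Nat.card {a : ℕ // a ∈ A ∧ a < 2 ^ m}) := by
    refine h6.trans (mul_le_mul_of_nonneg_left ?_ h2s.le)
    exact (h5.trans hA').trans (mul_le_mul_of_nonneg_left hcard hC.le)
  have h8 : ((2 : ℝ) ^ m) ^ s = ((2 : ℝ) ^ m) ^ η * (((2 : ℝ) ^ m) ^ β * ((2 : ℝ) ^ m) ^ e) := by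
    rw [← Real.rpow_add hP, ← Real.rpow_add hP]
    congr 1
    rw [hη]; ring
  have h9 : (0 : ℝ) < ((2 : ℝ) ^ m) ^ β * ((2 : ℝ) ^ m) ^ e := by positivity
  have h10 : (C * 2 ^ s) * (((2 : ℝ) ^ m) ^ β * ((2 : ℝ) ^ m) ^ e) <
      (C * 2 ^ s) * Nat.card {a : ℕ // a ∈ A ∧ a < 2 ^ m} := by
    calc (C * 2 ^ s) * (((2 : ℝ) ^ m) ^ β * ((2 : ℝ) ^ m) ^ e)
        < ((2 : ℝ) ^ m) ^ η * (((2 : ℝ) ^ m) ^ β * ((2 : ℝ) ^ m) ^ e) :=
          mul_lt_mul_of_pos_right hm2 h9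
      _ = ((2 : ℝ) ^ m) ^ s := h8.symm
      _ ≤ _ := h7.trans (le_of_eq (by ring))
  have h11 : ((2 : ℝ) ^ m) ^ β * ((2 : ℝ) ^ m) ^ e <
      Nat.card {a : ℕ // a ∈ A ∧ a < 2 ^ m} := lt_of_mul_lt_mul_left h10 (by positivity)
  have h12 : (L : ℝ) * 2 ^ c * ((2 : ℝ) ^ m) ^ e < Nat.card {a : ℕ // a ∈ A ∧ a < 2 ^ m} :=
    lt_of_le_of_lt (mul_le_mul_of_nonneg_right hL (by positivity)) h11
  obtain ⟨n, _, hn⟩ := hm₀ m c L A hm0' hDep h12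
  exact ⟨n, (Nat.lt_two_pow_self.le).trans hn⟩

end Pool.Agent.H96.Reps
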